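import Mathlib
import Pool.Agent.W771.MB
set_option autoImplicit false

/-!
# The Gaussian solution of the Schroedinger equation and its integrals
-/

namespace Pool.Agent.T9h8.MS

open MeasureTheory Set Complex
open scoped ENNReal NNReal ComplexConjugate
open Pool.Agent.W771.MD (qe qe_norm)

/-- `1 / (1 - 2iτ)` -/
noncomputable def zz (τ : ℝ) : ℂ := (1 - 2 * τ * I)⁻¹

/-- the Gaussian solution -/
noncomputable def KK (τ y : ℝ) : ℂ := zz τ ^ (1 / 2 : ℂ) * cexp (-(Real.pi * zz τ * y ^ 2))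

theorem one_sub_ne (τ : ℝ) : (1 - 2 * τ * I : ℂ) ≠ 0 := by
  intro h
  have := congrArg Complex.re h
  simp at this

theorem nsq (τ : ℝ) : Complex.normSq (1 - 2 * τ * I) = 1 + 4 * τ ^ 2 := by
  rw [Complex.normSq_apply]
  simp
  ring

theorem zz_re (τ : ℝ) : (zz τ).re = (1 + 4 * τ ^ 2)⁻¹ := by
  unfold zz
  rw [Complex.inv_re, nsq]
  simp

theorem zz_im (τ : ℝ) : (zz τ).im = 2 * τ * (1 + 4 * τ ^ 2)⁻¹ := by
  unfold zz
  rw [Complex.inv_im, nsq]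
  simp
  ring

theorem pos4 (τ : ℝ) : 0 < 1 + 4 * τ ^ 2 := by positivity

theorem zz_re_pos (τ : ℝ) : 0 < (zz τ).re := by
  rw [zz_re]
  exact inv_pos.2 (pos4 τ)

theorem zz_ne (τ : ℝ) : zz τ ≠ 0 := by
  intro h
  have := zz_re_pos τ
  rw [h] at this
  simp at this

theorem zz_normsq (τ : ℝ) : ‖zz τ‖ ^ 2 = (1 + 4 * τ ^ 2)⁻¹ := by
  rw [← Complex.normSq_eq_norm_sq]
  unfold zz
  rw [map_inv₀, nsq]

theorem zz_norm (τ : ℝ) : ‖zz τ‖ = Real.sqrt ((1 + 4 * τ ^ 2)⁻¹) := by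
  rw [← zz_normsq, Real.sqrt_sq (norm_nonneg _)]

theorem sq1 {x : ℝ} (h : x ≤ 1) : Real.sqrt x ≤ 1 := by
  rw [← Real.sqrt_one]
  exact Real.sqrt_le_sqrt h

theorem zz_norm_le (τ : ℝ) : ‖zz τ‖ ≤ 1 := by
  rw [zz_norm]
  exact sq1 (inv_le_one_of_one_le₀ (by nlinarith [sq_nonneg τ]))

theorem zz_cont : Continuous zz := by
  unfold zz
  refine Continuous.inv₀ (by fun_prop) fun τ => one_sub_ne τ

theorem zz_slit (τ : ℝ) : zz τ ∈ slitPlane := Or.inl (zz_re_pos τ)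

theorem KK_cont : Continuous fun p : ℝ × ℝ => KK p.1 p.2 := by
  unfold KK
  refine Continuous.mul ?_ ?_
  · refine Continuous.cpow (zz_cont.comp continuous_fst) continuous_const fun p => zz_slit _
  · have := zz_cont
    fun_prop

/-- the gaussian solution as an integral -/
theorem KK_eq (τ y : ℝ) :
    ∫ v : ℝ, ((Real.exp (-Real.pi * v ^ 2) : ℝ) : ℂ) * qe y τ v = KK τ y := by
  have hb : (-(Real.pi * (1 - 2 * τ * I)) : ℂ).re < 0 := by
    simp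
    exact Real.pi_pos
  have h := integral_cexp_quadratic hb (2 * Real.pi * I * y) 0
  have e1 : ∀ v : ℝ, ((Real.exp (-Real.pi * v ^ 2) : ℝ) : ℂ) * qe y τ v =
      cexp (-(Real.pi * (1 - 2 * τ * I)) * v ^ 2 + 2 * Real.pi * I * y * v + 0) := by
    intro v
    unfold Pool.Agent.W771.MD.qe
    rw [Complex.ofReal_exp, ← Complex.exp_add]
    congr 1
    push_cast
    ring
  simp_rw [e1]
  rw [h]
  have hpi : (Real.pi : ℂ) ≠ 0 := by exact_mod_cast Real.pi_ne_zero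
  have h1 := one_sub_ne τ
  unfold KK zz
  congr 1
  · congr 1
    rw [neg_neg]
    field_simp
  · congr 1
    have hI : (2 * (Real.pi : ℂ) * I * y) ^ 2 = -(4 * Real.pi ^ 2 * y ^ 2) := by
      have : (I : ℂ) ^ 2 = -1 := Complex.I_sq
      calc (2 * (Real.pi : ℂ) * I * y) ^ 2 = 4 * Real.pi ^ 2 * y ^ 2 * I ^ 2 := by ring
        _ = _ := by rw [this]; ring
    rw [hI]
    field_simp
    ring

theorem sqrt_norm (z : ℂ) (hz : z ≠ 0) : ‖z ^ (1 / 2 : ℂ)‖ = Real.sqrt ‖z‖ := by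
  have h := Complex.norm_cpow_of_ne_zero hz (1 / 2 : ℂ)
  rw [h]
  have h1 : (1 / 2 : ℂ).re = 1 / 2 := by norm_num
  have h2 : (1 / 2 : ℂ).im = 0 := by norm_num
  rw [h1, h2, mul_zero, Real.exp_zero, div_one, Real.sqrt_eq_rpow]

theorem KK_norm (τ y : ℝ) :
    ‖KK τ y‖ = Real.sqrt ‖zz τ‖ * Real.exp (-(Real.pi * (1 + 4 * τ ^ 2)⁻¹ * y ^ 2)) := by
  unfold KK
  rw [norm_mul, sqrt_norm _ (zz_ne τ), Complex.norm_exp]
  congr 2
  have : (-(Real.pi * zz τ * (y : ℂ) ^ 2)) = -(((Real.pi * y ^ 2 : ℝ) : ℂ) * zz τ) := by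
    push_cast; ring
  rw [this, Complex.neg_re, Complex.re_ofReal_mul, zz_re]
  ring

theorem KK_norm_le (τ y : ℝ) : ‖KK τ y‖ ≤ 1 := by
  rw [KK_norm]
  have h1 : Real.sqrt ‖zz τ‖ ≤ 1 := sq1 (zz_norm_le τ)
  have h2 : Real.exp (-(Real.pi * (1 + 4 * τ ^ 2)⁻¹ * y ^ 2)) ≤ 1 := by
    rw [Real.exp_le_one_iff]
    have := Real.pi_pos
    have := pos4 τ
    have : 0 ≤ Real.pi * (1 + 4 * τ ^ 2)⁻¹ * y ^ 2 := by positivity
    linarith
  exact mul_le_one₀ h1 (Real.exp_pos _).le h2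

theorem KK_L2 (τ : ℝ) : ∫⁻ y, ‖KK τ y‖ₑ ^ 2 ≤ 1 := by
  have h4 := pos4 τ
  have hpi := Real.pi_pos
  set b : ℝ := 2 * Real.pi * (1 + 4 * τ ^ 2)⁻¹ with hb
  have hb0 : 0 < b := by positivity
  have h1 : ∀ y, ‖KK τ y‖ₑ ^ 2 = ENNReal.ofReal (‖zz τ‖ * Real.exp (-b * y ^ 2)) := by
    intro y
    rw [← ofReal_norm, ← ENNReal.ofReal_pow (norm_nonneg _), KK_norm, mul_pow,
      Real.sq_sqrt (norm_nonneg _), ← Real.exp_nat_mul]
    congr 3
    rw [hb]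
    push_cast
    ring
  simp_rw [h1]
  have hi : Integrable fun y : ℝ => ‖zz τ‖ * Real.exp (-b * y ^ 2) :=
    (integrable_exp_neg_mul_sq hb0).const_mul _
  rw [← ofReal_integral_eq_lintegral_ofReal hi
    (Filter.Eventually.of_forall fun y => by positivity), integral_const_mul, integral_gaussian]
  rw [ENNReal.ofReal_le_one, zz_norm, ← Real.sqrt_mul (by positivity)]
  refine sq1 ?_
  rw [hb]
  have : (1 + 4 * τ ^ 2)⁻¹ * (Real.pi / (2 * Real.pi * (1 + 4 * τ ^ 2)⁻¹)) = 1 / 2 := by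
    field_simp
  rw [this]
  norm_num

end Pool.Agent.T9h8.MS
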