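import Mathlib
import Pool.Agent.T9h8.MS.Ker
set_option autoImplicit false

/-!
# Integrals of products of four Gaussian solutions
-/

namespace Pool.Agent.T9h8.MS

open MeasureTheory Set Complex
open scoped ENNReal NNReal ComplexConjugate

/-- `1 / (1 + 4 t²)` -/
noncomputable def gg (t : ℝ) : ℝ := (1 + 4 * t ^ 2)⁻¹

theorem gg_pos (t : ℝ) : 0 < gg t := inv_pos.2 (pos4 t)

theorem zz_eq (t : ℝ) : zz t = ((gg t : ℝ) : ℂ) + ((2 * t * gg t : ℝ) : ℂ) * I := by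
  apply Complex.ext
  · rw [zz_re, Complex.add_re, Complex.ofReal_re, Complex.re_ofReal_mul, Complex.I_re, mul_zero,
      add_zero]
    rfl
  · rw [zz_im, Complex.add_im, Complex.ofReal_im, Complex.im_ofReal_mul, Complex.I_im, mul_one,
      zero_add]
    rfl

theorem zz_conj (t : ℝ) : conj (zz t) = ((gg t : ℝ) : ℂ) - ((2 * t * gg t : ℝ) : ℂ) * I := by
  rw [zz_eq, map_add, map_mul, Complex.conj_ofReal, Complex.conj_ofReal, Complex.conj_I]
  ring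

theorem zz_mul (t : ℝ) : zz t * conj (zz t) = ((gg t : ℝ) : ℂ) := by
  rw [Complex.mul_conj, Complex.normSq_eq_norm_sq, zz_normsq]
  rfl

theorem zz_add (t : ℝ) : zz t + conj (zz t) = ((2 * gg t : ℝ) : ℂ) := by
  rw [zz_conj, zz_eq]
  push_cast
  ring

theorem half_mul (z : ℂ) (hz : z ≠ 0) : z ^ (1 / 2 : ℂ) * z ^ (1 / 2 : ℂ) = z := by
  rw [← Complex.cpow_add _ _ hz]
  norm_num

theorem KK_mul (t a b : ℝ) : KK t a * KK t b = zz t * cexp (-(Real.pi * zz t * (a ^ 2 + b ^ 2))) := by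
  unfold KK
  rw [mul_mul_mul_comm, half_mul _ (zz_ne t), ← Complex.exp_add]
  congr 2
  ring

theorem four_B (t c1 c2 c3 c4 : ℝ) :
    ∫ y : ℝ, KK t (y + c1) * KK t (y + c2) * conj (KK t (y + c3) * KK t (y + c4)) =
      ((Real.sqrt (gg t) / 2 * Real.exp (-(Real.pi * ((c1 + c2) / 2 - (c3 + c4) / 2) ^ 2)) *
        Real.exp (-(2 * Real.pi * (((c1 - c2) / 2) ^ 2 + ((c3 - c4) / 2) ^ 2) * gg t)) : ℝ) : ℂ) *
      cexp (((-(4 * Real.pi * (((c1 - c2) / 2) ^ 2 - ((c3 - c4) / 2) ^ 2) * (t * gg t)) : ℝ) : ℂ)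
        * I) := by
  have hg := gg_pos t
  have hpi : (Real.pi : ℂ) ≠ 0 := by exact_mod_cast Real.pi_ne_zero
  set z := zz t with hz
  set g := gg t with hgg
  set μ : ℝ := (c1 + c2) / 2 with hμ
  set ν : ℝ := (c3 + c4) / 2 with hν
  set α : ℝ := (c1 - c2) / 2 with hα
  set β : ℝ := (c3 - c4) / 2 with hβ
  have hz1 : z = (g : ℂ) + ((2 * t * g : ℝ) : ℂ) * I := zz_eq t
  have hz2 : conj z = (g : ℂ) - ((2 * t * g : ℝ) : ℂ) * I := zz_conj t
  have hb : (-((4 * Real.pi * g : ℝ) : ℂ)).re < 0 := by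
    rw [Complex.neg_re, Complex.ofReal_re]
    have := Real.pi_pos
    have : 0 < 4 * Real.pi * g := by positivity
    linarith
  have h := integral_cexp_quadratic hb (-(4 * Real.pi * (z * μ + conj z * ν)))
    (-(2 * Real.pi * (z * (μ ^ 2 + α ^ 2) + conj z * (ν ^ 2 + β ^ 2))))
  have e1 : ∀ y : ℝ, KK t (y + c1) * KK t (y + c2) * conj (KK t (y + c3) * KK t (y + c4)) =
      (g : ℂ) * cexp (-((4 * Real.pi * g : ℝ) : ℂ) * y ^ 2 +
        -(4 * Real.pi * (z * μ + conj z * ν)) * y +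
        -(2 * Real.pi * (z * (μ ^ 2 + α ^ 2) + conj z * (ν ^ 2 + β ^ 2)))) := by
    intro y
    rw [KK_mul, KK_mul, map_mul, ← Complex.exp_conj, ← hz, mul_mul_mul_comm, zz_mul, ← hgg,
      ← Complex.exp_add]
    congr 2
    simp only [map_neg, map_mul, map_add, map_pow, Complex.conj_ofReal]
    rw [hz2, hz1, hμ, hν, hα, hβ]
    push_cast
    ring
  simp_rw [e1]
  rw [integral_const_mul, h]
  have e2 : ((Real.pi : ℂ) / -(-((4 * Real.pi * g : ℝ) : ℂ))) ^ (1 / 2 : ℂ) =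
      ((Real.sqrt (1 / (4 * g)) : ℝ) : ℂ) := by
    have : (Real.pi : ℂ) / -(-((4 * Real.pi * g : ℝ) : ℂ)) = ((1 / (4 * g) : ℝ) : ℂ) := by
      rw [neg_neg]
      push_cast
      have : (g : ℂ) ≠ 0 := by exact_mod_cast hg.ne'
      field_simp
    rw [this, Real.sqrt_eq_rpow, Complex.ofReal_cpow (by positivity)]
    norm_num
  have e3 : -(2 * Real.pi * (z * (μ ^ 2 + α ^ 2) + conj z * (ν ^ 2 + β ^ 2))) -
      (-(4 * Real.pi * (z * μ + conj z * ν))) ^ 2 / (4 * -((4 * Real.pi * g : ℝ) : ℂ)) =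
      ((-(Real.pi * (μ - ν) ^ 2) + -(2 * Real.pi * (α ^ 2 + β ^ 2) * g) : ℝ) : ℂ) +
      (((-(4 * Real.pi * (α ^ 2 - β ^ 2) * (t * g)) : ℝ) : ℂ) * I) := by
    have hzz : z * conj z = (g : ℂ) := zz_mul t
    have hg' : (g : ℂ) ≠ 0 := by exact_mod_cast hg.ne'
    have hi : (I : ℂ) ^ 2 = -1 := Complex.I_sq
    have hrel : (1 + 4 * (t : ℂ) ^ 2) * g = 1 := by
      have : (1 + 4 * t ^ 2) * g = 1 := by
        rw [hgg]; unfold gg; exact mul_inv_cancel₀ (pos4 t).ne'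
      exact_mod_cast this
    have e4 : -(2 * Real.pi * (z * (μ ^ 2 + α ^ 2) + conj z * (ν ^ 2 + β ^ 2))) -
      (-(4 * Real.pi * (z * μ + conj z * ν))) ^ 2 / (4 * -((4 * Real.pi * g : ℝ) : ℂ)) =
      -(2 * Real.pi * (z * (μ ^ 2 + α ^ 2) + conj z * (ν ^ 2 + β ^ 2))) +
        Real.pi * (z * μ + conj z * ν) ^ 2 / g := by
      push_cast
      field_simp
      ring
    rw [e4]
    have e5 : (z * μ + conj z * ν) ^ 2 / g =
        2 * (z * μ ^ 2 + conj z * ν ^ 2) - (μ - ν) ^ 2 := by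
      rw [div_eq_iff hg']
      have hs : z + conj z = 2 * (g : ℂ) := by
        have := zz_add t
        rw [← hz] at this
        rw [this]; push_cast; rfl
      have h6 : (z * μ + conj z * ν) ^ 2 = (z + conj z) * (z * μ ^ 2 + conj z * ν ^ 2) -
          z * conj z * (μ - ν) ^ 2 := by ring
      rw [h6, hs, hzz]
      ring
    rw [mul_div_assoc, e5, hz2, hz1]
    push_cast
    ring
  rw [e2, e3, Complex.exp_add, ← Complex.ofReal_exp, Real.exp_add, ← mul_assoc, ← mul_assoc,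
    ← Complex.ofReal_mul, ← Complex.ofReal_mul]
  congr 2
  have e6 : g * Real.sqrt (1 / (4 * g)) = Real.sqrt g / 2 := by
    have h4 : Real.sqrt (1 / (4 * g)) = 1 / (2 * Real.sqrt g) := by
      rw [Real.sqrt_div (by norm_num), Real.sqrt_one, Real.sqrt_mul (by norm_num)]
      congr 2
      rw [show (4 : ℝ) = 2 ^ 2 by norm_num, Real.sqrt_sq (by norm_num)]
    rw [h4]
    have h5 : Real.sqrt g ≠ 0 := (Real.sqrt_pos.2 hg).ne'
    have h6 := Real.mul_self_sqrt hg.le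
    field_simp
    nlinarith [h6]
  rw [e6]
  ring

/-- the sum of the four parameters -/
noncomputable def sg (τ1 τ2 τ3 τ4 : ℝ) : ℂ := zz τ1 + zz τ2 + conj (zz τ3) + conj (zz τ4)

theorem sg_re (τ1 τ2 τ3 τ4 : ℝ) : 0 < (sg τ1 τ2 τ3 τ4).re := by
  unfold sg
  simp only [Complex.add_re, Complex.conj_re]
  have h1 := zz_re_pos τ1
  have h2 := zz_re_pos τ2
  have h3 := zz_re_pos τ3
  have h4 := zz_re_pos τ4
  linarith

theorem four_A (τ1 τ2 τ3 τ4 : ℝ) :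
    ∫ y : ℝ, KK τ1 y * KK τ2 y * conj (KK τ3 y * KK τ4 y) =
      zz τ1 ^ (1 / 2 : ℂ) * zz τ2 ^ (1 / 2 : ℂ) *
        conj (zz τ3 ^ (1 / 2 : ℂ) * zz τ4 ^ (1 / 2 : ℂ)) *
        (1 / sg τ1 τ2 τ3 τ4) ^ (1 / 2 : ℂ) := by
  have hb : 0 < ((Real.pi : ℂ) * sg τ1 τ2 τ3 τ4).re := by
    rw [Complex.re_ofReal_mul]
    exact mul_pos Real.pi_pos (sg_re _ _ _ _)
  have h := integral_gaussian_complex hb
  have hpi : (Real.pi : ℂ) ≠ 0 := by exact_mod_cast Real.pi_ne_zero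
  have e1 : ∀ y : ℝ, KK τ1 y * KK τ2 y * conj (KK τ3 y * KK τ4 y) =
      (zz τ1 ^ (1 / 2 : ℂ) * zz τ2 ^ (1 / 2 : ℂ) *
        conj (zz τ3 ^ (1 / 2 : ℂ) * zz τ4 ^ (1 / 2 : ℂ))) *
        cexp (-((Real.pi : ℂ) * sg τ1 τ2 τ3 τ4) * y ^ 2) := by
    intro y
    unfold KK sg
    simp only [map_mul, ← Complex.exp_conj, map_neg, map_pow, Complex.conj_ofReal]
    have : cexp (-((Real.pi : ℂ) * (zz τ1 + zz τ2 + conj (zz τ3) + conj (zz τ4))) * y ^ 2) =
        cexp (-(Real.pi * zz τ1 * y ^ 2)) * cexp (-(Real.pi * zz τ2 * y ^ 2)) *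
        (cexp (-(Real.pi * conj (zz τ3) * y ^ 2)) * cexp (-(Real.pi * conj (zz τ4) * y ^ 2))) := by
      rw [← Complex.exp_add, ← Complex.exp_add, ← Complex.exp_add]
      congr 1
      ring
    rw [this]
    ring
  simp_rw [e1]
  rw [integral_const_mul, h]
  congr 2
  have : sg τ1 τ2 τ3 τ4 ≠ 0 := by
    intro h0
    have := sg_re τ1 τ2 τ3 τ4
    rw [h0] at this
    simp at this
  field_simp

end Pool.Agent.T9h8.MS
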