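import Mathlib
import Pool.Agent.H153R4.Pl
set_option autoImplicit false

/-!
# The fourth moment of a one-parameter oscillatory integral
-/

namespace Pool.Agent.T9h8.MS

open MeasureTheory Set Complex
open scoped ENNReal NNReal ComplexConjugate FourierTransform

/-- the exponential -/
noncomputable def ee (s : ℝ) : ℂ := cexp (2 * Real.pi * I * (s : ℂ))

theorem ee_norm (s : ℝ) : ‖ee s‖ = 1 := by
  unfold ee
  have : (2 * Real.pi * I * (s : ℂ)) = ((2 * Real.pi * s : ℝ) : ℂ) * I := by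
    push_cast
    ring
  rw [this, Complex.norm_exp_ofReal_mul_I]

theorem ee_enorm (s : ℝ) : ‖ee s‖ₑ = 1 := by
  rw [← ofReal_norm, ee_norm, ENNReal.ofReal_one]

theorem ee_cont : Continuous ee := by
  unfold ee
  fun_prop

theorem ee_add (s t : ℝ) : ee (s + t) = ee s * ee t := by
  unfold ee
  rw [← Complex.exp_add]
  congr 1
  push_cast
  ring

theorem ee_zero : ee 0 = 1 := by
  unfold ee
  simp

theorem ee_conj (s : ℝ) : conj (ee s) = ee (-s) := by
  unfold ee
  rw [← Complex.exp_conj]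
  congr 1
  simp only [map_mul, Complex.conj_ofReal, Complex.conj_I, map_ofNat]
  push_cast
  ring

/-- Plancherel in one variable -/
theorem planchR (f : ℝ → ℂ) (h1 : Integrable f) (h2 : MemLp f 2) :
    ∫⁻ x : ℝ, ‖∫ u, f u * ee (u * x)‖ₑ ^ 2 = ∫⁻ u, ‖f u‖ₑ ^ 2 := by
  have e1 : ∀ x : ℝ, ∫ u, f u * ee (u * x) = 𝓕 f (-x) := by
    intro x
    rw [Real.fourier_eq]
    apply integral_congr_ae
    filter_upwards with u
    rw [Circle.smul_def, Real.fourierChar_apply, smul_eq_mul, mul_comm]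
    unfold ee
    congr 2
    simp only [RCLike.inner_apply, conj_trivial]
    push_cast
    ring
  simp_rw [e1]
  rw [lintegral_neg_eq_self (fun x : ℝ => ‖𝓕 f x‖ₑ ^ 2)]
  exact Pool.Agent.H153R4.plancherel f h1 h2

section sq

variable {Θ : Type*} [MeasurableSpace Θ] (ν : Measure Θ) [SFinite ν]

/-- the square of an integral that depends on a parameter -/
theorem sq_le (V : ℝ → Θ → ℂ) (hV : Measurable (Function.uncurry V)) (s : Set ℝ)
    (hs : MeasurableSet s) (hsv : volume s ≠ ∞) (h0 : ∀ w, w ∉ s → ∀ θ, V w θ = 0)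
    (B : ℝ≥0∞) (hB : B ≠ ∞) (h2 : ∀ w, ∫⁻ θ, ‖V w θ‖ₑ ^ 2 ∂ν ≤ B) :
    ∫⁻ θ, ‖∫ w, V w θ‖ₑ ^ 2 ∂ν ≤ ∫⁻ w, ∫⁻ w', ‖∫ θ, V w θ * conj (V w' θ) ∂ν‖ₑ := by
  set f : (ℝ × ℝ) × Θ → ℂ := fun p => V p.1.1 p.2 * conj (V p.1.2 p.2) with hf
  have hm1 : Measurable fun p : (ℝ × ℝ) × Θ => V p.1.1 p.2 := by
    have hp : Measurable fun p : (ℝ × ℝ) × Θ => (p.1.1, p.2) := by fun_prop
    have h := hV.comp hp
    exact h
  have hm2 : Measurable fun p : (ℝ × ℝ) × Θ => V p.1.2 p.2 := by
    have hp : Measurable fun p : (ℝ × ℝ) × Θ => (p.1.2, p.2) := by fun_prop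
    have h := hV.comp hp
    exact h
  have hfm : Measurable f := hm1.mul (Complex.continuous_conj.measurable.comp hm2)
  have hVw : ∀ w, Measurable (V w) := fun w => hV.comp (measurable_const.prodMk measurable_id)
  have hint : Integrable f ((volume.prod volume).prod ν) := by
    refine ⟨hfm.aestronglyMeasurable, ?_⟩
    unfold HasFiniteIntegral
    rw [lintegral_prod _ hfm.enorm.aemeasurable]
    have h3 : ∀ z : ℝ × ℝ, ∫⁻ θ, ‖f (z, θ)‖ₑ ∂ν ≤ (s ×ˢ s).indicator (fun _ => B + B) z := by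
      intro z
      by_cases hz : z ∈ s ×ˢ s
      · rw [indicator_of_mem hz]
        calc ∫⁻ θ, ‖f (z, θ)‖ₑ ∂ν ≤ ∫⁻ θ, (‖V z.1 θ‖ₑ ^ 2 + ‖V z.2 θ‖ₑ ^ 2) ∂ν := by
              refine lintegral_mono fun θ => ?_
              rw [hf]
              simp only [enorm_mul]
              rw [show ‖conj (V z.2 θ)‖ₑ = ‖V z.2 θ‖ₑ by
                rw [← ofReal_norm, RCLike.norm_conj, ofReal_norm]]
              set a := ‖V z.1 θ‖ₑ
              set b := ‖V z.2 θ‖ₑ
              rcases le_total a b with h | h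
              · calc a * b ≤ b * b := mul_le_mul' h le_rfl
                  _ = b ^ 2 := (sq b).symm
                  _ ≤ _ := le_add_self
              · calc a * b ≤ a * a := mul_le_mul' le_rfl h
                  _ = a ^ 2 := (sq a).symm
                  _ ≤ _ := le_self_add
          _ = ∫⁻ θ, ‖V z.1 θ‖ₑ ^ 2 ∂ν + ∫⁻ θ, ‖V z.2 θ‖ₑ ^ 2 ∂ν :=
              lintegral_add_left ((hVw _).enorm.pow_const 2) _
          _ ≤ B + B := add_le_add (h2 _) (h2 _)
      · rw [indicator_of_notMem hz]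
        have : ∀ θ, f (z, θ) = 0 := by
          intro θ
          rw [mem_prod, not_and_or] at hz
          rw [hf]
          rcases hz with h | h
          · simp only [h0 _ h θ, zero_mul]
          · simp only [h0 _ h θ, map_zero, mul_zero]
        simp [this]
    refine lt_of_le_of_lt (lintegral_mono h3) ?_
    rw [lintegral_indicator (hs.prod hs), setLIntegral_const, Measure.prod_prod]
    exact ENNReal.mul_lt_top (ENNReal.add_lt_top.2 ⟨hB.lt_top, hB.lt_top⟩)
      (ENNReal.mul_lt_top hsv.lt_top hsv.lt_top)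
  -- the square as a double integral
  have hsq : ∀ θ, ∫ z : ℝ × ℝ, f (z, θ) = ((‖∫ w, V w θ‖ ^ 2 : ℝ) : ℂ) := by
    intro θ
    have h3 := integral_prod_mul (μ := (volume : Measure ℝ)) (ν := (volume : Measure ℝ))
      (fun w => V w θ) (fun w => conj (V w θ))
    have h4 : ∫ w, conj (V w θ) = conj (∫ w, V w θ) := integral_conj
    rw [h4, Complex.mul_conj, Complex.normSq_eq_norm_sq] at h3
    exact h3
  have hΦ : Integrable (fun θ => ∫ z : ℝ × ℝ, f (z, θ)) ν := hint.integral_prod_right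
  have hΦ' : Integrable (fun θ => ‖∫ w, V w θ‖ ^ 2) ν := by
    have h3 := hΦ.norm
    refine h3.congr (Filter.Eventually.of_forall fun θ => ?_)
    simp only
    rw [hsq, Complex.norm_real, Real.norm_of_nonneg (by positivity)]
  calc ∫⁻ θ, ‖∫ w, V w θ‖ₑ ^ 2 ∂ν = ∫⁻ θ, ENNReal.ofReal (‖∫ w, V w θ‖ ^ 2) ∂ν := by
        refine lintegral_congr fun θ => ?_
        rw [← ofReal_norm, ENNReal.ofReal_pow (norm_nonneg _)]
    _ = ENNReal.ofReal (∫ θ, ‖∫ w, V w θ‖ ^ 2 ∂ν) :=
        (ofReal_integral_eq_lintegral_ofReal hΦ' (Filter.Eventually.of_forall fun θ => by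
          positivity)).symm
    _ = ‖∫ θ, ((‖∫ w, V w θ‖ ^ 2 : ℝ) : ℂ) ∂ν‖ₑ := by
        have h5 : ∫ θ, ((‖∫ w, V w θ‖ ^ 2 : ℝ) : ℂ) ∂ν =
            ((∫ θ, ‖∫ w, V w θ‖ ^ 2 ∂ν : ℝ) : ℂ) := integral_ofReal
        rw [h5, ← ofReal_norm, Complex.norm_real, Real.norm_eq_abs,
          abs_of_nonneg (integral_nonneg fun θ => by positivity)]
    _ = ‖∫ θ, (∫ z : ℝ × ℝ, f (z, θ)) ∂ν‖ₑ := by simp_rw [hsq]
    _ = ‖∫ z : ℝ × ℝ, (∫ θ, f (z, θ) ∂ν)‖ₑ := by
        have h6 := integral_integral_swap (μ := ν) (ν := (volume.prod volume : Measure (ℝ × ℝ)))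
          (f := fun (θ : Θ) (z : ℝ × ℝ) => f (z, θ)) hint.swap
        exact congrArg (fun x : ℂ => ‖x‖ₑ) h6
    _ ≤ ∫⁻ z : ℝ × ℝ, ‖∫ θ, f (z, θ) ∂ν‖ₑ := enorm_integral_le_lintegral_enorm _
    _ = _ := by
        rw [Measure.volume_eq_prod, lintegral_prod _
          (hfm.stronglyMeasurable.integral_prod_right.measurable.enorm).aemeasurable]

end sq

section four

variable {Θ : Type*} [MeasurableSpace Θ] (ν : Measure Θ) [SFinite ν]

theorem four_pt (f : ℝ → ℂ) (hf : Measurable f) (h1 : ∀ u, ‖f u‖ ≤ 1)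
    (h0 : ∀ u, u ∉ Icc (-1 : ℝ) 1 → f u = 0) :
    ∫⁻ x : ℝ, ‖∫ u, f u * ee (u * x)‖ₑ ^ 4 = ∫⁻ σ, ‖∫ w, f (σ - w) * f w‖ₑ ^ 2 := by
  set H : ℝ → ℂ := fun σ => ∫ w, f (σ - w) * f w with hH
  have hbm : Measurable fun p : ℝ × ℝ => f (p.1 - p.2) * f p.2 :=
    (hf.comp (measurable_fst.sub measurable_snd)).mul (hf.comp measurable_snd)
  have hHm : Measurable H := hbm.stronglyMeasurable.integral_prod_right.measurable
  have hHb : ∀ σ, ‖H σ‖ ≤ 2 := by
    intro σ
    rw [hH]
    have h2 : ∫ w, f (σ - w) * f w = ∫ w in Icc (-1 : ℝ) 1, f (σ - w) * f w := by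
      rw [← integral_indicator measurableSet_Icc]
      congr 1
      ext w
      by_cases hw : w ∈ Icc (-1 : ℝ) 1
      · rw [indicator_of_mem hw]
      · rw [indicator_of_notMem hw, h0 w hw, mul_zero]
    simp only
    rw [h2]
    refine (norm_setIntegral_le_of_norm_le_const (C := 1) (by
      rw [Real.volume_Icc]; exact ENNReal.ofReal_lt_top) (fun w _ => ?_)).trans ?_
    · rw [norm_mul]
      exact mul_le_one₀ (h1 _) (norm_nonneg _) (h1 _)
    · rw [measureReal_def, Real.volume_Icc, ENNReal.toReal_ofReal (by norm_num)]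
      norm_num
  have hH0 : ∀ σ, σ ∉ Icc (-2 : ℝ) 2 → H σ = 0 := by
    intro σ hσ
    rw [hH]
    simp only
    have : ∀ w, f (σ - w) * f w = 0 := by
      intro w
      by_cases hw : w ∈ Icc (-1 : ℝ) 1
      · rw [h0 (σ - w), zero_mul]
        intro h
        exact hσ ⟨by linarith [h.1, hw.1], by linarith [h.2, hw.2]⟩
      · rw [h0 w hw, mul_zero]
    simp [this]
  have hind : H = (Icc (-2 : ℝ) 2).indicator H := by
    ext σ
    by_cases h : σ ∈ Icc (-2 : ℝ) 2
    · rw [indicator_of_mem h]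
    · rw [indicator_of_notMem h, hH0 σ h]
  have hfin : IsFiniteMeasure ((volume : Measure ℝ).restrict (Icc (-2 : ℝ) 2)) :=
    ⟨by rw [Measure.restrict_apply_univ, Real.volume_Icc]; exact ENNReal.ofReal_lt_top⟩
  have hHi : Integrable H := by
    rw [hind, integrable_indicator_iff measurableSet_Icc]
    exact (memLp_top_of_bound hHm.aestronglyMeasurable 2
      (Filter.Eventually.of_forall hHb)).integrable le_top
  have hH2 : MemLp H 2 := by
    rw [hind, memLp_indicator_iff_restrict measurableSet_Icc]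
    exact (memLp_top_of_bound hHm.aestronglyMeasurable 2
      (Filter.Eventually.of_forall hHb)).mono_exponent le_top
  rw [← planchR H hHi hH2]
  refine lintegral_congr fun x => ?_
  have hee : Measurable fun u : ℝ => ee (u * x) := by
    have := ee_cont
    exact (this.comp (continuous_id.mul continuous_const)).measurable
  have hkey : (∫ u, f u * ee (u * x)) ^ 2 = ∫ σ, H σ * ee (σ * x) := by
    have e1 : ∀ w, (∫ u, f u * ee (u * x)) * (f w * ee (w * x)) =
        ∫ σ, f (σ - w) * f w * ee (σ * x) := by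
      intro w
      rw [← integral_sub_right_eq_self (fun u => f u * ee (u * x)) w, ← integral_mul_const]
      congr 1
      ext σ
      have : ee (σ * x) = ee ((σ - w) * x) * ee (w * x) := by
        rw [← ee_add]; congr 1; ring
      rw [this]
      ring
    calc (∫ u, f u * ee (u * x)) ^ 2 =
        ∫ w, (∫ u, f u * ee (u * x)) * (f w * ee (w * x)) := by
          rw [integral_const_mul, sq]
      _ = ∫ w, ∫ σ, f (σ - w) * f w * ee (σ * x) := by simp_rw [e1]
      _ = ∫ σ, ∫ w, f (σ - w) * f w * ee (σ * x) := by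
          refine integral_integral_swap (f := fun w σ => f (σ - w) * f w * ee (σ * x)) ?_
          have hm : Measurable fun p : ℝ × ℝ => f (p.2 - p.1) * f p.1 * ee (p.2 * x) :=
            ((hf.comp (measurable_snd.sub measurable_fst)).mul (hf.comp measurable_fst)).mul
              (hee.comp measurable_snd)
          have hS : MeasurableSet (Icc (-1 : ℝ) 1 ×ˢ Icc (-2 : ℝ) 2) :=
            measurableSet_Icc.prod measurableSet_Icc
          have hi2 : (fun p : ℝ × ℝ => f (p.2 - p.1) * f p.1 * ee (p.2 * x)) =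
              (Icc (-1 : ℝ) 1 ×ˢ Icc (-2 : ℝ) 2).indicator
                (fun p : ℝ × ℝ => f (p.2 - p.1) * f p.1 * ee (p.2 * x)) := by
            ext p
            by_cases hp : p ∈ Icc (-1 : ℝ) 1 ×ˢ Icc (-2 : ℝ) 2
            · rw [indicator_of_mem hp]
            · rw [indicator_of_notMem hp]
              by_cases hw : p.1 ∈ Icc (-1 : ℝ) 1
              · rw [h0 (p.2 - p.1), zero_mul, zero_mul]
                intro h
                exact hp ⟨hw, by linarith [h.1, hw.1], by linarith [h.2, hw.2]⟩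
              · rw [h0 p.1 hw, mul_zero, zero_mul]
          show Integrable (fun p : ℝ × ℝ => f (p.2 - p.1) * f p.1 * ee (p.2 * x)) _
          rw [hi2, integrable_indicator_iff hS]
          have hfin2 : IsFiniteMeasure (((volume : Measure ℝ).prod volume).restrict
              (Icc (-1 : ℝ) 1 ×ˢ Icc (-2 : ℝ) 2)) :=
            ⟨by
              rw [Measure.restrict_apply_univ, Measure.prod_prod, Real.volume_Icc, Real.volume_Icc]
              exact ENNReal.mul_lt_top ENNReal.ofReal_lt_top ENNReal.ofReal_lt_top⟩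
          refine (memLp_top_of_bound hm.aestronglyMeasurable 1
            (Filter.Eventually.of_forall fun p => ?_)).integrable le_top
          rw [norm_mul, norm_mul, ee_norm, mul_one]
          exact mul_le_one₀ (h1 _) (norm_nonneg _) (h1 _)
      _ = _ := by
          congr 1
          ext σ
          rw [hH, ← integral_mul_const]
  calc ‖∫ u, f u * ee (u * x)‖ₑ ^ 4 = ‖(∫ u, f u * ee (u * x)) ^ 2‖ₑ ^ 2 := by
        rw [enorm_pow, ← pow_mul]
    _ = _ := by rw [hkey]

/-- **The fourth moment.** -/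
theorem L4 (V : ℝ → Θ → ℂ) (hV : Measurable (Function.uncurry V)) (h1 : ∀ u θ, ‖V u θ‖ ≤ 1)
    (h0 : ∀ u, u ∉ Icc (-1 : ℝ) 1 → ∀ θ, V u θ = 0)
    (B : ℝ≥0∞) (hB : B ≠ ∞) (h2 : ∀ u, ∫⁻ θ, ‖V u θ‖ₑ ^ 2 ∂ν ≤ B) :
    ∫⁻ θ, (∫⁻ x : ℝ, ‖∫ u, V u θ * ee (u * x)‖ₑ ^ 4) ∂ν ≤
      ∫⁻ σ, ∫⁻ w, ∫⁻ w', ‖∫ θ, V (σ - w) θ * V w θ * conj (V (σ - w') θ * V w' θ) ∂ν‖ₑ := by
  have hVθ : ∀ θ, Measurable fun u => V u θ := fun θ => hV.comp (measurable_id.prodMk
    measurable_const)
  have hfp : ∀ θ, ∫⁻ x : ℝ, ‖∫ u, V u θ * ee (u * x)‖ₑ ^ 4 =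
      ∫⁻ σ, ‖∫ w, V (σ - w) θ * V w θ‖ₑ ^ 2 := fun θ =>
    four_pt (fun u => V u θ) (hVθ θ) (fun u => h1 u θ) (fun u hu => h0 u hu θ)
  simp_rw [hfp]
  have hmm : Measurable fun p : (Θ × ℝ) × ℝ => V (p.1.2 - p.2) p.1.1 * V p.2 p.1.1 := by
    have ha : Measurable fun p : (Θ × ℝ) × ℝ => V (p.1.2 - p.2) p.1.1 := by
      have hp : Measurable fun p : (Θ × ℝ) × ℝ => (p.1.2 - p.2, p.1.1) := by fun_prop
      have h := hV.comp hp
      exact h
    have hb : Measurable fun p : (Θ × ℝ) × ℝ => V p.2 p.1.1 := by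
      have hp : Measurable fun p : (Θ × ℝ) × ℝ => (p.2, p.1.1) := by fun_prop
      have h := hV.comp hp
      exact h
    exact ha.mul hb
  have hHm : Measurable fun p : Θ × ℝ => ∫ w, V (p.2 - w) p.1 * V w p.1 :=
    hmm.stronglyMeasurable.integral_prod_right.measurable
  rw [lintegral_lintegral_swap (f := fun (θ : Θ) (σ : ℝ) => ‖∫ w, V (σ - w) θ * V w θ‖ₑ ^ 2)
    (hHm.enorm.pow_const 2).aemeasurable]
  refine lintegral_mono fun σ => ?_
  have hm3 : Measurable (Function.uncurry fun (w : ℝ) (θ : Θ) => V (σ - w) θ * V w θ) := by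
    have hp : Measurable fun p : ℝ × Θ => ((p.2, σ), p.1) := by fun_prop
    have h := hmm.comp hp
    exact h
  refine sq_le ν (fun w θ => V (σ - w) θ * V w θ) hm3 (Icc (-1 : ℝ) 1) measurableSet_Icc
    (by rw [Real.volume_Icc]; exact ENNReal.ofReal_ne_top) ?_ B hB ?_
  · intro w hw θ
    rw [h0 w hw θ, mul_zero]
  · intro w
    refine le_trans (lintegral_mono fun θ => ?_) (h2 w)
    rw [enorm_mul, mul_pow]
    refine mul_le_of_le_one_left (by positivity) ?_
    refine pow_le_one₀ (by positivity) ?_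
    rw [← ofReal_norm]
    exact ENNReal.ofReal_le_one.2 (h1 _ _)

end four

end Pool.Agent.T9h8.MS
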