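import Mathlib
import Pool.Agent.T9h8.MS.L4
set_option autoImplicit false

/-!
# From the bound for quadruples to the fourth moment, and interpolation
-/

namespace Pool.Agent.T9h8.MS

open MeasureTheory Set Complex
open scoped ENNReal NNReal ComplexConjugate

/-- the singular kernel -/
noncomputable def kk (γ x : ℝ) : ℝ≥0∞ := ENNReal.ofReal |x| ^ (-γ)

theorem kk_meas (γ : ℝ) : Measurable (kk γ) := by
  unfold kk
  exact (ENNReal.measurable_ofReal.comp (by fun_prop)).pow_const _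

theorem kk_fin (γ a : ℝ) (hγ : γ < 1) (ha : 0 < a) : ∫⁻ x in Icc (-a) a, kk γ x ≠ ∞ := by
  have h1 : ∫⁻ x in Ioc 0 a, kk γ x ≠ ∞ := by
    have hi : IntegrableOn (fun x : ℝ => x ^ (-γ)) (Ioc 0 a) := by
      have := intervalIntegral.intervalIntegrable_rpow' (a := 0) (b := a) (r := -γ) (by linarith)
      rwa [intervalIntegrable_iff_integrableOn_Ioc_of_le ha.le] at this
    have h2 : ∫⁻ x in Ioc 0 a, kk γ x = ∫⁻ x in Ioc 0 a, ENNReal.ofReal (x ^ (-γ)) := by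
      refine setLIntegral_congr_fun measurableSet_Ioc fun x hx => ?_
      unfold kk
      rw [abs_of_pos hx.1, ENNReal.ofReal_rpow_of_pos hx.1]
    rw [h2]
    have h3 := hi.2
    unfold HasFiniteIntegral at h3
    refine ne_of_lt (lt_of_le_of_lt (lintegral_mono fun x => ?_) h3)
    rw [← ofReal_norm]
    exact ENNReal.ofReal_le_ofReal (le_abs_self _)
  have h2 : ∫⁻ x in Ico (-a) 0, kk γ x ≠ ∞ := by
    have h3 : ∫⁻ x in Ico (-a) 0, kk γ x = ∫⁻ x in Ioc 0 a, kk γ x := by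
      rw [← lintegral_indicator measurableSet_Ico, ← lintegral_indicator measurableSet_Ioc,
        ← lintegral_neg_eq_self]
      refine lintegral_congr fun x => ?_
      by_cases hx : x ∈ Ioc 0 a
      · rw [indicator_of_mem hx, indicator_of_mem (by
          constructor <;> linarith [hx.1, hx.2])]
        unfold kk
        rw [abs_neg]
      · rw [indicator_of_notMem hx, indicator_of_notMem]
        intro h
        exact hx ⟨by linarith [h.2], by linarith [h.1]⟩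
    rw [h3]
    exact h1
  have h3 : ∫⁻ x in ({0} : Set ℝ), kk γ x ≠ ∞ := by simp
  have hsub : Icc (-a) a ⊆ (Ioc 0 a ∪ Ico (-a) 0) ∪ {0} := by
    intro x hx
    rcases lt_trichotomy x 0 with h | h | h
    · exact Or.inl (Or.inr ⟨hx.1, h⟩)
    · exact Or.inr h
    · exact Or.inl (Or.inl ⟨h, hx.2⟩)
  refine ne_of_lt (lt_of_le_of_lt (lintegral_mono_set hsub) ?_)
  refine lt_of_le_of_lt (lintegral_union_le _ _ _) ?_
  refine ENNReal.add_lt_top.2 ⟨?_, h3.lt_top⟩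
  refine lt_of_le_of_lt (lintegral_union_le _ _ _) ?_
  exact ENNReal.add_lt_top.2 ⟨h1.lt_top, h2.lt_top⟩

theorem kern (γ : ℝ) (hγ : γ < 1) : ∃ C : ℝ≥0,
    ∫⁻ σ : ℝ in Icc (-2) 2, ∫⁻ w : ℝ in Icc (-1) 1, ∫⁻ w' : ℝ in Icc (-1) 1,
      kk γ (w - w') * kk γ (w + w' - σ) ≤ C := by
  have hk := kk_meas γ
  set c4 := ∫⁻ x in Icc (-4 : ℝ) 4, kk γ x with hc4
  set c2 := ∫⁻ x in Icc (-2 : ℝ) 2, kk γ x with hc2
  have h4 : c4 ≠ ∞ := kk_fin γ 4 hγ (by norm_num)
  have h2 : c2 ≠ ∞ := kk_fin γ 2 hγ (by norm_num)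
  refine ⟨(2 * c2 * c4).toNNReal, ?_⟩
  rw [ENNReal.coe_toNNReal (by
    exact ENNReal.mul_ne_top (ENNReal.mul_ne_top (by norm_num) h2) h4)]
  have hm : Measurable fun p : (ℝ × ℝ) × ℝ => kk γ (p.1.2 - p.2) * kk γ (p.1.2 + p.2 - p.1.1) :=
    (hk.comp (by fun_prop)).mul (hk.comp (by fun_prop))
  have e1 : ∫⁻ σ : ℝ in Icc (-2) 2, ∫⁻ w : ℝ in Icc (-1) 1, ∫⁻ w' : ℝ in Icc (-1) 1,
      kk γ (w - w') * kk γ (w + w' - σ) =
      ∫⁻ w : ℝ in Icc (-1) 1, ∫⁻ w' : ℝ in Icc (-1) 1, ∫⁻ σ : ℝ in Icc (-2) 2,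
        kk γ (w - w') * kk γ (w + w' - σ) := by
    rw [lintegral_lintegral_swap (hm.lintegral_prod_right').aemeasurable]
    refine lintegral_congr fun w => ?_
    rw [lintegral_lintegral_swap]
    have h : Measurable fun p : ℝ × ℝ => kk γ (w - p.2) * kk γ (w + p.2 - p.1) :=
      (hk.comp (by fun_prop)).mul (hk.comp (by fun_prop))
    exact h.aemeasurable
  rw [e1]
  have hσ : ∀ w ∈ Icc (-1 : ℝ) 1, ∀ w' ∈ Icc (-1 : ℝ) 1,
      ∫⁻ σ : ℝ in Icc (-2) 2, kk γ (w - w') * kk γ (w + w' - σ) ≤ kk γ (w - w') * c4 := by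
    intro w hw w' hw'
    have hmσ : Measurable fun σ : ℝ => kk γ (w + w' - σ) := hk.comp (by fun_prop)
    rw [lintegral_const_mul _ hmσ]
    refine mul_le_mul' le_rfl ?_
    rw [← lintegral_indicator measurableSet_Icc, hc4, ← lintegral_indicator measurableSet_Icc,
      ← lintegral_sub_left_eq_self ((Icc (-4 : ℝ) 4).indicator (kk γ)) (w + w')]
    refine lintegral_mono fun σ => ?_
    by_cases h : σ ∈ Icc (-2 : ℝ) 2
    · rw [indicator_of_mem h, indicator_of_mem (by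
        constructor <;> linarith [h.1, h.2, hw.1, hw.2, hw'.1, hw'.2])]
    · rw [indicator_of_notMem h]
      exact zero_le
  have hw' : ∀ w ∈ Icc (-1 : ℝ) 1, ∫⁻ w' : ℝ in Icc (-1) 1, kk γ (w - w') * c4 ≤ c2 * c4 := by
    intro w hw
    have hmw : Measurable fun w' : ℝ => kk γ (w - w') := hk.comp (by fun_prop)
    rw [lintegral_mul_const _ hmw]
    refine mul_le_mul' ?_ le_rfl
    rw [← lintegral_indicator measurableSet_Icc, hc2, ← lintegral_indicator measurableSet_Icc,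
      ← lintegral_sub_left_eq_self ((Icc (-2 : ℝ) 2).indicator (kk γ)) w]
    refine lintegral_mono fun x => ?_
    by_cases h : x ∈ Icc (-1 : ℝ) 1
    · rw [indicator_of_mem h, indicator_of_mem (by
        constructor <;> linarith [h.1, h.2, hw.1, hw.2])]
    · rw [indicator_of_notMem h]
      exact zero_le
  calc ∫⁻ w : ℝ in Icc (-1) 1, ∫⁻ w' : ℝ in Icc (-1) 1, ∫⁻ σ : ℝ in Icc (-2) 2,
        kk γ (w - w') * kk γ (w + w' - σ)
      ≤ ∫⁻ w : ℝ in Icc (-1) 1, ∫⁻ w' : ℝ in Icc (-1) 1, kk γ (w - w') * c4 :=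
        setLIntegral_mono' measurableSet_Icc fun w hw =>
          setLIntegral_mono' measurableSet_Icc fun w' hw' => hσ w hw w' hw'
    _ ≤ ∫⁻ w : ℝ in Icc (-1) 1, c2 * c4 :=
        setLIntegral_mono' measurableSet_Icc fun w hw => hw' w hw
    _ = 2 * c2 * c4 := by
        rw [setLIntegral_const, Real.volume_Icc]
        norm_num
        ring

section

variable {Θ : Type*} [MeasurableSpace Θ] (ν : Measure Θ) [SFinite ν]

theorem L4b (γ : ℝ) (hγ : γ < 1) : ∃ C : ℝ≥0, ∀ (V : ℝ → Θ → ℂ),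
    Measurable (Function.uncurry V) → (∀ u θ, ‖V u θ‖ ≤ 1) →
    (∀ u, u ∉ Icc (-1 : ℝ) 1 → ∀ θ, V u θ = 0) →
    ∀ B : ℝ≥0∞, B ≠ ∞ → (∀ u, ∫⁻ θ, ‖V u θ‖ₑ ^ 2 ∂ν ≤ B) → ∀ A : ℝ≥0∞,
    (∀ u1 u2 u3 u4 : ℝ, u1 + u2 = u3 + u4 →
      ‖∫ θ, V u1 θ * V u2 θ * conj (V u3 θ * V u4 θ) ∂ν‖ₑ ≤ A * (kk γ (u2 - u4) * kk γ (u2 - u3))) →
    ∫⁻ θ, (∫⁻ x : ℝ, ‖∫ u, V u θ * ee (u * x)‖ₑ ^ 4) ∂ν ≤ C * A := by
  obtain ⟨C, hC⟩ := kern γ hγ
  refine ⟨C, ?_⟩
  intro V hV h1 h0 B hB h2 A hA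
  refine (L4 ν V hV h1 h0 B hB h2).trans ?_
  have hk := kk_meas γ
  have hm : Measurable fun p : (ℝ × ℝ) × ℝ => kk γ (p.1.2 - p.2) * kk γ (p.1.2 + p.2 - p.1.1) :=
    (hk.comp (by fun_prop)).mul (hk.comp (by fun_prop))
  calc ∫⁻ σ, ∫⁻ w, ∫⁻ w', ‖∫ θ, V (σ - w) θ * V w θ * conj (V (σ - w') θ * V w' θ) ∂ν‖ₑ
      ≤ ∫⁻ σ : ℝ in Icc (-2) 2, ∫⁻ w : ℝ in Icc (-1) 1, ∫⁻ w' : ℝ in Icc (-1) 1,
        A * (kk γ (w - w') * kk γ (w + w' - σ)) := by
        rw [← lintegral_indicator measurableSet_Icc]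
        refine lintegral_mono fun σ => ?_
        by_cases hσ : σ ∈ Icc (-2 : ℝ) 2
        · rw [indicator_of_mem hσ, ← lintegral_indicator measurableSet_Icc]
          refine lintegral_mono fun w => ?_
          by_cases hw : w ∈ Icc (-1 : ℝ) 1
          · rw [indicator_of_mem hw, ← lintegral_indicator measurableSet_Icc]
            refine lintegral_mono fun w' => ?_
            by_cases hw' : w' ∈ Icc (-1 : ℝ) 1
            · rw [indicator_of_mem hw']
              refine (hA (σ - w) w (σ - w') w' (by ring)).trans (le_of_eq ?_)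
              rw [show w - (σ - w') = w + w' - σ by ring]
            · rw [indicator_of_notMem hw']
              simp [h0 w' hw']
          · rw [indicator_of_notMem hw]
            simp [h0 w hw]
        · rw [indicator_of_notMem hσ]
          have : ∀ w θ, V (σ - w) θ * V w θ = 0 := by
            intro w θ
            by_cases hw : w ∈ Icc (-1 : ℝ) 1
            · rw [h0 (σ - w), zero_mul]
              intro h
              exact hσ ⟨by linarith [h.1, hw.1], by linarith [h.2, hw.2]⟩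
            · rw [h0 w hw, mul_zero]
          simp [this]
    _ = A * ∫⁻ σ : ℝ in Icc (-2) 2, ∫⁻ w : ℝ in Icc (-1) 1, ∫⁻ w' : ℝ in Icc (-1) 1,
        kk γ (w - w') * kk γ (w + w' - σ) := by
        have e3 : ∀ σ w : ℝ, ∫⁻ w' : ℝ in Icc (-1) 1, A * (kk γ (w - w') * kk γ (w + w' - σ)) =
            A * ∫⁻ w' : ℝ in Icc (-1) 1, kk γ (w - w') * kk γ (w + w' - σ) := fun σ w =>
          lintegral_const_mul _ ((hk.comp (by fun_prop)).mul (hk.comp (by fun_prop)))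
        simp_rw [e3]
        have hm2 : Measurable fun p : ℝ × ℝ => ∫⁻ w' : ℝ in Icc (-1) 1,
            kk γ (p.2 - w') * kk γ (p.2 + w' - p.1) := hm.lintegral_prod_right'
        have e4 : ∀ σ : ℝ, ∫⁻ w : ℝ in Icc (-1) 1, A * ∫⁻ w' : ℝ in Icc (-1) 1,
            kk γ (w - w') * kk γ (w + w' - σ) = A * ∫⁻ w : ℝ in Icc (-1) 1,
            ∫⁻ w' : ℝ in Icc (-1) 1, kk γ (w - w') * kk γ (w + w' - σ) := by
          intro σ
          rw [lintegral_const_mul]
          have := hm2.comp (measurable_const (a := σ) |>.prodMk measurable_id)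
          exact this
        simp_rw [e4]
        rw [lintegral_const_mul]
        exact hm2.lintegral_prod_right'
    _ ≤ A * C := mul_le_mul' le_rfl hC
    _ = C * A := mul_comm _ _

theorem L2b (V : ℝ → Θ → ℂ) (hV : Measurable (Function.uncurry V)) (h1 : ∀ u θ, ‖V u θ‖ ≤ 1)
    (h0 : ∀ u, u ∉ Icc (-1 : ℝ) 1 → ∀ θ, V u θ = 0)
    (B : ℝ≥0∞) (h2 : ∀ u, ∫⁻ θ, ‖V u θ‖ₑ ^ 2 ∂ν ≤ B) :
    ∫⁻ θ, (∫⁻ x : ℝ, ‖∫ u, V u θ * ee (u * x)‖ₑ ^ 2) ∂ν ≤ 2 * B := by
  have hVθ : ∀ θ, Measurable fun u => V u θ := fun θ => hV.comp (measurable_id.prodMk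
    measurable_const)
  have hfin : IsFiniteMeasure ((volume : Measure ℝ).restrict (Icc (-1 : ℝ) 1)) :=
    ⟨by rw [Measure.restrict_apply_univ, Real.volume_Icc]; exact ENNReal.ofReal_lt_top⟩
  have hp : ∀ θ, ∫⁻ x : ℝ, ‖∫ u, V u θ * ee (u * x)‖ₑ ^ 2 = ∫⁻ u, ‖V u θ‖ₑ ^ 2 := by
    intro θ
    have hind : (fun u => V u θ) = (Icc (-1 : ℝ) 1).indicator (fun u => V u θ) := by
      ext u
      by_cases h : u ∈ Icc (-1 : ℝ) 1
      · rw [indicator_of_mem h]
      · rw [indicator_of_notMem h, h0 u h θ]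
    refine planchR (fun u => V u θ) ?_ ?_
    · rw [hind, integrable_indicator_iff measurableSet_Icc]
      exact (memLp_top_of_bound (hVθ θ).aestronglyMeasurable 1
        (Filter.Eventually.of_forall fun u => h1 u θ)).integrable le_top
    · rw [hind, memLp_indicator_iff_restrict measurableSet_Icc]
      exact (memLp_top_of_bound (hVθ θ).aestronglyMeasurable 1
        (Filter.Eventually.of_forall fun u => h1 u θ)).mono_exponent le_top
  simp_rw [hp]
  have hsw : Measurable fun p : Θ × ℝ => ‖V p.2 p.1‖ₑ ^ 2 :=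
    (hV.comp measurable_swap).enorm.pow_const 2
  rw [lintegral_lintegral_swap (f := fun (θ : Θ) (u : ℝ) => ‖V u θ‖ₑ ^ 2) hsw.aemeasurable]
  calc ∫⁻ u, ∫⁻ θ, ‖V u θ‖ₑ ^ 2 ∂ν ≤ ∫⁻ u in Icc (-1 : ℝ) 1, B := by
        rw [← lintegral_indicator measurableSet_Icc]
        refine lintegral_mono fun u => ?_
        by_cases h : u ∈ Icc (-1 : ℝ) 1
        · rw [indicator_of_mem h]
          exact h2 u
        · rw [indicator_of_notMem h]
          simp [h0 u h]
    _ = 2 * B := by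
        rw [setLIntegral_const, Real.volume_Icc, mul_comm]
        norm_num

end

/-- interpolation between the second and the fourth moments -/
theorem interp {X : Type*} [MeasurableSpace X] (μ : Measure X) (F : X → ℝ≥0∞)
    (hF : Measurable F) (q : ℝ) (hq2 : 2 < q) (hq4 : q < 4) :
    ∫⁻ x, F x ^ q ∂μ ≤ (∫⁻ x, F x ^ 2 ∂μ) ^ ((4 - q) / 2) * (∫⁻ x, F x ^ 4 ∂μ) ^ ((q - 2) / 2) := by
  have h := ENNReal.lintegral_mul_norm_pow_le (μ := μ) (f := fun x => F x ^ 2)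
    (g := fun x => F x ^ 4) (p := (4 - q) / 2) (q := (q - 2) / 2) (hF.pow_const 2).aemeasurable
    (hF.pow_const 4).aemeasurable (by linarith) (by linarith) (by ring)
  refine le_trans (le_of_eq (lintegral_congr fun x => ?_)) h
  rw [← ENNReal.rpow_natCast, ← ENNReal.rpow_natCast, ← ENNReal.rpow_mul, ← ENNReal.rpow_mul,
    ← ENNReal.rpow_add_of_nonneg _ _ (by push_cast; linarith) (by push_cast; linarith)]
  congr 1
  push_cast
  ring

end Pool.Agent.T9h8.MS
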