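import Mathlib
import Pool.Agent.T9h8.MS.Four
import Pool.Agent.T9h8.MS.Kern
set_option autoImplicit false

/-!
# One block: superpositions of Gaussian wave packets with prescribed positions and times
-/

namespace Pool.Agent.T9h8.MS

open MeasureTheory Set Complex
open scoped ENNReal NNReal ComplexConjugate

variable {m : ℕ}

/-- the region of the block -/
def DD (s : Fin m → ℝ → ℝ) (a b : Fin m → ℝ) : Set (ℝ × ℝ) :=
  {p | ∀ j, p.2 + s j p.1 ∈ Ico (a j) (b j)}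

theorem DD_meas {s : Fin m → ℝ → ℝ} (hs : ∀ j, Measurable (s j)) (a b : Fin m → ℝ) :
    MeasurableSet (DD s a b) := by
  have : DD s a b = ⋂ j, (fun p : ℝ × ℝ => p.2 + s j p.1) ⁻¹' Ico (a j) (b j) := by
    ext p
    simp [DD]
  rw [this]
  refine MeasurableSet.iInter fun j => ?_
  exact (measurable_snd.add ((hs j).comp measurable_fst)) measurableSet_Ico

/-- the indicator of the region -/
noncomputable def dd (s : Fin m → ℝ → ℝ) (a b : Fin m → ℝ) (u t : ℝ) : ℂ :=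
  (DD s a b).indicator (fun _ => (1 : ℂ)) (u, t)

theorem dd_meas {s : Fin m → ℝ → ℝ} (hs : ∀ j, Measurable (s j)) (a b : Fin m → ℝ) :
    Measurable fun p : ℝ × ℝ => dd s a b p.1 p.2 :=
  measurable_const.indicator (DD_meas hs a b)

theorem dd_norm (s : Fin m → ℝ → ℝ) (a b : Fin m → ℝ) (u t : ℝ) : ‖dd s a b u t‖ ≤ 1 := by
  unfold dd
  by_cases h : (u, t) ∈ DD s a b
  · rw [indicator_of_mem h]; simp
  · rw [indicator_of_notMem h]; simp

theorem dd_conj (s : Fin m → ℝ → ℝ) (a b : Fin m → ℝ) (u t : ℝ) :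
    conj (dd s a b u t) = dd s a b u t := by
  unfold dd
  by_cases h : (u, t) ∈ DD s a b
  · rw [indicator_of_mem h]; simp
  · rw [indicator_of_notMem h]; simp

/-- the superposition -/
noncomputable def VV (c s : Fin m → ℝ → ℝ) (a b : Fin m → ℝ) (g : ℝ → ℂ) (ρ : Fin m → ℝ)
    (u : ℝ) (θ : (Fin m → ℝ) × ℝ) : ℂ :=
  dd s a b u θ.2 * (g u * ee (u ^ 2 * θ.2) *
    ∏ j, KK (θ.2 + s j u) (θ.1 j + ρ j + c j u))

theorem KK_meas' {X : Type*} [MeasurableSpace X] {f g : X → ℝ} (hf : Measurable f)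
    (hg : Measurable g) : Measurable fun x => KK (f x) (g x) := by
  have h := KK_cont.measurable.comp (hf.prodMk hg)
  exact h

theorem VV_meas {c s : Fin m → ℝ → ℝ} (hc : ∀ j, Measurable (c j)) (hs : ∀ j, Measurable (s j))
    (a b : Fin m → ℝ) {g : ℝ → ℂ} (hg : Measurable g) (ρ : Fin m → ℝ) :
    Measurable (Function.uncurry (VV c s a b g ρ)) := by
  have h1 : Measurable fun p : ℝ × ((Fin m → ℝ) × ℝ) => dd s a b p.1 p.2.2 := by
    have hp : Measurable fun p : ℝ × ((Fin m → ℝ) × ℝ) => (p.1, p.2.2) := by fun_prop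
    have h := (dd_meas hs a b).comp hp
    exact h
  have h2 : Measurable fun p : ℝ × ((Fin m → ℝ) × ℝ) => ee (p.1 ^ 2 * p.2.2) :=
    (ee_cont.comp (by fun_prop)).measurable
  have h3 : Measurable fun p : ℝ × ((Fin m → ℝ) × ℝ) =>
      ∏ j, KK (p.2.2 + s j p.1) (p.2.1 j + ρ j + c j p.1) := by
    refine Finset.measurable_prod _ fun j _ => ?_
    have hsj := hs j
    have hcj := hc j
    refine KK_meas' ?_ ?_
    · exact (measurable_snd.comp measurable_snd).add (hsj.comp measurable_fst)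
    · refine Measurable.add (Measurable.add ?_ measurable_const) (hcj.comp measurable_fst)
      exact (measurable_pi_apply j).comp (measurable_fst.comp measurable_snd)
  exact h1.mul (((hg.comp measurable_fst).mul h2).mul h3)

theorem VV_norm (c s : Fin m → ℝ → ℝ) (a b : Fin m → ℝ) (g : ℝ → ℂ) (hg : ∀ u, ‖g u‖ ≤ 1)
    (ρ : Fin m → ℝ) (u : ℝ) (θ : (Fin m → ℝ) × ℝ) :
    ‖VV c s a b g ρ u θ‖ ≤ ‖dd s a b u θ.2‖ * ∏ j, ‖KK (θ.2 + s j u) (θ.1 j + ρ j + c j u)‖ := by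
  unfold VV
  rw [norm_mul, norm_mul, norm_mul, ee_norm, mul_one, norm_prod]
  refine mul_le_mul_of_nonneg_left ?_ (norm_nonneg _)
  exact mul_le_of_le_one_left (Finset.prod_nonneg fun _ _ => norm_nonneg _) (hg u)

theorem VV_norm1 (c s : Fin m → ℝ → ℝ) (a b : Fin m → ℝ) (g : ℝ → ℂ) (hg : ∀ u, ‖g u‖ ≤ 1)
    (ρ : Fin m → ℝ) (u : ℝ) (θ : (Fin m → ℝ) × ℝ) : ‖VV c s a b g ρ u θ‖ ≤ 1 := by
  refine (VV_norm c s a b g hg ρ u θ).trans ?_
  exact mul_le_one₀ (dd_norm _ _ _ _ _) (Finset.prod_nonneg fun _ _ => norm_nonneg _)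
    (Finset.prod_le_one (fun _ _ => norm_nonneg _) fun _ _ => KK_norm_le _ _)

theorem dd_int {s : Fin m → ℝ → ℝ} (a b : Fin m → ℝ) (u : ℝ) (j : Fin m) :
    ∫⁻ t, ‖dd s a b u t‖ₑ ^ 2 ≤ ENNReal.ofReal (b j - a j) := by
  have h1 : ∀ t, ‖dd s a b u t‖ₑ ^ 2 ≤ (Ico (a j - s j u) (b j - s j u)).indicator
      (fun _ => (1 : ℝ≥0∞)) t := by
    intro t
    unfold dd
    by_cases h : (u, t) ∈ DD s a b
    · rw [indicator_of_mem h, indicator_of_mem]
      · simp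
      · have := h j
        constructor <;> linarith [this.1, this.2]
    · rw [indicator_of_notMem h]
      simp
  refine (lintegral_mono h1).trans ?_
  rw [lintegral_indicator measurableSet_Ico, setLIntegral_const, one_mul, Real.volume_Ico]
  refine ENNReal.ofReal_le_ofReal (le_of_eq (by ring))

theorem VV_L2 {c s : Fin m → ℝ → ℝ} (hc : ∀ j, Measurable (c j)) (hs : ∀ j, Measurable (s j))
    (a b : Fin m → ℝ) {g : ℝ → ℂ} (hg : Measurable g) (hg1 : ∀ u, ‖g u‖ ≤ 1) (ρ : Fin m → ℝ)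
    (u : ℝ) (j : Fin m) :
    ∫⁻ θ, ‖VV c s a b g ρ u θ‖ₑ ^ 2 ≤ ENNReal.ofReal (b j - a j) := by
  have hm : Measurable fun θ => ‖VV c s a b g ρ u θ‖ₑ ^ 2 := by
    have h := (VV_meas hc hs a b hg ρ).comp (measurable_const (a := u) |>.prodMk
      (measurable_id (α := (Fin m → ℝ) × ℝ)))
    exact (h.enorm).pow_const 2
  rw [Measure.volume_eq_prod, lintegral_prod_symm _ hm.aemeasurable]
  refine le_trans (lintegral_mono fun t => ?_) (dd_int (s := s) a b u j)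
  have h1 : ∀ y : Fin m → ℝ, ‖VV c s a b g ρ u (y, t)‖ₑ ^ 2 ≤
      ‖dd s a b u t‖ₑ ^ 2 * ∏ j, ‖KK (t + s j u) (y j + ρ j + c j u)‖ₑ ^ 2 := by
    intro y
    have h2 := VV_norm c s a b g hg1 ρ u (y, t)
    have h3 : ‖VV c s a b g ρ u (y, t)‖ₑ ≤
        ‖dd s a b u t‖ₑ * ∏ j, ‖KK (t + s j u) (y j + ρ j + c j u)‖ₑ := by
      rw [← ofReal_norm, ← ofReal_norm]
      simp_rw [← ofReal_norm (KK _ _)]
      rw [← ENNReal.ofReal_prod_of_nonneg fun _ _ => norm_nonneg _,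
        ← ENNReal.ofReal_mul (norm_nonneg _)]
      exact ENNReal.ofReal_le_ofReal h2
    rw [Finset.prod_pow, ← mul_pow]
    exact pow_le_pow_left' h3 2
  calc ∫⁻ y : Fin m → ℝ, ‖VV c s a b g ρ u (y, t)‖ₑ ^ 2
      ≤ ∫⁻ y : Fin m → ℝ, ‖dd s a b u t‖ₑ ^ 2 *
          ∏ j, ‖KK (t + s j u) (y j + ρ j + c j u)‖ₑ ^ 2 := lintegral_mono h1
    _ = ‖dd s a b u t‖ₑ ^ 2 * ∏ j, ∫⁻ y : ℝ, ‖KK (t + s j u) (y + ρ j + c j u)‖ₑ ^ 2 := by
        have hmj : ∀ j : Fin m, Measurable fun y : ℝ =>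
            ‖KK (t + s j u) (y + ρ j + c j u)‖ₑ ^ 2 := fun j =>
          (KK_meas' measurable_const (by fun_prop)).enorm.pow_const 2
        rw [lintegral_const_mul]
        · rw [Pool.Agent.H728R3.SR.lint_prod m
            (fun j y => ‖KK (t + s j u) (y + ρ j + c j u)‖ₑ ^ 2) hmj]
        · exact Finset.measurable_prod _ fun j _ => (hmj j).comp (measurable_pi_apply j)
    _ ≤ ‖dd s a b u t‖ₑ ^ 2 * 1 := by
        refine mul_le_mul' le_rfl (Finset.prod_le_one' fun j _ => ?_)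
        have h4 : ∫⁻ y : ℝ, ‖KK (t + s j u) (y + ρ j + c j u)‖ₑ ^ 2 =
            ∫⁻ y : ℝ, ‖KK (t + s j u) y‖ₑ ^ 2 := by
          rw [← lintegral_add_right_eq_self (fun y => ‖KK (t + s j u) y‖ₑ ^ 2) (ρ j + c j u)]
          simp_rw [add_assoc]
        rw [h4]
        exact KK_L2 _
    _ = _ := mul_one _

/-- the integral of a product of four Gaussian solutions -/
noncomputable def I4 (τ1 τ2 τ3 τ4 c1 c2 c3 c4 : ℝ) : ℂ :=
  ∫ y : ℝ, KK τ1 (y + c1) * KK τ2 (y + c2) * conj (KK τ3 (y + c3) * KK τ4 (y + c4))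

/-- the common times -/
def JJ (s : Fin m → ℝ → ℝ) (a b : Fin m → ℝ) (u1 u2 u3 u4 : ℝ) : Set ℝ :=
  {t | (u1, t) ∈ DD s a b ∧ (u2, t) ∈ DD s a b ∧ (u3, t) ∈ DD s a b ∧ (u4, t) ∈ DD s a b}

theorem JJ_meas {s : Fin m → ℝ → ℝ} (hs : ∀ j, Measurable (s j)) (a b : Fin m → ℝ)
    (u1 u2 u3 u4 : ℝ) : MeasurableSet (JJ s a b u1 u2 u3 u4) := by
  have h : ∀ u : ℝ, MeasurableSet {t : ℝ | (u, t) ∈ DD s a b} := fun u =>
    (measurable_const.prodMk measurable_id) (DD_meas hs a b)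
  exact (h u1).inter ((h u2).inter ((h u3).inter (h u4)))

theorem dd_four (s : Fin m → ℝ → ℝ) (a b : Fin m → ℝ) (u1 u2 u3 u4 t : ℝ) :
    dd s a b u1 t * dd s a b u2 t * (dd s a b u3 t * dd s a b u4 t) =
      (JJ s a b u1 u2 u3 u4).indicator (fun _ => (1 : ℂ)) t := by
  unfold dd
  by_cases h1 : (u1, t) ∈ DD s a b
  · by_cases h2 : (u2, t) ∈ DD s a b
    · by_cases h3 : (u3, t) ∈ DD s a b
      · by_cases h4 : (u4, t) ∈ DD s a b
        · rw [indicator_of_mem h1, indicator_of_mem h2, indicator_of_mem h3, indicator_of_mem h4,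
            indicator_of_mem (show t ∈ JJ s a b u1 u2 u3 u4 from ⟨h1, h2, h3, h4⟩)]
          simp
        · rw [indicator_of_notMem h4, indicator_of_notMem
            (show t ∉ JJ s a b u1 u2 u3 u4 from fun h => h4 h.2.2.2)]
          simp
      · rw [indicator_of_notMem h3, indicator_of_notMem
          (show t ∉ JJ s a b u1 u2 u3 u4 from fun h => h3 h.2.2.1)]
        simp
    · rw [indicator_of_notMem h2, indicator_of_notMem
        (show t ∉ JJ s a b u1 u2 u3 u4 from fun h => h2 h.2.1)]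
      simp
  · rw [indicator_of_notMem h1, indicator_of_notMem
      (show t ∉ JJ s a b u1 u2 u3 u4 from fun h => h1 h.1)]
    simp

theorem VV_quad_int {c s : Fin m → ℝ → ℝ} (hc : ∀ j, Measurable (c j))
    (hs : ∀ j, Measurable (s j)) (a b : Fin m → ℝ) {g : ℝ → ℂ} (hg : Measurable g)
    (hg1 : ∀ u, ‖g u‖ ≤ 1) (ρ : Fin m → ℝ) (j0 : Fin m) (u1 u2 u3 u4 : ℝ) :
    Integrable (fun θ : (Fin m → ℝ) × ℝ => VV c s a b g ρ u1 θ * VV c s a b g ρ u2 θ *
      conj (VV c s a b g ρ u3 θ * VV c s a b g ρ u4 θ)) := by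
  have hV : ∀ u, Measurable (VV c s a b g ρ u) := fun u =>
    (VV_meas hc hs a b hg ρ).comp (measurable_const.prodMk measurable_id)
  refine ⟨(((hV u1).mul (hV u2)).mul
    (Complex.continuous_conj.measurable.comp ((hV u3).mul (hV u4)))).aestronglyMeasurable, ?_⟩
  unfold HasFiniteIntegral
  have h1 : ∀ θ, ‖VV c s a b g ρ u1 θ * VV c s a b g ρ u2 θ *
      conj (VV c s a b g ρ u3 θ * VV c s a b g ρ u4 θ)‖ₑ ≤
      ‖VV c s a b g ρ u1 θ‖ₑ ^ 2 + ‖VV c s a b g ρ u2 θ‖ₑ ^ 2 := by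
    intro θ
    have hn : ∀ u, ‖VV c s a b g ρ u θ‖ₑ ≤ 1 := by
      intro u
      rw [← ofReal_norm]
      exact ENNReal.ofReal_le_one.2 (VV_norm1 c s a b g hg1 ρ u θ)
    rw [enorm_mul, enorm_mul, show ‖conj (VV c s a b g ρ u3 θ * VV c s a b g ρ u4 θ)‖ₑ =
      ‖VV c s a b g ρ u3 θ * VV c s a b g ρ u4 θ‖ₑ by
        rw [← ofReal_norm, RCLike.norm_conj, ofReal_norm], enorm_mul]
    set x1 := ‖VV c s a b g ρ u1 θ‖ₑ
    set x2 := ‖VV c s a b g ρ u2 θ‖ₑ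
    have h34 : ‖VV c s a b g ρ u3 θ‖ₑ * ‖VV c s a b g ρ u4 θ‖ₑ ≤ 1 := by
      calc _ ≤ (1 : ℝ≥0∞) * 1 := mul_le_mul' (hn u3) (hn u4)
        _ = 1 := one_mul 1
    calc x1 * x2 * (‖VV c s a b g ρ u3 θ‖ₑ * ‖VV c s a b g ρ u4 θ‖ₑ) ≤ x1 * x2 * 1 :=
          mul_le_mul' le_rfl h34
      _ = x1 * x2 := mul_one _
      _ ≤ x1 ^ 2 + x2 ^ 2 := by
          rcases le_total x1 x2 with h | h
          · calc x1 * x2 ≤ x2 * x2 := mul_le_mul' h le_rfl
              _ = x2 ^ 2 := (sq x2).symm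
              _ ≤ _ := le_add_self
          · calc x1 * x2 ≤ x1 * x1 := mul_le_mul' le_rfl h
              _ = x1 ^ 2 := (sq x1).symm
              _ ≤ _ := le_self_add
  refine lt_of_le_of_lt (lintegral_mono h1) ?_
  rw [lintegral_add_left ((hV u1).enorm.pow_const 2)]
  exact ENNReal.add_lt_top.2 ⟨lt_of_le_of_lt (VV_L2 hc hs a b hg hg1 ρ u1 j0)
    ENNReal.ofReal_lt_top, lt_of_le_of_lt (VV_L2 hc hs a b hg hg1 ρ u2 j0) ENNReal.ofReal_lt_top⟩

/-- the quadruple integral -/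
theorem M_le {c s : Fin m → ℝ → ℝ} (hc : ∀ j, Measurable (c j))
    (hs : ∀ j, Measurable (s j)) (a b : Fin m → ℝ) {g : ℝ → ℂ} (hg : Measurable g)
    (hg1 : ∀ u, ‖g u‖ ≤ 1) (ρ : Fin m → ℝ) (j0 : Fin m) (u1 u2 u3 u4 : ℝ) :
    ‖∫ θ, VV c s a b g ρ u1 θ * VV c s a b g ρ u2 θ *
      conj (VV c s a b g ρ u3 θ * VV c s a b g ρ u4 θ)‖ₑ ≤
    ‖∫ t in JJ s a b u1 u2 u3 u4, ee ((u1 ^ 2 + u2 ^ 2 - u3 ^ 2 - u4 ^ 2) * t) *
      ∏ j, I4 (t + s j u1) (t + s j u2) (t + s j u3) (t + s j u4)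
        (c j u1) (c j u2) (c j u3) (c j u4)‖ₑ := by
  have hint := VV_quad_int hc hs a b hg hg1 ρ j0 u1 u2 u3 u4
  have h1 := integral_prod_symm (μ := (volume : Measure (Fin m → ℝ)))
    (ν := (volume : Measure ℝ)) (fun θ : (Fin m → ℝ) × ℝ =>
      VV c s a b g ρ u1 θ * VV c s a b g ρ u2 θ *
      conj (VV c s a b g ρ u3 θ * VV c s a b g ρ u4 θ)) hint
  rw [Measure.volume_eq_prod, h1]
  set G : ℂ := g u1 * g u2 * conj (g u3 * g u4) with hG
  have hGn : ‖G‖ ≤ 1 := by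
    rw [hG, norm_mul, norm_mul, RCLike.norm_conj, norm_mul]
    exact mul_le_one₀ (mul_le_one₀ (hg1 _) (norm_nonneg _) (hg1 _)) (by positivity)
      (mul_le_one₀ (hg1 _) (norm_nonneg _) (hg1 _))
  have h2 : ∀ t : ℝ, ∫ y : Fin m → ℝ, VV c s a b g ρ u1 (y, t) * VV c s a b g ρ u2 (y, t) *
      conj (VV c s a b g ρ u3 (y, t) * VV c s a b g ρ u4 (y, t)) =
      G * (JJ s a b u1 u2 u3 u4).indicator
        (fun t => ee ((u1 ^ 2 + u2 ^ 2 - u3 ^ 2 - u4 ^ 2) * t) *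
      ∏ j, I4 (t + s j u1) (t + s j u2) (t + s j u3) (t + s j u4)
        (c j u1) (c j u2) (c j u3) (c j u4)) t := by
    intro t
    have e1 : ∀ y : Fin m → ℝ, VV c s a b g ρ u1 (y, t) * VV c s a b g ρ u2 (y, t) *
      conj (VV c s a b g ρ u3 (y, t) * VV c s a b g ρ u4 (y, t)) =
        (G * ((JJ s a b u1 u2 u3 u4).indicator (fun _ => (1 : ℂ)) t *
          ee ((u1 ^ 2 + u2 ^ 2 - u3 ^ 2 - u4 ^ 2) * t))) *
        ∏ j, (KK (t + s j u1) (y j + ρ j + c j u1) * KK (t + s j u2) (y j + ρ j + c j u2) *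
          conj (KK (t + s j u3) (y j + ρ j + c j u3) * KK (t + s j u4) (y j + ρ j + c j u4))) := by
      intro y
      rw [← dd_four]
      have he : ee ((u1 ^ 2 + u2 ^ 2 - u3 ^ 2 - u4 ^ 2) * t) = ee (u1 ^ 2 * t) * ee (u2 ^ 2 * t) *
          (ee (-(u3 ^ 2 * t)) * ee (-(u4 ^ 2 * t))) := by
        rw [← ee_add, ← ee_add, ← ee_add]
        congr 1
        ring
      rw [he, Finset.prod_mul_distrib, Finset.prod_mul_distrib, ← map_prod,
        Finset.prod_mul_distrib]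
      unfold VV
      simp only [map_mul, dd_conj, ee_conj, hG]
      ring
    simp_rw [e1]
    rw [integral_const_mul]
    have e2 := integral_fintype_prod_volume_eq_prod (𝕜 := ℂ) (fun (j : Fin m) (y : ℝ) =>
      (KK (t + s j u1) (y + ρ j + c j u1) * KK (t + s j u2) (y + ρ j + c j u2) *
          conj (KK (t + s j u3) (y + ρ j + c j u3) * KK (t + s j u4) (y + ρ j + c j u4))))
    rw [e2]
    have e3 : ∀ j : Fin m, ∫ y : ℝ, (KK (t + s j u1) (y + ρ j + c j u1) *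
        KK (t + s j u2) (y + ρ j + c j u2) *
          conj (KK (t + s j u3) (y + ρ j + c j u3) * KK (t + s j u4) (y + ρ j + c j u4))) =
        I4 (t + s j u1) (t + s j u2) (t + s j u3) (t + s j u4)
        (c j u1) (c j u2) (c j u3) (c j u4) := by
      intro j
      unfold I4
      rw [← integral_add_right_eq_self (fun y : ℝ => KK (t + s j u1) (y + c j u1) *
        KK (t + s j u2) (y + c j u2) *
        conj (KK (t + s j u3) (y + c j u3) * KK (t + s j u4) (y + c j u4))) (ρ j)]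
    simp_rw [e3]
    by_cases ht : t ∈ JJ s a b u1 u2 u3 u4
    · rw [indicator_of_mem ht, indicator_of_mem ht]
      ring
    · rw [indicator_of_notMem ht, indicator_of_notMem ht]
      ring
  simp_rw [h2]
  rw [integral_const_mul, integral_indicator (JJ_meas hs a b _ _ _ _), enorm_mul]
  refine mul_le_of_le_one_left (by positivity) ?_
  rw [← ofReal_norm]
  exact ENNReal.ofReal_le_one.2 hGn

end Pool.Agent.T9h8.MS
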