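import Mathlib
set_option autoImplicit false

/-!
# The dyadic blocks of the real line
-/

namespace Pool.Agent.T9h8.MS

open Set

/-- left end point of the positive blocks -/
noncomputable def pl (k : ℕ) : ℝ := if k = 0 then 0 else 2 ^ k / 4

/-- right end point of the positive blocks -/
noncomputable def ph (k : ℕ) : ℝ := 2 ^ k / 2

/-- left end point of the blocks -/
noncomputable def lo (n : ℕ × Bool) : ℝ := if n.2 then pl n.1 else -ph n.1

/-- right end point of the blocks -/
noncomputable def hi (n : ℕ × Bool) : ℝ := if n.2 then ph n.1 else -pl n.1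

theorem pl_nonneg (k : ℕ) : 0 ≤ pl k := by
  unfold pl
  split_ifs
  · exact le_rfl
  · positivity

theorem pl_lt_ph (k : ℕ) : pl k < ph k := by
  unfold pl ph
  split_ifs with h
  · positivity
  · have : (0 : ℝ) < 2 ^ k := by positivity
    linarith

theorem pl_of_pos {k : ℕ} (h : k ≠ 0) : pl k = 2 ^ k / 4 := by
  unfold pl
  rw [if_neg h]

theorem ph_le_pl {k l : ℕ} (h : k < l) : ph k ≤ pl l := by
  rw [pl_of_pos (by omega)]
  unfold ph
  have : (2 : ℝ) ^ (k + 1) ≤ 2 ^ l := pow_le_pow_right₀ (by norm_num) h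
  rw [pow_succ] at this
  linarith

theorem hi_sub_lo (n : ℕ × Bool) : hi n - lo n ≤ 2 ^ n.1 / 2 := by
  have h : ph n.1 - pl n.1 ≤ 2 ^ n.1 / 2 := by
    have := pl_nonneg n.1
    unfold ph
    linarith
  unfold hi lo
  split_ifs
  · exact h
  · linarith

theorem lo_lt_hi (n : ℕ × Bool) : lo n < hi n := by
  have := pl_lt_ph n.1
  unfold hi lo
  split_ifs
  · exact this
  · linarith

/-- the blocks are disjoint -/
theorem blocks_disj (n l : ℕ × Bool) (x : ℝ) (h1 : x ∈ Ico (lo n) (hi n))
    (h2 : x ∈ Ico (lo l) (hi l)) : n = l := by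
  obtain ⟨k, σ⟩ := n
  obtain ⟨k', σ'⟩ := l
  have a1 := pl_nonneg k
  have a2 := pl_nonneg k'
  have key : ∀ {i j : ℕ}, i < j → ph i ≤ pl j := fun h => ph_le_pl h
  cases σ <;> cases σ' <;> simp only [lo, hi, if_true, if_false, mem_Ico, Bool.false_eq_true] at h1 h2
  · rcases lt_trichotomy k k' with h | h | h
    · have := key h
      linarith [h1.1, h1.2, h2.1, h2.2]
    · rw [h]
    · have := key h
      linarith [h1.1, h1.2, h2.1, h2.2]
  · linarith [h1.1, h1.2, h2.1, h2.2]
  · linarith [h1.1, h1.2, h2.1, h2.2]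
  · rcases lt_trichotomy k k' with h | h | h
    · have := key h
      linarith [h1.1, h1.2, h2.1, h2.2]
    · rw [h]
    · have := key h
      linarith [h1.1, h1.2, h2.1, h2.2]

/-- the blocks cover the line -/
theorem blocks_cover (x : ℝ) : ∃ n : ℕ × Bool, x ∈ Ico (lo n) (hi n) := by
  rcases lt_or_ge x 0 with hx | hx
  · rcases le_or_gt (-x) (1 / 2) with h | h
    · refine ⟨(0, false), ?_⟩
      simp [lo, hi, pl, ph]
      constructor <;> linarith
    · obtain ⟨n, hn1, hn2⟩ := exists_nat_pow_near (x := -(2 * x)) (y := 2) (by linarith)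
        (by norm_num)
      rcases hn1.lt_or_eq with h3 | h3
      · refine ⟨(n + 1, false), ?_⟩
        simp only [lo, hi, Bool.false_eq_true, if_false, mem_Ico, pl_of_pos (Nat.succ_ne_zero n), ph]
        rw [pow_succ] at hn2 ⊢
        constructor <;> linarith
      · have hn0 : n ≠ 0 := by
          intro h0
          rw [h0, pow_zero] at h3
          linarith
        refine ⟨(n, false), ?_⟩
        simp only [lo, hi, Bool.false_eq_true, if_false, mem_Ico, pl_of_pos hn0, ph]
        have : (0 : ℝ) < 2 ^ n := by positivity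
        constructor <;> linarith
  · rcases lt_or_ge x (1 / 2) with h | h
    · refine ⟨(0, true), ?_⟩
      simp [lo, hi, pl, ph]
      constructor <;> linarith
    · obtain ⟨n, hn1, hn2⟩ := exists_nat_pow_near (x := 2 * x) (y := 2) (by linarith)
        (by norm_num)
      refine ⟨(n + 1, true), ?_⟩
      simp only [lo, hi, if_true, mem_Ico, pl_of_pos (Nat.succ_ne_zero n), ph]
      rw [pow_succ] at hn2 ⊢
      constructor <;> linarith

end Pool.Agent.T9h8.MS
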