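import Mathlib
import Pool.Agent.T9h8.MS.Blk
import Pool.Agent.T9h8.MS.Blocks
set_option autoImplicit false

/-!
# The quadruple interaction of packets with different times
-/

namespace Pool.Agent.T9h8.MS

open MeasureTheory Set Complex
open scoped ENNReal NNReal ComplexConjugate

/-- the logarithm of the interaction -/
noncomputable def LL (a b c d : ℝ) : ℂ :=
  (log (zz a) + log (zz b) + log (conj (zz c)) + log (conj (zz d)) - log (sg a b c d)) / 2

/-- the interaction -/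
noncomputable def QQ (a b c d : ℝ) : ℂ := cexp (LL a b c d)

/-- its reciprocal square -/
noncomputable def PP (a b c d : ℝ) : ℂ :=
  ((1 - 2 * a * I) + (1 - 2 * b * I)) * ((1 + 2 * c * I) * (1 + 2 * d * I)) +
    ((1 + 2 * c * I) + (1 + 2 * d * I)) * ((1 - 2 * a * I) * (1 - 2 * b * I))

/-- the numerator of the logarithmic derivative -/
noncomputable def ND (a b c d : ℝ) : ℂ :=
  (1 + 2 * c * I) * (1 + 2 * d * I) - (1 - 2 * a * I) * (1 - 2 * b * I)

theorem conj_slit {z : ℂ} (h : 0 < z.re) : conj z ∈ slitPlane := Or.inl (by rw [conj_re]; exact h)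

theorem sg_slit (a b c d : ℝ) : sg a b c d ∈ slitPlane := Or.inl (sg_re a b c d)

theorem sg_ne (a b c d : ℝ) : sg a b c d ≠ 0 := slitPlane_ne_zero (sg_slit a b c d)

theorem one_add_ne (τ : ℝ) : (1 + 2 * τ * I : ℂ) ≠ 0 := by
  intro h
  have := congrArg Complex.re h
  simp at this

theorem conj_zz (τ : ℝ) : conj (zz τ) = (1 + 2 * τ * I)⁻¹ := by
  unfold zz
  rw [map_inv₀]
  congr 1
  rw [map_sub, map_one, map_mul, map_mul, conj_ofReal, conj_I, map_ofNat]
  ring

/-- algebra -/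
theorem alg1 {A B C D : ℂ} (hA : A ≠ 0) (hB : B ≠ 0) (hC : C ≠ 0) (hD : D ≠ 0) :
    A⁻¹ * B⁻¹ * C⁻¹ * D⁻¹ * ((A + B) * (C * D) + (C + D) * (A * B)) = A⁻¹ + B⁻¹ + C⁻¹ + D⁻¹ := by
  field_simp
  ring

/-- algebra -/
theorem alg2 {A B C D : ℂ} (hA : A ≠ 0) (hB : B ≠ 0) (hC : C ≠ 0) (hD : D ≠ 0) :
    C * D - A * B = (A⁻¹ * B⁻¹ - C⁻¹ * D⁻¹) / (A⁻¹ * B⁻¹ * C⁻¹ * D⁻¹) := by
  field_simp

/-- algebra -/
theorem alg3 {A B C D : ℂ} (hA : A ≠ 0) (hB : B ≠ 0) (hC : C ≠ 0) (hD : D ≠ 0)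
    (hS : A + B + C + D ≠ 0) :
    (2 * I * A ^ 2 / A + 2 * I * B ^ 2 / B + -(2 * I * C ^ 2) / C + -(2 * I * D ^ 2) / D -
      (2 * I * A ^ 2 + 2 * I * B ^ 2 + -(2 * I * C ^ 2) + -(2 * I * D ^ 2)) / (A + B + C + D)) / 2 =
    2 * I * (A * B - C * D) / (A + B + C + D) := by
  field_simp
  ring

theorem I4_zero (a b c d : ℝ) : I4 a b c d 0 0 0 0 = QQ a b c d := by
  unfold I4 QQ LL
  simp only [add_zero]
  rw [four_A]
  have hlog : ∀ τ : ℝ, log (conj (zz τ)) = conj (log (zz τ)) := fun τ =>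
    Complex.log_conj _ (Complex.mem_slitPlane_iff_arg.1 (zz_slit τ)).1
  have hinv : log (1 / sg a b c d) = -log (sg a b c d) := by
    rw [one_div]
    exact Complex.log_inv _ (Complex.mem_slitPlane_iff_arg.1 (sg_slit a b c d)).1
  rw [cpow_def_of_ne_zero (zz_ne a), cpow_def_of_ne_zero (zz_ne b), cpow_def_of_ne_zero (zz_ne c),
    cpow_def_of_ne_zero (zz_ne d), cpow_def_of_ne_zero (one_div_ne_zero (sg_ne a b c d)), hinv,
    map_mul, ← Complex.exp_conj, ← Complex.exp_conj, map_mul, map_mul, ← Complex.exp_add,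
    ← Complex.exp_add, ← Complex.exp_add, ← Complex.exp_add, hlog, hlog]
  congr 1
  have h2 : conj (1 / 2 : ℂ) = 1 / 2 := by
    rw [map_div₀, map_one, map_ofNat]
  rw [h2]
  ring

theorem QQ_sq (a b c d : ℝ) : QQ a b c d ^ 2 * PP a b c d = 1 := by
  have h1 : QQ a b c d ^ 2 = zz a * zz b * conj (zz c) * conj (zz d) / sg a b c d := by
    unfold QQ LL
    rw [← Complex.exp_nat_mul]
    have : ((2 : ℕ) : ℂ) * ((log (zz a) + log (zz b) + log (conj (zz c)) + log (conj (zz d)) -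
        log (sg a b c d)) / 2) = log (zz a) + log (zz b) + log (conj (zz c)) +
        log (conj (zz d)) - log (sg a b c d) := by
      push_cast
      ring
    rw [this, Complex.exp_sub, Complex.exp_add, Complex.exp_add, Complex.exp_add,
      Complex.exp_log (zz_ne a), Complex.exp_log (zz_ne b),
      Complex.exp_log ((map_ne_zero _).2 (zz_ne c)), Complex.exp_log ((map_ne_zero _).2 (zz_ne d)),
      Complex.exp_log (sg_ne a b c d)]
  have hs := sg_ne a b c d
  rw [h1, div_mul_eq_mul_div, div_eq_one_iff_eq hs]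
  unfold sg PP
  rw [conj_zz, conj_zz]
  unfold zz
  exact alg1 (one_sub_ne a) (one_sub_ne b) (one_add_ne c) (one_add_ne d)

theorem PP_ne (a b c d : ℝ) : PP a b c d ≠ 0 := by
  intro h
  have := QQ_sq a b c d
  rw [h, mul_zero] at this
  exact zero_ne_one this

theorem QQ_norm (a b c d : ℝ) : ‖QQ a b c d‖ ^ 2 * ‖PP a b c d‖ = 1 := by
  have := congrArg norm (QQ_sq a b c d)
  rwa [norm_mul, norm_pow, norm_one] at this

theorem PP_eq (a b c d : ℝ) : PP a b c d =
    ((4 - 8 * (a * b + c * d) + 8 * ((a + b) * (c + d)) : ℝ) : ℂ) +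
    ((6 * ((c + d) - (a + b)) + 8 * (c * d * (a + b) - a * b * (c + d)) : ℝ) : ℂ) * I := by
  unfold PP
  have h2 : (I : ℂ) ^ 2 = -1 := I_sq
  have h3 : (I : ℂ) ^ 3 = -I := by rw [pow_succ, h2]; ring
  push_cast
  ring_nf
  rw [h2, h3]
  ring

theorem ND_eq (a b c d : ℝ) : ND a b c d = ((4 * (a * b - c * d) : ℝ) : ℂ) +
    ((2 * (a + b + c + d) : ℝ) : ℂ) * I := by
  unfold ND
  have h2 : (I : ℂ) ^ 2 = -1 := I_sq
  push_cast
  ring_nf
  rw [h2]
  ring

theorem zz_deriv (a t : ℝ) : HasDerivAt (fun t : ℝ => zz (t + a)) (2 * I * zz (t + a) ^ 2) t := by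
  unfold zz
  have h1 : HasDerivAt (fun t : ℝ => (1 - 2 * ((t + a : ℝ) : ℂ) * I)) (-(2 * 1 * I)) t := by
    have h2 : HasDerivAt (fun t : ℝ => ((t + a : ℝ) : ℂ)) 1 t := by
      have := ((hasDerivAt_id t).add_const a).ofReal_comp
      simpa using this
    exact ((h2.const_mul 2).mul_const I).const_sub 1
  have h3 := h1.inv (one_sub_ne (t + a))
  refine h3.congr_deriv ?_
  have := one_sub_ne (t + a)
  field_simp

theorem czz_deriv (a t : ℝ) : HasDerivAt (fun t : ℝ => conj (zz (t + a)))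
    (-(2 * I * conj (zz (t + a)) ^ 2)) t := by
  simp_rw [conj_zz]
  have h1 : HasDerivAt (fun t : ℝ => (1 + 2 * ((t + a : ℝ) : ℂ) * I)) (2 * 1 * I) t := by
    have h2 : HasDerivAt (fun t : ℝ => ((t + a : ℝ) : ℂ)) 1 t := by
      have := ((hasDerivAt_id t).add_const a).ofReal_comp
      simpa using this
    exact ((h2.const_mul 2).mul_const I).const_add 1
  have h3 := h1.inv (one_add_ne (t + a))
  refine h3.congr_deriv ?_
  have := one_add_ne (t + a)
  field_simp

theorem QQ_deriv (a b c d t : ℝ) :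
    HasDerivAt (fun t : ℝ => QQ (t + a) (t + b) (t + c) (t + d))
      (QQ (t + a) (t + b) (t + c) (t + d) *
        (2 * I * ND (t + a) (t + b) (t + c) (t + d) / PP (t + a) (t + b) (t + c) (t + d))) t := by
  have ha := zz_deriv a t
  have hb := zz_deriv b t
  have hc := czz_deriv c t
  have hd := czz_deriv d t
  have hs : HasDerivAt (fun t : ℝ => sg (t + a) (t + b) (t + c) (t + d))
      (2 * I * zz (t + a) ^ 2 + 2 * I * zz (t + b) ^ 2 + -(2 * I * conj (zz (t + c)) ^ 2) +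
        -(2 * I * conj (zz (t + d)) ^ 2)) t := by
    unfold sg
    exact ((ha.add hb).add hc).add hd
  have h1 := ((((((ha.clog_real (zz_slit _)).add (hb.clog_real (zz_slit _))).add
    (hc.clog_real (conj_slit (zz_re_pos _)))).add (hd.clog_real (conj_slit (zz_re_pos _)))).sub
    (hs.clog_real (sg_slit _ _ _ _))).div_const 2).cexp
  refine h1.congr_deriv ?_
  show QQ (t + a) (t + b) (t + c) (t + d) * _ = _
  congr 1
  have hP := PP_ne (t + a) (t + b) (t + c) (t + d)
  have hσ := sg_ne (t + a) (t + b) (t + c) (t + d)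
  have za := zz_ne (t + a)
  have zb := zz_ne (t + b)
  have zc : conj (zz (t + c)) ≠ 0 := (map_ne_zero _).2 (zz_ne (t + c))
  have zd : conj (zz (t + d)) ≠ 0 := (map_ne_zero _).2 (zz_ne (t + d))
  have hσ2 : sg (t + a) (t + b) (t + c) (t + d) =
      zz (t + a) + zz (t + b) + conj (zz (t + c)) + conj (zz (t + d)) := rfl
  have e1 : zz (t + a) * zz (t + b) * conj (zz (t + c)) * conj (zz (t + d)) *
      PP (t + a) (t + b) (t + c) (t + d) = sg (t + a) (t + b) (t + c) (t + d) := by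
    rw [hσ2]
    unfold PP
    rw [conj_zz, conj_zz]
    unfold zz
    exact alg1 (one_sub_ne _) (one_sub_ne _) (one_add_ne _) (one_add_ne _)
  have e2 : ND (t + a) (t + b) (t + c) (t + d) = (zz (t + a) * zz (t + b) -
      conj (zz (t + c)) * conj (zz (t + d))) /
      (zz (t + a) * zz (t + b) * conj (zz (t + c)) * conj (zz (t + d))) := by
    unfold ND
    rw [conj_zz, conj_zz]
    unfold zz
    exact alg2 (one_sub_ne _) (one_sub_ne _) (one_add_ne _) (one_add_ne _)
  have e3 : 2 * I * ND (t + a) (t + b) (t + c) (t + d) / PP (t + a) (t + b) (t + c) (t + d) =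
      2 * I * (zz (t + a) * zz (t + b) - conj (zz (t + c)) * conj (zz (t + d))) /
        sg (t + a) (t + b) (t + c) (t + d) := by
    rw [← e1, e2, mul_div_assoc', div_div]
  rw [e3]
  rw [hσ2] at hσ ⊢
  exact alg3 za zb zc zd hσ

end Pool.Agent.T9h8.MS
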