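import Mathlib
import Pool.Agent.T9h8.MS.FT1
set_option autoImplicit false

/-!
# The total variation of the quadruple interaction
-/

namespace Pool.Agent.T9h8.MS

open MeasureTheory Set Complex
open scoped ENNReal NNReal ComplexConjugate

/-- a decaying function -/
noncomputable def FF (W x : ℝ) : ℝ := (W + |x|) ^ (-(3 / 2) : ℝ)

/-- its primitive -/
noncomputable def Fi (W v : ℝ) : ℝ := ∫ x in (0 : ℝ)..v, FF W x

theorem FF_cont {W : ℝ} (hW : 0 < W) : Continuous (FF W) := by
  unfold FF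
  refine Continuous.rpow_const (by fun_prop) fun x => Or.inl ?_
  have := abs_nonneg x
  linarith

theorem FF_nonneg {W : ℝ} (hW : 0 < W) (x : ℝ) : 0 ≤ FF W x := by
  unfold FF
  have := abs_nonneg x
  positivity

theorem Fi_deriv {W : ℝ} (hW : 0 < W) (v : ℝ) : HasDerivAt (Fi W) (FF W v) v :=
  intervalIntegral.integral_hasDerivAt_right ((FF_cont hW).intervalIntegrable _ _)
    ((FF_cont hW).stronglyMeasurableAtFilter _ _) (FF_cont hW).continuousAt

theorem Fi_pos {W : ℝ} (hW : 0 < W) {v : ℝ} (hv : 0 ≤ v) :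
    0 ≤ Fi W v ∧ Fi W v ≤ 2 * W ^ (-(1 / 2) : ℝ) := by
  refine ⟨intervalIntegral.integral_nonneg hv fun x _ => FF_nonneg hW x, ?_⟩
  have h1 : ∀ x ∈ uIcc 0 v, HasDerivAt (fun x : ℝ => -2 * (W + x) ^ (-(1 / 2) : ℝ)) (FF W x) x := by
    intro x hx
    rw [uIcc_of_le hv] at hx
    have hp : 0 < W + x := by linarith [hx.1]
    have h2 : HasDerivAt (fun x : ℝ => W + x) 1 x := (hasDerivAt_id x).const_add W
    have h3 := (h2.rpow_const (p := -(1 / 2)) (Or.inl hp.ne')).const_mul (-2)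
    refine h3.congr_deriv ?_
    unfold FF
    rw [abs_of_nonneg hx.1]
    have : (-(1 / 2) : ℝ) - 1 = -(3 / 2) := by norm_num
    rw [this]
    ring
  have h2 := intervalIntegral.integral_eq_sub_of_hasDerivAt h1
    ((FF_cont hW).intervalIntegrable _ _)
  unfold Fi
  rw [h2, add_zero]
  have : 0 ≤ (W + v) ^ (-(1 / 2) : ℝ) := by positivity
  linarith

theorem Fi_neg {W v : ℝ} : Fi W (-v) = -Fi W v := by
  unfold Fi
  have h := intervalIntegral.integral_comp_neg (a := 0) (b := v) (fun x => FF W x)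
  have h2 : ∀ x, FF W (-x) = FF W x := by
    intro x
    unfold FF
    rw [abs_neg]
  simp only [h2, neg_zero] at h
  rw [h, intervalIntegral.integral_symm]

theorem Fi_bd {W : ℝ} (hW : 0 < W) (v : ℝ) : |Fi W v| ≤ 2 * W ^ (-(1 / 2) : ℝ) := by
  rcases le_total 0 v with h | h
  · have := Fi_pos hW h
    rw [abs_of_nonneg this.1]
    exact this.2
  · have := Fi_pos hW (v := -v) (by linarith)
    have h2 : Fi W v = -Fi W (-v) := by rw [Fi_neg, neg_neg]
    rw [h2, abs_neg, abs_of_nonneg this.1]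
    exact this.2

/-- the case of constant sign -/
theorem tv_sign {a b : ℝ} (hab : a ≤ b) {V v : ℝ → ℝ} (hV : ∀ t, HasDerivAt V (v t) t)
    (hv : Continuous v) {W : ℝ} (hW : 0 < W)
    (hs : (∀ t ∈ Icc a b, 0 ≤ v t) ∨ (∀ t ∈ Icc a b, v t ≤ 0)) :
    ∫ t in a..b, |v t| * FF W (V t) ≤ 4 * W ^ (-(1 / 2) : ℝ) := by
  have hVc : Continuous V := continuous_iff_continuousAt.2 fun t => (hV t).continuousAt
  have hF := FF_cont hW
  have h1 : ∀ t, HasDerivAt (fun t => Fi W (V t)) (FF W (V t) * v t) t := fun t =>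
    (Fi_deriv hW (V t)).comp t (hV t)
  have h2 : IntervalIntegrable (fun t => FF W (V t) * v t) volume a b :=
    ((hF.comp hVc).mul hv).intervalIntegrable _ _
  have h3 := intervalIntegral.integral_eq_sub_of_hasDerivAt (fun t _ => h1 t) h2
  have b1 := abs_le.1 (Fi_bd hW (V a))
  have b2 := abs_le.1 (Fi_bd hW (V b))
  rcases hs with hs | hs
  · have e1 : ∫ t in a..b, |v t| * FF W (V t) = ∫ t in a..b, FF W (V t) * v t := by
      refine intervalIntegral.integral_congr fun t ht => ?_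
      rw [uIcc_of_le hab] at ht
      rw [abs_of_nonneg (hs t ht), mul_comm]
    rw [e1, h3]
    linarith [b1.1, b2.2]
  · have e1 : ∫ t in a..b, |v t| * FF W (V t) = -∫ t in a..b, FF W (V t) * v t := by
      rw [← intervalIntegral.integral_neg]
      refine intervalIntegral.integral_congr fun t ht => ?_
      rw [uIcc_of_le hab] at ht
      rw [abs_of_nonpos (hs t ht)]
      ring
    rw [e1, h3]
    linarith [b1.2, b2.1]

/-- the case of a linear derivative -/
theorem tv_lin {a b : ℝ} (hab : a ≤ b) {V : ℝ → ℝ} (α β : ℝ)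
    (hV : ∀ t, HasDerivAt V (α * t + β) t) {W : ℝ} (hW : 0 < W) :
    ∫ t in a..b, |α * t + β| * FF W (V t) ≤ 8 * W ^ (-(1 / 2) : ℝ) := by
  have hv : Continuous fun t : ℝ => α * t + β := by fun_prop
  have hVc : Continuous V := continuous_iff_continuousAt.2 fun t => (hV t).continuousAt
  have hF := FF_cont hW
  have hWp : 0 ≤ W ^ (-(1 / 2) : ℝ) := by positivity
  by_cases h : (∀ t ∈ Icc a b, 0 ≤ α * t + β) ∨ (∀ t ∈ Icc a b, α * t + β ≤ 0)
  · have := tv_sign hab hV hv hW h
    linarith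
  · push Not at h
    obtain ⟨⟨x, hx, hx1⟩, ⟨y, hy, hy1⟩⟩ := h
    obtain ⟨c, hc, hc0⟩ : ∃ c ∈ Icc a b, α * c + β = 0 := by
      have h1 : (0 : ℝ) ∈ uIcc (α * x + β) (α * y + β) := by
        rw [mem_uIcc]
        left
        exact ⟨hx1.le, hy1.le⟩
      obtain ⟨c, hc, hc0⟩ := intermediate_value_uIcc (a := x) (b := y)
        (f := fun t : ℝ => α * t + β) hv.continuousOn h1
      exact ⟨c, uIcc_subset_Icc hx hy hc, hc0⟩
    have hi : ∀ u v : ℝ, IntervalIntegrable (fun t => |α * t + β| * FF W (V t)) volume u v :=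
      fun u v => ((hv.abs).mul (hF.comp hVc)).intervalIntegrable _ _
    rw [← intervalIntegral.integral_add_adjacent_intervals (hi a c) (hi c b)]
    have e1 : ∀ t, α * t + β = α * (t - c) := fun t => by linarith [hc0, mul_sub α t c]
    have h1 := tv_sign hc.1 hV hv hW (by
      rcases le_total 0 α with hα | hα
      · right
        intro t ht
        rw [e1]
        exact mul_nonpos_of_nonneg_of_nonpos hα (by linarith [ht.2])
      · left
        intro t ht
        rw [e1]
        exact mul_nonneg_of_nonpos_of_nonpos hα (by linarith [ht.2]))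
    have h2 := tv_sign hc.2 hV hv hW (by
      rcases le_total 0 α with hα | hα
      · left
        intro t ht
        rw [e1]
        exact mul_nonneg hα (by linarith [ht.1])
      · right
        intro t ht
        rw [e1]
        exact mul_nonpos_of_nonpos_of_nonneg hα (by linarith [ht.1]))
    linarith

theorem re_pos_block {k : ℕ} {a b c d : ℝ} (ha : a ∈ Icc (pl k) (ph k)) (hb : b ∈ Icc (pl k) (ph k))
    (hc : c ∈ Icc (pl k) (ph k)) (hd : d ∈ Icc (pl k) (ph k)) :
    (4 : ℝ) ^ k ≤ 4 - 8 * (a * b + c * d) + 8 * ((a + b) * (c + d)) := by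
  rcases Nat.eq_zero_or_pos k with hk | hk
  · subst hk
    unfold pl ph at ha hb hc hd
    rw [if_pos rfl, pow_zero] at ha hb hc hd
    obtain ⟨a0, a1⟩ := ha
    obtain ⟨b0, b1⟩ := hb
    obtain ⟨c0, c1⟩ := hc
    obtain ⟨d0, d1⟩ := hd
    rw [pow_zero]
    have h1 : a * b ≤ 1 / 4 := by nlinarith
    have h2 : c * d ≤ 1 / 4 := by nlinarith
    -- 1 <= 4 - 8(ab + cd) + 8 (a+b)(c+d)
    have h3 : 0 ≤ (a + b) * (c + d) := by positivity
    nlinarith [mul_nonneg a0 c0, mul_nonneg a0 d0, mul_nonneg b0 c0, mul_nonneg b0 d0,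
      sq_nonneg (a - b), sq_nonneg (c - d), mul_nonneg a0 b0, mul_nonneg c0 d0,
      mul_nonneg (sub_nonneg.2 a1) (sub_nonneg.2 b1), mul_nonneg (sub_nonneg.2 c1) (sub_nonneg.2 d1),
      mul_nonneg (sub_nonneg.2 a1) c0, mul_nonneg (sub_nonneg.2 b1) d0,
      mul_nonneg (sub_nonneg.2 a1) d0, mul_nonneg (sub_nonneg.2 b1) c0,
      mul_nonneg (sub_nonneg.2 c1) a0, mul_nonneg (sub_nonneg.2 d1) b0,
      mul_nonneg (sub_nonneg.2 c1) b0, mul_nonneg (sub_nonneg.2 d1) a0]
  · rw [pl_of_pos (by omega)] at ha hb hc hd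
    unfold ph at ha hb hc hd
    set A : ℝ := 2 ^ k / 4 with hA
    have hA0 : 0 < A := by positivity
    have h4 : (4 : ℝ) ^ k = 16 * A ^ 2 := by
      rw [hA, div_pow, ← pow_mul, mul_comm k 2, pow_mul]
      norm_num
      ring
    have h2 : (2 : ℝ) ^ k / 2 = 2 * A := by rw [hA]; ring
    rw [h2] at ha hb hc hd
    obtain ⟨a0, a1⟩ := ha
    obtain ⟨b0, b1⟩ := hb
    obtain ⟨c0, c1⟩ := hc
    obtain ⟨d0, d1⟩ := hd
    rw [h4]
    have k1 : 0 ≤ (a - A) * (2 * A - b) := mul_nonneg (by linarith) (by linarith)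
    have k2 : 0 ≤ (c - A) * (2 * A - d) := mul_nonneg (by linarith) (by linarith)
    have k3 : 0 ≤ (a - A + (b - A)) * (c - A + (d - A)) :=
      mul_nonneg (by linarith) (by linarith)
    have k4 : 0 ≤ A * (b - A) := mul_nonneg hA0.le (by linarith)
    have k5 : 0 ≤ A * (d - A) := mul_nonneg hA0.le (by linarith)
    nlinarith

theorem re_block {n : ℕ × Bool} {a b c d : ℝ} (ha : a ∈ Icc (lo n) (hi n))
    (hb : b ∈ Icc (lo n) (hi n)) (hc : c ∈ Icc (lo n) (hi n)) (hd : d ∈ Icc (lo n) (hi n)) :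
    (4 : ℝ) ^ n.1 ≤ 4 - 8 * (a * b + c * d) + 8 * ((a + b) * (c + d)) := by
  obtain ⟨k, σ⟩ := n
  cases σ
  · simp only [lo, hi, Bool.false_eq_true, if_false] at ha hb hc hd
    have h := re_pos_block (k := k) (a := -a) (b := -b) (c := -c) (d := -d)
      ⟨by linarith [ha.2], by linarith [ha.1]⟩ ⟨by linarith [hb.2], by linarith [hb.1]⟩
      ⟨by linarith [hc.2], by linarith [hc.1]⟩ ⟨by linarith [hd.2], by linarith [hd.1]⟩
    refine h.trans (le_of_eq ?_)
    ring
  · simp only [lo, hi, if_true] at ha hb hc hd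
    exact re_pos_block ha hb hc hd

theorem abs_block {n : ℕ × Bool} {a : ℝ} (ha : a ∈ Icc (lo n) (hi n)) : |a| ≤ 2 ^ n.1 / 2 := by
  obtain ⟨k, σ⟩ := n
  have h0 := pl_nonneg k
  cases σ
  · simp only [lo, hi, Bool.false_eq_true, if_false] at ha
    unfold ph at ha
    rw [abs_le]
    constructor
    · linarith [ha.1]
    · have : (0 : ℝ) < 2 ^ k := by positivity
      simp only
      linarith [ha.2]
  · simp only [lo, hi, if_true] at ha
    unfold ph at ha
    rw [abs_le]
    constructor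
    · have : (0 : ℝ) < 2 ^ k := by positivity
      simp only
      linarith [ha.1]
    · linarith [ha.2]

end Pool.Agent.T9h8.MS
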