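import Mathlib
import Pool.Agent.T9h8.MS.FT2
set_option autoImplicit false

/-!
# The bound for the quadruple interaction and the oscillatory integral
-/

namespace Pool.Agent.T9h8.MS

open MeasureTheory Set Complex
open scoped ENNReal NNReal ComplexConjugate

/-- the imaginary part -/
def Vi (a b c d : ℝ) : ℝ := 6 * ((c + d) - (a + b)) + 8 * (c * d * (a + b) - a * b * (c + d))

/-- the derivative of the interaction -/
noncomputable def QQd (a b c d : ℝ) : ℂ := QQ a b c d * (2 * I * ND a b c d / PP a b c d)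

theorem norm_add_I (x y : ℝ) : ‖(x : ℂ) + (y : ℂ) * I‖ ≤ |x| + |y| := by
  refine (norm_add_le _ _).trans ?_
  rw [norm_mul, Complex.norm_I, mul_one, Complex.norm_real, Complex.norm_real, Real.norm_eq_abs,
    Real.norm_eq_abs]

section

variable {n : ℕ × Bool} {a b c d : ℝ} (ha : a ∈ Icc (lo n) (hi n))
    (hb : b ∈ Icc (lo n) (hi n)) (hc : c ∈ Icc (lo n) (hi n)) (hd : d ∈ Icc (lo n) (hi n))

include ha hb hc hd in
theorem PP_ge : (4 : ℝ) ^ n.1 ≤ ‖PP a b c d‖ := by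
  have h := re_block ha hb hc hd
  have h1 := Complex.abs_re_le_norm (PP a b c d)
  have h2 : (PP a b c d).re = 4 - 8 * (a * b + c * d) + 8 * ((a + b) * (c + d)) := by
    rw [PP_eq, Complex.add_re, Complex.ofReal_re, Complex.re_ofReal_mul, Complex.I_re, mul_zero,
      add_zero]
  rw [h2] at h1
  exact h.trans ((le_abs_self _).trans h1)

include ha hb hc hd in
theorem PP_ge2 : ((4 : ℝ) ^ n.1 + |Vi a b c d|) / 2 ≤ ‖PP a b c d‖ := by
  have h := PP_ge ha hb hc hd
  have h1 := Complex.abs_im_le_norm (PP a b c d)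
  have h2 : (PP a b c d).im = Vi a b c d := by
    rw [PP_eq, Complex.add_im, Complex.ofReal_im, Complex.im_ofReal_mul, Complex.I_im, mul_one,
      zero_add]
    rfl
  rw [h2] at h1
  linarith

include ha hb hc hd in
theorem QQ_le : ‖QQ a b c d‖ ≤ ((2 : ℝ) ^ n.1)⁻¹ := by
  have h := PP_ge ha hb hc hd
  have h1 := QQ_norm a b c d
  have h4 : (4 : ℝ) ^ n.1 = (2 ^ n.1) ^ 2 := by
    rw [← pow_mul, mul_comm, pow_mul]
    norm_num
  have h5 : (0 : ℝ) < 2 ^ n.1 := by positivity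
  rw [h4] at h
  have h6 : ‖QQ a b c d‖ ^ 2 ≤ (((2 : ℝ) ^ n.1)⁻¹) ^ 2 := by
    rw [inv_pow, ← one_div, le_div_iff₀ (by positivity), ← h1]
    exact mul_le_mul_of_nonneg_left h (by positivity)
  exact le_of_sq_le_sq h6 (by positivity)

include ha hb hc hd in
theorem QP_le1 : ‖QQ a b c d‖ / ‖PP a b c d‖ ≤ ((2 : ℝ) ^ n.1)⁻¹ * ((4 : ℝ) ^ n.1)⁻¹ := by
  rw [div_eq_mul_inv]
  exact mul_le_mul (QQ_le ha hb hc hd) (inv_anti₀ (by positivity) (PP_ge ha hb hc hd))
    (by positivity) (by positivity)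

include ha hb hc hd in
theorem QP_le2 : ‖QQ a b c d‖ / ‖PP a b c d‖ ≤ 3 * FF (4 ^ n.1) (Vi a b c d) := by
  have h := PP_ge2 ha hb hc hd
  have h1 := QQ_norm a b c d
  set p := ‖PP a b c d‖ with hp
  set q := ‖QQ a b c d‖ with hq
  have hW : (0 : ℝ) < 4 ^ n.1 := by positivity
  have hV := abs_nonneg (Vi a b c d)
  have hp0 : 0 < p := by linarith
  have hq0 : 0 ≤ q := norm_nonneg _
  have e1 : q = p ^ (-(1 / 2) : ℝ) := by
    have h2 : q ^ 2 = p⁻¹ := by
      rw [← one_div, eq_div_iff hp0.ne']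
      exact h1
    have h3 : q = Real.sqrt (p⁻¹) := by rw [← h2, Real.sqrt_sq hq0]
    rw [h3, Real.sqrt_eq_rpow, Real.inv_rpow hp0.le, Real.rpow_neg hp0.le]
  have e2 : q / p = p ^ (-(3 / 2) : ℝ) := by
    rw [e1, div_eq_mul_inv]
    conv_lhs => rw [← Real.rpow_neg_one p]
    rw [← Real.rpow_add hp0]
    norm_num
  rw [e2]
  have e3 : p ^ (-(3 / 2) : ℝ) ≤ (((4 : ℝ) ^ n.1 + |Vi a b c d|) / 2) ^ (-(3 / 2) : ℝ) :=
    Real.rpow_le_rpow_of_nonpos (by positivity) h (by norm_num)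
  refine e3.trans ?_
  unfold FF
  rw [Real.div_rpow (by positivity) (by norm_num), div_eq_mul_inv, mul_comm]
  refine mul_le_mul_of_nonneg_right ?_ (by positivity)
  rw [← Real.rpow_neg (by norm_num), neg_neg]
  have : (2 : ℝ) ^ (3 / 2 : ℝ) = 2 * Real.sqrt 2 := by
    rw [Real.sqrt_eq_rpow]
    conv_rhs => rw [show (2 : ℝ) * 2 ^ (1 / 2 : ℝ) = 2 ^ (1 : ℝ) * 2 ^ (1 / 2 : ℝ) by
      rw [Real.rpow_one]]
    rw [← Real.rpow_add (by norm_num)]
    norm_num
  rw [this]
  have h2 : Real.sqrt 2 ≤ 3 / 2 := by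
    rw [Real.sqrt_le_left (by norm_num)]
    norm_num
  linarith

include ha hb hc hd in
theorem QQd_le : ‖QQd a b c d‖ ≤ 24 * (|a * b - c * d| * FF (4 ^ n.1) (Vi a b c d)) +
    4 * |a + b + c + d| * (((2 : ℝ) ^ n.1)⁻¹ * ((4 : ℝ) ^ n.1)⁻¹) := by
  have h1 := QP_le1 ha hb hc hd
  have h2 := QP_le2 ha hb hc hd
  have h3 : ‖ND a b c d‖ ≤ 4 * |a * b - c * d| + 2 * |a + b + c + d| := by
    rw [ND_eq]
    refine (norm_add_I _ _).trans (le_of_eq ?_)
    rw [abs_mul, abs_mul]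
    norm_num
  have e1 : ‖QQd a b c d‖ = 2 * ‖ND a b c d‖ * (‖QQ a b c d‖ / ‖PP a b c d‖) := by
    unfold QQd
    rw [norm_mul, norm_div, norm_mul, norm_mul, Complex.norm_I]
    simp only [Complex.norm_ofNat, mul_one]
    ring
  rw [e1]
  have h0 : 0 ≤ ‖QQ a b c d‖ / ‖PP a b c d‖ := by positivity
  calc 2 * ‖ND a b c d‖ * (‖QQ a b c d‖ / ‖PP a b c d‖)
      ≤ 2 * (4 * |a * b - c * d| + 2 * |a + b + c + d|) * (‖QQ a b c d‖ / ‖PP a b c d‖) := by
        gcongr
    _ = 8 * |a * b - c * d| * (‖QQ a b c d‖ / ‖PP a b c d‖) +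
        4 * |a + b + c + d| * (‖QQ a b c d‖ / ‖PP a b c d‖) := by ring
    _ ≤ 8 * |a * b - c * d| * (3 * FF (4 ^ n.1) (Vi a b c d)) +
        4 * |a + b + c + d| * (((2 : ℝ) ^ n.1)⁻¹ * ((4 : ℝ) ^ n.1)⁻¹) := by
        gcongr
    _ = _ := by ring

end

theorem QQ_cont (a b c d : ℝ) : Continuous fun t : ℝ => QQ (t + a) (t + b) (t + c) (t + d) :=
  continuous_iff_continuousAt.2 fun t => (QQ_deriv a b c d t).continuousAt

theorem QQd_cont (a b c d : ℝ) : Continuous fun t : ℝ => QQd (t + a) (t + b) (t + c) (t + d) := by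
  unfold QQd
  refine (QQ_cont a b c d).mul ?_
  refine Continuous.div ?_ ?_ fun t => PP_ne _ _ _ _
  · unfold ND
    fun_prop
  · unfold PP
    fun_prop

theorem Vi_deriv (a b c d t : ℝ) : HasDerivAt (fun t : ℝ => Vi (t + a) (t + b) (t + c) (t + d))
    (16 * (c + d - a - b) * t + 16 * (c * d - a * b)) t := by
  have e1 : (fun t : ℝ => Vi (t + a) (t + b) (t + c) (t + d)) = fun t : ℝ =>
      8 * (c + d - a - b) * t ^ 2 + 16 * (c * d - a * b) * t +
        (6 * (c + d - a - b) + 8 * (c * d * (a + b) - a * b * (c + d))) := by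
    ext t
    unfold Vi
    ring
  rw [e1]
  have h1 := (((hasDerivAt_pow 2 t).const_mul (8 * (c + d - a - b))).add
    ((hasDerivAt_id t).const_mul (16 * (c * d - a * b)))).add_const
      (6 * (c + d - a - b) + 8 * (c * d * (a + b) - a * b * (c + d)))
  refine h1.congr_deriv ?_
  norm_num
  ring

theorem QQd_int {n : ℕ × Bool} (a b c d : ℝ) {L R : ℝ} (hLR : L ≤ R)
    (ha : ∀ t ∈ Icc L R, t + a ∈ Icc (lo n) (hi n)) (hb : ∀ t ∈ Icc L R, t + b ∈ Icc (lo n) (hi n))
    (hc : ∀ t ∈ Icc L R, t + c ∈ Icc (lo n) (hi n)) (hd : ∀ t ∈ Icc L R, t + d ∈ Icc (lo n) (hi n)) :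
    ∫ t in L..R, ‖QQd (t + a) (t + b) (t + c) (t + d)‖ ≤ 16 * ((2 : ℝ) ^ n.1)⁻¹ := by
  have hW : (0 : ℝ) < 4 ^ n.1 := by positivity
  have h2 : (0 : ℝ) < 2 ^ n.1 := by positivity
  have hlen : R - L ≤ 2 ^ n.1 / 2 := by
    have h1 := (ha L ⟨le_rfl, hLR⟩).1
    have h2 := (ha R ⟨hLR, le_rfl⟩).2
    have h3 := hi_sub_lo n
    linarith
  have h44 : (4 : ℝ) ^ n.1 = 2 ^ n.1 * 2 ^ n.1 := by
    rw [← mul_pow]
    norm_num
  set V : ℝ → ℝ := fun t => Vi (t + a) (t + b) (t + c) (t + d) with hV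
  set α : ℝ := 16 * (c + d - a - b) with hα
  set β : ℝ := 16 * (c * d - a * b) with hβ
  have hVd : ∀ t, HasDerivAt V (α * t + β) t := fun t => Vi_deriv a b c d t
  have hVc : Continuous V := continuous_iff_continuousAt.2 fun t => (hVd t).continuousAt
  have hFc : Continuous fun t => |α * t + β| * FF (4 ^ n.1) (V t) :=
    (by fun_prop : Continuous fun t : ℝ => |α * t + β|).mul ((FF_cont hW).comp hVc)
  have hpt : ∀ t ∈ Icc L R, ‖QQd (t + a) (t + b) (t + c) (t + d)‖ ≤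
      3 / 2 * (|α * t + β| * FF (4 ^ n.1) (V t)) + 8 * ((4 : ℝ) ^ n.1)⁻¹ := by
    intro t ht
    have h := QQd_le (ha t ht) (hb t ht) (hc t ht) (hd t ht)
    have e1 : |(t + a) * (t + b) - (t + c) * (t + d)| = |α * t + β| / 16 := by
      have : α * t + β = -(16 * ((t + a) * (t + b) - (t + c) * (t + d))) := by
        rw [hα, hβ]
        ring
      rw [this, abs_neg, abs_mul]
      norm_num
    have e2 : |(t + a) + (t + b) + (t + c) + (t + d)| ≤ 2 * 2 ^ n.1 := by
      have a1 := abs_block (ha t ht)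
      have a2 := abs_block (hb t ht)
      have a3 := abs_block (hc t ht)
      have a4 := abs_block (hd t ht)
      calc |(t + a) + (t + b) + (t + c) + (t + d)| ≤ |(t + a) + (t + b) + (t + c)| + |t + d| :=
            abs_add_le _ _
        _ ≤ |(t + a) + (t + b)| + |t + c| + |t + d| := by
            gcongr
            exact abs_add_le _ _
        _ ≤ |t + a| + |t + b| + |t + c| + |t + d| := by
            gcongr
            exact abs_add_le _ _
        _ ≤ 2 * 2 ^ n.1 := by linarith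
    rw [e1] at h
    refine h.trans ?_
    have e3 : 4 * |(t + a) + (t + b) + (t + c) + (t + d)| * (((2 : ℝ) ^ n.1)⁻¹ *
        ((4 : ℝ) ^ n.1)⁻¹) ≤ 8 * ((4 : ℝ) ^ n.1)⁻¹ := by
      calc 4 * |(t + a) + (t + b) + (t + c) + (t + d)| * (((2 : ℝ) ^ n.1)⁻¹ * ((4 : ℝ) ^ n.1)⁻¹)
          ≤ 4 * (2 * 2 ^ n.1) * (((2 : ℝ) ^ n.1)⁻¹ * ((4 : ℝ) ^ n.1)⁻¹) := by gcongr
        _ = 8 * ((4 : ℝ) ^ n.1)⁻¹ := by
            field_simp
            norm_num
    have e4 : 24 * (|α * t + β| / 16 * FF (4 ^ n.1) (Vi (t + a) (t + b) (t + c) (t + d))) =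
        3 / 2 * (|α * t + β| * FF (4 ^ n.1) (V t)) := by
      rw [hV]
      ring
    rw [e4]
    linarith
  calc ∫ t in L..R, ‖QQd (t + a) (t + b) (t + c) (t + d)‖
      ≤ ∫ t in L..R, (3 / 2 * (|α * t + β| * FF (4 ^ n.1) (V t)) + 8 * ((4 : ℝ) ^ n.1)⁻¹) := by
        refine intervalIntegral.integral_mono_on hLR
          ((QQd_cont a b c d).norm.intervalIntegrable _ _) ?_ hpt
        exact ((continuous_const.mul hFc).add continuous_const).intervalIntegrable _ _
    _ = 3 / 2 * (∫ t in L..R, |α * t + β| * FF (4 ^ n.1) (V t)) +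
        (R - L) * (8 * ((4 : ℝ) ^ n.1)⁻¹) := by
        have hi1 : IntervalIntegrable (fun t => 3 / 2 * (|α * t + β| * FF (4 ^ n.1) (V t)))
            volume L R := (continuous_const.mul hFc).intervalIntegrable _ _
        rw [intervalIntegral.integral_add hi1 (continuous_const.intervalIntegrable _ _),
          intervalIntegral.integral_const_mul, intervalIntegral.integral_const, smul_eq_mul]
    _ ≤ 3 / 2 * (8 * (4 ^ n.1 : ℝ) ^ (-(1 / 2) : ℝ)) +
        (2 ^ n.1 / 2) * (8 * ((4 : ℝ) ^ n.1)⁻¹) := by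
        have h5 := tv_lin hLR α β hVd hW
        gcongr
    _ = 16 * ((2 : ℝ) ^ n.1)⁻¹ := by
        have e5 : (4 ^ n.1 : ℝ) ^ (-(1 / 2) : ℝ) = ((2 : ℝ) ^ n.1)⁻¹ := by
          rw [Real.rpow_neg hW.le, ← Real.sqrt_eq_rpow, h44, Real.sqrt_mul_self h2.le]
        rw [e5, h44]
        field_simp
        norm_num

/-- integration by parts -/
theorem osc_bound {lam : ℝ} (hlam : lam ≠ 0) {L R : ℝ} (hLR : L ≤ R) {F F' : ℝ → ℂ}
    (hF : ∀ t, HasDerivAt F (F' t) t) (hc : Continuous F') :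
    ‖∫ t in L..R, ee (lam * t) * F t‖ ≤
      (‖F L‖ + ‖F R‖ + ∫ t in L..R, ‖F' t‖) / (2 * Real.pi * |lam|) := by
  have hpi := Real.pi_pos
  have hl := abs_pos.2 hlam
  set D : ℂ := 2 * Real.pi * I * lam with hD
  have hDn : ‖D‖ = 2 * Real.pi * |lam| := by
    rw [hD, norm_mul, norm_mul, norm_mul, Complex.norm_I, Complex.norm_real, Complex.norm_real,
      Real.norm_eq_abs, Real.norm_eq_abs, abs_of_pos hpi]
    simp
  have hD0 : D ≠ 0 := by
    rw [← norm_pos_iff, hDn]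
    positivity
  have hE : ∀ t : ℝ, HasDerivAt (fun t : ℝ => ee (lam * t) / D) (ee (lam * t)) t := by
    intro t
    have h1 : HasDerivAt (fun t : ℝ => D * (t : ℂ)) D t := by
      have := (Complex.ofRealCLM.hasDerivAt (x := t)).const_mul D
      simpa using this
    have h2 := h1.cexp.div_const D
    have h3 : (fun t : ℝ => ee (lam * t) / D) = fun t : ℝ => cexp (D * (t : ℂ)) / D := by
      ext t
      unfold ee
      rw [hD]
      congr 2
      push_cast
      ring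
    rw [h3]
    refine h2.congr_deriv ?_
    rw [mul_div_assoc, div_self hD0, mul_one]
    unfold ee
    rw [hD]
    congr 1
    push_cast
    ring
  have hEc : Continuous fun t : ℝ => ee (lam * t) / D :=
    continuous_iff_continuousAt.2 fun t => (hE t).continuousAt
  have heec : Continuous fun t : ℝ => ee (lam * t) := ee_cont.comp (by fun_prop)
  have h := intervalIntegral.integral_mul_deriv_eq_deriv_mul (a := L) (b := R) (u := F)
    (v := fun t : ℝ => ee (lam * t) / D) (u' := F') (v' := fun t => ee (lam * t))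
    (fun t _ => hF t) (fun t _ => hE t) (hc.intervalIntegrable _ _)
    (heec.intervalIntegrable _ _)
  have e1 : ∫ t in L..R, ee (lam * t) * F t = ∫ t in L..R, F t * ee (lam * t) :=
    intervalIntegral.integral_congr fun t _ => mul_comm _ _
  have hEn : ∀ t : ℝ, ‖ee (lam * t) / D‖ = 1 / (2 * Real.pi * |lam|) := by
    intro t
    rw [norm_div, ee_norm, hDn]
  rw [e1, h]
  calc ‖F R * (ee (lam * R) / D) - F L * (ee (lam * L) / D) -
        ∫ t in L..R, F' t * (ee (lam * t) / D)‖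
      ≤ ‖F R * (ee (lam * R) / D)‖ + ‖F L * (ee (lam * L) / D)‖ +
        ‖∫ t in L..R, F' t * (ee (lam * t) / D)‖ :=
        (norm_sub_le _ _).trans (by gcongr; exact norm_sub_le _ _)
    _ ≤ ‖F R‖ * (1 / (2 * Real.pi * |lam|)) + ‖F L‖ * (1 / (2 * Real.pi * |lam|)) +
        ∫ t in L..R, ‖F' t‖ * (1 / (2 * Real.pi * |lam|)) := by
        rw [norm_mul, norm_mul, hEn, hEn]
        gcongr
        refine (intervalIntegral.norm_integral_le_integral_norm hLR).trans (le_of_eq ?_)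
        refine intervalIntegral.integral_congr fun t _ => ?_
        show ‖F' t * (ee (lam * t) / D)‖ = _
        rw [norm_mul, hEn]
    _ = _ := by
        rw [intervalIntegral.integral_mul_const]
        ring

end Pool.Agent.T9h8.MS
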