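import Mathlib
import Pool.Agent.Helper523.UF.StatPhase
import Pool.Agent.T9h8.MS.Four
import Pool.Agent.T9h8.MS.L4
set_option autoImplicit false

/-!
# The oscillatory integrals in time
-/

namespace Pool.Agent.T9h8.MS

open MeasureTheory Set Complex
open scoped ENNReal NNReal ComplexConjugate

theorem ee_eq_e (x : ℝ) : ee x = Pool.Agent.Helper523.UF.e x := by
  unfold ee Pool.Agent.Helper523.UF.e
  congr 1
  push_cast
  ring

/-- an amplitude that is the product of a decreasing and an increasing function -/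
theorem amp {a b M : ℝ} (hab : a ≤ b) (f : ℝ → ℂ) (hf : Continuous f) (D I D' I' : ℝ → ℝ)
    (hD : ∀ x ∈ Icc a b, HasDerivAt D (D' x) x) (hI : ∀ x ∈ Icc a b, HasDerivAt I (I' x) x)
    (hDc : ContinuousOn D' (Icc a b)) (hIc : ContinuousOn I' (Icc a b))
    (hD0 : ∀ x ∈ Icc a b, 0 ≤ D x) (hI0 : ∀ x ∈ Icc a b, 0 ≤ I x)
    (hD1 : ∀ x ∈ Icc a b, D' x ≤ 0) (hI1 : ∀ x ∈ Icc a b, 0 ≤ I' x)
    (hM : ∀ x ∈ Icc a b, ‖∫ t in a..x, f t‖ ≤ M) :
    ‖∫ t in a..b, f t * ((D t * I t : ℝ) : ℂ)‖ ≤ 2 * (D a * I b * M) := by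
  have hM0 : 0 ≤ M := (norm_nonneg _).trans (hM a ⟨le_rfl, hab⟩)
  have hDcont : ContinuousOn D (Icc a b) := fun x hx =>
    (hD x hx).continuousAt.continuousWithinAt
  have hIcont : ContinuousOn I (Icc a b) := fun x hx =>
    (hI x hx).continuousAt.continuousWithinAt
  have huIcc : uIcc a b = Icc a b := uIcc_of_le hab
  set F : ℝ → ℂ := fun x => ∫ t in a..x, f t with hF
  have hFd : ∀ x ∈ uIcc a b, HasDerivAt F (f x) x := fun x _ =>
    intervalIntegral.integral_hasDerivAt_right (hf.intervalIntegrable _ _)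
      (hf.stronglyMeasurableAtFilter _ _) hf.continuousAt
  have hFc : Continuous F := by
    refine continuous_iff_continuousAt.2 fun x => ?_
    exact (intervalIntegral.integral_hasDerivAt_right (hf.intervalIntegrable _ _)
      (hf.stronglyMeasurableAtFilter _ _) hf.continuousAt).continuousAt
  set W : ℝ → ℂ := fun t => ((D t * I t : ℝ) : ℂ) with hW
  set W' : ℝ → ℝ := fun t => D' t * I t + D t * I' t with hW'
  have hWd : ∀ x ∈ uIcc a b, HasDerivAt W ((W' x : ℝ) : ℂ) x := by
    intro x hx
    rw [huIcc] at hx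
    exact ((hD x hx).mul (hI x hx)).ofReal_comp
  have hW'c : ContinuousOn W' (Icc a b) :=
    (hDc.mul hIcont).add (hDcont.mul hIc)
  have hW'i : IntervalIntegrable (fun x => ((W' x : ℝ) : ℂ)) volume a b := by
    refine ContinuousOn.intervalIntegrable ?_
    rw [huIcc]
    exact Complex.continuous_ofReal.comp_continuousOn hW'c
  have hibp := intervalIntegral.integral_mul_deriv_eq_deriv_mul hWd hFd hW'i
    (hf.intervalIntegrable a b)
  have e1 : ∫ t in a..b, f t * ((D t * I t : ℝ) : ℂ) = ∫ t in a..b, W t * f t := by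
    congr 1
    ext t
    rw [hW]
    ring
  have hFa : F a = 0 := by
    rw [hF]
    simp
  rw [e1, hibp, hFa, mul_zero, sub_zero]
  have hDI' : IntervalIntegrable (fun x => D' x * I x) volume a b := by
    refine ContinuousOn.intervalIntegrable ?_
    rw [huIcc]
    exact hDc.mul hIcont
  have hD'i : IntervalIntegrable D' volume a b := by
    refine ContinuousOn.intervalIntegrable ?_
    rw [huIcc]
    exact hDc
  have hWi : IntervalIntegrable W' volume a b := by
    refine ContinuousOn.intervalIntegrable ?_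
    rw [huIcc]
    exact hW'c
  have hImono : ∀ x ∈ Icc a b, I x ≤ I b := by
    intro x hx
    have hmon : MonotoneOn I (Icc a b) := by
      refine monotoneOn_of_deriv_nonneg (convex_Icc a b) hIcont ?_ ?_
      · intro y hy
        rw [interior_Icc] at hy
        exact (hI y ⟨hy.1.le, hy.2.le⟩).differentiableAt.differentiableWithinAt
      · intro y hy
        rw [interior_Icc] at hy
        rw [(hI y ⟨hy.1.le, hy.2.le⟩).deriv]
        exact hI1 y ⟨hy.1.le, hy.2.le⟩
    exact hmon hx ⟨hab, le_rfl⟩ hx.2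
  have hb : b ∈ Icc a b := ⟨hab, le_rfl⟩
  have ha : a ∈ Icc a b := ⟨le_rfl, hab⟩
  have hWint : ∫ x in a..b, W' x = D b * I b - D a * I a := by
    refine intervalIntegral.integral_eq_sub_of_hasDerivAt (f := fun t => D t * I t) ?_ hWi
    intro x hx
    rw [huIcc] at hx
    exact (hD x hx).mul (hI x hx)
  have hDint : ∫ x in a..b, D' x = D b - D a := by
    refine intervalIntegral.integral_eq_sub_of_hasDerivAt ?_ hD'i
    intro x hx
    rw [huIcc] at hx
    exact hD x hx
  have h1 : ‖∫ x in a..b, ((W' x : ℝ) : ℂ) * F x‖ ≤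
      M * (D b * I b - D a * I a + 2 * I b * (D a - D b)) := by
    have h2 : ‖∫ x in a..b, ((W' x : ℝ) : ℂ) * F x‖ ≤
        ∫ x in a..b, M * (W' x + 2 * I b * (-D' x)) := by
      refine intervalIntegral.norm_integral_le_of_norm_le hab ?_ ?_
      · refine Filter.Eventually.of_forall fun x hx => ?_
        have hx' : x ∈ Icc a b := ⟨hx.1.le, hx.2⟩
        rw [norm_mul, Complex.norm_real, mul_comm, Real.norm_eq_abs]
        have h3 : |W' x| ≤ W' x + 2 * I b * (-D' x) := by
          have hIx := hImono x hx'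
          have p1 : D' x * I b ≤ D' x * I x := mul_le_mul_of_nonpos_left hIx (hD1 x hx')
          have p2 : D' x * I b ≤ 0 :=
            mul_nonpos_of_nonpos_of_nonneg (hD1 x hx') (hI0 b hb)
          have p3 : 0 ≤ D x * I' x := mul_nonneg (hD0 x hx') (hI1 x hx')
          rw [hW', abs_le]
          constructor <;> simp only <;> nlinarith
        exact mul_le_mul (hM x hx') h3 (abs_nonneg _) hM0
      · exact (hWi.add ((hD'i.neg).const_mul (2 * I b))).const_mul M
    refine h2.trans (le_of_eq ?_)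
    have hneg : IntervalIntegrable (fun x => 2 * I b * (-D' x)) volume a b :=
      (hD'i.neg).const_mul (2 * I b)
    rw [intervalIntegral.integral_const_mul, intervalIntegral.integral_add hWi hneg,
      intervalIntegral.integral_const_mul, intervalIntegral.integral_neg, hWint, hDint]
    ring
  have h4 : ‖W b * F b‖ ≤ D b * I b * M := by
    rw [norm_mul, hW]
    simp only
    rw [Complex.norm_real, Real.norm_of_nonneg (mul_nonneg (hD0 b hb) (hI0 b hb))]
    exact mul_le_mul_of_nonneg_left (hM b hb) (mul_nonneg (hD0 b hb) (hI0 b hb))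
  refine (norm_sub_le _ _).trans ((add_le_add h4 h1).trans ?_)
  have h5 : 0 ≤ D a * I a * M := mul_nonneg (mul_nonneg (hD0 a ha) (hI0 a ha)) hM0
  nlinarith

theorem gg_deriv (t : ℝ) : HasDerivAt gg (-(8 * t * gg t ^ 2)) t := by
  unfold gg
  have h1 : HasDerivAt (fun t : ℝ => 1 + 4 * t ^ 2) (8 * t) t := by
    have h := ((hasDerivAt_pow 2 t).const_mul 4).const_add 1
    refine h.congr_deriv ?_
    norm_num
    ring
  have h2 := h1.inv (pos4 t).ne'
  refine h2.congr_deriv ?_
  have := (pos4 t).ne'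
  field_simp

theorem gg_cont : Continuous gg := by
  unfold gg
  exact Continuous.inv₀ (by fun_prop) fun t => (pos4 t).ne'

/-- the phase -/
noncomputable def phA (lam B t : ℝ) : ℝ := lam * t - 2 * B * (t * gg t)

/-- its derivative -/
noncomputable def phY (lam B t : ℝ) : ℝ := lam + 2 * B * ((4 * t ^ 2 - 1) * gg t ^ 2)

/-- its second derivative -/
noncomputable def phZ (B t : ℝ) : ℝ := -(2 * B * (8 * t * (4 * t ^ 2 - 3) * gg t ^ 3))

theorem gg_rel (t : ℝ) : (1 + 4 * t ^ 2) * gg t = 1 := by
  unfold gg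
  exact mul_inv_cancel₀ (pos4 t).ne'

theorem phA_deriv (lam B t : ℝ) : HasDerivAt (phA lam B) (phY lam B t) t := by
  unfold phA phY
  have h1 := (hasDerivAt_id t).const_mul lam
  have h2 := ((hasDerivAt_id t).mul (gg_deriv t)).const_mul (2 * B)
  refine (h1.sub h2).congr_deriv ?_
  have h3 := gg_rel t
  simp only [id]
  linear_combination (2 * B * gg t) * h3

theorem phY_deriv (lam B t : ℝ) : HasDerivAt (phY lam B) (phZ B t) t := by
  unfold phY phZ
  have h1 : HasDerivAt (fun t : ℝ => 4 * t ^ 2 - 1) (8 * t) t := by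
    have h := ((hasDerivAt_pow 2 t).const_mul 4).sub_const 1
    refine h.congr_deriv ?_
    norm_num
    ring
  have h2 := ((h1.mul ((gg_deriv t).pow 2)).const_mul (2 * B)).const_add lam
  refine h2.congr_deriv ?_
  have h3 := gg_rel t
  simp only [Pi.pow_apply]
  linear_combination (2 * B * (-8 * t * gg t ^ 2)) * h3

end Pool.Agent.T9h8.MS
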