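import Mathlib
import Pool.Agent.T9h8.MS.Ph
set_option autoImplicit false

/-!
# The oscillatory integrals of parallel wave packets
-/

namespace Pool.Agent.T9h8.MS

open MeasureTheory Set Complex
open scoped ENNReal NNReal ComplexConjugate

theorem gg_le (t : ℝ) : gg t ≤ 1 := by
  unfold gg
  exact inv_le_one_of_one_le₀ (by nlinarith [sq_nonneg t])

/-- half of the square root -/
noncomputable def hh (t : ℝ) : ℝ := Real.sqrt (gg t) / 2

theorem hh_pos (t : ℝ) : 0 < hh t := by
  unfold hh
  have := Real.sqrt_pos.2 (gg_pos t)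
  positivity

theorem hh_le_one (t : ℝ) : hh t ≤ 1 := by
  unfold hh
  have := sq1 (gg_le t)
  linarith

theorem hh_le {t a : ℝ} (ha : 0 < a) (hat : a ≤ |t|) : hh t ≤ 1 / (4 * a) := by
  unfold hh
  have h1 : gg t ≤ (1 / (2 * a)) ^ 2 := by
    unfold gg
    rw [one_div, inv_pow]
    refine inv_anti₀ (by positivity) ?_
    have h2 : a ^ 2 ≤ t ^ 2 := by
      rw [← sq_abs t]
      exact pow_le_pow_left₀ ha.le hat 2
    nlinarith
  have h3 : Real.sqrt (gg t) ≤ 1 / (2 * a) := by
    rw [← Real.sqrt_sq (by positivity : 0 ≤ 1 / (2 * a))]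
    exact Real.sqrt_le_sqrt h1
  calc Real.sqrt (gg t) / 2 ≤ 1 / (2 * a) / 2 := by linarith
    _ = 1 / (4 * a) := by
        field_simp
        norm_num

theorem gg_even (t : ℝ) : gg (-t) = gg t := by
  unfold gg
  rw [neg_sq]

/-- the integrand in time -/
noncomputable def Ps (m : ℕ) (lam B E t : ℝ) : ℂ :=
  ee (phA lam B t) * ((hh t ^ m * Real.exp (-(2 * Real.pi * E * gg t)) : ℝ) : ℂ)

theorem Ps_neg (m : ℕ) (lam B E t : ℝ) : Ps m lam B E (-t) = conj (Ps m lam B E t) := by
  unfold Ps
  rw [map_mul, ee_conj, Complex.conj_ofReal]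
  unfold phA hh
  rw [gg_even]
  congr 2
  ring

theorem Ps_neg2 (m : ℕ) (lam B E t : ℝ) : Ps m (-lam) (-B) E t = conj (Ps m lam B E t) := by
  unfold Ps
  rw [map_mul, ee_conj, Complex.conj_ofReal]
  unfold phA
  congr 2
  ring

theorem phA_cont (lam B : ℝ) : Continuous (phA lam B) :=
  continuous_iff_continuousAt.2 fun t => (phA_deriv lam B t).continuousAt

theorem hh_cont : Continuous hh := by
  unfold hh
  exact (Real.continuous_sqrt.comp gg_cont).div_const 2

theorem Ps_cont (m : ℕ) (lam B E : ℝ) : Continuous (Ps m lam B E) := by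
  unfold Ps
  have h1 := gg_cont
  have h2 := hh_cont
  have h3 := phA_cont lam B
  exact (ee_cont.comp h3).mul (Complex.continuous_ofReal.comp (by fun_prop))

theorem Ps_norm_le (m : ℕ) (lam B E t : ℝ) (hE : 0 ≤ E) : ‖Ps m lam B E t‖ ≤ hh t ^ m := by
  unfold Ps
  rw [norm_mul, ee_norm, one_mul, Complex.norm_real, Real.norm_of_nonneg (by
    have := hh_pos t
    positivity)]
  have h1 := gg_pos t
  have h2 := hh_pos t
  refine mul_le_of_le_one_right (by positivity) ?_
  rw [Real.exp_le_one_iff]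
  have := Real.pi_pos
  have : 0 ≤ 2 * Real.pi * E * gg t := by positivity
  linarith

/-- the integral with the amplitude -/
theorem Ps_int (m : ℕ) {lam B E a b M : ℝ} (ha : 1 ≤ a) (hab : a ≤ b) (hE : 0 ≤ E)
    (hM : ∀ x ∈ Icc a b, ‖∫ t in a..x, ee (phA lam B t)‖ ≤ M) :
    ‖∫ t in a..b, Ps m lam B E t‖ ≤ 2 * ((1 / (4 * a)) ^ m * M) := by
  have ha0 : 0 < a := by linarith
  have hM0 : 0 ≤ M := (norm_nonneg _).trans (hM a ⟨le_rfl, hab⟩)
  set h' : ℝ → ℝ := fun t => (-(8 * t * gg t ^ 2)) / (2 * Real.sqrt (gg t)) / 2 with hh'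
  have hd1 : ∀ t, HasDerivAt hh (h' t) t := fun t =>
    ((gg_deriv t).sqrt (gg_pos t).ne').div_const 2
  set D' : ℝ → ℝ := fun t => (m : ℝ) * hh t ^ (m - 1) * h' t with hD'
  set I' : ℝ → ℝ := fun t => Real.exp (-(2 * Real.pi * E * gg t)) *
    (-(2 * Real.pi * E * (-(8 * t * gg t ^ 2)))) with hI'
  have hg := gg_cont
  have hhc := hh_cont
  have hh'c : Continuous h' := by
    rw [hh']
    refine Continuous.div_const (Continuous.div (by fun_prop) (by fun_prop) fun t => ?_) 2
    have := Real.sqrt_pos.2 (gg_pos t)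
    positivity
  have hpi := Real.pi_pos
  have h := amp (M := M) hab (fun t => ee (phA lam B t)) (ee_cont.comp (phA_cont lam B))
    (fun t => hh t ^ m) (fun t => Real.exp (-(2 * Real.pi * E * gg t))) D' I'
    (fun x _ => (hd1 x).pow m)
    (fun x _ => (((gg_deriv x).const_mul (2 * Real.pi * E)).neg).exp)
    (by
      rw [hD']
      exact (((continuous_const.mul (hhc.pow _)).mul hh'c)).continuousOn)
    (by
      rw [hI']
      exact Continuous.continuousOn (by fun_prop))
    (fun x _ => by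
      have := hh_pos x
      positivity)
    (fun x _ => (Real.exp_pos _).le)
    (fun x hx => by
      have hx0 : 0 < x := by linarith [hx.1]
      have h1 := hh_pos x
      have h2 := gg_pos x
      have h3 := Real.sqrt_pos.2 (gg_pos x)
      rw [hD']
      refine mul_nonpos_of_nonneg_of_nonpos (by positivity) ?_
      rw [hh']
      simp only
      rw [neg_div, neg_div, neg_nonpos]
      positivity)
    (fun x hx => by
      have hx0 : 0 < x := by linarith [hx.1]
      have h2 := gg_pos x
      have h6 : I' x = Real.exp (-(2 * Real.pi * E * gg x)) *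
          (2 * Real.pi * E * (8 * x * gg x ^ 2)) := by
        rw [hI']
        ring
      rw [h6]
      positivity)
    hM
  have e1 : ∫ t in a..b, Ps m lam B E t = ∫ t in a..b, (fun t => ee (phA lam B t)) t *
      (((fun t => hh t ^ m) t * (fun t => Real.exp (-(2 * Real.pi * E * gg t))) t : ℝ) : ℂ) := rfl
  rw [e1]
  refine h.trans ?_
  refine mul_le_mul_of_nonneg_left ?_ (by norm_num)
  refine mul_le_mul_of_nonneg_right ?_ hM0
  have h4 : hh a ^ m ≤ (1 / (4 * a)) ^ m :=
    pow_le_pow_left₀ (hh_pos a).le (hh_le ha0 (le_abs_self a)) m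
  have h5 : Real.exp (-(2 * Real.pi * E * gg b)) ≤ 1 := by
    rw [Real.exp_le_one_iff]
    have := gg_pos b
    have : 0 ≤ 2 * Real.pi * E * gg b := by positivity
    linarith
  calc hh a ^ m * Real.exp (-(2 * Real.pi * E * gg b)) ≤ (1 / (4 * a)) ^ m * 1 :=
        mul_le_mul h4 h5 (Real.exp_pos _).le (by positivity)
    _ = _ := mul_one _

theorem phY_cont (lam B : ℝ) : Continuous (phY lam B) :=
  continuous_iff_continuousAt.2 fun t => (phY_deriv lam B t).continuousAt

theorem phZ_cont (B : ℝ) : Continuous (phZ B) := by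
  unfold phZ
  have := gg_cont
  fun_prop

/-- the first derivative test, monotone case -/
theorem mono_phase {lam B a x : ℝ} (hlam : 0 < lam) (hB : 0 ≤ B) (ha : 1 ≤ a) (hax : a ≤ x) :
    ‖∫ t in a..x, ee (phA lam B t)‖ ≤ 1 / (Real.pi * lam) := by
  simp_rw [ee_eq_e]
  refine Pool.Agent.Helper523.UF.first_deriv hax hlam (phA lam B) (phY lam B) (phZ B)
    (fun t _ => phA_deriv lam B t) (fun t _ => phY_deriv lam B t) (phZ_cont B).continuousOn
    ?_ (Or.inr ?_)
  · intro t ht
    unfold phY
    have h1 := gg_pos t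
    have h2 : 0 ≤ 4 * t ^ 2 - 1 := by nlinarith [ht.1]
    have : 0 ≤ 2 * B * ((4 * t ^ 2 - 1) * gg t ^ 2) := by positivity
    linarith
  · intro t ht
    unfold phZ
    have h1 := gg_pos t
    have h0 : 0 < t := by linarith [ht.1]
    have h2 : 0 ≤ 4 * t ^ 2 - 3 := by nlinarith [ht.1]
    have : 0 ≤ 2 * B * (8 * t * (4 * t ^ 2 - 3) * gg t ^ 3) := by positivity
    linarith

/-- the general case -/
theorem gen_phase {lam B a b x : ℝ} (hlam : 0 < lam) (ha : 1 ≤ a) (hx : x ∈ Icc a b)
    (hb : b ≤ 2 * a) : ‖∫ t in a..x, ee (phA lam B t)‖ ≤ 24 * Real.sqrt (a / lam) := by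
  have ha0 : 0 < a := by linarith
  have hax := hx.1
  have hxb : x ≤ 2 * a := hx.2.trans hb
  have hpi := Real.pi_gt_three
  have hs0 : 0 ≤ Real.sqrt (a / lam) := Real.sqrt_nonneg _
  have htriv : ‖∫ t in a..x, ee (phA lam B t)‖ ≤ a := by
    simp_rw [ee_eq_e]
    exact (Pool.Agent.Helper523.UF.norm_int_trivial hax _).trans (by linarith)
  have hcomb : ∀ c : ℝ, ‖∫ t in a..x, ee (phA lam B t)‖ ≤ c / lam → 0 ≤ c → c ≤ 1 →
      ‖∫ t in a..x, ee (phA lam B t)‖ ≤ 24 * Real.sqrt (a / lam) := by
    intro c hc hc0 hc1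
    set X := ‖∫ t in a..x, ee (phA lam B t)‖ with hX
    have hX0 : 0 ≤ X := norm_nonneg _
    have h1 : X ^ 2 ≤ a / lam := by
      calc X ^ 2 = X * X := sq X
        _ ≤ a * (c / lam) := mul_le_mul htriv hc hX0 ha0.le
        _ ≤ a * (1 / lam) := by
            refine mul_le_mul_of_nonneg_left ?_ ha0.le
            exact div_le_div_of_nonneg_right hc1 hlam.le
        _ = a / lam := by ring
    have h2 : X ≤ Real.sqrt (a / lam) := Real.le_sqrt_of_sq_le h1
    linarith
  rcases le_or_gt 0 B with hB | hB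
  · refine hcomb (1 / Real.pi) ?_ (by positivity) ?_
    · refine (mono_phase hlam hB ha hax).trans (le_of_eq ?_)
      field_simp
    · rw [div_le_one (by linarith)]
      linarith
  have hpsi : ∀ t ∈ Icc a x, (4 * t ^ 2 - 1) * gg t ^ 2 ≤ (4 * a ^ 2 - 1) * gg a ^ 2 := by
    have hanti : AntitoneOn (fun t : ℝ => (4 * t ^ 2 - 1) * gg t ^ 2) (Icc a x) := by
      have hder : ∀ t, HasDerivAt (fun t : ℝ => (4 * t ^ 2 - 1) * gg t ^ 2)
          (-(8 * t * (4 * t ^ 2 - 3) * gg t ^ 3)) t := by
        intro t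
        have h := phY_deriv 0 (1 / 2) t
        unfold phY phZ at h
        refine (h.congr_deriv (by ring)).congr_of_eventuallyEq
          (Filter.Eventually.of_forall fun t => ?_)
        simp only
        ring
      refine antitoneOn_of_deriv_nonpos (convex_Icc a x)
        (fun t _ => (hder t).continuousAt.continuousWithinAt)
        (fun t _ => (hder t).differentiableAt.differentiableWithinAt) ?_
      intro t ht
      rw [interior_Icc] at ht
      rw [(hder t).deriv]
      have h1 := gg_pos t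
      have h0 : 0 < t := by linarith [ht.1]
      have h2 : 0 ≤ 4 * t ^ 2 - 3 := by nlinarith [ht.1]
      have : 0 ≤ 8 * t * (4 * t ^ 2 - 3) * gg t ^ 3 := by positivity
      linarith
    intro t ht
    exact hanti ⟨le_rfl, hax⟩ ht ht.1
  rcases le_or_gt (2 * (-B) * ((4 * a ^ 2 - 1) * gg a ^ 2)) (lam / 2) with h | h
  · refine hcomb (2 / Real.pi) ?_ (by positivity) ?_
    · simp_rw [ee_eq_e]
      refine (Pool.Agent.Helper523.UF.first_deriv (Y := lam / 2) hax (by linarith) (phA lam B)
        (phY lam B) (phZ B) (fun t _ => phA_deriv lam B t) (fun t _ => phY_deriv lam B t)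
        (phZ_cont B).continuousOn ?_ (Or.inl ?_)).trans (le_of_eq ?_)
      · intro t ht
        unfold phY
        have h1 := hpsi t ht
        have h2 : 2 * (-B) * ((4 * t ^ 2 - 1) * gg t ^ 2) ≤
            2 * (-B) * ((4 * a ^ 2 - 1) * gg a ^ 2) :=
          mul_le_mul_of_nonneg_left h1 (by linarith)
        linarith
      · intro t ht
        unfold phZ
        have h1 := gg_pos t
        have h0 : 0 < t := by linarith [ht.1]
        have h2 : 0 ≤ 4 * t ^ 2 - 3 := by nlinarith [ht.1]
        have h3 : 0 ≤ 8 * t * (4 * t ^ 2 - 3) * gg t ^ 3 := by positivity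
        nlinarith
      · field_simp
    · rw [div_le_one (by linarith)]
      linarith
  · -- second derivative test
    have hBa : lam * a ^ 2 ≤ -B := by
      have h1 : (4 * a ^ 2 - 1) * gg a ^ 2 ≤ 1 / (4 * a ^ 2) := by
        have h2 := gg_rel a
        have h3 := gg_pos a
        rw [le_div_iff₀ (by positivity)]
        have h4 : (4 * a ^ 2) * gg a ≤ 1 := by nlinarith
        have h5 : 0 ≤ (4 * a ^ 2) * gg a := by positivity
        nlinarith [mul_nonneg h5 h3.le, sq_nonneg (gg a)]
      have h6 : lam / 2 < 2 * (-B) * (1 / (4 * a ^ 2)) :=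
        lt_of_lt_of_le h (mul_le_mul_of_nonneg_left h1 (by linarith))
      have h7 : 2 * (-B) * (1 / (4 * a ^ 2)) = (-B) / (2 * a ^ 2) := by
        field_simp
        ring
      rw [h7, lt_div_iff₀ (by positivity)] at h6
      nlinarith
    set μ : ℝ := 2 * lam / (125 * a) with hμ
    have hμ0 : 0 < μ := by positivity
    have hz : ∀ t ∈ Icc a x, μ ≤ phZ B t := by
      intro t ht
      have h0 : 0 < t := by linarith [ht.1]
      have h1 := gg_pos t
      have ht1 : 1 ≤ t := by linarith [ht.1]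
      have ht2 : t ≤ 2 * a := ht.2.trans hxb
      have h2 : 1 / (5 * t ^ 2) ≤ gg t := by
        unfold gg
        rw [one_div]
        refine inv_anti₀ (by positivity) (by nlinarith)
      have h3 : t ^ 2 ≤ 4 * t ^ 2 - 3 := by nlinarith
      have h4 : 8 * t * t ^ 2 * (1 / (5 * t ^ 2)) ^ 3 ≤ 8 * t * (4 * t ^ 2 - 3) * gg t ^ 3 := by
        refine mul_le_mul ?_ (pow_le_pow_left₀ (by positivity) h2 3) (by positivity) ?_
        · exact mul_le_mul_of_nonneg_left h3 (by positivity)
        · have : 0 ≤ 4 * t ^ 2 - 3 := by nlinarith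
          positivity
      have h5 : 8 * t * t ^ 2 * (1 / (5 * t ^ 2)) ^ 3 = 8 / (125 * t ^ 3) := by
        field_simp
        norm_num
      have h6 : 8 / (125 * (2 * a) ^ 3) ≤ 8 / (125 * t ^ 3) := by
        refine div_le_div_of_nonneg_left (by norm_num) (by positivity) ?_
        refine mul_le_mul_of_nonneg_left ?_ (by norm_num)
        exact pow_le_pow_left₀ h0.le ht2 3
      have h7 : 8 / (125 * (2 * a) ^ 3) = 1 / (125 * a ^ 3) := by
        field_simp
        norm_num
      rw [h5] at h4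
      have h8 : 1 / (125 * a ^ 3) ≤ 8 * t * (4 * t ^ 2 - 3) * gg t ^ 3 := by
        rw [← h7]
        exact h6.trans h4
      unfold phZ
      have h9 : 2 * (lam * a ^ 2) * (1 / (125 * a ^ 3)) ≤
          2 * (-B) * (8 * t * (4 * t ^ 2 - 3) * gg t ^ 3) :=
        mul_le_mul (by linarith) h8 (by positivity) (by linarith)
      have h10 : 2 * (lam * a ^ 2) * (1 / (125 * a ^ 3)) = μ := by
        rw [hμ]
        field_simp
      rw [h10] at h9
      linarith
    have h11 : ‖∫ t in a..x, ee (phA lam B t)‖ ≤ 3 / Real.sqrt μ := by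
      simp_rw [ee_eq_e]
      exact Pool.Agent.Helper523.UF.second_deriv hax hμ0 (phA lam B) (phY lam B) (phZ B)
        (fun t _ => phA_deriv lam B t) (fun t _ => phY_deriv lam B t) (phZ_cont B).continuousOn hz
    refine h11.trans ?_
    have h12 : 0 < Real.sqrt μ := Real.sqrt_pos.2 hμ0
    rw [div_le_iff₀ h12, mul_assoc, ← Real.sqrt_mul (by positivity)]
    have h13 : a / lam * μ = 2 / 125 := by
      rw [hμ]
      field_simp
    rw [h13]
    have h14 : (1 : ℝ) / 8 ≤ Real.sqrt (2 / 125) := by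
      refine Real.le_sqrt_of_sq_le (by norm_num)
    linarith

end Pool.Agent.T9h8.MS
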