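import Mathlib
import Pool.Agent.T9h8.PP.Gauss
import Pool.Agent.T9h8.MS.L4
set_option autoImplicit false

/-!
# Functions of bounded variation: Fourier transform and Gaussian regularisation
-/

namespace Pool.Agent.T9h8.MS

open MeasureTheory Set Complex
open scoped ENNReal NNReal ComplexConjugate

/-- a family of functions of bounded variation, supported in `[-1,1]` -/
structure BB (V : ℝ) (b : ℝ → ℝ → ℂ) : Prop where
  meas : Measurable (Function.uncurry b)
  bd : ∀ u v, ‖b u v‖ ≤ 1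
  supp : ∀ u v, v ∉ Icc (-1 : ℝ) 1 → b u v = 0
  var : ∀ u h, ∫⁻ v, ‖b u (v + h) - b u v‖ₑ ≤ ENNReal.ofReal (V * |h|)

/-- the Fourier transform in the second variable -/
noncomputable def bh (b : ℝ → ℝ → ℂ) (u ρ : ℝ) : ℂ := ∫ v, b u v * ee (-(ρ * v))

/-- the regularised function -/
noncomputable def bD (D : ℝ) (b : ℝ → ℝ → ℂ) (u v : ℝ) : ℂ :=
  ∫ ρ, bh b u ρ * ((Real.exp (-Real.pi * D * ρ ^ 2) : ℝ) : ℂ) * ee (ρ * v)

/-- the Gaussian kernel -/
noncomputable def GD (D x : ℝ) : ℝ := (Real.sqrt D)⁻¹ * Real.exp (-Real.pi / D * x ^ 2)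

theorem ee_meas {X : Type*} [MeasurableSpace X] {f : X → ℝ} (hf : Measurable f) :
    Measurable fun x => ee (f x) := by
  have h := ee_cont.measurable.comp hf
  exact h

section

variable {V : ℝ} {b : ℝ → ℝ → ℂ}

theorem BB.meas_v (hb : BB V b) (u : ℝ) : Measurable (b u) :=
  hb.meas.comp (measurable_const.prodMk measurable_id)

theorem BB.ind (hb : BB V b) (u : ℝ) : b u = (Icc (-1 : ℝ) 1).indicator (b u) := by
  ext v
  by_cases h : v ∈ Icc (-1 : ℝ) 1
  · rw [indicator_of_mem h]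
  · rw [indicator_of_notMem h, hb.supp u v h]

theorem fin11 : IsFiniteMeasure ((volume : Measure ℝ).restrict (Icc (-1 : ℝ) 1)) :=
  ⟨by rw [Measure.restrict_apply_univ, Real.volume_Icc]; exact ENNReal.ofReal_lt_top⟩

theorem BB.int (hb : BB V b) (u : ℝ) : Integrable (b u) := by
  have := fin11
  rw [hb.ind u, integrable_indicator_iff measurableSet_Icc]
  exact (memLp_top_of_bound (hb.meas_v u).aestronglyMeasurable 1
    (Filter.Eventually.of_forall fun v => hb.bd u v)).integrable le_top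

theorem BB.norm_int (hb : BB V b) (u : ℝ) : ∫ v, ‖b u v‖ ≤ 2 := by
  have := fin11
  have h1 : ∫ v, ‖b u v‖ = ∫ v in Icc (-1 : ℝ) 1, ‖b u v‖ := by
    rw [← integral_indicator measurableSet_Icc]
    congr 1
    ext v
    by_cases h : v ∈ Icc (-1 : ℝ) 1
    · rw [indicator_of_mem h]
    · rw [indicator_of_notMem h, hb.supp u v h, norm_zero]
  rw [h1]
  calc ∫ v in Icc (-1 : ℝ) 1, ‖b u v‖ ≤ ∫ v in Icc (-1 : ℝ) 1, (1 : ℝ) :=
        setIntegral_mono_on (hb.int u).norm.integrableOn (integrable_const 1)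
          measurableSet_Icc fun v _ => hb.bd u v
    _ = 2 := by
        rw [setIntegral_const, measureReal_def, Real.volume_Icc,
          ENNReal.toReal_ofReal (by norm_num)]
        norm_num

theorem bh_meas (hb : BB V b) : Measurable (Function.uncurry (bh b)) := by
  have h1 : Measurable fun p : (ℝ × ℝ) × ℝ => b p.1.1 p.2 * ee (-(p.1.2 * p.2)) := by
    have hp : Measurable fun p : (ℝ × ℝ) × ℝ => (p.1.1, p.2) := by fun_prop
    have h2 := hb.meas.comp hp
    have h3 : Measurable fun p : (ℝ × ℝ) × ℝ => ee (-(p.1.2 * p.2)) := ee_meas (by fun_prop)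
    exact h2.mul h3
  exact h1.stronglyMeasurable.integral_prod_right.measurable

theorem bh_norm2 (hb : BB V b) (u ρ : ℝ) : ‖bh b u ρ‖ ≤ 2 := by
  unfold bh
  refine (norm_integral_le_integral_norm _).trans ?_
  simp_rw [norm_mul, ee_norm, mul_one]
  exact hb.norm_int u

theorem ee_half : ee (1 / 2) = -1 := by
  unfold ee
  have : (2 * Real.pi * I * ((1 / 2 : ℝ) : ℂ)) = Real.pi * I := by
    push_cast
    ring
  rw [this, Complex.exp_pi_mul_I]

theorem bh_decay (hb : BB V b) (hV : 0 ≤ V) (u ρ : ℝ) (hρ : ρ ≠ 0) :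
    ‖bh b u ρ‖ ≤ V / (4 * |ρ|) := by
  set h : ℝ := 1 / (2 * ρ) with hh
  have hi1 : Integrable fun v => b u v * ee (-(ρ * v)) :=
    (hb.int u).mul_bdd (c := 1) (ee_meas (f := fun v : ℝ => -(ρ * v)) (by fun_prop)).aestronglyMeasurable
      (Filter.Eventually.of_forall fun v => (ee_norm _).le)
  have hi2 : Integrable fun v => b u (v + h) * ee (-(ρ * v)) :=
    ((hb.int u).comp_add_right h).mul_bdd (c := 1)
      (ee_meas (f := fun v : ℝ => -(ρ * v)) (by fun_prop)).aestronglyMeasurable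
      (Filter.Eventually.of_forall fun v => (ee_norm _).le)
  have e1 : ∫ v, b u (v + h) * ee (-(ρ * v)) = -bh b u ρ := by
    unfold bh
    rw [← integral_sub_right_eq_self _ h, ← integral_neg]
    congr 1
    ext v
    rw [sub_add_cancel]
    have : ee (-(ρ * (v - h))) = -ee (-(ρ * v)) := by
      have h2 : -(ρ * (v - h)) = -(ρ * v) + 1 / 2 := by
        rw [hh]
        field_simp
        ring
      rw [h2, ee_add, ee_half]
      ring
    rw [this]
    ring
  have e2 : ∫ v, (b u (v + h) - b u v) * ee (-(ρ * v)) = -(2 * bh b u ρ) := by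
    simp_rw [sub_mul]
    rw [integral_sub hi2 hi1, e1]
    unfold bh
    ring
  have e3 : ‖∫ v, (b u (v + h) - b u v) * ee (-(ρ * v))‖ ≤ V * |h| := by
    have h3 : ‖∫ v, (b u (v + h) - b u v) * ee (-(ρ * v))‖ₑ ≤ ENNReal.ofReal (V * |h|) := by
      refine (enorm_integral_le_lintegral_enorm _).trans ?_
      simp_rw [enorm_mul, ee_enorm, mul_one]
      exact hb.var u h
    rw [← ofReal_norm] at h3
    exact (ENNReal.ofReal_le_ofReal_iff (by positivity)).1 h3
  rw [e2, norm_neg, norm_mul] at e3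
  have h4 : ‖(2 : ℂ)‖ = 2 := by norm_num
  rw [h4, hh, abs_div, abs_one, abs_mul, abs_two] at e3
  have hρ' : 0 < |ρ| := abs_pos.2 hρ
  rw [le_div_iff₀ (by positivity)]
  have h5 : V * (1 / (2 * |ρ|)) * (2 * |ρ|) = V := by field_simp
  nlinarith [mul_le_mul_of_nonneg_right e3 (by positivity : (0 : ℝ) ≤ 2 * |ρ|)]

/-- the weight -/
noncomputable def WW (V ρ : ℝ) : ℝ := (4 + V) / (1 + |ρ|)

theorem WW_pos (hV : 0 ≤ V) (ρ : ℝ) : 0 < WW V ρ := by
  unfold WW
  positivity

theorem WW_meas : Measurable (WW V) := by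
  unfold WW
  fun_prop

theorem bh_le (hb : BB V b) (hV : 0 ≤ V) (u ρ : ℝ) : ‖bh b u ρ‖ ≤ WW V ρ := by
  unfold WW
  rw [le_div_iff₀ (by positivity)]
  rcases le_or_gt |ρ| 1 with h | h
  · have := bh_norm2 hb u ρ
    have h0 := norm_nonneg (bh b u ρ)
    nlinarith [abs_nonneg ρ]
  · have hρ : ρ ≠ 0 := by
      intro h0
      rw [h0, abs_zero] at h
      linarith
    have h1 := bh_decay hb hV u ρ hρ
    rw [le_div_iff₀ (by positivity)] at h1
    have h0 := norm_nonneg (bh b u ρ)
    nlinarith [abs_nonneg ρ]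

end

section reg

variable {D : ℝ} (hD : 0 < D)

include hD

theorem GD_nonneg (x : ℝ) : 0 ≤ GD D x := by
  unfold GD
  positivity

theorem GD_ft (x : ℝ) : ∫ ρ : ℝ, ((Real.exp (-Real.pi * D * ρ ^ 2) : ℝ) : ℂ) * ee (ρ * x) =
    ((GD D x : ℝ) : ℂ) := by
  have h := Pool.Agent.T9h8.PP.one_dim D hD x
  unfold GD
  rw [← h]
  congr 1
  ext ρ
  rw [mul_comm]
  rfl

theorem exp_int : Integrable fun ρ : ℝ => Real.exp (-Real.pi * D * ρ ^ 2) := by
  have h := integrable_exp_neg_mul_sq (b := Real.pi * D) (by positivity)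
  simpa [neg_mul] using h

theorem GD_int : Integrable (GD D) := by
  unfold GD
  have h := (integrable_exp_neg_mul_sq (b := Real.pi / D) (by positivity)).const_mul
    (Real.sqrt D)⁻¹
  refine h.congr (Filter.Eventually.of_forall fun x => ?_)
  simp only
  congr 2
  ring

theorem GD_one : ∫ x, GD D x = 1 := by
  unfold GD
  rw [integral_const_mul]
  have h2 := integral_gaussian (Real.pi / D)
  have h3 : ∫ x : ℝ, Real.exp (-Real.pi / D * x ^ 2) = Real.sqrt (Real.pi / (Real.pi / D)) := by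
    rw [← h2]
    congr 1
    ext x
    congr 1
    ring
  have hpi := Real.pi_pos
  rw [h3, show Real.pi / (Real.pi / D) = D by field_simp]
  exact inv_mul_cancel₀ (Real.sqrt_pos.2 hD).ne'

theorem GD_one' : ∫⁻ x, ENNReal.ofReal (GD D x) = 1 := by
  rw [← ofReal_integral_eq_lintegral_ofReal (GD_int hD)
    (Filter.Eventually.of_forall fun x => GD_nonneg hD x), GD_one hD, ENNReal.ofReal_one]

theorem GD_mom : ∫⁻ x, ENNReal.ofReal (GD D x * |x|) ≤ ENNReal.ofReal (2 * Real.sqrt D) := by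
  have hs : 0 < Real.sqrt D := Real.sqrt_pos.2 hD
  have hpi := Real.pi_pos
  have hsq : Real.sqrt D ^ 2 = D := Real.sq_sqrt hD.le
  have h1 : ∀ x, GD D x * |x| ≤ Real.exp (-(Real.pi / (2 * D)) * x ^ 2) := by
    intro x
    set r : ℝ := |x| / Real.sqrt D with hr
    have hr0 : 0 ≤ r := by positivity
    have hr2 : r ^ 2 = x ^ 2 / D := by rw [hr, div_pow, sq_abs, hsq]
    have h2 : r ≤ Real.exp (Real.pi / 2 * r ^ 2) := by
      have h3 := Real.add_one_le_exp (Real.pi / 2 * r ^ 2)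
      have h4 := Real.pi_gt_three
      nlinarith [sq_nonneg (r - 1)]
    have h5 : GD D x * |x| = r * Real.exp (-Real.pi / D * x ^ 2) := by
      unfold GD
      rw [hr]
      field_simp
    rw [h5]
    calc r * Real.exp (-Real.pi / D * x ^ 2) ≤
        Real.exp (Real.pi / 2 * r ^ 2) * Real.exp (-Real.pi / D * x ^ 2) :=
          mul_le_mul_of_nonneg_right h2 (Real.exp_pos _).le
      _ = _ := by
          rw [← Real.exp_add, hr2]
          congr 1
          field_simp
          ring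
  have hi : Integrable fun x : ℝ => Real.exp (-(Real.pi / (2 * D)) * x ^ 2) :=
    integrable_exp_neg_mul_sq (by positivity)
  refine (lintegral_mono fun x => ENNReal.ofReal_le_ofReal (h1 x)).trans ?_
  rw [← ofReal_integral_eq_lintegral_ofReal hi
    (Filter.Eventually.of_forall fun x => (Real.exp_pos _).le), integral_gaussian]
  refine ENNReal.ofReal_le_ofReal ?_
  have h6 : Real.pi / (Real.pi / (2 * D)) = 2 * D := by field_simp
  rw [h6]
  refine Real.sqrt_le_iff.2 ⟨by positivity, ?_⟩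
  rw [mul_pow, hsq]
  linarith

variable {V : ℝ} {b : ℝ → ℝ → ℂ}

theorem bD_eq (hb : BB V b) (u v : ℝ) : bD D b u v = ∫ h, b u (v + h) * ((GD D h : ℝ) : ℂ) := by
  unfold bD bh
  have hm : Measurable fun p : ℝ × ℝ => b u p.2 * ee (-(p.1 * p.2)) *
      ((Real.exp (-Real.pi * D * p.1 ^ 2) : ℝ) : ℂ) * ee (p.1 * v) := by
    have h1 : Measurable fun p : ℝ × ℝ => b u p.2 := (hb.meas_v u).comp measurable_snd
    have h2 : Measurable fun p : ℝ × ℝ => ee (-(p.1 * p.2)) := ee_meas (by fun_prop)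
    have h3 : Measurable fun p : ℝ × ℝ => ee (p.1 * v) := ee_meas (by fun_prop)
    have h4 : Measurable fun p : ℝ × ℝ => ((Real.exp (-Real.pi * D * p.1 ^ 2) : ℝ) : ℂ) := by
      fun_prop
    exact ((h1.mul h2).mul h4).mul h3
  have hint : Integrable (fun p : ℝ × ℝ => b u p.2 * ee (-(p.1 * p.2)) *
      ((Real.exp (-Real.pi * D * p.1 ^ 2) : ℝ) : ℂ) * ee (p.1 * v)) (volume.prod volume) := by
    have h1 := (exp_int hD).mul_prod (hb.int u).norm
    refine h1.mono hm.aestronglyMeasurable (Filter.Eventually.of_forall fun p => ?_)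
    rw [norm_mul, norm_mul, norm_mul, ee_norm, ee_norm, mul_one, mul_one, Complex.norm_real,
      norm_mul, norm_norm, mul_comm]
  calc ∫ ρ, (∫ w, b u w * ee (-(ρ * w))) * ((Real.exp (-Real.pi * D * ρ ^ 2) : ℝ) : ℂ) *
        ee (ρ * v)
      = ∫ ρ, ∫ w, b u w * ee (-(ρ * w)) * ((Real.exp (-Real.pi * D * ρ ^ 2) : ℝ) : ℂ) *
        ee (ρ * v) := by
        congr 1
        ext ρ
        rw [← integral_mul_const, ← integral_mul_const]
    _ = ∫ w, ∫ ρ, b u w * ee (-(ρ * w)) * ((Real.exp (-Real.pi * D * ρ ^ 2) : ℝ) : ℂ) *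
        ee (ρ * v) := integral_integral_swap hint
    _ = ∫ w, b u w * ((GD D (w - v) : ℝ) : ℂ) := by
        congr 1
        ext w
        have h1 : GD D (w - v) = GD D (v - w) := by
          unfold GD
          congr 2
          ring
        rw [h1, ← GD_ft hD, ← integral_const_mul]
        congr 1
        ext ρ
        have : ee (ρ * (v - w)) = ee (-(ρ * w)) * ee (ρ * v) := by
          rw [← ee_add]
          congr 1
          ring
        rw [this]
        ring
    _ = ∫ h, b u (v + h) * ((GD D h : ℝ) : ℂ) := by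
        rw [← integral_add_left_eq_self (fun w => b u w * ((GD D (w - v) : ℝ) : ℂ)) v]
        congr 1
        ext h
        rw [add_sub_cancel_left]

theorem bD_norm (hb : BB V b) (u v : ℝ) : ‖bD D b u v‖ ≤ 1 := by
  rw [bD_eq hD hb]
  refine (norm_integral_le_integral_norm _).trans ?_
  rw [← GD_one hD]
  refine integral_mono_of_nonneg (Filter.Eventually.of_forall fun h => norm_nonneg _)
    (GD_int hD) (Filter.Eventually.of_forall fun h => ?_)
  simp only
  rw [norm_mul, Complex.norm_real, Real.norm_of_nonneg (GD_nonneg hD _)]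
  exact mul_le_of_le_one_left (GD_nonneg hD _) (hb.bd _ _)

omit hD in
theorem bD_meas (hb : BB V b) : Measurable (Function.uncurry (bD D b)) := by
  have h1 : Measurable fun p : (ℝ × ℝ) × ℝ => bh b p.1.1 p.2 *
      ((Real.exp (-Real.pi * D * p.2 ^ 2) : ℝ) : ℂ) * ee (p.2 * p.1.2) := by
    have hp : Measurable fun p : (ℝ × ℝ) × ℝ => (p.1.1, p.2) := by fun_prop
    have h2 := (bh_meas hb).comp hp
    have h3 : Measurable fun p : (ℝ × ℝ) × ℝ => ee (p.2 * p.1.2) := ee_meas (by fun_prop)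
    have h4 : Measurable fun p : (ℝ × ℝ) × ℝ =>
        ((Real.exp (-Real.pi * D * p.2 ^ 2) : ℝ) : ℂ) := by fun_prop
    exact (h2.mul h4).mul h3
  exact h1.stronglyMeasurable.integral_prod_right.measurable

theorem bD_err1 (hb : BB V b) (hV : 0 ≤ V) (u : ℝ) :
    ∫⁻ v, ‖b u v - bD D b u v‖ₑ ≤ ENNReal.ofReal (V * (2 * Real.sqrt D)) := by
  have hGm : Measurable (GD D) := by
    unfold GD
    fun_prop
  have hi1 : ∀ v, Integrable fun h => b u v * ((GD D h : ℝ) : ℂ) := fun v =>
    (GD_int hD).ofReal.const_mul _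
  have hi2 : ∀ v, Integrable fun h => b u (v + h) * ((GD D h : ℝ) : ℂ) := fun v =>
    (GD_int hD).ofReal.bdd_mul (c := 1)
      ((hb.meas_v u).comp (by fun_prop : Measurable fun h : ℝ => v + h)).aestronglyMeasurable
      (Filter.Eventually.of_forall fun h => hb.bd _ _)
  have h1 : ∀ v, ‖b u v - bD D b u v‖ₑ ≤
      ∫⁻ h, ‖b u (v + h) - b u v‖ₑ * ENNReal.ofReal (GD D h) := by
    intro v
    have e1 : b u v - bD D b u v = ∫ h, (b u v - b u (v + h)) * ((GD D h : ℝ) : ℂ) := by
      simp_rw [sub_mul]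
      rw [integral_sub (hi1 v) (hi2 v), ← bD_eq hD hb, integral_const_mul]
      have h5 : ∫ h, ((GD D h : ℝ) : ℂ) = ((∫ h, GD D h : ℝ) : ℂ) := integral_ofReal
      rw [h5, GD_one hD, Complex.ofReal_one, mul_one]
    rw [e1]
    refine (enorm_integral_le_lintegral_enorm _).trans (le_of_eq ?_)
    refine lintegral_congr fun h => ?_
    rw [enorm_mul, enorm_sub_rev]
    congr 1
    rw [← ofReal_norm, Complex.norm_real, Real.norm_of_nonneg (GD_nonneg hD _)]
  have hm : Measurable fun p : ℝ × ℝ => ‖b u (p.1 + p.2) - b u p.1‖ₑ * ENNReal.ofReal (GD D p.2) := by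
    have h2 : Measurable fun p : ℝ × ℝ => b u (p.1 + p.2) :=
      (hb.meas_v u).comp (measurable_fst.add measurable_snd)
    have h3 : Measurable fun p : ℝ × ℝ => b u p.1 := (hb.meas_v u).comp measurable_fst
    exact (h2.sub h3).enorm.mul (ENNReal.measurable_ofReal.comp (hGm.comp measurable_snd))
  calc ∫⁻ v, ‖b u v - bD D b u v‖ₑ
      ≤ ∫⁻ v, ∫⁻ h, ‖b u (v + h) - b u v‖ₑ * ENNReal.ofReal (GD D h) := lintegral_mono h1
    _ = ∫⁻ h, ∫⁻ v, ‖b u (v + h) - b u v‖ₑ * ENNReal.ofReal (GD D h) :=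
        lintegral_lintegral_swap hm.aemeasurable
    _ ≤ ∫⁻ h, ENNReal.ofReal V * ENNReal.ofReal (GD D h * |h|) := by
        refine lintegral_mono fun h => ?_
        have hmv : Measurable fun v => ‖b u (v + h) - b u v‖ₑ :=
          (((hb.meas_v u).comp (measurable_id.add measurable_const)).sub (hb.meas_v u)).enorm
        rw [lintegral_mul_const _ hmv, ← ENNReal.ofReal_mul hV]
        refine (mul_le_mul' (hb.var u h) le_rfl).trans (le_of_eq ?_)
        rw [← ENNReal.ofReal_mul (by positivity)]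
        congr 1
        ring
    _ = ENNReal.ofReal V * ∫⁻ h, ENNReal.ofReal (GD D h * |h|) :=
        lintegral_const_mul _ (ENNReal.measurable_ofReal.comp (hGm.mul measurable_id.abs))
    _ ≤ ENNReal.ofReal V * ENNReal.ofReal (2 * Real.sqrt D) := mul_le_mul' le_rfl (GD_mom hD)
    _ = _ := (ENNReal.ofReal_mul hV).symm

theorem bD_err2 (hb : BB V b) (hV : 0 ≤ V) (u : ℝ) :
    ∫⁻ v, ‖b u v - bD D b u v‖ₑ ^ 2 ≤ ENNReal.ofReal (4 * V * Real.sqrt D) := by
  calc ∫⁻ v, ‖b u v - bD D b u v‖ₑ ^ 2 ≤ ∫⁻ v, 2 * ‖b u v - bD D b u v‖ₑ := by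
        refine lintegral_mono fun v => ?_
        rw [sq]
        refine mul_le_mul' ?_ le_rfl
        rw [← ofReal_norm]
        have h1 : ‖b u v - bD D b u v‖ ≤ 2 := by
          refine (norm_sub_le _ _).trans ?_
          linarith [hb.bd u v, bD_norm hD hb u v]
        calc ENNReal.ofReal ‖b u v - bD D b u v‖ ≤ ENNReal.ofReal 2 :=
              ENNReal.ofReal_le_ofReal h1
          _ = 2 := by simp
    _ = 2 * ∫⁻ v, ‖b u v - bD D b u v‖ₑ := by
        refine lintegral_const_mul _ ?_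
        have h2 : Measurable fun v => bD D b u v :=
          (bD_meas (D := D) hb).comp (measurable_const.prodMk measurable_id)
        exact ((hb.meas_v u).sub h2).enorm
    _ ≤ 2 * ENNReal.ofReal (V * (2 * Real.sqrt D)) := mul_le_mul' le_rfl (bD_err1 hD hb hV u)
    _ = _ := by
        rw [show (2 : ℝ≥0∞) = ENNReal.ofReal 2 by simp, ← ENNReal.ofReal_mul (by norm_num)]
        congr 1
        ring

end reg

end Pool.Agent.T9h8.MS
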