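import Mathlib
import Pool.Agent.T9h8.MS.Ker
import Pool.Agent.T9h8.MS.BV
set_option autoImplicit false

/-!
# One coordinate: the evolution of a bounded profile with a Gaussian weight
-/

namespace Pool.Agent.T9h8.MS

open MeasureTheory Set Complex
open scoped ENNReal NNReal ComplexConjugate
open Pool.Agent.W771.MD (qe qe_norm)

theorem qe_eq (y t v : ℝ) : qe y t v = ee (v * y + v ^ 2 * t) := rfl

/-- the Gaussian -/
noncomputable def gau (v : ℝ) : ℝ := Real.exp (-Real.pi * v ^ 2)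

theorem gau_pos (v : ℝ) : 0 < gau v := Real.exp_pos _

theorem gau_le (v : ℝ) : gau v ≤ 1 := by
  unfold gau
  rw [Real.exp_le_one_iff]
  nlinarith [Real.pi_pos, sq_nonneg v, mul_nonneg Real.pi_pos.le (sq_nonneg v)]

theorem gau_meas : Measurable gau := by
  unfold gau
  fun_prop

theorem gau_int : Integrable gau := by
  have h := exp_int (D := 1) one_pos
  refine h.congr (Filter.Eventually.of_forall fun v => ?_)
  simp only
  unfold gau
  rw [mul_one]

theorem gau_one : ∫ v, gau v = 1 := by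
  have h := GD_one (D := 1) one_pos
  rw [← h]
  congr 1
  ext v
  unfold gau GD
  simp

/-- the evolution of the profile `k` -/
noncomputable def AA (k : ℝ → ℂ) (y τ : ℝ) : ℂ := ∫ v, k v * ((gau v : ℝ) : ℂ) * qe y τ v

section

variable {k : ℝ → ℂ} (hk : Measurable k)

theorem AA_norm {k : ℝ → ℂ} (h1 : ∀ v, ‖k v‖ ≤ 1) (y τ : ℝ) : ‖AA k y τ‖ ≤ 1 := by
  unfold AA
  refine (norm_integral_le_integral_norm _).trans ?_
  rw [← gau_one]
  refine integral_mono_of_nonneg (Filter.Eventually.of_forall fun v => norm_nonneg _) gau_int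
    (Filter.Eventually.of_forall fun v => ?_)
  simp only
  rw [norm_mul, norm_mul, qe_norm, mul_one, Complex.norm_real, Real.norm_of_nonneg (gau_pos v).le]
  exact mul_le_of_le_one_left (gau_pos v).le (h1 v)

include hk in
theorem AA_int {M : ℝ} (hM : ∀ v, ‖k v‖ ≤ M) (y τ : ℝ) :
    Integrable fun v => k v * ((gau v : ℝ) : ℂ) * qe y τ v := by
  have h1 : Integrable fun v => k v * ((gau v : ℝ) : ℂ) :=
    gau_int.ofReal.bdd_mul (c := M) hk.aestronglyMeasurable (Filter.Eventually.of_forall hM)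
  refine h1.mul_bdd (c := 1) ?_ (Filter.Eventually.of_forall fun v => (qe_norm _ _ _).le)
  exact (ee_meas (f := fun v : ℝ => v * y + v ^ 2 * τ) (by fun_prop)).aestronglyMeasurable

include hk in
theorem AA_L2 {M : ℝ} (hM : ∀ v, ‖k v‖ ≤ M) (c τ : ℝ) :
    ∫⁻ y, ‖AA k (y + c) τ‖ₑ ^ 2 = ∫⁻ v, (‖k v‖ₑ * ENNReal.ofReal (gau v)) ^ 2 := by
  set G : ℝ → ℂ := fun v => k v * ((gau v : ℝ) : ℂ) * qe c τ v with hG
  have hGi : Integrable G := AA_int hk hM c τ
  have hGn : ∀ v, ‖G v‖ₑ = ‖k v‖ₑ * ENNReal.ofReal (gau v) := by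
    intro v
    rw [hG]
    simp only
    rw [enorm_mul, enorm_mul, qe_eq, ee_enorm, mul_one, ← ofReal_norm ((gau v : ℝ) : ℂ),
      Complex.norm_real, Real.norm_of_nonneg (gau_pos v).le]
  have hG2 : MemLp G 2 := by
    have hM0 : 0 ≤ M := (norm_nonneg _).trans (hM 0)
    refine (memLp_two_iff_integrable_sq_norm hGi.1).2 ?_
    have h3 : Integrable fun v => M * ‖G v‖ := hGi.norm.const_mul M
    have hGM : ∀ v, ‖G v‖ ≤ M := by
      intro v
      rw [hG]
      simp only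
      rw [norm_mul, norm_mul, qe_norm, mul_one, Complex.norm_real,
        Real.norm_of_nonneg (gau_pos v).le]
      calc ‖k v‖ * gau v ≤ M * 1 := mul_le_mul (hM v) (gau_le v) (gau_pos v).le hM0
        _ = M := mul_one M
    refine h3.mono (hGi.1.norm.pow 2) (Filter.Eventually.of_forall fun v => ?_)
    have h4 : ‖M * ‖G v‖‖ = M * ‖G v‖ := Real.norm_of_nonneg (by positivity)
    have h5 : ‖‖G v‖ ^ 2‖ = ‖G v‖ * ‖G v‖ := by
      rw [Real.norm_of_nonneg (by positivity), sq]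
    rw [h4, h5]
    exact mul_le_mul_of_nonneg_right (hGM v) (norm_nonneg _)
  have h := planchR G hGi hG2
  simp_rw [hGn] at h
  rw [← h]
  refine lintegral_congr fun y => ?_
  congr 2
  unfold AA
  congr 1
  ext v
  rw [hG]
  simp only
  rw [mul_assoc, mul_assoc, mul_assoc, qe_eq, qe_eq, ← ee_add]
  congr 3
  ring

include hk in
theorem AA_L2_one (h1 : ∀ v, ‖k v‖ ≤ 1) (c τ : ℝ) : ∫⁻ y, ‖AA k (y + c) τ‖ₑ ^ 2 ≤ 1 := by
  rw [AA_L2 hk h1]
  have h2 : ∀ v, (‖k v‖ₑ * ENNReal.ofReal (gau v)) ^ 2 ≤ ENNReal.ofReal (gau v) := by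
    intro v
    have a1 : ‖k v‖ₑ ≤ 1 := by
      rw [← ofReal_norm]; exact ENNReal.ofReal_le_one.2 (h1 v)
    have a2 : ENNReal.ofReal (gau v) ≤ 1 := ENNReal.ofReal_le_one.2 (gau_le v)
    calc (‖k v‖ₑ * ENNReal.ofReal (gau v)) ^ 2 ≤ (1 * ENNReal.ofReal (gau v)) ^ 2 :=
          pow_le_pow_left' (mul_le_mul' a1 le_rfl) 2
      _ = ENNReal.ofReal (gau v) * ENNReal.ofReal (gau v) := by rw [one_mul, sq]
      _ ≤ 1 * ENNReal.ofReal (gau v) := mul_le_mul' a2 le_rfl
      _ = _ := one_mul _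
  refine (lintegral_mono h2).trans ?_
  rw [← ofReal_integral_eq_lintegral_ofReal gau_int
    (Filter.Eventually.of_forall fun v => (gau_pos v).le), gau_one, ENNReal.ofReal_one]

include hk in
theorem AA_L2_le {M : ℝ} (hM : ∀ v, ‖k v‖ ≤ M) (c τ : ℝ) :
    ∫⁻ y, ‖AA k (y + c) τ‖ₑ ^ 2 ≤ ∫⁻ v, ‖k v‖ₑ ^ 2 := by
  rw [AA_L2 hk hM]
  refine lintegral_mono fun v => ?_
  refine pow_le_pow_left' ?_ 2
  calc ‖k v‖ₑ * ENNReal.ofReal (gau v) ≤ ‖k v‖ₑ * 1 :=
        mul_le_mul' le_rfl (ENNReal.ofReal_le_one.2 (gau_le v))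
    _ = _ := mul_one _

end

theorem AA_sub {k l : ℝ → ℂ} (hk : Measurable k) (hl : Measurable l) (hk1 : ∀ v, ‖k v‖ ≤ 1)
    (hl1 : ∀ v, ‖l v‖ ≤ 1) (y τ : ℝ) : AA k y τ - AA l y τ = AA (fun v => k v - l v) y τ := by
  unfold AA
  rw [← integral_sub (AA_int hk hk1 y τ) (AA_int hl hl1 y τ)]
  congr 1
  ext v
  ring

/-- joint measurability -/
theorem AA_meas {X : Type*} [MeasurableSpace X] {k : X → ℝ → ℂ}
    (hk : Measurable (Function.uncurry k)) {y τ : X → ℝ} (hy : Measurable y) (hτ : Measurable τ) :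
    Measurable fun x => AA (k x) (y x) (τ x) := by
  unfold AA
  have h1 : Measurable fun p : X × ℝ => k p.1 p.2 * ((gau p.2 : ℝ) : ℂ) * qe (y p.1) (τ p.1) p.2 := by
    have h2 : Measurable fun p : X × ℝ => qe (y p.1) (τ p.1) p.2 := by
      have h3 : Measurable fun p : X × ℝ => p.2 * y p.1 + p.2 ^ 2 * τ p.1 := by fun_prop
      exact ee_meas h3
    have h4 : Measurable fun p : X × ℝ => ((gau p.2 : ℝ) : ℂ) :=
      Complex.measurable_ofReal.comp (gau_meas.comp measurable_snd)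
    have h5 : Measurable fun p : X × ℝ => k p.1 p.2 := hk
    exact (h5.mul h4).mul h2
  exact h1.stronglyMeasurable.integral_prod_right.measurable

/-- the regularised profile as a superposition of Gaussian solutions -/
theorem AA_bD {V D : ℝ} (hD : 0 < D) {b : ℝ → ℝ → ℂ} (hb : BB V b) (u y τ : ℝ) :
    AA (bD D b u) y τ =
      ∫ ρ, bh b u ρ * ((Real.exp (-Real.pi * D * ρ ^ 2) : ℝ) : ℂ) * KK τ (y + ρ) := by
  unfold AA bD
  have hm : Measurable fun p : ℝ × ℝ => bh b u p.2 *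
      ((Real.exp (-Real.pi * D * p.2 ^ 2) : ℝ) : ℂ) * ee (p.2 * p.1) * ((gau p.1 : ℝ) : ℂ) *
      qe y τ p.1 := by
    have h1 : Measurable fun p : ℝ × ℝ => bh b u p.2 :=
      (bh_meas hb).comp (measurable_const.prodMk measurable_snd)
    have h2 : Measurable fun p : ℝ × ℝ => ee (p.2 * p.1) := ee_meas (by fun_prop)
    have h3 : Measurable fun p : ℝ × ℝ => qe y τ p.1 :=
      ee_meas (f := fun p : ℝ × ℝ => p.1 * y + p.1 ^ 2 * τ) (by fun_prop)
    have h4 : Measurable fun p : ℝ × ℝ => ((Real.exp (-Real.pi * D * p.2 ^ 2) : ℝ) : ℂ) := by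
      fun_prop
    have h5 : Measurable fun p : ℝ × ℝ => ((gau p.1 : ℝ) : ℂ) :=
      Complex.measurable_ofReal.comp (gau_meas.comp measurable_fst)
    exact (((h1.mul h4).mul h2).mul h5).mul h3
  have hint : Integrable (fun p : ℝ × ℝ => bh b u p.2 *
      ((Real.exp (-Real.pi * D * p.2 ^ 2) : ℝ) : ℂ) * ee (p.2 * p.1) * ((gau p.1 : ℝ) : ℂ) *
      qe y τ p.1) (volume.prod volume) := by
    have h1 := gau_int.mul_prod ((exp_int hD).const_mul 2)
    refine h1.mono hm.aestronglyMeasurable (Filter.Eventually.of_forall fun p => ?_)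
    rw [norm_mul, norm_mul, norm_mul, norm_mul, ee_norm, qe_norm, mul_one, mul_one,
      Complex.norm_real, Complex.norm_real, norm_mul, norm_mul, mul_comm]
    refine mul_le_mul_of_nonneg_left ?_ (norm_nonneg _)
    refine mul_le_mul_of_nonneg_right ?_ (norm_nonneg _)
    rw [Real.norm_of_nonneg (by norm_num : (0 : ℝ) ≤ 2)]
    exact bh_norm2 hb u p.2
  calc ∫ v, (∫ ρ, bh b u ρ * ((Real.exp (-Real.pi * D * ρ ^ 2) : ℝ) : ℂ) * ee (ρ * v)) *
        ((gau v : ℝ) : ℂ) * qe y τ v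
      = ∫ v, ∫ ρ, bh b u ρ * ((Real.exp (-Real.pi * D * ρ ^ 2) : ℝ) : ℂ) * ee (ρ * v) *
        ((gau v : ℝ) : ℂ) * qe y τ v := by
        congr 1
        ext v
        rw [← integral_mul_const, ← integral_mul_const]
    _ = ∫ ρ, ∫ v, bh b u ρ * ((Real.exp (-Real.pi * D * ρ ^ 2) : ℝ) : ℂ) * ee (ρ * v) *
        ((gau v : ℝ) : ℂ) * qe y τ v := integral_integral_swap hint
    _ = _ := by
        congr 1
        ext ρ
        rw [← KK_eq, ← integral_const_mul]
        congr 1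
        ext v
        have : qe (y + ρ) τ v = ee (ρ * v) * qe y τ v := by
          rw [qe_eq, qe_eq, ← ee_add]
          congr 1
          ring
        rw [this]
        unfold gau
        ring

end Pool.Agent.T9h8.MS
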