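import Mathlib
import Pool.Agent.T9h8.MS.One
import Pool.Agent.T9h8.MS.Blk
set_option autoImplicit false

/-!
# Telescoping products, the error of the regularisation, superpositions
-/

namespace Pool.Agent.T9h8.MS

open MeasureTheory Set Complex
open scoped ENNReal NNReal ComplexConjugate

theorem prod_sub_le {ι : Type*} [DecidableEq ι] (s : Finset ι) (A B : ι → ℂ) :
    ‖∏ i ∈ s, A i - ∏ i ∈ s, B i‖ₑ ≤
      ∑ j ∈ s, ∏ i ∈ s, (if i = j then ‖A i - B i‖ₑ else ‖A i‖ₑ + ‖B i‖ₑ) := by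
  induction s using Finset.induction_on with
  | empty => simp
  | insert a s ha ih =>
    rw [Finset.prod_insert ha, Finset.prod_insert ha, Finset.sum_insert ha]
    have e1 : A a * ∏ i ∈ s, A i - B a * ∏ i ∈ s, B i =
        (A a - B a) * ∏ i ∈ s, A i + B a * (∏ i ∈ s, A i - ∏ i ∈ s, B i) := by ring
    rw [e1]
    refine (enorm_add_le _ _).trans (add_le_add ?_ ?_)
    · rw [enorm_mul, Finset.prod_insert ha, if_pos rfl]
      refine mul_le_mul' le_rfl ?_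
      rw [← ofReal_norm, norm_prod, ENNReal.ofReal_prod_of_nonneg fun _ _ => norm_nonneg _]
      refine Finset.prod_le_prod' fun i hi => ?_
      have hne : i ≠ a := by
        intro h
        rw [h] at hi
        exact ha hi
      rw [if_neg hne, ofReal_norm]
      exact le_self_add
    · rw [enorm_mul]
      calc ‖B a‖ₑ * ‖∏ i ∈ s, A i - ∏ i ∈ s, B i‖ₑ ≤ (‖A a‖ₑ + ‖B a‖ₑ) *
            ∑ j ∈ s, ∏ i ∈ s, (if i = j then ‖A i - B i‖ₑ else ‖A i‖ₑ + ‖B i‖ₑ) :=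
            mul_le_mul' le_add_self ih
        _ = _ := by
            rw [Finset.mul_sum]
            refine Finset.sum_congr rfl fun j hj => ?_
            rw [Finset.prod_insert ha, if_neg (fun h => ha (by rw [h]; exact hj))]

theorem add_sq_le' (a b : ℝ≥0∞) : (a + b) ^ 2 ≤ 4 * a ^ 2 + 4 * b ^ 2 := by
  rcases le_total a b with h | h
  · calc (a + b) ^ 2 ≤ (b + b) ^ 2 := pow_le_pow_left' (add_le_add h le_rfl) 2
      _ = 4 * b ^ 2 := by rw [← two_mul, mul_pow]; norm_num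
      _ ≤ _ := le_add_self
  · calc (a + b) ^ 2 ≤ (a + a) ^ 2 := pow_le_pow_left' (add_le_add le_rfl h) 2
      _ = 4 * a ^ 2 := by rw [← two_mul, mul_pow]; norm_num
      _ ≤ _ := le_self_add

theorem sum_sq_le {m : ℕ} (x : Fin m → ℝ≥0∞) : (∑ j, x j) ^ 2 ≤ (m : ℝ≥0∞) * ∑ j, x j ^ 2 := by
  have h := ENNReal.rpow_sum_le_const_mul_sum_rpow (s := (Finset.univ : Finset (Fin m)))
    (f := x) (p := 2) (by norm_num)
  rw [Finset.card_univ, Fintype.card_fin] at h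
  norm_num at h
  exact h

theorem err_prod {m : ℕ} (A B : Fin m → ℝ → ℂ) (hA : ∀ j, Measurable (A j))
    (hB : ∀ j, Measurable (B j)) (hA1 : ∀ j, ∫⁻ y, ‖A j y‖ₑ ^ 2 ≤ 1)
    (hB1 : ∀ j, ∫⁻ y, ‖B j y‖ₑ ^ 2 ≤ 1) (η : ℝ≥0∞) (hη : ∀ j, ∫⁻ y, ‖A j y - B j y‖ₑ ^ 2 ≤ η) :
    ∫⁻ y : Fin m → ℝ, ‖∏ j, A j (y j) - ∏ j, B j (y j)‖ₑ ^ 2 ≤ (m : ℝ≥0∞) * (m * (8 ^ m * η)) := by
  classical
  set X : Fin m → Fin m → ℝ → ℝ≥0∞ := fun j i y =>
    if i = j then ‖A i y - B i y‖ₑ else ‖A i y‖ₑ + ‖B i y‖ₑ with hX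
  have hXm : ∀ j i, Measurable (X j i) := by
    intro j i
    rw [hX]
    by_cases h : i = j
    · simp only [h, if_true]
      exact ((hA j).sub (hB j)).enorm
    · simp only [h, if_false]
      exact (hA i).enorm.add (hB i).enorm
  have hXi : ∀ j, ∏ i, ∫⁻ y, X j i y ^ 2 ≤ 8 ^ m * η := by
    intro j
    have h1 : ∀ i, i ≠ j → ∫⁻ y, X j i y ^ 2 ≤ 8 := by
      intro i hij
      rw [hX]
      simp only [hij, if_false]
      calc ∫⁻ y, (‖A i y‖ₑ + ‖B i y‖ₑ) ^ 2 ≤ ∫⁻ y, (4 * ‖A i y‖ₑ ^ 2 + 4 * ‖B i y‖ₑ ^ 2) :=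
            lintegral_mono fun y => add_sq_le' _ _
        _ = 4 * (∫⁻ y, ‖A i y‖ₑ ^ 2) + 4 * (∫⁻ y, ‖B i y‖ₑ ^ 2) := by
            rw [lintegral_add_left (((hA i).enorm.pow_const 2).const_mul 4),
              lintegral_const_mul _ ((hA i).enorm.pow_const 2),
              lintegral_const_mul _ ((hB i).enorm.pow_const 2)]
        _ ≤ 4 * 1 + 4 * 1 := add_le_add (mul_le_mul' le_rfl (hA1 i)) (mul_le_mul' le_rfl (hB1 i))
        _ = 8 := by norm_num
    have h2 : ∫⁻ y, X j j y ^ 2 ≤ η := by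
      rw [hX]
      simp only [if_true]
      exact hη j
    rw [← Finset.mul_prod_erase Finset.univ _ (Finset.mem_univ j), mul_comm]
    refine mul_le_mul' ?_ h2
    calc ∏ i ∈ Finset.univ.erase j, ∫⁻ y, X j i y ^ 2 ≤
          ∏ _i ∈ Finset.univ.erase j, (8 : ℝ≥0∞) :=
          Finset.prod_le_prod' fun i hi => h1 i (Finset.ne_of_mem_erase hi)
      _ ≤ ∏ _i : Fin m, (8 : ℝ≥0∞) :=
          Finset.prod_le_prod_of_subset_of_one_le' (Finset.erase_subset _ _)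
            (fun _ _ _ => by norm_num)
      _ = 8 ^ m := by rw [Finset.prod_const, Finset.card_univ, Fintype.card_fin]
  calc ∫⁻ y : Fin m → ℝ, ‖∏ j, A j (y j) - ∏ j, B j (y j)‖ₑ ^ 2
      ≤ ∫⁻ y : Fin m → ℝ, (m : ℝ≥0∞) * ∑ j, ∏ i, X j i (y i) ^ 2 := by
        refine lintegral_mono fun y => ?_
        refine (pow_le_pow_left' (prod_sub_le Finset.univ (fun j => A j (y j))
          (fun j => B j (y j))) 2).trans ?_
        refine (sum_sq_le _).trans (le_of_eq ?_)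
        simp_rw [Finset.prod_pow]
        rfl
    _ = (m : ℝ≥0∞) * ∑ j, ∏ i, ∫⁻ y, X j i y ^ 2 := by
        have hmm : ∀ j, Measurable fun y : Fin m → ℝ => ∏ i, X j i (y i) ^ 2 := fun j =>
          Finset.measurable_prod _ fun i _ => ((hXm j i).comp (measurable_pi_apply i)).pow_const 2
        rw [lintegral_const_mul _ (Finset.measurable_sum _ fun j _ => hmm j),
          lintegral_finsetSum _ fun j _ => hmm j]
        congr 1
        refine Finset.sum_congr rfl fun j _ => ?_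
        rw [Pool.Agent.H728R3.SR.lint_prod m (fun i y => X j i y ^ 2)
          (fun i => (hXm j i).pow_const 2)]
    _ ≤ (m : ℝ≥0∞) * ∑ _j : Fin m, 8 ^ m * η :=
        mul_le_mul' le_rfl (Finset.sum_le_sum fun j _ => hXi j)
    _ = _ := by
        rw [Finset.sum_const, Finset.card_univ, Fintype.card_fin, nsmul_eq_mul]

/-- superpositions in `L^q` -/
theorem superpose {X R : Type*} [MeasurableSpace X] [MeasurableSpace R] (μ : Measure X)
    [SFinite μ] (ν : Measure R) [SFinite ν] (ω : R → ℝ≥0∞) (hω : Measurable ω)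
    (G : R → X → ℝ≥0∞) (hG : Measurable (Function.uncurry G)) (q : ℝ) (hq : 1 < q) (N : ℝ≥0∞)
    (hN : ∀ r, ∫⁻ x, G r x ^ q ∂μ ≤ N) :
    ∫⁻ x, (∫⁻ r, ω r * G r x ∂ν) ^ q ∂μ ≤ (∫⁻ r, ω r ∂ν) ^ q * N := by
  have hq0 : 0 < q := by linarith
  obtain ⟨p, hpq⟩ : ∃ p : ℝ, p.HolderConjugate q := by
    refine ⟨q / (q - 1), ?_⟩
    rw [Real.holderConjugate_iff]
    refine ⟨by rw [lt_div_iff₀ (by linarith)]; linarith, ?_⟩
    have : q - 1 ≠ 0 := by linarith
    field_simp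
    ring
  have hp0 : 0 < p := hpq.pos
  have hpq1 : 1 / p + 1 / q = 1 := by
    have := hpq.inv_add_inv_eq_one
    rw [one_div, one_div]; exact this
  have h1 : ∀ x, (∫⁻ r, ω r * G r x ∂ν) ^ q ≤
      (∫⁻ r, ω r ∂ν) ^ (q - 1) * ∫⁻ r, ω r * G r x ^ q ∂ν := by
    intro x
    have hGx : Measurable fun r => G r x := hG.comp (measurable_id.prodMk measurable_const)
    have h2 := ENNReal.lintegral_mul_le_Lp_mul_Lq ν hpq
      (f := fun r => ω r ^ (1 / p)) (g := fun r => ω r ^ (1 / q) * G r x)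
      (hω.pow_const _).aemeasurable ((hω.pow_const _).mul hGx).aemeasurable
    have e1 : ∀ r, ω r ^ (1 / p) * (ω r ^ (1 / q) * G r x) = ω r * G r x := by
      intro r
      rw [← mul_assoc, ← ENNReal.rpow_add_of_nonneg _ _ (by positivity) (by positivity), hpq1,
        ENNReal.rpow_one]
    have e2 : ∀ r, (ω r ^ (1 / p)) ^ p = ω r := by
      intro r
      rw [← ENNReal.rpow_mul, one_div_mul_cancel hp0.ne', ENNReal.rpow_one]
    have e3 : ∀ r, (ω r ^ (1 / q) * G r x) ^ q = ω r * G r x ^ q := by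
      intro r
      rw [ENNReal.mul_rpow_of_nonneg _ _ hq0.le, ← ENNReal.rpow_mul,
        one_div_mul_cancel hq0.ne', ENNReal.rpow_one]
    simp only [Pi.mul_apply] at h2
    simp_rw [e1, e2, e3] at h2
    refine (ENNReal.rpow_le_rpow h2 hq0.le).trans (le_of_eq ?_)
    rw [ENNReal.mul_rpow_of_nonneg _ _ hq0.le, ← ENNReal.rpow_mul, ← ENNReal.rpow_mul,
      one_div_mul_cancel hq0.ne', ENNReal.rpow_one]
    congr 2
    have : 1 / p = 1 - 1 / q := by linarith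
    rw [this]
    field_simp
  have hmx : Measurable fun p : X × R => ω p.2 * G p.2 p.1 ^ q := by
    have h := hG.comp (measurable_swap (α := X) (β := R))
    exact (hω.comp measurable_snd).mul (h.pow_const q)
  calc ∫⁻ x, (∫⁻ r, ω r * G r x ∂ν) ^ q ∂μ
      ≤ ∫⁻ x, (∫⁻ r, ω r ∂ν) ^ (q - 1) * ∫⁻ r, ω r * G r x ^ q ∂ν ∂μ := lintegral_mono h1
    _ = (∫⁻ r, ω r ∂ν) ^ (q - 1) * ∫⁻ x, ∫⁻ r, ω r * G r x ^ q ∂ν ∂μ :=
        lintegral_const_mul _ hmx.lintegral_prod_right'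
    _ = (∫⁻ r, ω r ∂ν) ^ (q - 1) * ∫⁻ r, ∫⁻ x, ω r * G r x ^ q ∂μ ∂ν := by
        rw [lintegral_lintegral_swap hmx.aemeasurable]
    _ ≤ (∫⁻ r, ω r ∂ν) ^ (q - 1) * ∫⁻ r, ω r * N ∂ν := by
        refine mul_le_mul' le_rfl (lintegral_mono fun r => ?_)
        have hGr : Measurable fun x => G r x ^ q :=
          (hG.comp (measurable_const.prodMk measurable_id)).pow_const q
        rw [lintegral_const_mul _ hGr]
        exact mul_le_mul' le_rfl (hN r)
    _ = (∫⁻ r, ω r ∂ν) ^ (q - 1) * ((∫⁻ r, ω r ∂ν) * N) := by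
        rw [lintegral_mul_const _ hω]
    _ = _ := by
        rw [← mul_assoc]
        congr 1
        nth_rewrite 2 [← ENNReal.rpow_one (∫⁻ r, ω r ∂ν)]
        rw [← ENNReal.rpow_add_of_nonneg _ _ (by linarith) (by norm_num), sub_add_cancel]

end Pool.Agent.T9h8.MS
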