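import Mathlib
import Pool.Agent.T9h8.MS.Tel
set_option autoImplicit false

/-!
# The estimate for one block
-/

namespace Pool.Agent.T9h8.MS

open MeasureTheory Set Complex
open scoped ENNReal NNReal ComplexConjugate

variable {m : ℕ}

/-- the integrand of one block, for the profiles `κ` -/
noncomputable def VR (c s : Fin m → ℝ → ℝ) (a b : Fin m → ℝ) (S : Set ℝ)
    (κ : Fin m → ℝ → ℝ → ℂ) (u : ℝ) (θ : (Fin m → ℝ) × ℝ) : ℂ :=
  S.indicator (fun _ => (1 : ℂ)) u * (dd s a b u θ.2 * (ee (u ^ 2 * θ.2) *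
    ∏ j, AA (κ j u) (θ.1 j + c j u) (θ.2 + s j u)))

theorem ind_norm (S : Set ℝ) (u : ℝ) : ‖S.indicator (fun _ => (1 : ℂ)) u‖ ≤ 1 := by
  by_cases h : u ∈ S
  · rw [indicator_of_mem h]; simp
  · rw [indicator_of_notMem h]; simp

section

variable {c s : Fin m → ℝ → ℝ} (hc : ∀ j, Measurable (c j)) (hs : ∀ j, Measurable (s j))
  (a b : Fin m → ℝ) {S : Set ℝ} (hS : MeasurableSet S) (hS1 : S ⊆ Icc (-1 : ℝ) 1)
  {κ : Fin m → ℝ → ℝ → ℂ} (hκ : ∀ j, Measurable (Function.uncurry (κ j)))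
  (hκ1 : ∀ j u v, ‖κ j u v‖ ≤ 1)

include hc hs hS hκ in
theorem VR_meas : Measurable (Function.uncurry (VR c s a b S κ)) := by
  have h1 : Measurable fun p : ℝ × ((Fin m → ℝ) × ℝ) => dd s a b p.1 p.2.2 := by
    have hp : Measurable fun p : ℝ × ((Fin m → ℝ) × ℝ) => (p.1, p.2.2) := by fun_prop
    have h := (dd_meas hs a b).comp hp
    exact h
  have h2 : Measurable fun p : ℝ × ((Fin m → ℝ) × ℝ) => ee (p.1 ^ 2 * p.2.2) :=
    ee_meas (by fun_prop)
  have h3 : Measurable fun p : ℝ × ((Fin m → ℝ) × ℝ) =>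
      ∏ j, AA (κ j p.1) (p.2.1 j + c j p.1) (p.2.2 + s j p.1) := by
    refine Finset.measurable_prod _ fun j _ => ?_
    have hsj := hs j
    have hcj := hc j
    refine AA_meas (k := fun p : ℝ × ((Fin m → ℝ) × ℝ) => κ j p.1) ?_ ?_ ?_
    · have hp : Measurable fun p : (ℝ × ((Fin m → ℝ) × ℝ)) × ℝ => (p.1.1, p.2) := by fun_prop
      exact (hκ j).comp hp
    · refine Measurable.add ?_ (hcj.comp measurable_fst)
      exact (measurable_pi_apply j).comp (measurable_fst.comp measurable_snd)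
    · exact (measurable_snd.comp measurable_snd).add (hsj.comp measurable_fst)
  have h4 : Measurable fun p : ℝ × ((Fin m → ℝ) × ℝ) => S.indicator (fun _ => (1 : ℂ)) p.1 :=
    (measurable_const.indicator hS).comp measurable_fst
  exact h4.mul (h1.mul (h2.mul h3))

include hκ1 in
theorem VR_norm1 (u : ℝ) (θ : (Fin m → ℝ) × ℝ) : ‖VR c s a b S κ u θ‖ ≤ 1 := by
  unfold VR
  rw [norm_mul, norm_mul, norm_mul, ee_norm, one_mul, norm_prod]
  refine mul_le_one₀ (ind_norm _ _) (by positivity) (mul_le_one₀ (dd_norm _ _ _ _ _)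
    (by positivity) ?_)
  exact Finset.prod_le_one (fun _ _ => norm_nonneg _) fun j _ => AA_norm (hκ1 j u) _ _

include hS1 in
theorem VR_zero (u : ℝ) (hu : u ∉ Icc (-1 : ℝ) 1) (θ : (Fin m → ℝ) × ℝ) :
    VR c s a b S κ u θ = 0 := by
  unfold VR
  rw [indicator_of_notMem (fun h => hu (hS1 h)), zero_mul]

end

/-- the weight of the superposition -/
noncomputable def wD (V D : ℝ) (ρ : Fin m → ℝ) : ℝ :=
  ∏ j, (WW V (ρ j) * Real.exp (-Real.pi * D * ρ j ^ 2))

/-- the coefficient of the superposition -/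
noncomputable def gr (V : ℝ) (S : Set ℝ) (β : Fin m → ℝ → ℝ → ℂ) (ρ : Fin m → ℝ) (u : ℝ) : ℂ :=
  S.indicator (fun _ => (1 : ℂ)) u * ∏ j, bh (β j) u (ρ j) / ((WW V (ρ j) : ℝ) : ℂ)

section

variable {V : ℝ} (hV : 0 ≤ V) {S : Set ℝ} (hS : MeasurableSet S) (hS1 : S ⊆ Icc (-1 : ℝ) 1)
  {β : Fin m → ℝ → ℝ → ℂ} (hβ : ∀ j, BB V (β j))

include hV in
theorem wD_nonneg (D : ℝ) (ρ : Fin m → ℝ) : 0 ≤ wD V D ρ :=
  Finset.prod_nonneg fun j _ => mul_nonneg (WW_pos hV _).le (Real.exp_pos _).le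

theorem wD_meas (V D : ℝ) : Measurable (wD (m := m) V D) := by
  unfold wD
  refine Finset.measurable_prod _ fun j _ => ?_
  have h : Measurable (WW V) := WW_meas
  exact (h.comp (measurable_pi_apply j)).mul (by fun_prop)

include hV hβ in
theorem gr_norm (ρ : Fin m → ℝ) (u : ℝ) : ‖gr V S β ρ u‖ ≤ 1 := by
  unfold gr
  rw [norm_mul, norm_prod]
  refine mul_le_one₀ (ind_norm _ _) (by positivity) ?_
  refine Finset.prod_le_one (fun _ _ => norm_nonneg _) fun j _ => ?_
  rw [norm_div, Complex.norm_real, Real.norm_of_nonneg (WW_pos hV _).le,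
    div_le_one (WW_pos hV _)]
  exact bh_le (hβ j) hV u (ρ j)

include hS hβ in
theorem gr_meas : Measurable fun p : (Fin m → ℝ) × ℝ => gr V S β p.1 p.2 := by
  unfold gr
  have h1 : Measurable fun p : (Fin m → ℝ) × ℝ => S.indicator (fun _ => (1 : ℂ)) p.2 :=
    (measurable_const.indicator hS).comp measurable_snd
  refine h1.mul (Finset.measurable_prod _ fun j _ => ?_)
  have hp : Measurable fun p : (Fin m → ℝ) × ℝ => (p.2, p.1 j) := by fun_prop
  have h2 := (bh_meas (hβ j)).comp hp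
  have h3 : Measurable (WW V) := WW_meas
  have h4 : Measurable fun p : (Fin m → ℝ) × ℝ => ((WW V (p.1 j) : ℝ) : ℂ) :=
    Complex.measurable_ofReal.comp (h3.comp ((measurable_pi_apply j).comp measurable_fst))
  exact h2.div h4

end

section

variable {c s : Fin m → ℝ → ℝ} (hc : ∀ j, Measurable (c j)) (hs : ∀ j, Measurable (s j))
  (a b : Fin m → ℝ) {S : Set ℝ} (hS : MeasurableSet S) (hS1 : S ⊆ Icc (-1 : ℝ) 1)
  {V : ℝ} (hV : 0 ≤ V) {β : Fin m → ℝ → ℝ → ℂ} (hβ : ∀ j, BB V (β j)) {D : ℝ} (hD : 0 < D)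

include hV hβ hD in
/-- the regularised integrand as a superposition -/
theorem VR_super (u : ℝ) (θ : (Fin m → ℝ) × ℝ) :
    VR c s a b S (fun j => bD D (β j)) u θ =
      ∫ ρ : Fin m → ℝ, ((wD V D ρ : ℝ) : ℂ) * VV c s a b (gr V S β ρ) ρ u θ := by
  unfold VR
  have h1 : ∏ j, AA (bD D (β j) u) (θ.1 j + c j u) (θ.2 + s j u) =
      ∫ ρ : Fin m → ℝ, ∏ j, (bh (β j) u (ρ j) *
        ((Real.exp (-Real.pi * D * ρ j ^ 2) : ℝ) : ℂ) *
        KK (θ.2 + s j u) (θ.1 j + c j u + ρ j)) := by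
    have h2 := integral_fintype_prod_volume_eq_prod (𝕜 := ℂ) (fun (j : Fin m) (ρ : ℝ) =>
      bh (β j) u ρ * ((Real.exp (-Real.pi * D * ρ ^ 2) : ℝ) : ℂ) *
        KK (θ.2 + s j u) (θ.1 j + c j u + ρ))
    rw [h2]
    refine Finset.prod_congr rfl fun j _ => ?_
    exact AA_bD hD (hβ j) u _ _
  rw [h1, ← integral_const_mul, ← integral_const_mul, ← integral_const_mul]
  congr 1
  ext ρ
  unfold VV gr wD
  push_cast
  simp only [Finset.prod_mul_distrib, Finset.prod_div_distrib]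
  have hW : (∏ j, ((WW V (ρ j) : ℝ) : ℂ)) ≠ 0 :=
    Finset.prod_ne_zero_iff.2 fun j _ => by
      exact_mod_cast (WW_pos hV (ρ j)).ne'
  have hk : ∏ j, KK (θ.2 + s j u) (θ.1 j + c j u + ρ j) =
      ∏ j, KK (θ.2 + s j u) (θ.1 j + ρ j + c j u) :=
    Finset.prod_congr rfl fun j _ => by
      congr 1
      ring
  rw [hk]
  field_simp

theorem VV_meas3 {R : Type*} [MeasurableSpace R] {g : R → ℝ → ℂ}
    (hc : ∀ j, Measurable (c j)) (hs : ∀ j, Measurable (s j))
    (hg : Measurable (Function.uncurry g)) {ρ : R → Fin m → ℝ} (hρ : Measurable ρ) :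
    Measurable fun p : (R × ((Fin m → ℝ) × ℝ)) × ℝ =>
      VV c s a b (g p.1.1) (ρ p.1.1) p.2 p.1.2 := by
  unfold VV
  have h1 : Measurable fun p : (R × ((Fin m → ℝ) × ℝ)) × ℝ => dd s a b p.2 p.1.2.2 := by
    have hp : Measurable fun p : (R × ((Fin m → ℝ) × ℝ)) × ℝ => (p.2, p.1.2.2) := by fun_prop
    have h := (dd_meas hs a b).comp hp
    exact h
  have h2 : Measurable fun p : (R × ((Fin m → ℝ) × ℝ)) × ℝ => ee (p.2 ^ 2 * p.1.2.2) :=
    ee_meas (by fun_prop)
  have h3 : Measurable fun p : (R × ((Fin m → ℝ) × ℝ)) × ℝ => g p.1.1 p.2 := by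
    have hp : Measurable fun p : (R × ((Fin m → ℝ) × ℝ)) × ℝ => (p.1.1, p.2) := by fun_prop
    have h := hg.comp hp
    exact h
  have h4 : Measurable fun p : (R × ((Fin m → ℝ) × ℝ)) × ℝ =>
      ∏ j, KK (p.1.2.2 + s j p.2) (p.1.2.1 j + ρ p.1.1 j + c j p.2) := by
    refine Finset.measurable_prod _ fun j _ => ?_
    have hsj := hs j
    have hcj := hc j
    refine KK_meas' ?_ ?_
    · exact (measurable_snd.comp (measurable_snd.comp measurable_fst)).add
        (hsj.comp measurable_snd)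
    · refine Measurable.add (Measurable.add ?_ ?_) (hcj.comp measurable_snd)
      · exact (measurable_pi_apply j).comp (measurable_fst.comp
          (measurable_snd.comp measurable_fst))
      · exact (measurable_pi_apply j).comp (hρ.comp (measurable_fst.comp measurable_fst))
  exact h1.mul ((h3.mul h2).mul h4)

include hc hs hS hS1 hV hβ hD in
/-- the norm of the regularised integral -/
theorem VR_super_norm (θ : (Fin m → ℝ) × ℝ) (x : ℝ) :
    ‖∫ u, VR c s a b S (fun j => bD D (β j)) u θ * ee (u * x)‖ₑ ≤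
      ∫⁻ ρ : Fin m → ℝ, ENNReal.ofReal (wD V D ρ) *
        ‖∫ u, VV c s a b (gr V S β ρ) ρ u θ * ee (u * x)‖ₑ := by
  have hgm : Measurable (Function.uncurry (gr V S β)) := gr_meas hS hβ
  have hVm : Measurable fun p : ℝ × (Fin m → ℝ) =>
      VV c s a b (gr V S β p.2) p.2 p.1 θ := by
    have h := (VV_meas3 a b hc hs hgm (ρ := fun ρ : Fin m → ℝ => ρ) measurable_id).comp
      (((measurable_snd (α := ℝ) (β := Fin m → ℝ)).prodMk (measurable_const (a := θ))).prodMk
        measurable_fst)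
    exact h
  have hm : Measurable fun p : ℝ × (Fin m → ℝ) => ((wD V D p.2 : ℝ) : ℂ) *
      VV c s a b (gr V S β p.2) p.2 p.1 θ * ee (p.1 * x) := by
    have h1 : Measurable fun p : ℝ × (Fin m → ℝ) => ((wD V D p.2 : ℝ) : ℂ) :=
      Complex.measurable_ofReal.comp ((wD_meas V D).comp measurable_snd)
    exact (h1.mul hVm).mul (ee_meas (by fun_prop))
  have hbound : ∀ p : ℝ × (Fin m → ℝ), ‖((wD V D p.2 : ℝ) : ℂ) *
      VV c s a b (gr V S β p.2) p.2 p.1 θ * ee (p.1 * x)‖ ≤
      (Icc (-1 : ℝ) 1).indicator (fun _ => (1 : ℝ)) p.1 *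
        ∏ j, (2 * Real.exp (-Real.pi * D * p.2 j ^ 2)) := by
    intro p
    rw [norm_mul, norm_mul, ee_norm, mul_one, Complex.norm_real,
      Real.norm_of_nonneg (wD_nonneg hV D p.2)]
    by_cases hp : p.1 ∈ Icc (-1 : ℝ) 1
    · rw [indicator_of_mem hp, one_mul]
      have h1 : ‖VV c s a b (gr V S β p.2) p.2 p.1 θ‖ ≤ ‖gr V S β p.2 p.1‖ := by
        unfold VV
        rw [norm_mul, norm_mul, norm_mul, ee_norm, mul_one, norm_prod]
        refine mul_le_of_le_one_left (by positivity) (dd_norm _ _ _ _ _) |>.trans ?_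
        exact mul_le_of_le_one_right (norm_nonneg _)
          (Finset.prod_le_one (fun _ _ => norm_nonneg _) fun _ _ => KK_norm_le _ _)
      refine (mul_le_mul_of_nonneg_left h1 (wD_nonneg hV D p.2)).trans ?_
      unfold gr wD
      rw [norm_mul, norm_prod]
      calc (∏ j, WW V (p.2 j) * Real.exp (-Real.pi * D * p.2 j ^ 2)) *
            (‖S.indicator (fun _ => (1 : ℂ)) p.1‖ *
              ∏ j, ‖bh (β j) p.1 (p.2 j) / ((WW V (p.2 j) : ℝ) : ℂ)‖)
          ≤ (∏ j, WW V (p.2 j) * Real.exp (-Real.pi * D * p.2 j ^ 2)) *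
            ∏ j, ‖bh (β j) p.1 (p.2 j) / ((WW V (p.2 j) : ℝ) : ℂ)‖ := by
            refine mul_le_mul_of_nonneg_left ?_ ?_
            · exact mul_le_of_le_one_left (by positivity) (ind_norm _ _)
            · exact wD_nonneg hV D p.2
        _ = ∏ j, (‖bh (β j) p.1 (p.2 j)‖ * Real.exp (-Real.pi * D * p.2 j ^ 2)) := by
            rw [← Finset.prod_mul_distrib]
            refine Finset.prod_congr rfl fun j _ => ?_
            rw [norm_div, Complex.norm_real, Real.norm_of_nonneg (WW_pos hV _).le]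
            have := (WW_pos hV (p.2 j)).ne'
            field_simp
        _ ≤ _ := by
            refine Finset.prod_le_prod (fun j _ => by positivity) fun j _ => ?_
            exact mul_le_mul_of_nonneg_right (bh_norm2 (hβ j) _ _) (Real.exp_pos _).le
    · rw [indicator_of_notMem hp, zero_mul]
      have : VV c s a b (gr V S β p.2) p.2 p.1 θ = 0 := by
        unfold VV gr
        rw [indicator_of_notMem (fun h => hp (hS1 h))]
        ring
      rw [this, norm_zero, mul_zero]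
  have hint : Integrable (fun p : ℝ × (Fin m → ℝ) => ((wD V D p.2 : ℝ) : ℂ) *
      VV c s a b (gr V S β p.2) p.2 p.1 θ * ee (p.1 * x)) (volume.prod volume) := by
    have h1 : Integrable (fun u : ℝ => (Icc (-1 : ℝ) 1).indicator (fun _ => (1 : ℝ)) u) := by
      rw [integrable_indicator_iff measurableSet_Icc]
      have := fin11
      exact integrable_const 1
    have h2 : Integrable (fun ρ : Fin m → ℝ => ∏ j, (2 * Real.exp (-Real.pi * D * ρ j ^ 2))) :=
      Integrable.fintype_prod (f := fun (_ : Fin m) (x : ℝ) =>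
        2 * Real.exp (-Real.pi * D * x ^ 2)) (μ := fun _ => volume)
        (fun _ => (exp_int hD).const_mul 2)
    have h3 := h1.mul_prod h2
    refine h3.mono hm.aestronglyMeasurable (Filter.Eventually.of_forall fun p => ?_)
    refine (hbound p).trans (le_abs_self _)
  have e1 : ∫ u, VR c s a b S (fun j => bD D (β j)) u θ * ee (u * x) =
      ∫ ρ : Fin m → ℝ, ((wD V D ρ : ℝ) : ℂ) *
        ∫ u, VV c s a b (gr V S β ρ) ρ u θ * ee (u * x) := by
    calc ∫ u, VR c s a b S (fun j => bD D (β j)) u θ * ee (u * x)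
        = ∫ u, ∫ ρ : Fin m → ℝ, ((wD V D ρ : ℝ) : ℂ) *
            VV c s a b (gr V S β ρ) ρ u θ * ee (u * x) := by
          congr 1
          ext u
          rw [VR_super a b hV hβ hD, integral_mul_const]
      _ = ∫ ρ : Fin m → ℝ, ∫ u, ((wD V D ρ : ℝ) : ℂ) *
            VV c s a b (gr V S β ρ) ρ u θ * ee (u * x) := integral_integral_swap hint
      _ = _ := by
          congr 1
          ext ρ
          rw [← integral_const_mul]
          congr 1
          ext u
          ring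
  rw [e1]
  refine (enorm_integral_le_lintegral_enorm _).trans (le_of_eq ?_)
  refine lintegral_congr fun ρ => ?_
  rw [enorm_mul, ← ofReal_norm ((wD V D ρ : ℝ) : ℂ), Complex.norm_real,
    Real.norm_of_nonneg (wD_nonneg hV D ρ)]

end

end Pool.Agent.T9h8.MS
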