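import Mathlib
import Pool.Agent.T9h8.MS.Mn
set_option autoImplicit false

/-!
# The estimate for one block: conclusion
-/

namespace Pool.Agent.T9h8.MS

open MeasureTheory Set Complex
open scoped ENNReal NNReal ComplexConjugate

variable {m : ℕ}

/-- the total mass of the weight of the superposition -/
theorem wD_int (V : ℝ) (hV : 0 ≤ V) (ε : ℝ) (hε : 0 < ε) (hε1 : ε ≤ 1) : ∃ K : ℝ≥0, ∀ (m : ℕ)
    (D : ℝ), 0 < D → D ≤ 1 →
    ∫⁻ ρ : Fin m → ℝ, ENNReal.ofReal (wD V D ρ) ≤ (K * ENNReal.ofReal (D ^ (-ε))) ^ m := by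
  have hi : Integrable fun x : ℝ => (1 + ‖x‖) ^ (-(1 + 2 * ε)) :=
    integrable_one_add_norm (by simp; linarith)
  set c0 : ℝ≥0∞ := ∫⁻ x : ℝ, ENNReal.ofReal ((1 + ‖x‖) ^ (-(1 + 2 * ε))) with hc0
  have hc0t : c0 ≠ ∞ := by
    have h := hi.2
    unfold HasFiniteIntegral at h
    refine ne_of_lt (lt_of_le_of_lt (lintegral_mono fun x => ?_) h)
    rw [← ofReal_norm]
    exact ENNReal.ofReal_le_ofReal (le_abs_self _)
  refine ⟨(ENNReal.ofReal (4 * (4 + V)) * c0).toNNReal, ?_⟩
  intro m D hD hD1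
  rw [ENNReal.coe_toNNReal (ENNReal.mul_ne_top ENNReal.ofReal_ne_top hc0t)]
  have hW : Measurable (WW V) := WW_meas
  have h1 : ∀ ρ : Fin m → ℝ, ENNReal.ofReal (wD V D ρ) =
      ∏ j, ENNReal.ofReal (WW V (ρ j) * Real.exp (-Real.pi * D * ρ j ^ 2)) := by
    intro ρ
    unfold wD
    rw [ENNReal.ofReal_prod_of_nonneg fun j _ =>
      mul_nonneg (WW_pos hV _).le (Real.exp_pos _).le]
  simp_rw [h1]
  have hm1 : Measurable fun x : ℝ => ENNReal.ofReal (WW V x * Real.exp (-Real.pi * D * x ^ 2)) :=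
    ENNReal.measurable_ofReal.comp (hW.mul (by fun_prop))
  rw [Pool.Agent.H728R3.SR.lint_prod m
    (fun _ x => ENNReal.ofReal (WW V x * Real.exp (-Real.pi * D * x ^ 2))) (fun _ => hm1),
    Finset.prod_const, Finset.card_univ, Fintype.card_fin]
  refine pow_le_pow_left' ?_ m
  have hs : 0 < Real.sqrt D := Real.sqrt_pos.2 hD
  have hs1 : Real.sqrt D ≤ 1 := by
    rw [← Real.sqrt_one]
    exact Real.sqrt_le_sqrt hD1
  have hsq : Real.sqrt D ^ 2 = D := Real.sq_sqrt hD.le
  have hpt : ∀ x : ℝ, WW V x * Real.exp (-Real.pi * D * x ^ 2) ≤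
      4 * (4 + V) * D ^ (-ε) * (1 + ‖x‖) ^ (-(1 + 2 * ε)) := by
    intro x
    set r : ℝ := Real.sqrt D * |x| with hr
    have hr0 : 0 ≤ r := by positivity
    have hx1 : 0 < 1 + |x| := by positivity
    have hle : 1 + |x| ≤ (1 + r) / Real.sqrt D := by
      rw [le_div_iff₀ hs, hr]
      nlinarith [abs_nonneg x]
    have h2 : (1 + |x|) ^ (2 * ε) ≤ (1 + r) ^ 2 * D ^ (-ε) := by
      calc (1 + |x|) ^ (2 * ε) ≤ ((1 + r) / Real.sqrt D) ^ (2 * ε) :=
            Real.rpow_le_rpow hx1.le hle (by positivity)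
        _ = (1 + r) ^ (2 * ε) * D ^ (-ε) := by
            rw [Real.div_rpow (by positivity) hs.le, div_eq_mul_inv]
            congr 1
            rw [Real.sqrt_eq_rpow, ← Real.rpow_mul hD.le, ← Real.rpow_neg hD.le]
            congr 1
            ring
        _ ≤ (1 + r) ^ (2 : ℝ) * D ^ (-ε) := by
            refine mul_le_mul_of_nonneg_right ?_ (by positivity)
            exact Real.rpow_le_rpow_of_exponent_le (by linarith) (by linarith)
        _ = _ := by rw [Real.rpow_two]
    have h3 : (1 + r) ^ 2 * Real.exp (-Real.pi * D * x ^ 2) ≤ 4 := by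
      have e1 : -Real.pi * D * x ^ 2 = -(Real.pi * r ^ 2) := by
        rw [hr, mul_pow, hsq, sq_abs]
        ring
      rw [e1, Real.exp_neg, ← div_eq_mul_inv, div_le_iff₀ (Real.exp_pos _)]
      have h4 := Real.add_one_le_exp (Real.pi * r ^ 2)
      have h5 := Real.pi_gt_three
      nlinarith [sq_nonneg (r - 1)]
    have h6 : (1 + ‖x‖) ^ (-(1 + 2 * ε)) = (1 + |x|)⁻¹ * ((1 + |x|) ^ (2 * ε))⁻¹ := by
      rw [Real.norm_eq_abs, neg_add, Real.rpow_add hx1, Real.rpow_neg_one, Real.rpow_neg hx1.le]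
    rw [h6]
    unfold WW
    have h7 : 0 < (1 + |x|) ^ (2 * ε) := by positivity
    have h8 : Real.exp (-Real.pi * D * x ^ 2) ≤ 4 * D ^ (-ε) * ((1 + |x|) ^ (2 * ε))⁻¹ := by
      rw [← div_eq_mul_inv, le_div_iff₀ h7]
      calc Real.exp (-Real.pi * D * x ^ 2) * (1 + |x|) ^ (2 * ε)
          ≤ Real.exp (-Real.pi * D * x ^ 2) * ((1 + r) ^ 2 * D ^ (-ε)) :=
            mul_le_mul_of_nonneg_left h2 (Real.exp_pos _).le
        _ = ((1 + r) ^ 2 * Real.exp (-Real.pi * D * x ^ 2)) * D ^ (-ε) := by ring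
        _ ≤ 4 * D ^ (-ε) := mul_le_mul_of_nonneg_right h3 (by positivity)
    calc (4 + V) / (1 + |x|) * Real.exp (-Real.pi * D * x ^ 2)
        ≤ (4 + V) / (1 + |x|) * (4 * D ^ (-ε) * ((1 + |x|) ^ (2 * ε))⁻¹) :=
          mul_le_mul_of_nonneg_left h8 (by positivity)
      _ = _ := by ring
  calc ∫⁻ x : ℝ, ENNReal.ofReal (WW V x * Real.exp (-Real.pi * D * x ^ 2))
      ≤ ∫⁻ x : ℝ, ENNReal.ofReal (4 * (4 + V) * D ^ (-ε)) *
          ENNReal.ofReal ((1 + ‖x‖) ^ (-(1 + 2 * ε))) := by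
        refine lintegral_mono fun x => ?_
        rw [← ENNReal.ofReal_mul (by positivity)]
        exact ENNReal.ofReal_le_ofReal (hpt x)
    _ = ENNReal.ofReal (4 * (4 + V) * D ^ (-ε)) * c0 := by
        rw [lintegral_const_mul]
        exact ENNReal.measurable_ofReal.comp (by fun_prop)
    _ = _ := by
        rw [ENNReal.ofReal_mul (by positivity)]
        ring

section

variable {c s : Fin m → ℝ → ℝ} (hc : ∀ j, Measurable (c j)) (hs : ∀ j, Measurable (s j))
  (a b : Fin m → ℝ) {S : Set ℝ} (hS : MeasurableSet S) (hS1 : S ⊆ Icc (-1 : ℝ) 1)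
  {V : ℝ} (hV : 0 ≤ V) {β : Fin m → ℝ → ℝ → ℂ} (hβ : ∀ j, BB V (β j)) {D : ℝ} (hD : 0 < D)

/-- the joint space -/
abbrev XX (m : ℕ) := ((Fin m → ℝ) × ℝ) × ℝ

include hc hs hS hS1 hV hβ hD in
theorem main_part (q : ℝ) (hq2 : 2 < q) (hq4 : q < 4) (N : ℝ≥0∞)
    (hN : ∀ ρ : Fin m → ℝ, ∫⁻ x : XX m,
      ‖∫ u, VV c s a b (gr V S β ρ) ρ u x.1 * ee (u * x.2)‖ₑ ^ q ≤ N) :
    ∫⁻ x : XX m, ‖∫ u, VR c s a b S (fun j => bD D (β j)) u x.1 * ee (u * x.2)‖ₑ ^ q ≤
      (∫⁻ ρ : Fin m → ℝ, ENNReal.ofReal (wD V D ρ)) ^ q * N := by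
  have hgm : Measurable (Function.uncurry (gr V S β)) := gr_meas hS hβ
  have hG : Measurable (Function.uncurry fun (ρ : Fin m → ℝ) (x : XX m) =>
      ‖∫ u, VV c s a b (gr V S β ρ) ρ u x.1 * ee (u * x.2)‖ₑ) := by
    have h1 := VV_meas3 a b hc hs hgm (ρ := fun ρ : Fin m → ℝ => ρ) measurable_id
    have hp : Measurable fun p : ((Fin m → ℝ) × XX m) × ℝ => ((p.1.1, p.1.2.1), p.2) := by
      fun_prop
    have h2 := h1.comp hp
    have h3 : Measurable fun p : ((Fin m → ℝ) × XX m) × ℝ => ee (p.2 * p.1.2.2) :=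
      ee_meas (by fun_prop)
    have h4 : Measurable fun p : ((Fin m → ℝ) × XX m) × ℝ =>
        VV c s a b (gr V S β p.1.1) p.1.1 p.2 p.1.2.1 * ee (p.2 * p.1.2.2) := h2.mul h3
    exact h4.stronglyMeasurable.integral_prod_right.measurable.enorm
  refine le_trans ?_ (superpose (volume : Measure (XX m)) (volume : Measure (Fin m → ℝ))
    (fun ρ => ENNReal.ofReal (wD V D ρ)) (ENNReal.measurable_ofReal.comp (wD_meas V D))
    (fun ρ x => ‖∫ u, VV c s a b (gr V S β ρ) ρ u x.1 * ee (u * x.2)‖ₑ) hG q (by linarith) N hN)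
  refine lintegral_mono fun x => ?_
  exact ENNReal.rpow_le_rpow (VR_super_norm hc hs a b hS hS1 hV hβ hD x.1 x.2) (by linarith)

include hc hs hS hV hβ hD in
theorem err_part (q : ℝ) (hq2 : 2 < q) (j0 : Fin m) (hS1 : S ⊆ Icc (-1 : ℝ) 1) :
    ∫⁻ x : XX m, ‖∫ u, (VR c s a b S β u x.1 - VR c s a b S (fun j => bD D (β j)) u x.1) *
      ee (u * x.2)‖ₑ ^ q ≤
      ENNReal.ofReal (4 ^ q) * (2 * (ENNReal.ofReal (b j0 - a j0) *
        ((m : ℝ≥0∞) * (m * (8 ^ m * ENNReal.ofReal (4 * V * Real.sqrt D)))))) := by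
  set η : ℝ≥0∞ := ENNReal.ofReal (4 * V * Real.sqrt D) with hη
  have hβm : ∀ j, Measurable (Function.uncurry (β j)) := fun j => (hβ j).meas
  have hDm : ∀ j, Measurable (Function.uncurry (bD D (β j))) := fun j => bD_meas (hβ j)
  have hβ1 : ∀ j u v, ‖β j u v‖ ≤ 1 := fun j => (hβ j).bd
  have hD1 : ∀ j u v, ‖bD D (β j) u v‖ ≤ 1 := fun j u v => bD_norm hD (hβ j) u v
  set W : ℝ → ((Fin m → ℝ) × ℝ) → ℂ := fun u θ => (1 / 2 : ℂ) *
    (VR c s a b S β u θ - VR c s a b S (fun j => bD D (β j)) u θ) with hW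
  have hWm : Measurable (Function.uncurry W) :=
    ((VR_meas hc hs a b hS hβm).sub (VR_meas hc hs a b hS hDm)).const_mul _
  have hW1 : ∀ u θ, ‖W u θ‖ ≤ 1 := by
    intro u θ
    rw [hW]
    simp only
    rw [norm_mul]
    have h1 := VR_norm1 (c := c) (s := s) a b (S := S) hβ1 u θ
    have h2 := VR_norm1 (c := c) (s := s) a b (S := S) (κ := fun j => bD D (β j)) hD1 u θ
    have h3 := norm_sub_le (VR c s a b S β u θ) (VR c s a b S (fun j => bD D (β j)) u θ)
    have h4 : ‖(1 / 2 : ℂ)‖ = 1 / 2 := by norm_num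
    rw [h4]
    linarith
  have hW0 : ∀ u, u ∉ Icc (-1 : ℝ) 1 → ∀ θ, W u θ = 0 := by
    intro u hu θ
    rw [hW]
    simp only
    rw [VR_zero a b hS1 u hu, VR_zero a b hS1 u hu]
    ring
  set B : ℝ≥0∞ := ENNReal.ofReal (b j0 - a j0) * ((m : ℝ≥0∞) * (m * (8 ^ m * η))) with hB
  have hWB : ∀ u, ∫⁻ θ, ‖W u θ‖ₑ ^ 2 ≤ B := by
    intro u
    have hmu : Measurable fun θ => ‖W u θ‖ₑ ^ 2 :=
      ((hWm.comp (measurable_const.prodMk measurable_id)).enorm).pow_const 2
    rw [Measure.volume_eq_prod, lintegral_prod_symm _ hmu.aemeasurable]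
    calc ∫⁻ t, ∫⁻ y : Fin m → ℝ, ‖W u (y, t)‖ₑ ^ 2
        ≤ ∫⁻ t, ‖dd s a b u t‖ₑ ^ 2 * ((m : ℝ≥0∞) * (m * (8 ^ m * η))) := by
          refine lintegral_mono fun t => ?_
          have h1 : ∀ y : Fin m → ℝ, ‖W u (y, t)‖ₑ ^ 2 ≤ ‖dd s a b u t‖ₑ ^ 2 *
              ‖∏ j, AA (β j u) (y j + c j u) (t + s j u) -
                ∏ j, AA (bD D (β j) u) (y j + c j u) (t + s j u)‖ₑ ^ 2 := by
            intro y
            rw [← mul_pow]
            refine pow_le_pow_left' ?_ 2
            rw [hW]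
            simp only
            unfold VR
            have e1 : (1 / 2 : ℂ) * (S.indicator (fun _ => (1 : ℂ)) u * (dd s a b u t *
                (ee (u ^ 2 * t) * ∏ j, AA (β j u) (y j + c j u) (t + s j u))) -
                S.indicator (fun _ => (1 : ℂ)) u * (dd s a b u t *
                (ee (u ^ 2 * t) * ∏ j, AA (bD D (β j) u) (y j + c j u) (t + s j u)))) =
                (1 / 2 * S.indicator (fun _ => (1 : ℂ)) u * ee (u ^ 2 * t)) * (dd s a b u t *
                (∏ j, AA (β j u) (y j + c j u) (t + s j u) -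
                ∏ j, AA (bD D (β j) u) (y j + c j u) (t + s j u))) := by ring
            rw [e1, enorm_mul, ← enorm_mul (dd s a b u t)]
            refine mul_le_of_le_one_left (by positivity) ?_
            rw [← ofReal_norm]
            refine ENNReal.ofReal_le_one.2 ?_
            rw [norm_mul, norm_mul, ee_norm, mul_one]
            refine mul_le_one₀ (by norm_num) (norm_nonneg _) (ind_norm _ _)
          refine (lintegral_mono h1).trans ?_
          have hA : ∀ j, Measurable fun y : ℝ => AA (β j u) (y + c j u) (t + s j u) := fun j =>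
            AA_meas (k := fun _ : ℝ => β j u)
              ((hβ j).meas.comp (measurable_const.prodMk measurable_snd)) (by fun_prop)
              measurable_const
          have hB' : ∀ j, Measurable fun y : ℝ => AA (bD D (β j) u) (y + c j u) (t + s j u) :=
            fun j => AA_meas (k := fun _ : ℝ => bD D (β j) u)
              ((hDm j).comp (measurable_const.prodMk measurable_snd)) (by fun_prop)
              measurable_const
          have hmy : Measurable fun y : Fin m → ℝ =>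
              ‖∏ j, AA (β j u) (y j + c j u) (t + s j u) -
                ∏ j, AA (bD D (β j) u) (y j + c j u) (t + s j u)‖ₑ ^ 2 :=
            ((Finset.measurable_prod _ fun j _ => (hA j).comp (measurable_pi_apply j)).sub
              (Finset.measurable_prod _ fun j _ => (hB' j).comp
                (measurable_pi_apply j))).enorm.pow_const 2
          rw [lintegral_const_mul _ hmy]
          refine mul_le_mul' le_rfl ?_
          have hku : ∀ j, Measurable (β j u) := fun j => (hβ j).meas_v u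
          have hlu : ∀ j, Measurable (bD D (β j) u) := fun j =>
            (hDm j).comp (measurable_const.prodMk measurable_id)
          refine err_prod (fun j y => AA (β j u) (y + c j u) (t + s j u))
            (fun j y => AA (bD D (β j) u) (y + c j u) (t + s j u)) hA hB' ?_ ?_ η ?_
          · exact fun j => AA_L2_one (hku j) (hβ1 j u) _ _
          · exact fun j => AA_L2_one (hlu j) (hD1 j u) _ _
          · intro j
            have e2 : ∀ y : ℝ, AA (β j u) (y + c j u) (t + s j u) -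
                AA (bD D (β j) u) (y + c j u) (t + s j u) =
                AA (fun v => β j u v - bD D (β j) u v) (y + c j u) (t + s j u) := fun y =>
              AA_sub (hku j) (hlu j) (hβ1 j u) (hD1 j u) _ _
            simp only [e2]
            refine (AA_L2_le (M := 2) ((hku j).sub (hlu j)) (fun v => ?_) _ _).trans
              (bD_err2 hD (hβ j) hV u)
            refine (norm_sub_le _ _).trans ?_
            linarith [hβ1 j u v, hD1 j u v]
      _ = (∫⁻ t, ‖dd s a b u t‖ₑ ^ 2) * ((m : ℝ≥0∞) * (m * (8 ^ m * η))) := by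
          rw [lintegral_mul_const]
          exact ((dd_meas hs a b).comp
            ((measurable_const (a := u)).prodMk measurable_id)).enorm.pow_const 2
      _ ≤ B := mul_le_mul' (dd_int a b u j0) le_rfl
  have hL2 := L2b (volume : Measure ((Fin m → ℝ) × ℝ)) W hWm hW1 hW0 B hWB
  -- conclusion
  have hn : ∀ x : XX m, ‖∫ u, W u x.1 * ee (u * x.2)‖ₑ ≤ 2 := by
    intro x
    have h1 : ‖∫ u, W u x.1 * ee (u * x.2)‖ₑ ≤ ∫⁻ u, ‖W u x.1‖ₑ := by
      refine (enorm_integral_le_lintegral_enorm _).trans (le_of_eq ?_)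
      refine lintegral_congr fun u => ?_
      rw [enorm_mul, ee_enorm, mul_one]
    refine h1.trans ?_
    calc ∫⁻ u, ‖W u x.1‖ₑ ≤ ∫⁻ u in Icc (-1 : ℝ) 1, 1 := by
          rw [← lintegral_indicator measurableSet_Icc]
          refine lintegral_mono fun u => ?_
          by_cases h : u ∈ Icc (-1 : ℝ) 1
          · rw [indicator_of_mem h, ← ofReal_norm]
            exact ENNReal.ofReal_le_one.2 (hW1 u x.1)
          · rw [indicator_of_notMem h, hW0 u h]
            simp
      _ = 2 := by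
          rw [setLIntegral_const, Real.volume_Icc, one_mul]
          norm_num
  have hmW : Measurable fun x : XX m => ‖∫ u, W u x.1 * ee (u * x.2)‖ₑ := by
    have h1 : Measurable fun p : XX m × ℝ => W p.2 p.1.1 * ee (p.2 * p.1.2) := by
      have hp : Measurable fun p : XX m × ℝ => (p.2, p.1.1) := by fun_prop
      exact (hWm.comp hp).mul (ee_meas (by fun_prop))
    exact h1.stronglyMeasurable.integral_prod_right.measurable.enorm
  calc ∫⁻ x : XX m, ‖∫ u, (VR c s a b S β u x.1 - VR c s a b S (fun j => bD D (β j)) u x.1) *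
      ee (u * x.2)‖ₑ ^ q
      = ∫⁻ x : XX m, 2 ^ q * ‖∫ u, W u x.1 * ee (u * x.2)‖ₑ ^ q := by
        refine lintegral_congr fun x => ?_
        rw [← ENNReal.mul_rpow_of_nonneg _ _ (by linarith)]
        congr 1
        have e3 : ∫ u, (VR c s a b S β u x.1 - VR c s a b S (fun j => bD D (β j)) u x.1) *
            ee (u * x.2) = 2 * ∫ u, W u x.1 * ee (u * x.2) := by
          rw [← integral_const_mul]
          congr 1
          ext u
          rw [hW]
          ring
        rw [e3, enorm_mul]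
        congr 1
        rw [← ofReal_norm]
        norm_num
    _ ≤ ∫⁻ x : XX m, 2 ^ q * (2 ^ (q - 2) * ‖∫ u, W u x.1 * ee (u * x.2)‖ₑ ^ 2) := by
        refine lintegral_mono fun x => mul_le_mul' le_rfl ?_
        have e4 : ‖∫ u, W u x.1 * ee (u * x.2)‖ₑ ^ q = ‖∫ u, W u x.1 * ee (u * x.2)‖ₑ ^ (q - 2) *
            ‖∫ u, W u x.1 * ee (u * x.2)‖ₑ ^ 2 := by
          rw [← ENNReal.rpow_natCast, ← ENNReal.rpow_add_of_nonneg _ _ (by linarith)
            (by norm_num)]
          congr 1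
          push_cast
          ring
        rw [e4]
        exact mul_le_mul' (ENNReal.rpow_le_rpow (hn x) (by linarith)) le_rfl
    _ = 2 ^ q * 2 ^ (q - 2) * ∫⁻ x : XX m, ‖∫ u, W u x.1 * ee (u * x.2)‖ₑ ^ 2 := by
        rw [← lintegral_const_mul _ (hmW.pow_const 2)]
        refine lintegral_congr fun x => ?_
        ring
    _ ≤ ENNReal.ofReal (4 ^ q) * (2 * B) := by
        refine mul_le_mul' ?_ ?_
        · have h2 : (2 : ℝ≥0∞) = ENNReal.ofReal 2 := by simp
          rw [h2, ENNReal.ofReal_rpow_of_pos (by norm_num), ENNReal.ofReal_rpow_of_pos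
            (by norm_num), ← ENNReal.ofReal_mul (by positivity)]
          refine ENNReal.ofReal_le_ofReal ?_
          rw [show (4 : ℝ) = 2 * 2 by norm_num, Real.mul_rpow (by norm_num) (by norm_num)]
          refine mul_le_mul_of_nonneg_left ?_ (by positivity)
          exact Real.rpow_le_rpow_of_exponent_le (by norm_num) (by linarith)
        · rw [Measure.volume_eq_prod, lintegral_prod _ (hmW.pow_const 2).aemeasurable]
          exact hL2

end

end Pool.Agent.T9h8.MS
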