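import Mathlib
import Pool.Agent.T9h8.MS.Mb
set_option autoImplicit false

/-!
# One block: from the bound for quadruples to the `L^q` bound
-/

namespace Pool.Agent.T9h8.MS

open MeasureTheory Set Complex
open scoped ENNReal NNReal ComplexConjugate

variable {m : ℕ}

/-- the hypothesis for quadruples in one block -/
def HM (γ : ℝ) (c s : Fin m → ℝ → ℝ) (a b : Fin m → ℝ) (S : Set ℝ) (A : ℝ≥0∞) : Prop :=
  ∀ u1 ∈ S, ∀ u2 ∈ S, ∀ u3 ∈ S, ∀ u4 ∈ S, u1 + u2 = u3 + u4 →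
    ‖∫ t in JJ s a b u1 u2 u3 u4, ee ((u1 ^ 2 + u2 ^ 2 - u3 ^ 2 - u4 ^ 2) * t) *
      ∏ j, I4 (t + s j u1) (t + s j u2) (t + s j u3) (t + s j u4)
        (c j u1) (c j u2) (c j u3) (c j u4)‖ₑ ≤ A * (kk γ (u2 - u4) * kk γ (u2 - u3))

theorem VV_gr_zero (c s : Fin m → ℝ → ℝ) (a b : Fin m → ℝ) (V : ℝ) (S : Set ℝ)
    (β : Fin m → ℝ → ℝ → ℂ) (ρ : Fin m → ℝ) (u : ℝ) (hu : u ∉ S) (θ : (Fin m → ℝ) × ℝ) :
    VV c s a b (gr V S β ρ) ρ u θ = 0 := by
  unfold VV gr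
  rw [indicator_of_notMem hu]
  ring

theorem blk (m : ℕ) (γ : ℝ) (hγ : γ < 1) (V : ℝ) (hV : 0 ≤ V) (q : ℝ) (hq2 : 2 < q) (hq4 : q < 4)
    (ε : ℝ) (hε : 0 < ε) (hε1 : ε ≤ 1) : ∃ C : ℝ≥0, ∀ (c s : Fin m → ℝ → ℝ),
    (∀ j, Measurable (c j)) → (∀ j, Measurable (s j)) → ∀ (a b : Fin m → ℝ) (S : Set ℝ),
    MeasurableSet S → S ⊆ Icc (-1 : ℝ) 1 → ∀ β : Fin m → ℝ → ℝ → ℂ, (∀ j, BB V (β j)) →
    ∀ D : ℝ, 0 < D → D ≤ 1 → ∀ (j0 : Fin m) (A : ℝ≥0∞), HM γ c s a b S A →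
    ∫⁻ x : XX m, ‖∫ u, VR c s a b S β u x.1 * ee (u * x.2)‖ₑ ^ q ≤
      C * (ENNReal.ofReal (D ^ (-ε)) ^ ((m : ℝ) * q) *
        (ENNReal.ofReal (b j0 - a j0) ^ ((4 - q) / 2) * A ^ ((q - 2) / 2)) +
        ENNReal.ofReal (b j0 - a j0) * ENNReal.ofReal (Real.sqrt D)) := by
  obtain ⟨C4, hC4⟩ := L4b (volume : Measure ((Fin m → ℝ) × ℝ)) γ hγ
  obtain ⟨K, hK⟩ := wD_int V hV ε hε hε1
  have hp1 : 0 ≤ (4 - q) / 2 := by linarith
  have hp2 : 0 ≤ (q - 2) / 2 := by linarith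
  have hq0 : 0 ≤ q := by linarith
  set c1 : ℝ≥0∞ := 2 ^ (q - 1) * ((K : ℝ≥0∞) ^ ((m : ℝ) * q) *
    ((2 : ℝ≥0∞) ^ ((4 - q) / 2) * (C4 : ℝ≥0∞) ^ ((q - 2) / 2))) with hc1
  set c2 : ℝ≥0∞ := 2 ^ (q - 1) * (ENNReal.ofReal (4 ^ q) * (2 * ((m : ℝ≥0∞) * (m * (8 ^ m *
    ENNReal.ofReal (4 * V)))))) with hc2
  have hc1t : c1 ≠ ∞ := by
    refine ENNReal.mul_ne_top (ENNReal.rpow_ne_top_of_nonneg (by linarith) (by norm_num)) ?_
    refine ENNReal.mul_ne_top (ENNReal.rpow_ne_top_of_nonneg (by positivity) (by norm_num)) ?_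
    exact ENNReal.mul_ne_top (ENNReal.rpow_ne_top_of_nonneg hp1 (by norm_num))
      (ENNReal.rpow_ne_top_of_nonneg hp2 (by norm_num))
  have hc2t : c2 ≠ ∞ := by
    refine ENNReal.mul_ne_top (ENNReal.rpow_ne_top_of_nonneg (by linarith) (by norm_num)) ?_
    refine ENNReal.mul_ne_top ENNReal.ofReal_ne_top (ENNReal.mul_ne_top (by norm_num) ?_)
    refine ENNReal.mul_ne_top (ENNReal.natCast_ne_top m) (ENNReal.mul_ne_top
      (ENNReal.natCast_ne_top m) (ENNReal.mul_ne_top (ENNReal.pow_ne_top (by norm_num))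
        ENNReal.ofReal_ne_top))
  refine ⟨(c1 + c2).toNNReal, ?_⟩
  intro c s hc hs a b S hS hS1 β hβ D hD hD1 j0 A hA
  rw [ENNReal.coe_toNNReal (ENNReal.add_ne_top.2 ⟨hc1t, hc2t⟩)]
  set Bb : ℝ≥0∞ := ENNReal.ofReal (b j0 - a j0) with hBb
  -- the Gaussian superpositions
  have hN : ∀ ρ : Fin m → ℝ, ∫⁻ x : XX m,
      ‖∫ u, VV c s a b (gr V S β ρ) ρ u x.1 * ee (u * x.2)‖ₑ ^ q ≤
      (2 * Bb) ^ ((4 - q) / 2) * ((C4 : ℝ≥0∞) * A) ^ ((q - 2) / 2) := by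
    intro ρ
    have hg : Measurable (gr V S β ρ) := by
      have h := (gr_meas (V := V) hS hβ).comp ((measurable_const (a := ρ)).prodMk measurable_id)
      exact h
    have hg1 : ∀ u, ‖gr V S β ρ u‖ ≤ 1 := gr_norm hV hβ ρ
    have hVm := VV_meas hc hs a b hg ρ
    have h0 : ∀ u, u ∉ Icc (-1 : ℝ) 1 → ∀ θ, VV c s a b (gr V S β ρ) ρ u θ = 0 :=
      fun u hu θ => VV_gr_zero c s a b V S β ρ u (fun h => hu (hS1 h)) θ
    have hL2 := L2b (volume : Measure ((Fin m → ℝ) × ℝ)) (VV c s a b (gr V S β ρ) ρ) hVm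
      (fun u θ => VV_norm1 c s a b _ hg1 ρ u θ) h0 Bb
      (fun u => VV_L2 hc hs a b hg hg1 ρ u j0)
    have hL4 := hC4 (VV c s a b (gr V S β ρ) ρ) hVm
      (fun u θ => VV_norm1 c s a b _ hg1 ρ u θ) h0 Bb ENNReal.ofReal_ne_top
      (fun u => VV_L2 hc hs a b hg hg1 ρ u j0) A (by
        intro u1 u2 u3 u4 hu
        by_cases h1 : u1 ∈ S
        · by_cases h2 : u2 ∈ S
          · by_cases h3 : u3 ∈ S
            · by_cases h4 : u4 ∈ S
              · exact (M_le hc hs a b hg hg1 ρ j0 u1 u2 u3 u4).trans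
                  (hA u1 h1 u2 h2 u3 h3 u4 h4 hu)
              · simp [VV_gr_zero c s a b V S β ρ u4 h4]
            · simp [VV_gr_zero c s a b V S β ρ u3 h3]
          · simp [VV_gr_zero c s a b V S β ρ u2 h2]
        · simp [VV_gr_zero c s a b V S β ρ u1 h1])
    have hm1 : Measurable fun x : XX m =>
        ‖∫ u, VV c s a b (gr V S β ρ) ρ u x.1 * ee (u * x.2)‖ₑ := by
      have h1 : Measurable fun p : XX m × ℝ => VV c s a b (gr V S β ρ) ρ p.2 p.1.1 *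
          ee (p.2 * p.1.2) := by
        have hp : Measurable fun p : XX m × ℝ => (p.2, p.1.1) := by fun_prop
        exact (hVm.comp hp).mul (ee_meas (by fun_prop))
      exact h1.stronglyMeasurable.integral_prod_right.measurable.enorm
    refine (interp (volume : Measure (XX m)) _ hm1 q hq2 hq4).trans ?_
    refine mul_le_mul' (ENNReal.rpow_le_rpow ?_ hp1) (ENNReal.rpow_le_rpow ?_ hp2)
    · rw [Measure.volume_eq_prod, lintegral_prod _ (hm1.pow_const 2).aemeasurable]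
      exact hL2
    · rw [Measure.volume_eq_prod, lintegral_prod _ (hm1.pow_const 4).aemeasurable]
      exact hL4
  have hmain := main_part hc hs a b hS hS1 hV hβ hD q hq2 hq4 _ hN
  have herr := err_part hc hs a b hS hV hβ hD q hq2 j0 hS1
  -- splitting
  have hVRi : ∀ (κ : Fin m → ℝ → ℝ → ℂ), (∀ j, Measurable (Function.uncurry (κ j))) →
      (∀ j u v, ‖κ j u v‖ ≤ 1) → ∀ x : XX m,
      Integrable fun u => VR c s a b S κ u x.1 * ee (u * x.2) := by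
    intro κ hκ hκ1 x
    have hm2 : Measurable fun u => VR c s a b S κ u x.1 * ee (u * x.2) := by
      have h1 := (VR_meas hc hs a b hS hκ).comp (measurable_id.prodMk
        (measurable_const (a := x.1)))
      exact h1.mul (ee_meas (by fun_prop))
    have hind : (fun u => VR c s a b S κ u x.1 * ee (u * x.2)) = (Icc (-1 : ℝ) 1).indicator
        (fun u => VR c s a b S κ u x.1 * ee (u * x.2)) := by
      ext u
      by_cases h : u ∈ Icc (-1 : ℝ) 1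
      · rw [indicator_of_mem h]
      · rw [indicator_of_notMem h, VR_zero a b hS1 u h, zero_mul]
    have := fin11
    rw [hind, integrable_indicator_iff measurableSet_Icc]
    refine (memLp_top_of_bound hm2.aestronglyMeasurable 1
      (Filter.Eventually.of_forall fun u => ?_)).integrable le_top
    rw [norm_mul, ee_norm, mul_one]
    exact VR_norm1 a b hκ1 u x.1
  have hi1 := hVRi β (fun j => (hβ j).meas) (fun j => (hβ j).bd)
  have hi2 := hVRi (fun j => bD D (β j)) (fun j => bD_meas (hβ j))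
    (fun j u v => bD_norm hD (hβ j) u v)
  have hsplit : ∀ x : XX m, ‖∫ u, VR c s a b S β u x.1 * ee (u * x.2)‖ₑ ^ q ≤
      2 ^ (q - 1) * (‖∫ u, VR c s a b S (fun j => bD D (β j)) u x.1 * ee (u * x.2)‖ₑ ^ q +
        ‖∫ u, (VR c s a b S β u x.1 - VR c s a b S (fun j => bD D (β j)) u x.1) *
          ee (u * x.2)‖ₑ ^ q) := by
    intro x
    have e1 : ∫ u, VR c s a b S β u x.1 * ee (u * x.2) =
        (∫ u, VR c s a b S (fun j => bD D (β j)) u x.1 * ee (u * x.2)) +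
        ∫ u, (VR c s a b S β u x.1 - VR c s a b S (fun j => bD D (β j)) u x.1) *
          ee (u * x.2) := by
      simp_rw [sub_mul]
      rw [integral_sub (hi1 x) (hi2 x)]
      ring
    rw [e1]
    refine (ENNReal.rpow_le_rpow (enorm_add_le _ _) hq0).trans ?_
    exact ENNReal.rpow_add_le_mul_rpow_add_rpow _ _ (by linarith)
  have hm3 : ∀ (κ : Fin m → ℝ → ℝ → ℂ), (∀ j, Measurable (Function.uncurry (κ j))) →
      Measurable fun x : XX m => ‖∫ u, VR c s a b S κ u x.1 * ee (u * x.2)‖ₑ := by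
    intro κ hκ
    have h1 : Measurable fun p : XX m × ℝ => VR c s a b S κ p.2 p.1.1 * ee (p.2 * p.1.2) := by
      have hp : Measurable fun p : XX m × ℝ => (p.2, p.1.1) := by fun_prop
      exact ((VR_meas hc hs a b hS hκ).comp hp).mul (ee_meas (by fun_prop))
    exact h1.stronglyMeasurable.integral_prod_right.measurable.enorm
  have hm4 := hm3 (fun j => bD D (β j)) (fun j => bD_meas (hβ j))
  have h2n : (2 : ℝ≥0∞) ^ (q - 1) ≠ ∞ :=
    ENNReal.rpow_ne_top_of_nonneg (by linarith) (by norm_num)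
  calc ∫⁻ x : XX m, ‖∫ u, VR c s a b S β u x.1 * ee (u * x.2)‖ₑ ^ q
      ≤ 2 ^ (q - 1) * ((∫⁻ ρ : Fin m → ℝ, ENNReal.ofReal (wD V D ρ)) ^ q *
          ((2 * Bb) ^ ((4 - q) / 2) * ((C4 : ℝ≥0∞) * A) ^ ((q - 2) / 2)) +
          ENNReal.ofReal (4 ^ q) * (2 * (Bb *
        ((m : ℝ≥0∞) * (m * (8 ^ m * ENNReal.ofReal (4 * V * Real.sqrt D))))))) := by
        refine (lintegral_mono hsplit).trans ?_
        rw [lintegral_const_mul' _ _ h2n, lintegral_add_left (hm4.pow_const q)]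
        exact mul_le_mul' le_rfl (add_le_add hmain herr)
    _ ≤ 2 ^ (q - 1) * (((K : ℝ≥0∞) ^ ((m : ℝ) * q) * ENNReal.ofReal (D ^ (-ε)) ^ ((m : ℝ) * q)) *
          ((2 * Bb) ^ ((4 - q) / 2) * ((C4 : ℝ≥0∞) * A) ^ ((q - 2) / 2)) +
          ENNReal.ofReal (4 ^ q) * (2 * (Bb *
        ((m : ℝ≥0∞) * (m * (8 ^ m * ENNReal.ofReal (4 * V * Real.sqrt D))))))) := by
        refine mul_le_mul' le_rfl (add_le_add (mul_le_mul' ?_ le_rfl) le_rfl)
        refine (ENNReal.rpow_le_rpow (hK m D hD hD1) hq0).trans (le_of_eq ?_)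
        rw [← ENNReal.rpow_natCast, ← ENNReal.rpow_mul,
          ENNReal.mul_rpow_of_nonneg _ _ (by positivity)]
    _ = c1 * (ENNReal.ofReal (D ^ (-ε)) ^ ((m : ℝ) * q) *
        (Bb ^ ((4 - q) / 2) * A ^ ((q - 2) / 2))) +
        c2 * (Bb * ENNReal.ofReal (Real.sqrt D)) := by
        rw [ENNReal.mul_rpow_of_nonneg _ _ hp1, ENNReal.mul_rpow_of_nonneg _ _ hp2, hc1, hc2,
          ENNReal.ofReal_mul (by positivity : (0 : ℝ) ≤ 4 * V)]
        ring
    _ ≤ (c1 + c2) * (ENNReal.ofReal (D ^ (-ε)) ^ ((m : ℝ) * q) *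
        (Bb ^ ((4 - q) / 2) * A ^ ((q - 2) / 2)) + Bb * ENNReal.ofReal (Real.sqrt D)) := by
        rw [mul_add]
        exact add_le_add (mul_le_mul' le_self_add le_rfl) (mul_le_mul' le_add_self le_rfl)

end Pool.Agent.T9h8.MS
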