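import Mathlib
import Pool.Agent.T9h8.MS.Bk
import Pool.Agent.T9h8.MS.Blocks
set_option autoImplicit false

/-!
# Summation over the blocks
-/

namespace Pool.Agent.T9h8.MS

open MeasureTheory Set Complex
open scoped ENNReal NNReal ComplexConjugate

/-- the total size of a block index -/
def sz {m : ℕ} (n : Fin m → ℕ × Bool) : ℕ := ∑ j, (n j).1

theorem tsum_pi_prod {β : Type*} (f : β → ℝ≥0∞) : ∀ m : ℕ,
    ∑' n : Fin m → β, ∏ j, f (n j) = (∑' b, f b) ^ m := by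
  intro m
  induction m with
  | zero => simp
  | succ m ih =>
    rw [← (Fin.consEquiv fun _ : Fin (m + 1) => β).tsum_eq, ENNReal.tsum_prod']
    have h : ∀ (a : β) (b : Fin m → β),
        ∏ j, f ((Fin.consEquiv fun _ : Fin (m + 1) => β) (a, b) j) = f a * ∏ j, f (b j) := by
      intro a b
      rw [Fin.prod_univ_succ]
      rfl
    simp_rw [h, ENNReal.tsum_mul_left, ih, ENNReal.tsum_mul_right]
    rw [pow_succ, mul_comm]

theorem two_ne : (2 : ℝ≥0∞) ≠ 0 := by norm_num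

theorem two_nt : (2 : ℝ≥0∞) ≠ ∞ := by norm_num

theorem geo (κ : ℝ) (hκ : 0 < κ) : ∑' b : ℕ × Bool, (2 : ℝ≥0∞) ^ (-(κ * (b.1 : ℝ))) ≠ ∞ := by
  rw [ENNReal.tsum_prod']
  have h1 : ∀ k : ℕ, ∑' _b : Bool, (2 : ℝ≥0∞) ^ (-(κ * (k : ℝ))) = 2 * ((2 : ℝ≥0∞) ^ (-κ)) ^ k := by
    intro k
    rw [tsum_fintype]
    simp only [Finset.sum_const, Finset.card_univ, Fintype.card_bool, nsmul_eq_mul]
    rw [← ENNReal.rpow_natCast, ← ENNReal.rpow_mul]
    push_cast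
    congr 2
    ring
  simp_rw [h1]
  rw [ENNReal.tsum_mul_left, ENNReal.tsum_geometric]
  refine ENNReal.mul_ne_top (by norm_num) (ENNReal.inv_ne_top.2 ?_)
  have h2 : (2 : ℝ≥0∞) ^ (-κ) < 1 :=
    ENNReal.rpow_lt_one_of_one_lt_of_neg (by norm_num) (by linarith)
  exact (tsub_pos_of_lt h2).ne'

theorem geom {m : ℕ} (κ : ℝ) (hκ : 0 < κ) :
    ∑' n : Fin m → ℕ × Bool, (2 : ℝ≥0∞) ^ (-(κ * (sz n : ℝ))) ≠ ∞ := by
  have h1 : ∀ n : Fin m → ℕ × Bool, (2 : ℝ≥0∞) ^ (-(κ * (sz n : ℝ))) =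
      ∏ j, (2 : ℝ≥0∞) ^ (-(κ * ((n j).1 : ℝ))) := by
    intro n
    have hs : ∀ s : Finset (Fin m), ∏ j ∈ s, (2 : ℝ≥0∞) ^ (-(κ * ((n j).1 : ℝ))) =
        (2 : ℝ≥0∞) ^ (∑ j ∈ s, -(κ * ((n j).1 : ℝ))) := by
      intro s
      induction s using Finset.cons_induction with
      | empty => simp
      | cons a s ha ih =>
        rw [Finset.prod_cons, Finset.sum_cons, ih, ENNReal.rpow_add _ _ two_ne two_nt]
    rw [hs]
    congr 1
    unfold sz
    push_cast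
    rw [Finset.mul_sum, Finset.sum_neg_distrib]
  simp_rw [h1]
  rw [tsum_pi_prod (fun b : ℕ × Bool => (2 : ℝ≥0∞) ^ (-(κ * (b.1 : ℝ)))) m]
  exact ENNReal.pow_ne_top (geo κ hκ)

/-- the estimate in every block -/
theorem blkn (m : ℕ) (hm : 1 ≤ m) (γ : ℝ) (hγ : γ < 1) (α : ℝ) (V : ℝ) (hV : 0 ≤ V) (q : ℝ)
    (hq2 : 2 < q) (hq4 : q < 4) (hα : 4 - q < m * α * (q - 2)) (CA : ℝ≥0) :
    ∃ κ : ℝ, 0 < κ ∧ ∃ C : ℝ≥0, ∀ (c s : Fin m → ℝ → ℝ),
    (∀ j, Measurable (c j)) → (∀ j, Measurable (s j)) → ∀ (S : Set ℝ),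
    MeasurableSet S → S ⊆ Icc (-1 : ℝ) 1 → ∀ n : Fin m → ℕ × Bool,
    HM γ c s (fun j => lo (n j)) (fun j => hi (n j)) S (CA * (2 : ℝ≥0∞) ^ (-(α * (sz n : ℝ)))) →
    ∀ β : Fin m → ℝ → ℝ → ℂ, (∀ j, BB V (β j)) →
    ∫⁻ x : XX m, ‖∫ u, VR c s (fun j => lo (n j)) (fun j => hi (n j)) S β u x.1 *
      ee (u * x.2)‖ₑ ^ q ≤ C * (2 : ℝ≥0∞) ^ (-(κ * (sz n : ℝ))) := by
  have hm0 : (0 : ℝ) < m := by exact_mod_cast hm
  set κ0 : ℝ := α * ((q - 2) / 2) - (4 - q) / (2 * m) with hκ0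
  have hκ0p : 0 < κ0 := by
    rw [hκ0, sub_pos, div_lt_iff₀ (by positivity)]
    linarith
  set ε : ℝ := min 1 (κ0 / (8 * m * q)) with hε
  have hq0 : 0 < q := by linarith
  have hε0 : 0 < ε := lt_min one_pos (by positivity)
  have hε1 : ε ≤ 1 := min_le_left _ _
  have hεκ : 4 * ε * (m * q) ≤ κ0 / 2 := by
    have h1 : ε ≤ κ0 / (8 * m * q) := min_le_right _ _
    rw [le_div_iff₀ (by positivity)] at h1
    nlinarith
  set κ : ℝ := min (κ0 / 2) 1 with hκ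
  have hκp : 0 < κ := lt_min (by positivity) one_pos
  obtain ⟨C, hC⟩ := blk m γ hγ V hV q hq2 hq4 ε hε0 hε1
  have hp2 : 0 ≤ (q - 2) / 2 := by linarith
  have hp1 : 0 ≤ (4 - q) / 2 := by linarith
  refine ⟨κ, hκp, C * (CA ^ ((q - 2) / 2) + 1), ?_⟩
  intro c s hc hs S hS hS1 n hn β hβ
  set N : ℝ := (sz n : ℝ) with hN
  have hN0 : 0 ≤ N := by positivity
  -- the smallest component
  have hne : (Finset.univ : Finset (Fin m)).Nonempty := ⟨⟨0, hm⟩, Finset.mem_univ _⟩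
  obtain ⟨j0, _, hj0⟩ := Finset.exists_min_image Finset.univ (fun j => (n j).1) hne
  have hj1 : m * ((n j0).1 : ℝ) ≤ N := by
    have h1 : m * (n j0).1 ≤ sz n := by
      unfold sz
      calc m * (n j0).1 = ∑ _j : Fin m, (n j0).1 := by
            rw [Finset.sum_const, Finset.card_univ, Fintype.card_fin, smul_eq_mul]
        _ ≤ _ := Finset.sum_le_sum fun j hj => hj0 j hj
    calc m * ((n j0).1 : ℝ) = ((m * (n j0).1 : ℕ) : ℝ) := by push_cast; ring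
      _ ≤ ((sz n : ℕ) : ℝ) := Nat.cast_le.2 h1
  set D : ℝ := 2 ^ (-(4 * N)) with hD
  have hD0 : 0 < D := by positivity
  have hD1 : D ≤ 1 := by
    rw [hD]
    refine Real.rpow_le_one_of_one_le_of_nonpos (by norm_num) (by linarith)
  have h := hC c s hc hs _ _ S hS hS1 β hβ D hD0 hD1 j0 _ hn
  refine h.trans ?_
  have h2r : ∀ x : ℝ, ENNReal.ofReal ((2 : ℝ) ^ x) = (2 : ℝ≥0∞) ^ x := by
    intro x
    rw [← ENNReal.ofReal_rpow_of_pos (by norm_num)]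
    simp
  have hb : ENNReal.ofReal (hi (n j0) - lo (n j0)) ≤ (2 : ℝ≥0∞) ^ (N / m) := by
    rw [← h2r]
    refine ENNReal.ofReal_le_ofReal ((hi_sub_lo (n j0)).trans ?_)
    have h3 : (2 : ℝ) ^ ((n j0).1 : ℝ) ≤ 2 ^ (N / m) := by
      refine Real.rpow_le_rpow_of_exponent_le (by norm_num) ?_
      rw [le_div_iff₀ hm0]
      linarith
    rw [Real.rpow_natCast] at h3
    have h4 : (0 : ℝ) < 2 ^ (n j0).1 := by positivity
    linarith
  have hNm : N / m ≤ N := div_le_self hN0 (by exact_mod_cast hm)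
  -- the main term
  have e1 : ENNReal.ofReal (D ^ (-ε)) ^ ((m : ℝ) * q) *
      (ENNReal.ofReal (hi (n j0) - lo (n j0)) ^ ((4 - q) / 2) *
        ((CA : ℝ≥0∞) * (2 : ℝ≥0∞) ^ (-(α * N))) ^ ((q - 2) / 2)) ≤
      ((CA ^ ((q - 2) / 2) : ℝ≥0) : ℝ≥0∞) * (2 : ℝ≥0∞) ^ (-(κ * N)) := by
    have a1 : ENNReal.ofReal (D ^ (-ε)) ^ ((m : ℝ) * q) = (2 : ℝ≥0∞) ^ (4 * ε * (m * q) * N) := by
      rw [hD, ← Real.rpow_mul (by norm_num), h2r, ← ENNReal.rpow_mul]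
      congr 1
      ring
    have a2 : ENNReal.ofReal (hi (n j0) - lo (n j0)) ^ ((4 - q) / 2) ≤
        (2 : ℝ≥0∞) ^ (N / m * ((4 - q) / 2)) := by
      refine (ENNReal.rpow_le_rpow hb hp1).trans (le_of_eq ?_)
      rw [← ENNReal.rpow_mul]
    have a3 : ((CA : ℝ≥0∞) * (2 : ℝ≥0∞) ^ (-(α * N))) ^ ((q - 2) / 2) =
        ((CA ^ ((q - 2) / 2) : ℝ≥0) : ℝ≥0∞) * (2 : ℝ≥0∞) ^ (-(α * N) * ((q - 2) / 2)) := by
      rw [ENNReal.mul_rpow_of_nonneg _ _ hp2, ← ENNReal.rpow_mul,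
        ENNReal.coe_rpow_of_nonneg _ hp2]
    rw [a1, a3]
    calc (2 : ℝ≥0∞) ^ (4 * ε * (m * q) * N) *
          (ENNReal.ofReal (hi (n j0) - lo (n j0)) ^ ((4 - q) / 2) *
          (((CA ^ ((q - 2) / 2) : ℝ≥0) : ℝ≥0∞) * (2 : ℝ≥0∞) ^ (-(α * N) * ((q - 2) / 2))))
        ≤ (2 : ℝ≥0∞) ^ (4 * ε * (m * q) * N) * ((2 : ℝ≥0∞) ^ (N / m * ((4 - q) / 2)) *
          (((CA ^ ((q - 2) / 2) : ℝ≥0) : ℝ≥0∞) * (2 : ℝ≥0∞) ^ (-(α * N) * ((q - 2) / 2)))) :=
          mul_le_mul' le_rfl (mul_le_mul' a2 le_rfl)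
      _ = ((CA ^ ((q - 2) / 2) : ℝ≥0) : ℝ≥0∞) * (2 : ℝ≥0∞) ^ (4 * ε * (m * q) * N +
          (N / m * ((4 - q) / 2) + -(α * N) * ((q - 2) / 2))) := by
          rw [ENNReal.rpow_add _ _ two_ne two_nt, ENNReal.rpow_add _ _ two_ne two_nt]
          ring
      _ ≤ _ := by
          refine mul_le_mul' le_rfl (ENNReal.rpow_le_rpow_of_exponent_le (by norm_num) ?_)
          have e2 : 4 * ε * (m * q) * N + (N / m * ((4 - q) / 2) + -(α * N) * ((q - 2) / 2)) =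
              (4 * ε * (m * q) - κ0) * N := by
            rw [hκ0]
            field_simp
            ring
          rw [e2]
          have h5 : κ ≤ κ0 / 2 := min_le_left _ _
          nlinarith
  have e2 : ENNReal.ofReal (hi (n j0) - lo (n j0)) * ENNReal.ofReal (Real.sqrt D) ≤
      (2 : ℝ≥0∞) ^ (-(κ * N)) := by
    have a4 : Real.sqrt D = 2 ^ (-(2 * N)) := by
      rw [hD, Real.sqrt_eq_rpow, ← Real.rpow_mul (by norm_num)]
      congr 1
      ring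
    rw [a4, h2r]
    calc ENNReal.ofReal (hi (n j0) - lo (n j0)) * (2 : ℝ≥0∞) ^ (-(2 * N))
        ≤ (2 : ℝ≥0∞) ^ (N / m) * (2 : ℝ≥0∞) ^ (-(2 * N)) := mul_le_mul' hb le_rfl
      _ = (2 : ℝ≥0∞) ^ (N / m + -(2 * N)) := by rw [ENNReal.rpow_add _ _ two_ne two_nt]
      _ ≤ _ := by
          refine ENNReal.rpow_le_rpow_of_exponent_le (by norm_num) ?_
          have h6 : κ ≤ 1 := min_le_right _ _
          nlinarith
  calc (C : ℝ≥0∞) * (ENNReal.ofReal (D ^ (-ε)) ^ ((m : ℝ) * q) *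
        (ENNReal.ofReal (hi (n j0) - lo (n j0)) ^ ((4 - q) / 2) *
        ((CA : ℝ≥0∞) * (2 : ℝ≥0∞) ^ (-(α * N))) ^ ((q - 2) / 2)) +
        ENNReal.ofReal (hi (n j0) - lo (n j0)) * ENNReal.ofReal (Real.sqrt D))
      ≤ (C : ℝ≥0∞) * (((CA ^ ((q - 2) / 2) : ℝ≥0) : ℝ≥0∞) * (2 : ℝ≥0∞) ^ (-(κ * N)) +
          (2 : ℝ≥0∞) ^ (-(κ * N))) := mul_le_mul' le_rfl (add_le_add e1 e2)
    _ = _ := by
        rw [ENNReal.coe_mul, ENNReal.coe_add, ENNReal.coe_one]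
        ring

/-- the full integrand -/
noncomputable def VF {m : ℕ} (c s : Fin m → ℝ → ℝ) (S : Set ℝ)
    (κ : Fin m → ℝ → ℝ → ℂ) (u : ℝ) (θ : (Fin m → ℝ) × ℝ) : ℂ :=
  S.indicator (fun _ => (1 : ℂ)) u * (ee (u ^ 2 * θ.2) *
    ∏ j, AA (κ j u) (θ.1 j + c j u) (θ.2 + s j u))

theorem split_blocks {m : ℕ} {c s : Fin m → ℝ → ℝ} (hc : ∀ j, Measurable (c j))
    (hs : ∀ j, Measurable (s j)) {S : Set ℝ} (hS : MeasurableSet S) (hS1 : S ⊆ Icc (-1 : ℝ) 1)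
    {κ : Fin m → ℝ → ℝ → ℂ} (hκ : ∀ j, Measurable (Function.uncurry (κ j)))
    (hκ1 : ∀ j u v, ‖κ j u v‖ ≤ 1) (x : XX m) :
    ‖∫ u, VF c s S κ u x.1 * ee (u * x.2)‖ₑ ≤ ∑' n : Fin m → ℕ × Bool,
      ‖∫ u, VR c s (fun j => lo (n j)) (fun j => hi (n j)) S κ u x.1 * ee (u * x.2)‖ₑ := by
  set E : (Fin m → ℕ × Bool) → Set ℝ := fun n =>
    {u | (u, x.1.2) ∈ DD s (fun j => lo (n j)) (fun j => hi (n j))} with hE
  have hEm : ∀ n, MeasurableSet (E n) := fun n =>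
    (measurable_id.prodMk measurable_const) (DD_meas hs _ _)
  have hEd : Pairwise (Function.onFun Disjoint E) := by
    intro n l hnl
    refine Set.disjoint_left.2 fun u hu1 hu2 => hnl ?_
    funext j
    exact blocks_disj _ _ _ (hu1 j) (hu2 j)
  have hEu : ⋃ n, E n = univ := by
    refine eq_univ_of_forall fun u => ?_
    choose n hn using fun j => blocks_cover (x.1.2 + s j u)
    exact mem_iUnion.2 ⟨n, fun j => hn j⟩
  have hm1 : Measurable fun u => VF c s S κ u x.1 * ee (u * x.2) := by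
    unfold VF
    have h3 : Measurable fun u : ℝ => ∏ j, AA (κ j u) (x.1.1 j + c j u) (x.1.2 + s j u) := by
      refine Finset.measurable_prod _ fun j _ => ?_
      exact AA_meas (hκ j) (measurable_const.add (hc j)) (measurable_const.add (hs j))
    have h4 : Measurable fun u : ℝ => S.indicator (fun _ => (1 : ℂ)) u :=
      measurable_const.indicator hS
    exact (h4.mul ((ee_meas (by fun_prop)).mul h3)).mul (ee_meas (by fun_prop))
  have hint : Integrable fun u => VF c s S κ u x.1 * ee (u * x.2) := by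
    have hind : (fun u => VF c s S κ u x.1 * ee (u * x.2)) = (Icc (-1 : ℝ) 1).indicator
        (fun u => VF c s S κ u x.1 * ee (u * x.2)) := by
      ext u
      by_cases h : u ∈ Icc (-1 : ℝ) 1
      · rw [indicator_of_mem h]
      · rw [indicator_of_notMem h]
        unfold VF
        rw [indicator_of_notMem (fun h' => h (hS1 h'))]
        ring
    have := fin11
    rw [hind, integrable_indicator_iff measurableSet_Icc]
    refine (memLp_top_of_bound hm1.aestronglyMeasurable 1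
      (Filter.Eventually.of_forall fun u => ?_)).integrable le_top
    unfold VF
    rw [norm_mul, norm_mul, norm_mul, ee_norm, ee_norm, mul_one, one_mul, norm_prod]
    exact mul_le_one₀ (ind_norm _ _) (by positivity)
      (Finset.prod_le_one (fun _ _ => norm_nonneg _) fun j _ => AA_norm (hκ1 j u) _ _)
  have h1 := integral_iUnion hEm hEd (by rw [hEu]; exact hint.integrableOn)
  rw [hEu, Measure.restrict_univ] at h1
  rw [h1]
  refine enorm_tsum_le_tsum_enorm.trans (le_of_eq ?_)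
  congr 1
  ext n
  congr 1
  rw [← integral_indicator (hEm n)]
  congr 1
  ext u
  unfold VR VF dd
  by_cases h : u ∈ E n
  · rw [indicator_of_mem h, indicator_of_mem (show (u, x.1.2) ∈ DD s _ _ from h)]
    ring
  · rw [indicator_of_notMem h, indicator_of_notMem (show (u, x.1.2) ∉ DD s _ _ from h)]
    ring

theorem total (m : ℕ) (hm : 1 ≤ m) (γ : ℝ) (hγ : γ < 1) (α : ℝ) (V : ℝ) (hV : 0 ≤ V) (q : ℝ)
    (hq2 : 2 < q) (hq4 : q < 4) (hα : 4 - q < m * α * (q - 2)) (CA : ℝ≥0) :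
    ∃ C : ℝ≥0, ∀ (c s : Fin m → ℝ → ℝ),
    (∀ j, Measurable (c j)) → (∀ j, Measurable (s j)) → ∀ (S : Set ℝ),
    MeasurableSet S → S ⊆ Icc (-1 : ℝ) 1 →
    (∀ n : Fin m → ℕ × Bool, HM γ c s (fun j => lo (n j)) (fun j => hi (n j)) S
      (CA * (2 : ℝ≥0∞) ^ (-(α * (sz n : ℝ))))) →
    ∀ β : Fin m → ℝ → ℝ → ℂ, (∀ j, BB V (β j)) →
    ∫⁻ x : XX m, ‖∫ u, VF c s S β u x.1 * ee (u * x.2)‖ₑ ^ q ≤ C := by
  obtain ⟨κ, hκ, C, hC⟩ := blkn m hm γ hγ α V hV q hq2 hq4 hα CA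
  have hq0 : 0 < q := by linarith
  set Z : ℝ≥0∞ := ∑' n : Fin m → ℕ × Bool, (2 : ℝ≥0∞) ^ (-(κ / q * (sz n : ℝ))) with hZ
  have hZt : Z ≠ ∞ := geom (κ / q) (by positivity)
  refine ⟨(Z ^ q * C).toNNReal, ?_⟩
  rw [ENNReal.coe_toNNReal (ENNReal.mul_ne_top (ENNReal.rpow_ne_top_of_nonneg hq0.le hZt)
    ENNReal.coe_ne_top)]
  intro c s hc hs S hS hS1 hH β hβ
  set x0 : (Fin m → ℕ × Bool) → XX m → ℝ≥0∞ := fun n x =>
    ‖∫ u, VR c s (fun j => lo (n j)) (fun j => hi (n j)) S β u x.1 * ee (u * x.2)‖ₑ with hx0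
  have hx0m : ∀ n, Measurable (x0 n) := by
    intro n
    have h1 : Measurable fun p : XX m × ℝ =>
        VR c s (fun j => lo (n j)) (fun j => hi (n j)) S β p.2 p.1.1 * ee (p.2 * p.1.2) := by
      have hp : Measurable fun p : XX m × ℝ => (p.2, p.1.1) := by fun_prop
      exact ((VR_meas hc hs _ _ hS fun j => (hβ j).meas).comp hp).mul (ee_meas (by fun_prop))
    exact h1.stronglyMeasurable.integral_prod_right.measurable.enorm
  set w : (Fin m → ℕ × Bool) → ℝ≥0∞ := fun n => (2 : ℝ≥0∞) ^ (-(κ / q * (sz n : ℝ))) with hw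
  have hw0 : ∀ n, w n ≠ 0 := fun n => (ENNReal.rpow_pos (by norm_num) two_nt).ne'
  have hwt : ∀ n, w n ≠ ∞ := fun n => ENNReal.rpow_ne_top_of_ne_zero two_ne two_nt
  have hsup := superpose (volume : Measure (XX m)) (Measure.count : Measure (Fin m → ℕ × Bool))
    w (measurable_of_countable _) (fun n x => (w n)⁻¹ * x0 n x) (by
      have h2 : Measurable fun p : (Fin m → ℕ × Bool) × XX m => (w p.1)⁻¹ * x0 p.1 p.2 := by
        refine measurable_from_prod_countable_right fun n => ?_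
        exact (hx0m n).const_mul (w n)⁻¹
      exact h2) q (by linarith) (C : ℝ≥0∞) (by
      intro n
      simp_rw [ENNReal.mul_rpow_of_nonneg _ _ hq0.le]
      rw [lintegral_const_mul _ ((hx0m n).pow_const q)]
      refine (mul_le_mul' le_rfl (hC c s hc hs S hS hS1 n (hH n) β hβ)).trans (le_of_eq ?_)
      have e1 : ((w n)⁻¹) ^ q * (2 : ℝ≥0∞) ^ (-(κ * (sz n : ℝ))) = 1 := by
        rw [hw]
        simp only
        rw [← ENNReal.rpow_neg, neg_neg, ← ENNReal.rpow_mul, ← ENNReal.rpow_add _ _ two_ne two_nt]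
        have : κ / q * (sz n : ℝ) * q + -(κ * (sz n : ℝ)) = 0 := by
          field_simp
          ring
        rw [this, ENNReal.rpow_zero]
      calc ((w n)⁻¹) ^ q * ((C : ℝ≥0∞) * (2 : ℝ≥0∞) ^ (-(κ * (sz n : ℝ)))) =
          C * (((w n)⁻¹) ^ q * (2 : ℝ≥0∞) ^ (-(κ * (sz n : ℝ)))) := by ring
        _ = C := by rw [e1, mul_one])
  rw [lintegral_count] at hsup
  refine le_trans (lintegral_mono fun x => ?_) hsup
  rw [lintegral_count]
  refine ENNReal.rpow_le_rpow ?_ hq0.le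
  refine (split_blocks hc hs hS hS1 (fun j => (hβ j).meas) (fun j => (hβ j).bd) x).trans
    (le_of_eq ?_)
  congr 1
  ext n
  rw [← mul_assoc, ENNReal.mul_inv_cancel (hw0 n) (hwt n), one_mul]

end Pool.Agent.T9h8.MS
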