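import Mathlib
import Pool.Agent.T9h8.MS.PhB
import Pool.Agent.T9h8.MS.Sum
set_option autoImplicit false

/-!
# The bound for quadruples of parallel wave packets
-/

namespace Pool.Agent.T9h8.MS

open MeasureTheory Set Complex
open scoped ENNReal NNReal ComplexConjugate

theorem I4_B (t c1 c2 c3 c4 : ℝ) : I4 t t t t c1 c2 c3 c4 =
    ((hh t * Real.exp (-(Real.pi * ((c1 + c2) / 2 - (c3 + c4) / 2) ^ 2)) *
      Real.exp (-(2 * Real.pi * (((c1 - c2) / 2) ^ 2 + ((c3 - c4) / 2) ^ 2) * gg t)) : ℝ) : ℂ) *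
      ee (-(2 * (((c1 - c2) / 2) ^ 2 - ((c3 - c4) / 2) ^ 2) * (t * gg t))) := by
  unfold I4
  rw [four_B]
  unfold hh ee
  congr 2
  push_cast
  ring

/-- the product over the coordinates -/
theorem prod_I4_B {m : ℕ} (t : ℝ) (c1 c2 c3 c4 : Fin m → ℝ) (lam : ℝ) :
    ee (lam * t) * ∏ j, I4 t t t t (c1 j) (c2 j) (c3 j) (c4 j) =
      ((∏ j, Real.exp (-(Real.pi * ((c1 j + c2 j) / 2 - (c3 j + c4 j) / 2) ^ 2)) : ℝ) : ℂ) *
      Ps m lam (∑ j, (((c1 j - c2 j) / 2) ^ 2 - ((c3 j - c4 j) / 2) ^ 2))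
        (∑ j, (((c1 j - c2 j) / 2) ^ 2 + ((c3 j - c4 j) / 2) ^ 2)) t := by
  simp_rw [I4_B]
  rw [Finset.prod_mul_distrib]
  have h1 : ∀ f : Fin m → ℝ, ∏ j, ee (f j) = ee (∑ j, f j) := by
    intro f
    unfold ee
    rw [← Complex.exp_sum, ← Finset.mul_sum]
    push_cast
    rfl
  rw [h1, ← Complex.ofReal_prod, Finset.prod_mul_distrib, Finset.prod_mul_distrib,
    Finset.prod_const, Finset.card_univ, Fintype.card_fin]
  unfold Ps
  have h2 : ee (phA lam (∑ j, (((c1 j - c2 j) / 2) ^ 2 - ((c3 j - c4 j) / 2) ^ 2)) t) =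
      ee (lam * t) * ee (∑ j, -(2 * (((c1 j - c2 j) / 2) ^ 2 - ((c3 j - c4 j) / 2) ^ 2) *
        (t * gg t))) := by
    rw [← ee_add]
    congr 1
    unfold phA
    rw [Finset.sum_neg_distrib, ← Finset.sum_mul, ← Finset.mul_sum]
    ring
  have h3 : Real.exp (-(2 * Real.pi *
      (∑ j, (((c1 j - c2 j) / 2) ^ 2 + ((c3 j - c4 j) / 2) ^ 2)) * gg t)) =
      ∏ j, Real.exp (-(2 * Real.pi * (((c1 j - c2 j) / 2) ^ 2 + ((c3 j - c4 j) / 2) ^ 2) *
        gg t)) := by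
    rw [← Real.exp_sum]
    congr 1
    rw [Finset.sum_neg_distrib, ← Finset.sum_mul, ← Finset.mul_sum]
  rw [h2, h3]
  push_cast
  ring

theorem core_B (m : ℕ) (γ α : ℝ) (hγ0 : 0 ≤ γ) (hγ1 : γ ≤ 1) (hα0 : 0 ≤ α)
    (hα1 : α ≤ 1) (CA : ℝ) (hCA : 4 * 2 ^ m ≤ CA) (lam B E x : ℝ) (hE : 0 ≤ E) (hx : 0 < x)
    (hx4 : x ≤ 4) (h : ∀ k : ℕ, 2 ≤ k → ‖∫ t in (2 ^ k / 4 : ℝ)..(2 ^ k / 2), Ps m lam B E t‖ ≤
      CA * 2 ^ (-(α * (m * k : ℕ))) * x ^ (-γ)) (n : ℕ × Bool) :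
    ‖∫ t in Ico (lo n) (hi n), Ps m lam B E t‖ ≤ CA * 2 ^ (-(α * (m * n.1 : ℕ))) * x ^ (-γ) := by
  have hCA0 : 0 ≤ CA := le_trans (by positivity) hCA
  -- the positive blocks
  have hpos : ∀ k : ℕ, ‖∫ t in (pl k)..(ph k), Ps m lam B E t‖ ≤
      CA * 2 ^ (-(α * (m * k : ℕ))) * x ^ (-γ) := by
    intro k
    rcases le_or_gt 2 k with hk | hk
    · rw [pl_of_pos (by omega)]
      exact h k hk
    · have h1 : ‖∫ t in (pl k)..(ph k), Ps m lam B E t‖ ≤ 1 * |ph k - pl k| := by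
        refine intervalIntegral.norm_integral_le_of_norm_le_const fun t _ => ?_
        refine (Ps_norm_le m lam B E t hE).trans ?_
        exact pow_le_one₀ (hh_pos t).le (hh_le_one t)
      have h2 : |ph k - pl k| ≤ 1 := by
        have h3 := pl_nonneg k
        have h4 := pl_lt_ph k
        rw [abs_of_pos (by linarith)]
        have h5 : ph k ≤ 1 := by
          unfold ph
          interval_cases k <;> norm_num
        linarith
      have h6 : (2 : ℝ) ^ (-(m : ℝ)) ≤ 2 ^ (-(α * (m * k : ℕ))) := by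
        refine Real.rpow_le_rpow_of_exponent_le (by norm_num) ?_
        rw [neg_le_neg_iff]
        push_cast
        have hk1 : (k : ℝ) ≤ 1 := by exact_mod_cast (by omega : k ≤ 1)
        have h7 : (m : ℝ) * k ≤ m := mul_le_of_le_one_right (by positivity) hk1
        have h8 : 0 ≤ (m : ℝ) * k := by positivity
        nlinarith
      have h9 : (1 : ℝ) / 4 ≤ x ^ (-γ) := by
        rw [Real.rpow_neg hx.le, one_div]
        refine inv_anti₀ (by positivity) ?_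
        calc x ^ γ ≤ 4 ^ γ := Real.rpow_le_rpow hx.le hx4 hγ0
          _ ≤ 4 ^ (1 : ℝ) := Real.rpow_le_rpow_of_exponent_le (by norm_num) hγ1
          _ = 4 := Real.rpow_one 4
      have h10 : (2 : ℝ) ^ (-(m : ℝ)) = ((2 : ℝ) ^ m)⁻¹ := by
        rw [Real.rpow_neg (by norm_num), Real.rpow_natCast]
      have h11 : 0 < (2 : ℝ) ^ m := by positivity
      calc ‖∫ t in (pl k)..(ph k), Ps m lam B E t‖ ≤ 1 := by linarith
        _ = (4 * 2 ^ m) * ((2 : ℝ) ^ m)⁻¹ * (1 / 4) := by field_simp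
        _ ≤ CA * 2 ^ (-(α * (m * k : ℕ))) * x ^ (-γ) := by
            rw [h10] at h6
            refine mul_le_mul (mul_le_mul hCA h6 (by positivity) hCA0) h9 (by norm_num)
              (by positivity)
  have hab := lo_lt_hi n
  rw [integral_Ico_eq_integral_Ioc, ← intervalIntegral.integral_of_le hab.le]
  obtain ⟨k, σ⟩ := n
  cases σ
  · have e1 : ∫ t in (lo (k, false))..(hi (k, false)), Ps m lam B E t =
        conj (∫ t in (pl k)..(ph k), Ps m lam B E t) := by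
      simp only [lo, hi, Bool.false_eq_true, if_false]
      rw [← intervalIntegral.integral_comp_neg]
      simp_rw [Ps_neg]
      rw [intervalIntegral.intervalIntegral_eq_integral_uIoc,
        intervalIntegral.intervalIntegral_eq_integral_uIoc]
      rw [integral_conj]
      split_ifs <;> simp
    rw [e1, RCLike.norm_conj]
    exact hpos k
  · have e1 : ∫ t in (lo (k, true))..(hi (k, true)), Ps m lam B E t =
        ∫ t in (pl k)..(ph k), Ps m lam B E t := by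
      simp only [lo, hi, if_true]
    rw [e1]
    exact hpos k

theorem two_rpow (x : ℝ) : (2 : ℝ≥0∞) ^ x = ENNReal.ofReal ((2 : ℝ) ^ x) := by
  rw [← ENNReal.ofReal_rpow_of_pos (by norm_num)]
  simp

/-- from scalars to the hypothesis for quadruples -/
theorem HM_of (m : ℕ) (hm : 1 ≤ m) (γ α : ℝ) (hγ0 : 0 < γ) (hγ1 : γ ≤ 1) (hα0 : 0 ≤ α)
    (hα1 : α ≤ 1) (CA : ℝ) (hCA : 4 * 2 ^ m ≤ CA) (c : Fin m → ℝ → ℝ) (S : Set ℝ)
    (hS1 : S ⊆ Icc (-1 : ℝ) 1)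
    (h : ∀ u1 ∈ S, ∀ u2 ∈ S, ∀ u3 ∈ S, ∀ u4 ∈ S, u1 + u2 = u3 + u4 → u2 ≠ u4 → u2 ≠ u3 →
      ∀ k : ℕ, 2 ≤ k → ‖∫ t in (2 ^ k / 4 : ℝ)..(2 ^ k / 2),
        Ps m (u1 ^ 2 + u2 ^ 2 - u3 ^ 2 - u4 ^ 2)
          (∑ j, (((c j u1 - c j u2) / 2) ^ 2 - ((c j u3 - c j u4) / 2) ^ 2))
          (∑ j, (((c j u1 - c j u2) / 2) ^ 2 + ((c j u3 - c j u4) / 2) ^ 2)) t‖ ≤
      CA * 2 ^ (-(α * (m * k : ℕ))) * (|u2 - u4| * |u2 - u3|) ^ (-γ))
    (n : Fin m → ℕ × Bool) :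
    HM γ c (fun _ _ => 0) (fun j => lo (n j)) (fun j => hi (n j)) S
      (CA.toNNReal * (2 : ℝ≥0∞) ^ (-(α * (sz n : ℝ)))) := by
  have hCA0 : 0 < CA := lt_of_lt_of_le (by positivity) hCA
  intro u1 h1 u2 h2 u3 h3 u4 h4 hu
  have hAne : ((CA.toNNReal : ℝ≥0∞) * (2 : ℝ≥0∞) ^ (-(α * (sz n : ℝ)))) ≠ 0 := by
    refine mul_ne_zero ?_ (ENNReal.rpow_pos (by norm_num) (by norm_num)).ne'
    rw [Ne, ENNReal.coe_eq_zero, Real.toNNReal_eq_zero]
    linarith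
  have hkpos : ∀ x : ℝ, kk γ x ≠ 0 := by
    intro x
    unfold kk
    rw [Ne, ENNReal.rpow_eq_zero_iff]
    rintro (⟨_, h5⟩ | ⟨h5, _⟩)
    · linarith
    · exact ENNReal.ofReal_ne_top h5
  have hktop : kk γ 0 = ∞ := by
    unfold kk
    rw [abs_zero, ENNReal.ofReal_zero]
    exact ENNReal.zero_rpow_of_neg (by linarith)
  by_cases h24 : u2 = u4
  · rw [h24, sub_self, hktop, ENNReal.top_mul (hkpos _), ENNReal.mul_top hAne]
    exact le_top
  by_cases h23 : u2 = u3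
  · rw [h23, sub_self, hktop, ENNReal.mul_top (hkpos _), ENNReal.mul_top hAne]
    exact le_top
  by_cases hdiag : ∀ j, n j = n ⟨0, hm⟩
  swap
  · have hJ : JJ (fun (_ : Fin m) (_ : ℝ) => (0 : ℝ)) (fun j => lo (n j)) (fun j => hi (n j))
        u1 u2 u3 u4 = ∅ := by
      refine eq_empty_of_forall_notMem fun t ht => hdiag fun j => ?_
      exact blocks_disj _ _ _ (ht.1 j) (ht.1 ⟨0, hm⟩)
    rw [hJ]
    simp
  set n0 := n ⟨0, hm⟩ with hn0
  have hJ : JJ (fun (_ : Fin m) (_ : ℝ) => (0 : ℝ)) (fun j => lo (n j)) (fun j => hi (n j))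
        u1 u2 u3 u4 = Ico (lo n0) (hi n0) := by
    ext t
    constructor
    · intro ht
      have := ht.1 ⟨0, hm⟩
      simpa using this
    · intro ht
      have hj : ∀ u : ℝ, (u, t) ∈ DD (fun (_ : Fin m) (_ : ℝ) => (0 : ℝ)) (fun j => lo (n j))
          (fun j => hi (n j)) := by
        intro u j
        simp only [add_zero]
        rw [hdiag j]
        exact ht
      exact ⟨hj _, hj _, hj _, hj _⟩
  have hsz : (sz n : ℝ) = ((m * n0.1 : ℕ) : ℝ) := by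
    unfold sz
    congr 1
    rw [Finset.sum_congr rfl fun j _ => by rw [hdiag j], Finset.sum_const, Finset.card_univ,
      Fintype.card_fin, smul_eq_mul]
  rw [hJ]
  have hp : 0 < |u2 - u4| := abs_pos.2 (sub_ne_zero.2 h24)
  have hr : 0 < |u2 - u3| := abs_pos.2 (sub_ne_zero.2 h23)
  have i1 := hS1 h1
  have i2 := hS1 h2
  have i3 := hS1 h3
  have i4 := hS1 h4
  have hx4 : |u2 - u4| * |u2 - u3| ≤ 4 := by
    have a1 : |u2 - u4| ≤ 2 := by rw [abs_le]; constructor <;> linarith [i2.1, i2.2, i4.1, i4.2]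
    have a2 : |u2 - u3| ≤ 2 := by rw [abs_le]; constructor <;> linarith [i2.1, i2.2, i3.1, i3.2]
    nlinarith
  set B : ℝ := ∑ j, (((c j u1 - c j u2) / 2) ^ 2 - ((c j u3 - c j u4) / 2) ^ 2) with hB
  set E : ℝ := ∑ j, (((c j u1 - c j u2) / 2) ^ 2 + ((c j u3 - c j u4) / 2) ^ 2) with hE
  have hE0 : 0 ≤ E := Finset.sum_nonneg fun j _ => by positivity
  have hcore := core_B m γ α hγ0.le hγ1 hα0 hα1 CA hCA (u1 ^ 2 + u2 ^ 2 - u3 ^ 2 - u4 ^ 2) B E
    (|u2 - u4| * |u2 - u3|) hE0 (mul_pos hp hr) hx4 (h u1 h1 u2 h2 u3 h3 u4 h4 hu h24 h23) n0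
  set P : ℝ := ∏ j, Real.exp (-(Real.pi * ((c j u1 + c j u2) / 2 - (c j u3 + c j u4) / 2) ^ 2))
    with hP
  have hP0 : 0 ≤ P := Finset.prod_nonneg fun j _ => (Real.exp_pos _).le
  have hP1 : P ≤ 1 := Finset.prod_le_one (fun j _ => (Real.exp_pos _).le) fun j _ => by
    rw [Real.exp_le_one_iff]
    have := Real.pi_pos
    have : 0 ≤ Real.pi * ((c j u1 + c j u2) / 2 - (c j u3 + c j u4) / 2) ^ 2 := by positivity
    linarith
  have e1 : ∀ t : ℝ, ee ((u1 ^ 2 + u2 ^ 2 - u3 ^ 2 - u4 ^ 2) * t) *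
      ∏ j, I4 (t + 0) (t + 0) (t + 0) (t + 0) (c j u1) (c j u2) (c j u3) (c j u4) =
      (P : ℂ) * Ps m (u1 ^ 2 + u2 ^ 2 - u3 ^ 2 - u4 ^ 2) B E t := by
    intro t
    simp only [add_zero]
    exact prod_I4_B t (fun j => c j u1) (fun j => c j u2) (fun j => c j u3) (fun j => c j u4) _
  simp_rw [e1]
  rw [integral_const_mul, ← ofReal_norm, norm_mul, Complex.norm_real, Real.norm_of_nonneg hP0]
  have h5 : P * ‖∫ t in Ico (lo n0) (hi n0), Ps m (u1 ^ 2 + u2 ^ 2 - u3 ^ 2 - u4 ^ 2) B E t‖ ≤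
      CA * 2 ^ (-(α * (m * n0.1 : ℕ))) * (|u2 - u4| * |u2 - u3|) ^ (-γ) :=
    (mul_le_of_le_one_left (norm_nonneg _) hP1).trans hcore
  refine (ENNReal.ofReal_le_ofReal h5).trans (le_of_eq ?_)
  rw [ENNReal.ofReal_mul (by positivity), ENNReal.ofReal_mul hCA0.le, ← two_rpow, hsz,
    Real.mul_rpow hp.le hr.le, ENNReal.ofReal_mul (by positivity)]
  unfold kk
  rw [ENNReal.ofReal_rpow_of_pos hp, ENNReal.ofReal_rpow_of_pos hr]
  rfl

end Pool.Agent.T9h8.MS
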