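import Mathlib
import Pool.Agent.T9h8.MS.HMB
set_option autoImplicit false

/-!
# The bound for quadruples: monotone shifts and arbitrary shifts
-/

namespace Pool.Agent.T9h8.MS

open MeasureTheory Set Complex
open scoped ENNReal NNReal ComplexConjugate

theorem min_interp {Y X Z ε : ℝ} (hY : 0 ≤ Y) (hX : Y ≤ X) (hZ : Y ≤ Z) (h0 : 0 < ε)
    (h1 : ε < 1) : Y ≤ X ^ ε * Z ^ (1 - ε) := by
  have e1 : Y = Y ^ ε * Y ^ (1 - ε) := by
    rw [← Real.rpow_add' hY (by norm_num), add_sub_cancel, Real.rpow_one]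
  calc Y = Y ^ ε * Y ^ (1 - ε) := e1
    _ ≤ X ^ ε * Z ^ (1 - ε) := mul_le_mul (Real.rpow_le_rpow hY hX h0.le)
        (Real.rpow_le_rpow hY hZ (by linarith)) (Real.rpow_nonneg hY _)
        (Real.rpow_nonneg (hY.trans hX) _)

theorem two_pow_four {k : ℕ} (hk : 2 ≤ k) : (4 : ℝ) ≤ 2 ^ k := by
  calc (4 : ℝ) = 2 ^ 2 := by norm_num
    _ ≤ 2 ^ k := pow_le_pow_right₀ (by norm_num) hk

theorem pow_block (m k : ℕ) : (1 / (4 * ((2 : ℝ) ^ k / 4))) ^ m = 2 ^ (-((m * k : ℕ) : ℝ)) := by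
  rw [Real.rpow_neg (by norm_num), Real.rpow_natCast, mul_comm m k, pow_mul, ← inv_pow]
  congr 1
  field_simp

theorem sc_mono_pos {m k : ℕ} (hm : 1 ≤ m) (hk : 2 ≤ k) {ε x B E : ℝ} (h0 : 0 < ε) (h1 : ε < 1)
    (hx : 0 < x) (hB : 0 ≤ B) (hE : 0 ≤ E) :
    ‖∫ t in (2 ^ k / 4 : ℝ)..(2 ^ k / 2), Ps m (2 * x) B E t‖ ≤
      2 * 2 ^ (-((1 - ε) * (m * k : ℕ))) * x ^ (-(1 - ε)) := by
  have h4 := two_pow_four hk
  have hpi := Real.pi_gt_three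
  have ha : (1 : ℝ) ≤ 2 ^ k / 4 := by linarith
  have hab : (2 : ℝ) ^ k / 4 ≤ 2 ^ k / 2 := by linarith
  have hM : ∀ y ∈ Icc ((2 : ℝ) ^ k / 4) (2 ^ k / 2), ‖∫ t in (2 ^ k / 4 : ℝ)..y,
      ee (phA (2 * x) B t)‖ ≤ (2 ^ k / 4 : ℝ) ^ ε * (x⁻¹) ^ (1 - ε) := by
    intro y hy
    refine min_interp (norm_nonneg _) ?_ ?_ h0 h1
    · simp_rw [ee_eq_e]
      refine (Pool.Agent.Helper523.UF.norm_int_trivial hy.1 _).trans ?_
      linarith [hy.2]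
    · refine (mono_phase (by positivity) hB ha hy.1).trans ?_
      rw [one_div]
      exact inv_anti₀ hx (by nlinarith)
  refine (Ps_int m ha hab hE hM).trans ?_
  rw [pow_block]
  have e2 : (2 ^ k / 4 : ℝ) ^ ε ≤ 2 ^ (ε * (m * k : ℕ)) := by
    calc (2 ^ k / 4 : ℝ) ^ ε ≤ (2 ^ k : ℝ) ^ ε :=
          Real.rpow_le_rpow (by positivity) (by linarith) h0.le
      _ = 2 ^ (ε * (k : ℝ)) := by
          rw [← Real.rpow_natCast, ← Real.rpow_mul (by norm_num), mul_comm]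
      _ ≤ _ := by
          refine Real.rpow_le_rpow_of_exponent_le (by norm_num) ?_
          refine mul_le_mul_of_nonneg_left ?_ h0.le
          push_cast
          have : (1 : ℝ) ≤ m := by exact_mod_cast hm
          have hk0 : (0 : ℝ) ≤ k := by positivity
          nlinarith
  have e3 : (x⁻¹) ^ (1 - ε) = x ^ (-(1 - ε)) := by
    rw [Real.rpow_neg hx.le, Real.inv_rpow hx.le]
  rw [e3]
  have e4 : (2 : ℝ) ^ (-((m * k : ℕ) : ℝ)) * 2 ^ (ε * (m * k : ℕ)) =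
      2 ^ (-((1 - ε) * (m * k : ℕ))) := by
    rw [← Real.rpow_add (by norm_num)]
    congr 1
    ring
  calc 2 * ((2 : ℝ) ^ (-((m * k : ℕ) : ℝ)) * ((2 ^ k / 4 : ℝ) ^ ε * x ^ (-(1 - ε))))
      ≤ 2 * ((2 : ℝ) ^ (-((m * k : ℕ) : ℝ)) * (2 ^ (ε * (m * k : ℕ)) * x ^ (-(1 - ε)))) := by
        gcongr
    _ = _ := by
        rw [← e4]
        ring

theorem sc_gen_pos {m k : ℕ} (hm : 1 ≤ m) (hk : 2 ≤ k) {x B E : ℝ}
    (hx : 0 < x) (hE : 0 ≤ E) :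
    ‖∫ t in (2 ^ k / 4 : ℝ)..(2 ^ k / 2), Ps m (2 * x) B E t‖ ≤
      48 * 2 ^ (-((1 - 1 / (2 * (m : ℝ))) * (m * k : ℕ))) * x ^ (-(1 / 2 : ℝ)) := by
  have h4 := two_pow_four hk
  have ha : (1 : ℝ) ≤ 2 ^ k / 4 := by linarith
  have hab : (2 : ℝ) ^ k / 4 ≤ 2 ^ k / 2 := by linarith
  have hM : ∀ y ∈ Icc ((2 : ℝ) ^ k / 4) (2 ^ k / 2), ‖∫ t in (2 ^ k / 4 : ℝ)..y,
      ee (phA (2 * x) B t)‖ ≤ 24 * Real.sqrt ((2 ^ k / 4 : ℝ) / (2 * x)) := by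
    intro y hy
    exact gen_phase (by positivity) ha hy (by linarith)
  refine (Ps_int m ha hab hE hM).trans ?_
  rw [pow_block]
  have e2 : Real.sqrt ((2 ^ k / 4 : ℝ) / (2 * x)) ≤ 2 ^ ((1 / 2 : ℝ) * k) * x ^ (-(1 / 2 : ℝ)) := by
    calc Real.sqrt ((2 ^ k / 4 : ℝ) / (2 * x)) ≤ Real.sqrt (2 ^ k * x⁻¹) := by
          refine Real.sqrt_le_sqrt ?_
          rw [div_eq_mul_inv]
          refine mul_le_mul (by linarith) ?_ (by positivity) (by positivity)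
          exact inv_anti₀ hx (by linarith)
      _ = _ := by
          rw [Real.sqrt_eq_rpow, Real.mul_rpow (by positivity) (by positivity),
            Real.rpow_neg hx.le, Real.inv_rpow hx.le, ← Real.rpow_natCast,
            ← Real.rpow_mul (by norm_num), mul_comm (k : ℝ)]
  have hm0 : (m : ℝ) ≠ 0 := by
    have : (1 : ℝ) ≤ m := by exact_mod_cast hm
    linarith
  have e4 : (2 : ℝ) ^ (-((m * k : ℕ) : ℝ)) * 2 ^ ((1 / 2 : ℝ) * k) =
      2 ^ (-((1 - 1 / (2 * m)) * (m * k : ℕ)) : ℝ) := by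
    rw [← Real.rpow_add (by norm_num)]
    congr 1
    push_cast
    field_simp
    ring
  calc 2 * ((2 : ℝ) ^ (-((m * k : ℕ) : ℝ)) * (24 * Real.sqrt ((2 ^ k / 4 : ℝ) / (2 * x))))
      ≤ 2 * ((2 : ℝ) ^ (-((m * k : ℕ) : ℝ)) *
        (24 * (2 ^ ((1 / 2 : ℝ) * k) * x ^ (-(1 / 2 : ℝ))))) := by
        gcongr
    _ = 48 * ((2 : ℝ) ^ (-((m * k : ℕ) : ℝ)) * 2 ^ ((1 / 2 : ℝ) * k)) *
        x ^ (-(1 / 2 : ℝ)) := by ring
    _ = _ := by
        rw [e4]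

/-- from positive to arbitrary sign -/
theorem sc_sign {m k : ℕ} {x B E T lam : ℝ} (hlam : lam = 2 * x ∨ lam = -(2 * x))
    (h1 : lam = 2 * x → ‖∫ t in (2 ^ k / 4 : ℝ)..(2 ^ k / 2), Ps m (2 * x) B E t‖ ≤ T)
    (h2 : lam = -(2 * x) →
      ‖∫ t in (2 ^ k / 4 : ℝ)..(2 ^ k / 2), Ps m (2 * x) (-B) E t‖ ≤ T) :
    ‖∫ t in (2 ^ k / 4 : ℝ)..(2 ^ k / 2), Ps m lam B E t‖ ≤ T := by
  rcases hlam with h | h
  · rw [h]
    exact h1 h
  · have h3 := h2 h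
    have e1 : ∫ t in (2 ^ k / 4 : ℝ)..(2 ^ k / 2), Ps m lam B E t =
        conj (∫ t in (2 ^ k / 4 : ℝ)..(2 ^ k / 2), Ps m (2 * x) (-B) E t) := by
      have e2 : ∀ t, Ps m lam B E t = conj (Ps m (2 * x) (-B) E t) := by
        intro t
        rw [← Ps_neg2, h, neg_neg]
      simp_rw [e2]
      rw [intervalIntegral.intervalIntegral_eq_integral_uIoc,
        intervalIntegral.intervalIntegral_eq_integral_uIoc]
      rw [integral_conj]
      split_ifs <;> simp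
    rw [e1, RCLike.norm_conj]
    exact h3

theorem lam_eq {u1 u2 u3 u4 : ℝ} (h : u1 + u2 = u3 + u4) :
    u1 ^ 2 + u2 ^ 2 - u3 ^ 2 - u4 ^ 2 = 2 * ((u2 - u4) * (u2 - u3)) := by
  have h1 : u1 = u3 + u4 - u2 := by linarith
  rw [h1]
  ring

theorem sq_le_of_abs {a b : ℝ} (h : |b| ≤ |a|) : 0 ≤ (a / 2) ^ 2 - (b / 2) ^ 2 := by
  have := sq_le_sq.2 h
  nlinarith

/-- nested intervals and monotone functions -/
theorem nested {c : ℝ → ℝ} {S : Set ℝ} (hc : MonotoneOn c S ∨ AntitoneOn c S)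
    {a b a' b' : ℝ} (ha : a ∈ S) (hb : b ∈ S) (ha' : a' ∈ S) (hb' : b' ∈ S)
    (hs : a + b = a' + b') (hn : |a' - b'| ≤ |a - b|) : |c a' - c b'| ≤ |c a - c b| := by
  -- without loss of generality a ≤ b and a' ≤ b'
  have key : ∀ a b a' b' : ℝ, a ∈ S → b ∈ S → a' ∈ S → b' ∈ S → a + b = a' + b' →
      |a' - b'| ≤ |a - b| → a ≤ b → a' ≤ b' → |c a' - c b'| ≤ |c a - c b| := by
    intro a b a' b' ha hb ha' hb' hs hn h1 h2
    rw [abs_of_nonpos (by linarith), abs_of_nonpos (by linarith : a - b ≤ 0)] at hn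
    have h3 : a ≤ a' := by linarith
    have h4 : b' ≤ b := by linarith
    rcases hc with hc | hc
    · have i1 := hc ha ha' h3
      have i2 := hc hb' hb h4
      have i3 := hc ha' hb' h2
      rw [abs_of_nonpos (by linarith), abs_of_nonpos (by linarith)]
      linarith
    · have i1 := hc ha ha' h3
      have i2 := hc hb' hb h4
      have i3 := hc ha' hb' h2
      rw [abs_of_nonneg (by linarith), abs_of_nonneg (by linarith)]
      linarith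
  rcases le_total a b with h1 | h1 <;> rcases le_total a' b' with h2 | h2
  · exact key a b a' b' ha hb ha' hb' hs hn h1 h2
  · rw [abs_sub_comm (c a')]
    exact key a b b' a' ha hb hb' ha' (by linarith) (by rwa [abs_sub_comm b']) h1 h2
  · rw [abs_sub_comm (c a)]
    exact key b a a' b' hb ha ha' hb' (by linarith) (by rwa [abs_sub_comm b]) h1 h2
  · rw [abs_sub_comm (c a), abs_sub_comm (c a')]
    exact key b a b' a' hb ha hb' ha' (by linarith) (by rwa [abs_sub_comm b, abs_sub_comm b']) h1 h2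

theorem HM_mono (m : ℕ) (hm : 1 ≤ m) {ε : ℝ} (h0 : 0 < ε) (h1 : ε < 1) (c : Fin m → ℝ → ℝ)
    (S : Set ℝ) (hS1 : S ⊆ Icc (-1 : ℝ) 1)
    (hc : ∀ j, MonotoneOn (c j) S ∨ AntitoneOn (c j) S) (n : Fin m → ℕ × Bool) :
    HM (1 - ε) c (fun _ _ => 0) (fun j => lo (n j)) (fun j => hi (n j)) S
      ((48 * 2 ^ m : ℝ).toNNReal * (2 : ℝ≥0∞) ^ (-((1 - ε) * (sz n : ℝ)))) := by
  refine HM_of m hm (1 - ε) (1 - ε) (by linarith) (by linarith) (by linarith) (by linarith)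
    (48 * 2 ^ m) ?_ c S hS1 ?_ n
  · have : (0 : ℝ) < 2 ^ m := by positivity
    linarith
  intro u1 i1 u2 i2 u3 i3 u4 i4 hu h24 h23 k hk
  have hp : 0 < |u2 - u4| := abs_pos.2 (sub_ne_zero.2 h24)
  have hr : 0 < |u2 - u3| := abs_pos.2 (sub_ne_zero.2 h23)
  have hx : 0 < |u2 - u4| * |u2 - u3| := mul_pos hp hr
  rw [lam_eq hu]
  have hE0 : 0 ≤ ∑ j, (((c j u1 - c j u2) / 2) ^ 2 + ((c j u3 - c j u4) / 2) ^ 2) :=
    Finset.sum_nonneg fun j _ => by positivity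
  have hfin : ∀ B : ℝ, 0 ≤ B → ‖∫ t in (2 ^ k / 4 : ℝ)..(2 ^ k / 2),
      Ps m (2 * (|u2 - u4| * |u2 - u3|)) B
        (∑ j, (((c j u1 - c j u2) / 2) ^ 2 + ((c j u3 - c j u4) / 2) ^ 2)) t‖ ≤
      48 * 2 ^ m * 2 ^ (-((1 - ε) * (m * k : ℕ))) * (|u2 - u4| * |u2 - u3|) ^ (-(1 - ε)) := by
    intro B hB
    refine (sc_mono_pos hm hk h0 h1 hx hB hE0).trans ?_
    have h2m : (1 : ℝ) ≤ 2 ^ m := one_le_pow₀ (by norm_num)
    gcongr
    linarith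
  refine sc_sign (x := |u2 - u4| * |u2 - u3|) ?_ ?_ ?_
  · rw [← abs_mul]
    rcases abs_choice ((u2 - u4) * (u2 - u3)) with h | h
    · left
      rw [h]
    · right
      rw [h]
      ring
  · intro h
    refine hfin _ (Finset.sum_nonneg fun j _ => sq_le_of_abs ?_)
    refine nested (hc j) i1 i2 i3 i4 hu ?_
    have h5 : 0 < (u2 - u4) * (u2 - u3) := by
      rw [← abs_mul] at hx
      linarith [h, hx, abs_mul (u2 - u4) (u2 - u3)]
    refine sq_le_sq.1 ?_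
    have h6 : u1 = u3 + u4 - u2 := by linarith
    rw [h6]
    nlinarith
  · intro h
    refine hfin _ ?_
    rw [← Finset.sum_neg_distrib]
    refine Finset.sum_nonneg fun j _ => ?_
    rw [neg_sub]
    refine sq_le_of_abs ?_
    refine nested (hc j) i3 i4 i1 i2 hu.symm ?_
    have h5 : (u2 - u4) * (u2 - u3) < 0 := by
      rw [← abs_mul] at hx
      linarith [h, hx, abs_mul (u2 - u4) (u2 - u3)]
    refine sq_le_sq.1 ?_
    have h6 : u1 = u3 + u4 - u2 := by linarith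
    rw [h6]
    nlinarith

theorem HM_gen (m : ℕ) (hm : 1 ≤ m) (c : Fin m → ℝ → ℝ)
    (S : Set ℝ) (hS1 : S ⊆ Icc (-1 : ℝ) 1) (n : Fin m → ℕ × Bool) :
    HM (1 / 2) c (fun _ _ => 0) (fun j => lo (n j)) (fun j => hi (n j)) S
      ((48 * 2 ^ m : ℝ).toNNReal * (2 : ℝ≥0∞) ^ (-((1 - 1 / (2 * m)) * (sz n : ℝ)))) := by
  have hm1 : (1 : ℝ) ≤ m := by exact_mod_cast hm
  refine HM_of m hm (1 / 2) (1 - 1 / (2 * m)) (by norm_num) (by norm_num) ?_ ?_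
    (48 * 2 ^ m) ?_ c S hS1 ?_ n
  · rw [sub_nonneg, div_le_one (by positivity)]
    linarith
  · have : (0 : ℝ) < 1 / (2 * m) := by positivity
    linarith
  · have : (0 : ℝ) < 2 ^ m := by positivity
    linarith
  intro u1 i1 u2 i2 u3 i3 u4 i4 hu h24 h23 k hk
  have hp : 0 < |u2 - u4| := abs_pos.2 (sub_ne_zero.2 h24)
  have hr : 0 < |u2 - u3| := abs_pos.2 (sub_ne_zero.2 h23)
  have hx : 0 < |u2 - u4| * |u2 - u3| := mul_pos hp hr
  rw [lam_eq hu]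
  have hE0 : 0 ≤ ∑ j, (((c j u1 - c j u2) / 2) ^ 2 + ((c j u3 - c j u4) / 2) ^ 2) :=
    Finset.sum_nonneg fun j _ => by positivity
  have hfin : ∀ B : ℝ, ‖∫ t in (2 ^ k / 4 : ℝ)..(2 ^ k / 2),
      Ps m (2 * (|u2 - u4| * |u2 - u3|)) B
        (∑ j, (((c j u1 - c j u2) / 2) ^ 2 + ((c j u3 - c j u4) / 2) ^ 2)) t‖ ≤
      48 * 2 ^ m * 2 ^ (-((1 - 1 / (2 * m)) * (m * k : ℕ)) : ℝ) *
        (|u2 - u4| * |u2 - u3|) ^ (-(1 / 2 : ℝ)) := by
    intro B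
    refine (sc_gen_pos hm hk hx hE0).trans ?_
    have h2m : (1 : ℝ) ≤ 2 ^ m := one_le_pow₀ (by norm_num)
    gcongr
    linarith
  refine sc_sign (x := |u2 - u4| * |u2 - u3|) ?_ (fun _ => hfin _) (fun _ => hfin _)
  rw [← abs_mul]
  rcases abs_choice ((u2 - u4) * (u2 - u3)) with h | h
  · left
    rw [h]
  · right
    rw [h]
    ring

end Pool.Agent.T9h8.MS
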