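import Mathlib
import Pool.Agent.T9h8.MS.FT3
import Pool.Agent.T9h8.MS.FinB
set_option autoImplicit false

/-!
# The hypothesis for quadruples for packets with different times
-/

namespace Pool.Agent.T9h8.MS

open MeasureTheory Set Complex
open scoped ENNReal NNReal ComplexConjugate

theorem prod_inv_sz {m : ℕ} (n : Fin m → ℕ × Bool) :
    ∏ j, ((2 : ℝ) ^ (n j).1)⁻¹ = (2 ^ sz n : ℝ)⁻¹ := by
  unfold sz
  rw [Finset.prod_inv_distrib, Finset.prod_pow_eq_pow_sum]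

/-- the product of the interactions -/
theorem prod_bounds {m : ℕ} (n : Fin m → ℕ × Bool) (a b c d : Fin m → ℝ) {L R : ℝ} (hLR : L ≤ R)
    (ha : ∀ j, ∀ t ∈ Icc L R, t + a j ∈ Icc (lo (n j)) (hi (n j)))
    (hb : ∀ j, ∀ t ∈ Icc L R, t + b j ∈ Icc (lo (n j)) (hi (n j)))
    (hc : ∀ j, ∀ t ∈ Icc L R, t + c j ∈ Icc (lo (n j)) (hi (n j)))
    (hd : ∀ j, ∀ t ∈ Icc L R, t + d j ∈ Icc (lo (n j)) (hi (n j))) {lam : ℝ} (hlam : lam ≠ 0) :
    ‖∫ t in L..R, ee (lam * t) * ∏ j, QQ (t + a j) (t + b j) (t + c j) (t + d j)‖ ≤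
      (2 + 16 * m) * (2 ^ sz n : ℝ)⁻¹ / |lam| := by
  set f : Fin m → ℝ → ℂ := fun j t => QQ (t + a j) (t + b j) (t + c j) (t + d j) with hf
  set f' : Fin m → ℝ → ℂ := fun j t => QQd (t + a j) (t + b j) (t + c j) (t + d j) with hf'
  have hfc : ∀ j, Continuous (f j) := fun j => QQ_cont _ _ _ _
  have hfc' : ∀ j, Continuous (f' j) := fun j => QQd_cont _ _ _ _
  have hfn : ∀ j, ∀ t ∈ Icc L R, ‖f j t‖ ≤ ((2 : ℝ) ^ (n j).1)⁻¹ := fun j t ht =>
    QQ_le (ha j t ht) (hb j t ht) (hc j t ht) (hd j t ht)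
  have hFd : ∀ t, HasDerivAt (fun t => ∏ j, f j t)
      (∑ i, (∏ j ∈ Finset.univ.erase i, f j t) • f' i t) t := fun t =>
    HasDerivAt.fun_finsetProd fun j _ => QQ_deriv (a j) (b j) (c j) (d j) t
  have hF'c : Continuous fun t => ∑ i, (∏ j ∈ Finset.univ.erase i, f j t) • f' i t := by
    refine continuous_finsetSum _ fun i _ => ?_
    exact (continuous_finsetProd _ fun j _ => hfc j).smul (hfc' i)
  have hosc := osc_bound hlam hLR hFd hF'c
  refine hosc.trans ?_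
  have hpi := Real.pi_gt_three
  have hl := abs_pos.2 hlam
  have hZ : (0 : ℝ) < (2 ^ sz n : ℝ)⁻¹ := by positivity
  have hend : ∀ t ∈ Icc L R, ‖∏ j, f j t‖ ≤ (2 ^ sz n : ℝ)⁻¹ := by
    intro t ht
    rw [norm_prod, ← prod_inv_sz]
    exact Finset.prod_le_prod (fun _ _ => norm_nonneg _) fun j _ => hfn j t ht
  have hint : ∫ t in L..R, ‖∑ i, (∏ j ∈ Finset.univ.erase i, f j t) • f' i t‖ ≤
      16 * m * (2 ^ sz n : ℝ)⁻¹ := by
    have h1 : ∀ t ∈ Icc L R, ‖∑ i, (∏ j ∈ Finset.univ.erase i, f j t) • f' i t‖ ≤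
        ∑ i, (∏ j ∈ Finset.univ.erase i, ((2 : ℝ) ^ (n j).1)⁻¹) * ‖f' i t‖ := by
      intro t ht
      refine (norm_sum_le _ _).trans (Finset.sum_le_sum fun i _ => ?_)
      rw [norm_smul, norm_prod]
      refine mul_le_mul_of_nonneg_right ?_ (norm_nonneg _)
      exact Finset.prod_le_prod (fun _ _ => norm_nonneg _) fun j _ => hfn j t ht
    have h2 : ∀ i, IntervalIntegrable (fun t => (∏ j ∈ Finset.univ.erase i,
        ((2 : ℝ) ^ (n j).1)⁻¹) * ‖f' i t‖) volume L R := fun i =>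
      (continuous_const.mul (hfc' i).norm).intervalIntegrable _ _
    calc ∫ t in L..R, ‖∑ i, (∏ j ∈ Finset.univ.erase i, f j t) • f' i t‖
        ≤ ∫ t in L..R, ∑ i, (∏ j ∈ Finset.univ.erase i, ((2 : ℝ) ^ (n j).1)⁻¹) * ‖f' i t‖ := by
          refine intervalIntegral.integral_mono_on hLR (hF'c.norm.intervalIntegrable _ _) ?_ h1
          exact (continuous_finsetSum _ fun i _ =>
            continuous_const.mul (hfc' i).norm).intervalIntegrable _ _
      _ = ∑ i, (∏ j ∈ Finset.univ.erase i, ((2 : ℝ) ^ (n j).1)⁻¹) *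
          ∫ t in L..R, ‖f' i t‖ := by
          rw [intervalIntegral.integral_finsetSum fun i _ => h2 i]
          exact Finset.sum_congr rfl fun i _ => intervalIntegral.integral_const_mul _ _
      _ ≤ ∑ i, (∏ j ∈ Finset.univ.erase i, ((2 : ℝ) ^ (n j).1)⁻¹) *
          (16 * ((2 : ℝ) ^ (n i).1)⁻¹) := by
          refine Finset.sum_le_sum fun i _ => mul_le_mul_of_nonneg_left ?_ (by positivity)
          exact QQd_int (a i) (b i) (c i) (d i) hLR (ha i) (hb i) (hc i) (hd i)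
      _ = ∑ _i : Fin m, 16 * (2 ^ sz n : ℝ)⁻¹ := by
          refine Finset.sum_congr rfl fun i _ => ?_
          rw [← prod_inv_sz, ← Finset.prod_erase_mul _ _ (Finset.mem_univ i)]
          ring
      _ = 16 * m * (2 ^ sz n : ℝ)⁻¹ := by
          rw [Finset.sum_const, Finset.card_univ, Fintype.card_fin, nsmul_eq_mul]
          ring
  calc (‖∏ j, f j L‖ + ‖∏ j, f j R‖ +
        ∫ t in L..R, ‖∑ i, (∏ j ∈ Finset.univ.erase i, f j t) • f' i t‖) / (2 * Real.pi * |lam|)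
      ≤ ((2 ^ sz n : ℝ)⁻¹ + (2 ^ sz n : ℝ)⁻¹ + 16 * m * (2 ^ sz n : ℝ)⁻¹) /
        (2 * Real.pi * |lam|) := by
        have e1 := hend L ⟨le_rfl, hLR⟩
        have e2 := hend R ⟨hLR, le_rfl⟩
        gcongr
    _ ≤ ((2 ^ sz n : ℝ)⁻¹ + (2 ^ sz n : ℝ)⁻¹ + 16 * m * (2 ^ sz n : ℝ)⁻¹) / |lam| := by
        refine div_le_div_of_nonneg_left (by positivity) hl ?_
        nlinarith
    _ = _ := by ring

/-- the trivial bound -/
theorem prod_triv {m : ℕ} (hm : 1 ≤ m) (n : Fin m → ℕ × Bool) (a b c d : Fin m → ℝ) {L R : ℝ}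
    (hLR : L ≤ R)
    (ha : ∀ j, ∀ t ∈ Icc L R, t + a j ∈ Icc (lo (n j)) (hi (n j)))
    (hb : ∀ j, ∀ t ∈ Icc L R, t + b j ∈ Icc (lo (n j)) (hi (n j)))
    (hc : ∀ j, ∀ t ∈ Icc L R, t + c j ∈ Icc (lo (n j)) (hi (n j)))
    (hd : ∀ j, ∀ t ∈ Icc L R, t + d j ∈ Icc (lo (n j)) (hi (n j))) {lam : ℝ} :
    ‖∫ t in L..R, ee (lam * t) * ∏ j, QQ (t + a j) (t + b j) (t + c j) (t + d j)‖ ≤ 1 := by
  have h1 : ‖∫ t in L..R, ee (lam * t) * ∏ j, QQ (t + a j) (t + b j) (t + c j) (t + d j)‖ ≤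
      (2 ^ sz n : ℝ)⁻¹ * |R - L| := by
    refine intervalIntegral.norm_integral_le_of_norm_le_const fun t ht => ?_
    rw [uIoc_of_le hLR] at ht
    have ht' : t ∈ Icc L R := ⟨ht.1.le, ht.2⟩
    rw [norm_mul, ee_norm, one_mul, norm_prod, ← prod_inv_sz]
    exact Finset.prod_le_prod (fun _ _ => norm_nonneg _) fun j _ =>
      QQ_le (ha j t ht') (hb j t ht') (hc j t ht') (hd j t ht')
  have hlen : R - L ≤ 2 ^ sz n := by
    have h1 := (ha ⟨0, hm⟩ L ⟨le_rfl, hLR⟩).1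
    have h2 := (ha ⟨0, hm⟩ R ⟨hLR, le_rfl⟩).2
    have h3 := hi_sub_lo (n ⟨0, hm⟩)
    have h4 : (2 : ℝ) ^ (n ⟨0, hm⟩).1 ≤ 2 ^ sz n := by
      refine pow_le_pow_right₀ (by norm_num) ?_
      unfold sz
      exact Finset.single_le_sum (f := fun j => (n j).1) (fun _ _ => Nat.zero_le _)
        (Finset.mem_univ _)
    have h5 : (0 : ℝ) < 2 ^ (n ⟨0, hm⟩).1 := by positivity
    linarith
  refine h1.trans ?_
  rw [abs_of_nonneg (by linarith)]
  rw [inv_mul_le_iff₀ (by positivity), mul_one]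
  exact hlen

/-- a finite intersection of half-open intervals is one -/
theorem inter_Ico {ι : Type*} [Fintype ι] [Nonempty ι] (α β : ι → ℝ) :
    {t : ℝ | ∀ i, t ∈ Ico (α i) (β i)} =
      Ico (Finset.univ.sup' Finset.univ_nonempty α) (Finset.univ.inf' Finset.univ_nonempty β) := by
  ext t
  simp only [mem_ofPred_eq, mem_Ico, Finset.sup'_le_iff, Finset.lt_inf'_iff, Finset.mem_univ,
    forall_true_left, forall_and]

theorem HM_foc (m : ℕ) (hm : 1 ≤ m) {ε : ℝ} (h0 : 0 < ε) (h1 : ε < 1) (s : Fin m → ℝ → ℝ)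
    (S : Set ℝ) (n : Fin m → ℕ × Bool) :
    HM (1 - ε) (fun _ _ => 0) s (fun j => lo (n j)) (fun j => hi (n j)) S
      (((2 + 16 * m : ℕ) : ℝ≥0) * (2 : ℝ≥0∞) ^ (-((1 - ε) * (sz n : ℝ)))) := by
  intro u1 _ u2 _ u3 _ u4 _ hu
  have hAne : ((((2 + 16 * m : ℕ) : ℝ≥0) : ℝ≥0∞) * (2 : ℝ≥0∞) ^ (-((1 - ε) * (sz n : ℝ)))) ≠ 0 := by
    refine mul_ne_zero ?_ (ENNReal.rpow_pos (by norm_num) (by norm_num)).ne'
    rw [Ne, ENNReal.coe_eq_zero]
    exact_mod_cast (by omega : (2 + 16 * m) ≠ 0)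
  have hkpos : ∀ x : ℝ, kk (1 - ε) x ≠ 0 := by
    intro x
    unfold kk
    rw [Ne, ENNReal.rpow_eq_zero_iff]
    rintro (⟨_, h5⟩ | ⟨h5, _⟩)
    · linarith
    · exact ENNReal.ofReal_ne_top h5
  have hktop : kk (1 - ε) 0 = ∞ := by
    unfold kk
    rw [abs_zero, ENNReal.ofReal_zero]
    exact ENNReal.zero_rpow_of_neg (by linarith)
  by_cases h24 : u2 = u4
  · rw [h24, sub_self, hktop, ENNReal.top_mul (hkpos _), ENNReal.mul_top hAne]
    exact le_top
  by_cases h23 : u2 = u3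
  · rw [h23, sub_self, hktop, ENNReal.mul_top (hkpos _), ENNReal.mul_top hAne]
    exact le_top
  have hp : 0 < |u2 - u4| := abs_pos.2 (sub_ne_zero.2 h24)
  have hr : 0 < |u2 - u3| := abs_pos.2 (sub_ne_zero.2 h23)
  have hx : 0 < |u2 - u4| * |u2 - u3| := mul_pos hp hr
  have : Nonempty (Fin m × Fin 4) := ⟨(⟨0, hm⟩, 0)⟩
  set w : Fin 4 → ℝ := ![u1, u2, u3, u4] with hw
  set L : ℝ := Finset.univ.sup' Finset.univ_nonempty
    (fun i : Fin m × Fin 4 => lo (n i.1) - s i.1 (w i.2)) with hL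
  set R : ℝ := Finset.univ.inf' Finset.univ_nonempty
    (fun i : Fin m × Fin 4 => hi (n i.1) - s i.1 (w i.2)) with hR
  have hJ : JJ s (fun j => lo (n j)) (fun j => hi (n j)) u1 u2 u3 u4 = Ico L R := by
    rw [hL, hR, ← inter_Ico]
    ext t
    constructor
    · intro ht i
      obtain ⟨j, i⟩ := i
      have key : t + s j (w i) ∈ Ico (lo (n j)) (hi (n j)) := by
        fin_cases i
        · exact ht.1 j
        · exact ht.2.1 j
        · exact ht.2.2.1 j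
        · exact ht.2.2.2 j
      exact ⟨by linarith [key.1], by linarith [key.2]⟩
    · intro ht
      have key : ∀ i : Fin 4, (w i, t) ∈ DD s (fun j => lo (n j)) (fun j => hi (n j)) := by
        intro i j
        have := ht (j, i)
        exact ⟨by linarith [this.1], by linarith [this.2]⟩
      exact ⟨key 0, key 1, key 2, key 3⟩
  rw [hJ]
  rcases lt_or_ge L R with hLR | hLR
  swap
  · rw [Ico_eq_empty (not_lt.2 hLR)]
    simp
  have hLR' : L ≤ R := hLR.le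
  have hmem : ∀ (i : Fin 4) (j : Fin m), ∀ t ∈ Icc L R, t + s j (w i) ∈ Icc (lo (n j)) (hi (n j)) := by
    intro i j t ht
    have a1 : lo (n j) - s j (w i) ≤ L :=
      Finset.le_sup' (f := fun i : Fin m × Fin 4 => lo (n i.1) - s i.1 (w i.2))
        (Finset.mem_univ (j, i))
    have a2 : R ≤ hi (n j) - s j (w i) :=
      Finset.inf'_le (f := fun i : Fin m × Fin 4 => hi (n i.1) - s i.1 (w i.2))
        (Finset.mem_univ (j, i))
    exact ⟨by linarith [ht.1], by linarith [ht.2]⟩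
  rw [integral_Ico_eq_integral_Ioc, ← intervalIntegral.integral_of_le hLR']
  simp_rw [I4_zero]
  rw [lam_eq hu]
  set lam : ℝ := 2 * ((u2 - u4) * (u2 - u3)) with hlam
  have hlam1 : |lam| = 2 * (|u2 - u4| * |u2 - u3|) := by
    rw [hlam, abs_mul, abs_mul, abs_two]
  have hlam0 : lam ≠ 0 := by
    rw [← abs_pos, hlam1]
    positivity
  have b1 := prod_bounds n (fun j => s j u1) (fun j => s j u2) (fun j => s j u3) (fun j => s j u4)
    hLR' (hmem 0) (hmem 1) (hmem 2) (hmem 3) hlam0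
  have b2 := prod_triv (lam := lam) hm n (fun j => s j u1) (fun j => s j u2) (fun j => s j u3)
    (fun j => s j u4) hLR' (hmem 0) (hmem 1) (hmem 2) (hmem 3)
  have b3 := min_interp (norm_nonneg _) b2 b1 h0 h1
  rw [← ofReal_norm]
  refine (ENNReal.ofReal_le_ofReal b3).trans ?_
  have hm0 : (0 : ℝ) ≤ m := by positivity
  have b4 : (1 : ℝ) ^ ε * ((2 + 16 * m) * (2 ^ sz n : ℝ)⁻¹ / |lam|) ^ (1 - ε) ≤
      ((2 + 16 * m : ℕ) : ℝ) * 2 ^ (-((1 - ε) * (sz n : ℝ))) *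
        (|u2 - u4| * |u2 - u3|) ^ (-(1 - ε)) := by
    rw [Real.one_rpow, one_mul, hlam1, div_eq_mul_inv, Real.mul_rpow (by positivity) (by positivity),
      Real.mul_rpow (by positivity) (by positivity)]
    have c1 : (2 + 16 * (m : ℝ)) ^ (1 - ε) ≤ ((2 + 16 * m : ℕ) : ℝ) := by
      push_cast
      calc (2 + 16 * (m : ℝ)) ^ (1 - ε) ≤ (2 + 16 * (m : ℝ)) ^ (1 : ℝ) :=
            Real.rpow_le_rpow_of_exponent_le (by linarith) (by linarith)
        _ = _ := Real.rpow_one _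
    have c2 : ((2 ^ sz n : ℝ)⁻¹) ^ (1 - ε) = 2 ^ (-((1 - ε) * (sz n : ℝ))) := by
      rw [← Real.rpow_natCast, ← Real.rpow_neg (by norm_num), ← Real.rpow_mul (by norm_num)]
      congr 1
      ring
    have c3 : ((2 * (|u2 - u4| * |u2 - u3|))⁻¹) ^ (1 - ε) ≤
        (|u2 - u4| * |u2 - u3|) ^ (-(1 - ε)) := by
      rw [Real.rpow_neg hx.le, ← Real.inv_rpow hx.le]
      refine Real.rpow_le_rpow (by positivity) ?_ (by linarith)
      exact inv_anti₀ hx (by linarith)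
    rw [c2]
    gcongr
  refine (ENNReal.ofReal_le_ofReal b4).trans (le_of_eq ?_)
  rw [ENNReal.ofReal_mul (by positivity), ENNReal.ofReal_mul (by positivity), ← two_rpow,
    Real.mul_rpow hp.le hr.le, ENNReal.ofReal_mul (by positivity)]
  unfold kk
  rw [ENNReal.ofReal_rpow_of_pos hp, ENNReal.ofReal_rpow_of_pos hr]
  congr 2
  rw [ENNReal.ofReal_natCast]
  push_cast
  rfl

end Pool.Agent.T9h8.MS
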