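import Mathlib
import Pool.Agent.T9h8.MS.BV
set_option autoImplicit false

/-!
# Functions of bounded variation on an interval: the modulus of continuity in the mean
-/

namespace Pool.Agent.T9h8.MS

open MeasureTheory Set Complex
open scoped ENNReal NNReal ComplexConjugate

/-- the compensated profile -/
noncomputable def cp (r : ℝ → ℂ) (v : ℝ) : ℂ :=
  (Icc (-1 : ℝ) 1).indicator (fun v => r v * ((Real.exp (Real.pi * (v ^ 2 - 1)) : ℝ) : ℂ)) v

theorem phi_le {v : ℝ} (hv : v ∈ Icc (-1 : ℝ) 1) : Real.exp (Real.pi * (v ^ 2 - 1)) ≤ 1 := by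
  rw [Real.exp_le_one_iff]
  have h1 : v ^ 2 ≤ 1 := by
    have := hv.1
    have := hv.2
    nlinarith
  have := Real.pi_pos
  nlinarith

theorem phi_lip {v w : ℝ} (hv : v ∈ Icc (-1 : ℝ) 1) (hw : w ∈ Icc (-1 : ℝ) 1) :
    |Real.exp (Real.pi * (w ^ 2 - 1)) - Real.exp (Real.pi * (v ^ 2 - 1))| ≤
      2 * Real.pi * |w - v| := by
  have hpi := Real.pi_pos
  have h := Convex.norm_image_sub_le_of_norm_hasDerivWithin_le (𝕜 := ℝ)
    (f := fun v : ℝ => Real.exp (Real.pi * (v ^ 2 - 1)))
    (f' := fun v => Real.exp (Real.pi * (v ^ 2 - 1)) * (Real.pi * (2 * v)))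
    (C := 2 * Real.pi) (s := Icc (-1 : ℝ) 1) (fun x _ => by
      have h1 : HasDerivAt (fun v : ℝ => Real.pi * (v ^ 2 - 1)) (Real.pi * (2 * x)) x := by
        have h := ((hasDerivAt_pow 2 x).sub_const 1).const_mul Real.pi
        refine h.congr_deriv ?_
        norm_num
      exact h1.exp.hasDerivWithinAt) (fun x hx => by
      rw [norm_mul, Real.norm_of_nonneg (Real.exp_pos _).le, Real.norm_eq_abs, abs_mul, abs_mul,
        abs_of_pos hpi, abs_two]
      have h2 : |x| ≤ 1 := abs_le.2 hx
      have h3 := phi_le hx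
      calc Real.exp (Real.pi * (x ^ 2 - 1)) * (Real.pi * (2 * |x|)) ≤ 1 * (Real.pi * (2 * 1)) := by
            refine mul_le_mul h3 ?_ (by positivity) (by norm_num)
            refine mul_le_mul_of_nonneg_left ?_ hpi.le
            linarith
        _ = 2 * Real.pi := by ring) (convex_Icc _ _) hv hw
  simpa [Real.norm_eq_abs] using h

theorem cp_norm {r : ℝ → ℂ} (hb : ∀ v ∈ Icc (-1 : ℝ) 1, ‖r v‖ ≤ 1) (v : ℝ) : ‖cp r v‖ ≤ 1 := by
  unfold cp
  by_cases h : v ∈ Icc (-1 : ℝ) 1
  · rw [indicator_of_mem h, norm_mul, Complex.norm_real, Real.norm_of_nonneg (Real.exp_pos _).le]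
    exact mul_le_one₀ (hb v h) (Real.exp_pos _).le (phi_le h)
  · rw [indicator_of_notMem h, norm_zero]
    exact zero_le_one

theorem cp_meas {r : ℝ → ℂ} (hr : Measurable r) : Measurable (cp r) := by
  unfold cp
  refine Measurable.indicator ?_ measurableSet_Icc
  exact hr.mul (by fun_prop)

theorem cp_mod_pos {r : ℝ → ℂ} (hr : Measurable r) (hb : ∀ v ∈ Icc (-1 : ℝ) 1, ‖r v‖ ≤ 1)
    (hv : eVariationOn r (Icc (-1 : ℝ) 1) ≤ 1) (h : ℝ) (hh : 0 ≤ h) :
    ∫⁻ v, ‖cp r (v + h) - cp r v‖ₑ ≤ ENNReal.ofReal (16 * h) := by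
  have h11 : (-1 : ℝ) ≤ 1 := by norm_num
  set I : Set ℝ := Icc (-1 : ℝ) 1 with hI
  have hm1 : (-1 : ℝ) ∈ I := ⟨le_rfl, h11⟩
  have hbv : BoundedVariationOn r I := ne_top_of_le_ne_top (by simp) hv
  have hl := hbv.locallyBoundedVariationOn
  set p : ℝ → ℝ := variationOnFromTo r I (-1) with hp
  have hpm : MonotoneOn p I := variationOnFromTo.monotoneOn hl hm1
  have hp0 : ∀ v ∈ I, 0 ≤ p v := fun v hv => variationOnFromTo.nonneg_of_le r I hv.1
  have hp1 : ∀ v ∈ I, p v ≤ 1 := by
    intro v hv'
    rw [hp, variationOnFromTo.eq_of_le r I hv'.1]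
    have h1 : eVariationOn r (I ∩ Icc (-1) v) ≤ 1 :=
      (eVariationOn.mono r inter_subset_left).trans hv
    have := ENNReal.toReal_mono (by simp) h1
    simpa using this
  have hdiff : ∀ v ∈ I, ∀ w ∈ I, v ≤ w → ‖r w - r v‖ ≤ p w - p v := by
    intro v hv' w hw hvw
    rw [hp, variationOnFromTo.sub_right hl hm1 hw hv', variationOnFromTo.eq_of_le r I hvw]
    have h2 := eVariationOn.edist_le r (s := I ∩ Icc v w) (x := w) (y := v)
      ⟨hw, hvw, le_rfl⟩ ⟨hv', le_rfl, hvw⟩
    have hne : eVariationOn r (I ∩ Icc v w) ≠ ∞ :=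
      ne_top_of_le_ne_top hbv (eVariationOn.mono r inter_subset_left)
    have h3 := ENNReal.toReal_mono hne h2
    rwa [edist_dist, ENNReal.toReal_ofReal dist_nonneg, dist_eq_norm] at h3
  set π' : ℝ → ℝ := fun v => (projIcc (-1 : ℝ) 1 h11 v : ℝ) with hπ
  have hπm : Monotone π' := fun v w hvw => monotone_projIcc h11 hvw
  have hπI : ∀ v, π' v ∈ I := fun v => (projIcc (-1 : ℝ) 1 h11 v).2
  have hπe : ∀ v ∈ I, π' v = v := fun v hv' => by
    rw [hπ]
    simp only
    rw [projIcc_of_mem h11 hv']
  set P : ℝ → ℝ := fun v => p (π' v) with hP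
  have hPm : Monotone P := fun v w hvw => hpm (hπI v) (hπI w) (hπm hvw)
  have hPa : ∀ v, 0 ≤ P v := fun v => hp0 _ (hπI v)
  have hPb : ∀ v, P v ≤ 1 := fun v => hp1 _ (hπI v)
  have hPmeas : Measurable P := hPm.measurable
  have hpi := Real.pi_pos
  -- the pointwise bound
  set G : ℝ → ℝ := fun v => (P (v + h) - P v) + 2 * Real.pi * h with hG
  have hG0 : ∀ v, 0 ≤ G v := by
    intro v
    rw [hG]
    have := hPm (show v ≤ v + h by linarith)
    have h3 : 0 ≤ 2 * Real.pi * h := by positivity
    simp only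
    linarith
  have hpt : ∀ v, ‖cp r (v + h) - cp r v‖ₑ ≤ I.indicator (fun v => ENNReal.ofReal (G v)) v +
      ((Icc (-1 - h) (-1)).indicator (fun _ => (1 : ℝ≥0∞)) v +
        (Icc (1 - h) 1).indicator (fun _ => (1 : ℝ≥0∞)) v) := by
    intro v
    have hn : ∀ v, ‖cp r v‖ₑ ≤ 1 := by
      intro v
      rw [← ofReal_norm]
      exact ENNReal.ofReal_le_one.2 (cp_norm hb v)
    by_cases h1 : v ∈ I
    · by_cases h2 : v + h ∈ I
      · refine le_trans ?_ le_self_add
        rw [indicator_of_mem h1, ← ofReal_norm]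
        refine ENNReal.ofReal_le_ofReal ?_
        unfold cp
        rw [indicator_of_mem h2, indicator_of_mem h1, hG]
        simp only
        set φ : ℝ → ℝ := fun v => Real.exp (Real.pi * (v ^ 2 - 1)) with hφ
        have e1 : r (v + h) * ((φ (v + h) : ℝ) : ℂ) - r v * ((φ v : ℝ) : ℂ) =
            (r (v + h) - r v) * ((φ (v + h) : ℝ) : ℂ) +
              r v * (((φ (v + h) - φ v : ℝ)) : ℂ) := by
          push_cast
          ring
        have e2 : P (v + h) = p (v + h) := by rw [hP]; simp only; rw [hπe _ h2]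
        have e3 : P v = p v := by rw [hP]; simp only; rw [hπe _ h1]
        calc ‖r (v + h) * ((φ (v + h) : ℝ) : ℂ) - r v * ((φ v : ℝ) : ℂ)‖
            ≤ ‖(r (v + h) - r v) * ((φ (v + h) : ℝ) : ℂ)‖ +
              ‖r v * (((φ (v + h) - φ v : ℝ)) : ℂ)‖ := by
              rw [e1]
              exact norm_add_le _ _
          _ ≤ (P (v + h) - P v) * 1 + 1 * (2 * Real.pi * |h|) := by
              rw [norm_mul, norm_mul, Complex.norm_real, Complex.norm_real]
              refine add_le_add (mul_le_mul ?_ ?_ (norm_nonneg _) ?_)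
                (mul_le_mul (hb v h1) ?_ (norm_nonneg _) (by norm_num))
              · rw [e2, e3]
                exact hdiff v h1 (v + h) h2 (by linarith)
              · rw [Real.norm_of_nonneg (Real.exp_pos _).le]
                exact phi_le h2
              · have := hPm (show v ≤ v + h by linarith)
                linarith
              · have := phi_lip h1 h2
                rw [add_sub_cancel_left] at this
                exact this
          _ = _ := by
              rw [abs_of_nonneg hh]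
              ring
      · have h3 : v ∈ Icc (1 - h) 1 := by
          refine ⟨?_, h1.2⟩
          by_contra hcon
          push Not at hcon
          exact h2 ⟨by linarith [h1.1], by linarith⟩
        have h4 : cp r (v + h) = 0 := by
          unfold cp
          rw [indicator_of_notMem h2]
        rw [h4, zero_sub, enorm_neg, indicator_of_mem h3]
        calc ‖cp r v‖ₑ ≤ 1 := hn v
          _ ≤ _ := le_add_self
          _ ≤ _ := le_add_self
    · have h4 : cp r v = 0 := by
        unfold cp
        rw [indicator_of_notMem h1]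
      by_cases h2 : v + h ∈ I
      · have h3 : v ∈ Icc (-1 - h) (-1) := by
          refine ⟨by linarith [h2.1], ?_⟩
          by_contra hcon
          push Not at hcon
          exact h1 ⟨hcon.le, by linarith [h2.2]⟩
        rw [h4, sub_zero, indicator_of_mem h3]
        calc ‖cp r (v + h)‖ₑ ≤ 1 := hn _
          _ ≤ 1 + (Icc (1 - h) 1).indicator (fun _ => (1 : ℝ≥0∞)) v := le_self_add
          _ ≤ _ := le_add_self
      · have h5 : cp r (v + h) = 0 := by
          unfold cp
          rw [indicator_of_notMem h2]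
        rw [h4, h5, sub_zero, enorm_zero]
        exact zero_le
  have hGm : Measurable G := by
    rw [hG]
    exact ((hPmeas.comp (measurable_id.add measurable_const)).sub hPmeas).add measurable_const
  have hGint : ∫⁻ v in I, ENNReal.ofReal (G v) ≤ ENNReal.ofReal (14 * h) := by
    have hPi : ∀ a b : ℝ, IntervalIntegrable P volume a b := fun a b =>
      hPm.intervalIntegrable
    have hPi2 : IntervalIntegrable (fun v => P (v + h)) volume (-1) 1 := by
      have hm : Monotone fun v => P (v + h) := fun v w hvw => hPm (by linarith)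
      exact hm.intervalIntegrable
    have hGi : IntervalIntegrable G volume (-1) 1 :=
      (hPi2.sub (hPi _ _)).add intervalIntegrable_const
    have hGi2 : IntegrableOn G I := by
      rw [hI, integrableOn_Icc_iff_integrableOn_Ioc]
      exact (intervalIntegrable_iff_integrableOn_Ioc_of_le h11).1 hGi
    rw [← ofReal_integral_eq_lintegral_ofReal hGi2 (Filter.Eventually.of_forall hG0)]
    refine ENNReal.ofReal_le_ofReal ?_
    rw [hI, integral_Icc_eq_integral_Ioc, ← intervalIntegral.integral_of_le h11, hG]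
    simp only
    rw [intervalIntegral.integral_add (hPi2.sub (hPi _ _)) intervalIntegrable_const,
      intervalIntegral.integral_sub hPi2 (hPi _ _), intervalIntegral.integral_const,
      intervalIntegral.integral_comp_add_right]
    have e4 : ∫ v in (-1 + h)..(1 + h), P v = (∫ v in (-1 : ℝ)..1, P v) +
        (∫ v in (1 : ℝ)..(1 + h), P v) - ∫ v in (-1 : ℝ)..(-1 + h), P v := by
      have a1 := intervalIntegral.integral_add_adjacent_intervals (hPi (-1) 1) (hPi 1 (1 + h))
      have a2 := intervalIntegral.integral_add_adjacent_intervals (hPi (-1) (-1 + h))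
        (hPi (-1 + h) (1 + h))
      rw [a1, ← a2]
      ring
    have e5 : ∫ v in (1 : ℝ)..(1 + h), P v ≤ h := by
      calc ∫ v in (1 : ℝ)..(1 + h), P v ≤ ∫ _v in (1 : ℝ)..(1 + h), (1 : ℝ) :=
            intervalIntegral.integral_mono (by linarith) (hPi _ _) intervalIntegrable_const
              fun v => hPb v
        _ = h := by simp
    have e6 : 0 ≤ ∫ v in (-1 : ℝ)..(-1 + h), P v :=
      intervalIntegral.integral_nonneg (by linarith) fun v _ => hPa v
    rw [e4, smul_eq_mul]
    have h7 : Real.pi ≤ 3.15 := by linarith [Real.pi_lt_d2]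
    nlinarith
  calc ∫⁻ v, ‖cp r (v + h) - cp r v‖ₑ
      ≤ ∫⁻ v, (I.indicator (fun v => ENNReal.ofReal (G v)) v +
      ((Icc (-1 - h) (-1)).indicator (fun _ => (1 : ℝ≥0∞)) v +
        (Icc (1 - h) 1).indicator (fun _ => (1 : ℝ≥0∞)) v)) := lintegral_mono hpt
    _ = (∫⁻ v in I, ENNReal.ofReal (G v)) + (ENNReal.ofReal h + ENNReal.ofReal h) := by
        rw [lintegral_add_left (hGm.ennreal_ofReal.indicator measurableSet_Icc),
          lintegral_add_left (measurable_const.indicator measurableSet_Icc),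
          lintegral_indicator measurableSet_Icc, lintegral_indicator measurableSet_Icc,
          lintegral_indicator measurableSet_Icc, setLIntegral_const, setLIntegral_const,
          Real.volume_Icc, Real.volume_Icc, one_mul, one_mul]
        congr 3 <;> ring
    _ ≤ ENNReal.ofReal (14 * h) + (ENNReal.ofReal h + ENNReal.ofReal h) :=
        add_le_add hGint le_rfl
    _ = ENNReal.ofReal (16 * h) := by
        rw [← ENNReal.ofReal_add hh hh, ← ENNReal.ofReal_add (by positivity) (by positivity)]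
        congr 1
        ring

theorem cp_mod {r : ℝ → ℂ} (hr : Measurable r) (hb : ∀ v ∈ Icc (-1 : ℝ) 1, ‖r v‖ ≤ 1)
    (hv : eVariationOn r (Icc (-1 : ℝ) 1) ≤ 1) (h : ℝ) :
    ∫⁻ v, ‖cp r (v + h) - cp r v‖ₑ ≤ ENNReal.ofReal (16 * |h|) := by
  rcases le_or_gt 0 h with hh | hh
  · rw [abs_of_nonneg hh]
    exact cp_mod_pos hr hb hv h hh
  · rw [abs_of_neg hh]
    refine le_trans (le_of_eq ?_) (cp_mod_pos hr hb hv (-h) (by linarith))
    rw [← lintegral_add_right_eq_self (fun v => ‖cp r (v + h) - cp r v‖ₑ) (-h)]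
    refine lintegral_congr fun v => ?_
    rw [neg_add_cancel_right, enorm_sub_rev]

/-- the family of compensated profiles -/
theorem BB_cp {f : ℝ × ℝ → ℂ} (hf : Measurable f)
    (hb : ∀ ξ ∈ Icc (-1 : ℝ) 1 ×ˢ Icc (-1 : ℝ) 1, ‖f ξ‖ ≤ 1)
    (hv : ∀ u ∈ Icc (-1 : ℝ) 1, eVariationOn (fun v => f (u, v)) (Icc (-1 : ℝ) 1) ≤ 1) :
    BB 16 (fun u v => (Icc (-1 : ℝ) 1).indicator (fun _ => (1 : ℂ)) u *
      cp (fun v => f (u, v)) v) where
  meas := by
    have h1 : Measurable fun p : ℝ × ℝ => (Icc (-1 : ℝ) 1).indicator (fun _ => (1 : ℂ)) p.1 :=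
      (measurable_const.indicator measurableSet_Icc).comp measurable_fst
    have h2 : Measurable fun p : ℝ × ℝ => cp (fun v => f (p.1, v)) p.2 := by
      have h3 : (fun p : ℝ × ℝ => cp (fun v => f (p.1, v)) p.2) =
          (Prod.snd ⁻¹' Icc (-1 : ℝ) 1).indicator (fun p : ℝ × ℝ => f p *
            ((Real.exp (Real.pi * (p.2 ^ 2 - 1)) : ℝ) : ℂ)) := by
        ext p
        unfold cp
        by_cases h : p.2 ∈ Icc (-1 : ℝ) 1
        · rw [indicator_of_mem h, indicator_of_mem (show p ∈ Prod.snd ⁻¹' Icc (-1 : ℝ) 1 from h)]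
        · rw [indicator_of_notMem h,
            indicator_of_notMem (show p ∉ Prod.snd ⁻¹' Icc (-1 : ℝ) 1 from h)]
      rw [h3]
      refine Measurable.indicator ?_ (measurable_snd measurableSet_Icc)
      exact hf.mul (by fun_prop)
    exact h1.mul h2
  bd := by
    intro u v
    by_cases hu : u ∈ Icc (-1 : ℝ) 1
    · rw [indicator_of_mem hu, one_mul]
      exact cp_norm (fun v hv' => hb (u, v) ⟨hu, hv'⟩) v
    · rw [indicator_of_notMem hu, zero_mul, norm_zero]
      exact zero_le_one
  supp := by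
    intro u v hv'
    unfold cp
    rw [indicator_of_notMem hv', mul_zero]
  var := by
    intro u h
    by_cases hu : u ∈ Icc (-1 : ℝ) 1
    · simp only [indicator_of_mem hu, one_mul]
      exact cp_mod (hf.comp (measurable_const.prodMk measurable_id))
        (fun v hv' => hb (u, v) ⟨hu, hv'⟩) (hv u hu) h
    · simp [indicator_of_notMem hu]

end Pool.Agent.T9h8.MS
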