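import Mathlib
import Pool.Agent.H728R3.SR.W
import Pool.Agent.T9h8.MS.Sum
import Pool.Agent.T9h8.MS.BVb
set_option autoImplicit false

/-!
# From the quadruple hypothesis to the extension operator
-/

namespace Pool.Agent.T9h8.MS

open MeasureTheory Set Complex
open scoped ENNReal NNReal ComplexConjugate
open Pool.Agent.W771.MD (qe qe_norm)

/-- the compensated profiles of `f` -/
noncomputable def be {m : ℕ} (f : Fin m → ℝ × ℝ → ℂ) (j : Fin m) (u v : ℝ) : ℂ :=
  (Icc (-1 : ℝ) 1).indicator (fun _ => (1 : ℂ)) u * cp (fun v => f j (u, v)) v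

/-- the modulated functions -/
noncomputable def gx {m : ℕ} (f : Fin m → ℝ × ℝ → ℂ) (c s : Fin m → ℝ → ℝ) (j : Fin m)
    (ξ : ℝ × ℝ) : ℂ :=
  (Icc (-1 : ℝ) 1 ×ˢ Icc (-1 : ℝ) 1).indicator (f j) ξ * ee (ξ.2 * c j ξ.1 + ξ.2 ^ 2 * s j ξ.1)

section

variable {m : ℕ} {c s : Fin m → ℝ → ℝ} (hc : ∀ j, Measurable (c j)) (hs : ∀ j, Measurable (s j))
  {f : Fin m → ℝ × ℝ → ℂ} (hf : ∀ j, Measurable (f j))
  (hb : ∀ j, ∀ ξ ∈ Icc (-1 : ℝ) 1 ×ˢ Icc (-1 : ℝ) 1, ‖f j ξ‖ ≤ 1)

include hc hs hf in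
theorem gx_meas (j : Fin m) : Measurable (gx f c s j) := by
  unfold gx
  refine ((hf j).indicator (measurableSet_Icc.prod measurableSet_Icc)).mul (ee_meas ?_)
  exact (measurable_snd.mul ((hc j).comp measurable_fst)).add
    ((measurable_snd.pow_const 2).mul ((hs j).comp measurable_fst))

include hb in
theorem gx_norm (j : Fin m) (ξ : ℝ × ℝ) : ‖gx f c s j ξ‖ ≤ 1 := by
  unfold gx
  rw [norm_mul, ee_norm, mul_one]
  by_cases h : ξ ∈ Icc (-1 : ℝ) 1 ×ˢ Icc (-1 : ℝ) 1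
  · rw [indicator_of_mem h]
    exact hb j ξ h
  · rw [indicator_of_notMem h, norm_zero]
    exact zero_le_one

/-- one factor -/
theorem aj_gx (j : Fin m) {u : ℝ} (hu : u ∈ Icc (-1 : ℝ) 1) (y t : ℝ) :
    Pool.Agent.H728R3.SR.aj (gx f c s) t u j y =
      ((Real.exp Real.pi : ℝ) : ℂ) * AA (be f j u) (y + c j u) (t + s j u) := by
  unfold Pool.Agent.H728R3.SR.aj Pool.Agent.H728R3.SR.e1 AA
  rw [← integral_const_mul, ← integral_indicator measurableSet_Icc]
  congr 1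
  ext v
  unfold be cp
  rw [indicator_of_mem hu, one_mul]
  by_cases hv : v ∈ Icc (-1 : ℝ) 1
  · rw [indicator_of_mem hv, indicator_of_mem hv, qe_eq]
    unfold gx gau
    beta_reduce
    rw [indicator_of_mem (show (u, v) ∈ Icc (-1 : ℝ) 1 ×ˢ Icc (-1 : ℝ) 1 from ⟨hu, hv⟩)]
    have e1 : ee (v * (y + c j u) + v ^ 2 * (t + s j u)) =
        ee (v * c j u + v ^ 2 * s j u) * cexp (2 * Real.pi * I * ((v * y + v ^ 2 * t : ℝ) : ℂ)) := by
      unfold ee
      rw [← Complex.exp_add]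
      congr 1
      push_cast
      ring
    have e2 : ((Real.exp Real.pi : ℝ) : ℂ) * (((Real.exp (Real.pi * (v ^ 2 - 1)) : ℝ) : ℂ) *
        ((Real.exp (-Real.pi * v ^ 2) : ℝ) : ℂ)) = 1 := by
      rw [← Complex.ofReal_mul, ← Complex.ofReal_mul, ← Real.exp_add, ← Real.exp_add]
      have : Real.pi + (Real.pi * (v ^ 2 - 1) + -Real.pi * v ^ 2) = 0 := by ring
      rw [this, Real.exp_zero, Complex.ofReal_one]
    rw [e1]
    calc f j (u, v) * ee (v * c j u + v ^ 2 * s j u) *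
          cexp (2 * Real.pi * I * ((v * y + v ^ 2 * t : ℝ) : ℂ))
        = (((Real.exp Real.pi : ℝ) : ℂ) * (((Real.exp (Real.pi * (v ^ 2 - 1)) : ℝ) : ℂ) *
        ((Real.exp (-Real.pi * v ^ 2) : ℝ) : ℂ))) * (f j (u, v) *
          ee (v * c j u + v ^ 2 * s j u) *
          cexp (2 * Real.pi * I * ((v * y + v ^ 2 * t : ℝ) : ℂ))) := by rw [e2, one_mul]
      _ = _ := by ring
  · rw [indicator_of_notMem hv, indicator_of_notMem hv]
    ring

include hc hs hf hb in
/-- the extension operator in terms of the packets -/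
theorem ext_VF (y : (Fin (m + 1) → ℝ) × ℝ) :
    Pool.Agent.H728R3.SR.ext (fun ξ => ∏ j : Fin m, gx f c s j (ξ 0, ξ j.succ)) y =
      ((Real.exp Real.pi : ℝ) : ℂ) ^ m *
        ∫ u, VF c s (Icc (-1 : ℝ) 1) (be f) u (fun j => y.1 j.succ, y.2) * ee (u * y.1 0) := by
  rw [Pool.Agent.H728R3.SR.ext_FFm (gx_meas hc hs hf) (gx_norm hb)]
  unfold Pool.Agent.H728R3.SR.FFm
  conv_lhs => unfold Pool.Agent.H728R3.SR.e1
  rw [← integral_const_mul, ← integral_indicator measurableSet_Icc]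
  congr 1
  ext u
  unfold VF
  by_cases hu : u ∈ Icc (-1 : ℝ) 1
  · rw [indicator_of_mem hu, indicator_of_mem hu, one_mul]
    beta_reduce
    rw [Finset.prod_congr rfl fun j _ => aj_gx (f := f) (c := c) (s := s) j hu (y.1 j.succ) y.2]
    rw [Finset.prod_mul_distrib, Finset.prod_const, Finset.card_univ, Fintype.card_fin]
    have e1 : cexp (2 * Real.pi * I * ((u * y.1 0 + u ^ 2 * y.2 : ℝ) : ℂ)) =
        ee (u ^ 2 * y.2) * ee (u * y.1 0) := by
      unfold ee
      rw [← Complex.exp_add]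
      congr 1
      push_cast
      ring
    rw [e1]
    ring
  · rw [indicator_of_notMem hu, indicator_of_notMem hu]
    ring

end

/-- splitting into pieces -/
theorem VF_pieces {m K : ℕ} {c s : Fin m → ℝ → ℝ} (hc : ∀ j, Measurable (c j))
    (hs : ∀ j, Measurable (s j)) {p : ℝ → Fin K} (hp : Measurable p)
    {κ : Fin m → ℝ → ℝ → ℂ} (hκ : ∀ j, Measurable (Function.uncurry (κ j)))
    (hκ1 : ∀ j u v, ‖κ j u v‖ ≤ 1) (x : XX m) :
    ‖∫ u, VF c s (Icc (-1 : ℝ) 1) κ u x.1 * ee (u * x.2)‖ₑ ≤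
      ∑ l : Fin K, ‖∫ u, VF c s (Icc (-1 : ℝ) 1 ∩ p ⁻¹' {l}) κ u x.1 * ee (u * x.2)‖ₑ := by
  have hSm : ∀ l, MeasurableSet (Icc (-1 : ℝ) 1 ∩ p ⁻¹' {l}) := fun l =>
    measurableSet_Icc.inter (hp (measurableSet_singleton l))
  have hm1 : ∀ l, Measurable fun u => VF c s (Icc (-1 : ℝ) 1 ∩ p ⁻¹' {l}) κ u x.1 *
      ee (u * x.2) := by
    intro l
    unfold VF
    have h3 : Measurable fun u : ℝ => ∏ j, AA (κ j u) (x.1.1 j + c j u) (x.1.2 + s j u) := by
      refine Finset.measurable_prod _ fun j _ => ?_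
      exact AA_meas (hκ j) (measurable_const.add (hc j)) (measurable_const.add (hs j))
    have h4 : Measurable fun u : ℝ =>
        (Icc (-1 : ℝ) 1 ∩ p ⁻¹' {l}).indicator (fun _ => (1 : ℂ)) u :=
      measurable_const.indicator (hSm l)
    exact (h4.mul ((ee_meas (by fun_prop)).mul h3)).mul (ee_meas (by fun_prop))
  have hint : ∀ l, Integrable fun u => VF c s (Icc (-1 : ℝ) 1 ∩ p ⁻¹' {l}) κ u x.1 *
      ee (u * x.2) := by
    intro l
    have hind : (fun u => VF c s (Icc (-1 : ℝ) 1 ∩ p ⁻¹' {l}) κ u x.1 * ee (u * x.2)) =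
        (Icc (-1 : ℝ) 1).indicator
        (fun u => VF c s (Icc (-1 : ℝ) 1 ∩ p ⁻¹' {l}) κ u x.1 * ee (u * x.2)) := by
      ext u
      by_cases h : u ∈ Icc (-1 : ℝ) 1
      · rw [indicator_of_mem h]
      · rw [indicator_of_notMem h]
        unfold VF
        rw [indicator_of_notMem (fun h' => h h'.1)]
        ring
    have := fin11
    rw [hind, integrable_indicator_iff measurableSet_Icc]
    refine (memLp_top_of_bound (hm1 l).aestronglyMeasurable 1
      (Filter.Eventually.of_forall fun u => ?_)).integrable le_top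
    unfold VF
    rw [norm_mul, norm_mul, norm_mul, ee_norm, ee_norm, mul_one, one_mul, norm_prod]
    exact mul_le_one₀ (ind_norm _ _) (by positivity)
      (Finset.prod_le_one (fun _ _ => norm_nonneg _) fun j _ => AA_norm (hκ1 j u) _ _)
  have e1 : (fun u => VF c s (Icc (-1 : ℝ) 1) κ u x.1 * ee (u * x.2)) =
      fun u => ∑ l : Fin K, VF c s (Icc (-1 : ℝ) 1 ∩ p ⁻¹' {l}) κ u x.1 * ee (u * x.2) := by
    ext u
    unfold VF
    rw [← Finset.sum_mul, ← Finset.sum_mul]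
    congr 2
    by_cases h : u ∈ Icc (-1 : ℝ) 1
    · rw [indicator_of_mem h, Finset.sum_eq_single (p u)]
      · rw [indicator_of_mem (show u ∈ Icc (-1 : ℝ) 1 ∩ p ⁻¹' {p u} from ⟨h, rfl⟩)]
      · intro l _ hl
        rw [indicator_of_notMem]
        intro h'
        exact hl h'.2.symm
      · intro h'
        exact absurd (Finset.mem_univ _) h'
    · rw [indicator_of_notMem h]
      symm
      refine Finset.sum_eq_zero fun l _ => ?_
      rw [indicator_of_notMem fun h' => h h'.1]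
  rw [e1, integral_finsetSum _ fun l _ => hint l]
  exact enorm_sum_le _ _

/-- the coordinates of space-time -/
theorem lint_XX {m : ℕ} (F : XX m → ℝ≥0∞) :
    ∫⁻ y : (Fin (m + 1) → ℝ) × ℝ, F ((fun j => y.1 j.succ, y.2), y.1 0) = ∫⁻ x : XX m, F x := by
  have h1 := (volume_preserving_piFinSuccAbove (fun _ : Fin (m + 1) => ℝ) 0).prod
    (MeasurePreserving.id (volume : Measure ℝ))
  have h2 : MeasurePreserving (MeasurableEquiv.prodAssoc (α := ℝ) (β := Fin m → ℝ) (γ := ℝ)) :=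
    volume_preserving_prodAssoc
  have h3 : MeasurePreserving (Prod.swap : ℝ × ((Fin m → ℝ) × ℝ) → XX m) volume volume :=
    Measure.measurePreserving_swap
  have h4 := h3.comp (h2.comp h1)
  have hemb : MeasurableEmbedding ((Prod.swap : ℝ × ((Fin m → ℝ) × ℝ) → XX m) ∘
      ((MeasurableEquiv.prodAssoc (α := ℝ) (β := Fin m → ℝ) (γ := ℝ)) ∘
        (Prod.map (MeasurableEquiv.piFinSuccAbove (fun _ : Fin (m + 1) => ℝ) 0) id))) := by
    refine (MeasurableEquiv.prodComm (α := ℝ) (β := (Fin m → ℝ) × ℝ)).measurableEmbedding.comp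
      ((MeasurableEquiv.measurableEmbedding _).comp ?_)
    exact (MeasurableEquiv.prodCongr (MeasurableEquiv.piFinSuccAbove (fun _ : Fin (m + 1) => ℝ) 0)
      (MeasurableEquiv.refl ℝ)).measurableEmbedding
  rw [← h4.lintegral_comp_emb hemb]
  refine lintegral_congr fun y => ?_
  congr 1

end Pool.Agent.T9h8.MS
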