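import Mathlib
import Pool.Agent.T9h8.MS.Wrap
set_option autoImplicit false

/-!
# From the quadruple hypothesis to the extension operator: the estimate
-/

namespace Pool.Agent.T9h8.MS

open MeasureTheory Set Complex
open scoped ENNReal NNReal ComplexConjugate

theorem ext_bd {n : ℕ} {g : (Fin n → ℝ) → ℂ} (hg : ∀ ξ, ‖g ξ‖ ≤ 1)
    (y : (Fin n → ℝ) × ℝ) : ‖Pool.Agent.H728R3.SR.ext g y‖ ≤ 2 ^ n := by
  unfold Pool.Agent.H728R3.SR.ext
  have hvol : volume (Icc (fun _ : Fin n => (-1 : ℝ)) (fun _ => 1)) = ENNReal.ofReal (2 ^ n) := by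
    rw [Real.volume_Icc_pi, Finset.prod_const, Finset.card_univ, Fintype.card_fin,
      ENNReal.ofReal_pow (by norm_num)]
    norm_num
  have h := norm_setIntegral_le_of_norm_le_const (μ := (volume : Measure (Fin n → ℝ)))
    (s := Icc (fun _ : Fin n => (-1 : ℝ)) (fun _ => 1)) (C := 1)
    (f := fun ξ => g ξ * cexp (2 * Real.pi * I *
      ((∑ j, ξ j * y.1 j + (∑ j, ξ j ^ 2) * y.2 : ℝ) : ℂ)))
    (by rw [hvol]; exact ENNReal.ofReal_lt_top) (fun ξ _ => by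
      have h1 := ee_norm (∑ j, ξ j * y.1 j + (∑ j, ξ j ^ 2) * y.2)
      unfold ee at h1
      rw [norm_mul, h1, mul_one]
      exact hg ξ)
  refine h.trans (le_of_eq ?_)
  rw [Measure.real, hvol, ENNReal.toReal_ofReal (by positivity), one_mul]

/-- **The wrapper.** -/
theorem wrap {m : ℕ} (hm : 1 ≤ m) {γ : ℝ} (hγ : γ < 1) {α : ℝ} (hα0 : 0 < α) {q : ℝ}
    (hq : 2 + 2 / (1 + m * α) < q) (CA : ℝ≥0) :
    ∃ C : ℝ≥0, ∀ (c s : Fin m → ℝ → ℝ), (∀ j, Measurable (c j)) → (∀ j, Measurable (s j)) →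
    ∀ (K : ℕ) (p : ℝ → Fin K), Measurable p →
    (∀ l, ∀ n : Fin m → ℕ × Bool, HM γ c s (fun j => lo (n j)) (fun j => hi (n j))
      (Icc (-1 : ℝ) 1 ∩ p ⁻¹' {l}) (CA * (2 : ℝ≥0∞) ^ (-(α * (sz n : ℝ))))) →
    ∀ f : Fin m → ℝ × ℝ → ℂ, (∀ j, Measurable (f j)) →
      (∀ j, ∀ ξ ∈ Icc (-1 : ℝ) 1 ×ˢ Icc (-1 : ℝ) 1, ‖f j ξ‖ ≤ 1) →
      (∀ j, ∀ u ∈ Icc (-1 : ℝ) 1, eVariationOn (fun v => f j (u, v)) (Icc (-1 : ℝ) 1) ≤ 1) →
      ∫⁻ y : (Fin (m + 1) → ℝ) × ℝ, ‖Pool.Agent.H728R3.SR.ext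
        (fun ξ => ∏ j : Fin m, gx f c s j (ξ 0, ξ j.succ)) y‖ₑ ^ q ≤ C * (K : ℝ≥0∞) ^ q := by
  have hm0 : (1 : ℝ) ≤ m := by exact_mod_cast hm
  have hμ : 0 < m * α := mul_pos (by linarith) hα0
  set r : ℝ := min q ((2 + 2 / (1 + m * α) + 4) / 2) with hr
  have h24 : 2 + 2 / (1 + m * α) < 4 := by
    have : 2 / (1 + m * α) < 2 := by
      rw [div_lt_iff₀ (by linarith)]
      linarith
    linarith
  have hr1 : 2 + 2 / (1 + m * α) < r := lt_min hq (by linarith)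
  have hr4 : r < 4 := lt_of_le_of_lt (min_le_right _ _) (by linarith)
  have hrq : r ≤ q := min_le_left _ _
  have hr2 : 2 < r := by
    have : 0 < 2 / (1 + m * α) := by positivity
    linarith
  have hr0 : 0 < r := by linarith
  have hα : 4 - r < m * α * (r - 2) := by
    have h1 : 2 / (1 + m * α) < r - 2 := by linarith
    rw [div_lt_iff₀ (by linarith)] at h1
    nlinarith
  obtain ⟨C, hC⟩ := total m hm γ hγ α 16 (by norm_num) r hr2 hr4 hα CA
  set E : ℝ≥0 := (Real.exp Real.pi).toNNReal ^ m with hE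
  refine ⟨((2 : ℝ≥0) ^ (m + 1)) ^ (q - r) * (E ^ r * C), ?_⟩
  intro c s hc hs K p hp hH f hf hb hv
  have hβ : ∀ j, BB 16 (be f j) := fun j => BB_cp (hf j) (hb j) (hv j)
  have hK1 : (1 : ℝ≥0∞) ≤ K := by
    have h1 : 0 < K := lt_of_le_of_lt (Nat.zero_le _) (p 0).2
    exact_mod_cast h1
  have hVm : ∀ S : Set ℝ, MeasurableSet S → Measurable fun x : XX m =>
      ‖∫ u, VF c s S (be f) u x.1 * ee (u * x.2)‖ₑ := by
    intro S hS
    have h1 : Measurable fun z : XX m × ℝ => VF c s S (be f) z.2 z.1.1 * ee (z.2 * z.1.2) := by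
      unfold VF
      have a1 : Measurable fun z : XX m × ℝ => S.indicator (fun _ => (1 : ℂ)) z.2 :=
        (measurable_const.indicator hS).comp measurable_snd
      have a2 : Measurable fun z : XX m × ℝ => ee (z.2 ^ 2 * z.1.1.2) := ee_meas (by fun_prop)
      have a3 : Measurable fun z : XX m × ℝ => ee (z.2 * z.1.2) := ee_meas (by fun_prop)
      refine (a1.mul (a2.mul (Finset.measurable_prod _ fun j _ => ?_))).mul a3
      have b1 : Measurable (Function.uncurry fun (z : XX m × ℝ) (v : ℝ) => be f j z.2 v) := by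
        have hp : Measurable fun w : (XX m × ℝ) × ℝ => (w.1.2, w.2) := by fun_prop
        have h := (hβ j).meas.comp hp
        exact h
      exact AA_meas b1
        (((measurable_pi_apply j).comp (measurable_fst.comp (measurable_fst.comp
          measurable_fst))).add ((hc j).comp measurable_snd))
        ((measurable_snd.comp (measurable_fst.comp measurable_fst)).add
          ((hs j).comp measurable_snd))
    exact h1.stronglyMeasurable.integral_prod_right.measurable.enorm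
  have hSm : ∀ l, MeasurableSet (Icc (-1 : ℝ) 1 ∩ p ⁻¹' {l}) := fun l =>
    measurableSet_Icc.inter (hp (measurableSet_singleton l))
  -- the bound with the exponent r
  have hmain : ∫⁻ y : (Fin (m + 1) → ℝ) × ℝ, ‖Pool.Agent.H728R3.SR.ext
        (fun ξ => ∏ j : Fin m, gx f c s j (ξ 0, ξ j.succ)) y‖ₑ ^ r ≤
      (E : ℝ≥0∞) ^ r * (C * (K : ℝ≥0∞) ^ r) := by
    have e1 : ∀ y : (Fin (m + 1) → ℝ) × ℝ, ‖Pool.Agent.H728R3.SR.ext
        (fun ξ => ∏ j : Fin m, gx f c s j (ξ 0, ξ j.succ)) y‖ₑ ^ r =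
        (fun x : XX m => (E : ℝ≥0∞) ^ r * ‖∫ u, VF c s (Icc (-1 : ℝ) 1) (be f) u x.1 *
          ee (u * x.2)‖ₑ ^ r) ((fun j => y.1 j.succ, y.2), y.1 0) := by
      intro y
      beta_reduce
      rw [ext_VF hc hs hf hb, enorm_mul, ENNReal.mul_rpow_of_nonneg _ _ hr0.le, enorm_pow,
        ← ofReal_norm, Complex.norm_real, Real.norm_of_nonneg (Real.exp_pos _).le]
      congr 2
    have e0 := lint_XX (fun x : XX m => (E : ℝ≥0∞) ^ r * ‖∫ u, VF c s (Icc (-1 : ℝ) 1) (be f) u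
      x.1 * ee (u * x.2)‖ₑ ^ r)
    rw [lintegral_congr e1]
    refine (le_of_eq e0).trans ?_
    have hEt : (E : ℝ≥0∞) ^ r ≠ ∞ := ENNReal.rpow_ne_top_of_nonneg hr0.le ENNReal.coe_ne_top
    rw [lintegral_const_mul' _ _ hEt]
    refine mul_le_mul_right ?_ _
    calc ∫⁻ x : XX m, ‖∫ u, VF c s (Icc (-1 : ℝ) 1) (be f) u x.1 * ee (u * x.2)‖ₑ ^ r
        ≤ ∫⁻ x : XX m, (K : ℝ≥0∞) ^ (r - 1) * ∑ l : Fin K,
          ‖∫ u, VF c s (Icc (-1 : ℝ) 1 ∩ p ⁻¹' {l}) (be f) u x.1 * ee (u * x.2)‖ₑ ^ r := by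
          refine lintegral_mono fun x => ?_
          refine (ENNReal.rpow_le_rpow (VF_pieces hc hs hp (fun j => (hβ j).meas)
            (fun j => (hβ j).bd) x) hr0.le).trans ?_
          have h := ENNReal.rpow_sum_le_const_mul_sum_rpow (s := Finset.univ)
            (f := fun l : Fin K => ‖∫ u, VF c s (Icc (-1 : ℝ) 1 ∩ p ⁻¹' {l}) (be f) u x.1 *
              ee (u * x.2)‖ₑ) (p := r) (by linarith)
          rw [Finset.card_univ, Fintype.card_fin] at h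
          exact h
      _ = (K : ℝ≥0∞) ^ (r - 1) * ∑ l : Fin K, ∫⁻ x : XX m,
          ‖∫ u, VF c s (Icc (-1 : ℝ) 1 ∩ p ⁻¹' {l}) (be f) u x.1 * ee (u * x.2)‖ₑ ^ r := by
          rw [lintegral_const_mul' _ _ (ENNReal.rpow_ne_top_of_nonneg (by linarith)
            (ENNReal.natCast_ne_top K)), lintegral_finsetSum _ fun l _ =>
            (hVm _ (hSm l)).pow_const r]
      _ ≤ (K : ℝ≥0∞) ^ (r - 1) * ∑ _l : Fin K, (C : ℝ≥0∞) := by
          refine mul_le_mul_right (Finset.sum_le_sum fun l _ => ?_) _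
          exact hC c s hc hs _ (hSm l) inter_subset_left (hH l) (be f) hβ
      _ = C * (K : ℝ≥0∞) ^ r := by
          rw [Finset.sum_const, Finset.card_univ, Fintype.card_fin, nsmul_eq_mul, ← mul_assoc]
          have e2 : (K : ℝ≥0∞) ^ (r - 1) * K = (K : ℝ≥0∞) ^ r := by
            conv_rhs => rw [show r = (r - 1) + 1 by ring]
            rw [ENNReal.rpow_add_of_nonneg _ _ (by linarith) (by norm_num), ENNReal.rpow_one]
          rw [e2, mul_comm]
  have hbd : ∀ y : (Fin (m + 1) → ℝ) × ℝ, ‖Pool.Agent.H728R3.SR.ext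
        (fun ξ => ∏ j : Fin m, gx f c s j (ξ 0, ξ j.succ)) y‖ₑ ≤ 2 ^ (m + 1) := by
    intro y
    have h1 := ext_bd (g := fun ξ : Fin (m + 1) → ℝ => ∏ j : Fin m, gx f c s j (ξ 0, ξ j.succ))
      (fun ξ => by
        rw [norm_prod]
        exact Finset.prod_le_one (fun _ _ => norm_nonneg _) fun j _ => gx_norm hb j _) y
    rw [← ofReal_norm]
    refine (ENNReal.ofReal_le_ofReal h1).trans (le_of_eq ?_)
    rw [ENNReal.ofReal_pow (by norm_num)]
    norm_num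
  calc ∫⁻ y : (Fin (m + 1) → ℝ) × ℝ, ‖Pool.Agent.H728R3.SR.ext
        (fun ξ => ∏ j : Fin m, gx f c s j (ξ 0, ξ j.succ)) y‖ₑ ^ q
      ≤ ∫⁻ y : (Fin (m + 1) → ℝ) × ℝ, ((2 : ℝ≥0∞) ^ (m + 1)) ^ (q - r) *
        ‖Pool.Agent.H728R3.SR.ext
        (fun ξ => ∏ j : Fin m, gx f c s j (ξ 0, ξ j.succ)) y‖ₑ ^ r := by
        refine lintegral_mono fun y => ?_
        beta_reduce
        conv_lhs => rw [show q = (q - r) + r by ring]
        rw [ENNReal.rpow_add_of_nonneg _ _ (by linarith) hr0.le]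
        exact mul_le_mul_left (ENNReal.rpow_le_rpow (hbd y) (by linarith)) _
    _ = ((2 : ℝ≥0∞) ^ (m + 1)) ^ (q - r) * ∫⁻ y : (Fin (m + 1) → ℝ) × ℝ,
        ‖Pool.Agent.H728R3.SR.ext
        (fun ξ => ∏ j : Fin m, gx f c s j (ξ 0, ξ j.succ)) y‖ₑ ^ r := by
        rw [lintegral_const_mul']
        exact ENNReal.rpow_ne_top_of_nonneg (by linarith) (by simp)
    _ ≤ ((2 : ℝ≥0∞) ^ (m + 1)) ^ (q - r) * ((E : ℝ≥0∞) ^ r * (C * (K : ℝ≥0∞) ^ r)) :=
        mul_le_mul_right hmain _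
    _ ≤ ((2 : ℝ≥0∞) ^ (m + 1)) ^ (q - r) * ((E : ℝ≥0∞) ^ r * (C * (K : ℝ≥0∞) ^ q)) := by
        gcongr
    _ = _ := by
        rw [ENNReal.coe_mul, ENNReal.coe_mul, ENNReal.coe_rpow_of_nonneg _ (by linarith),
          ENNReal.coe_rpow_of_nonneg _ hr0.le]
        push_cast
        ring

end Pool.Agent.T9h8.MS
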